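import Pool.Agent.Helper25.EV.Macro

/-!
# Chapter MP of MP_f84cd7_lc: transfinite processes and simulations (definitions, statements)
-/

set_option autoImplicit false

open Ordinal Order

namespace Pool.Agent.Helper91.MP

/-- A transfinite process: states with bits, the successor step, and the state at a limit stage
as a function of the limit superior of the bits. -/
structure Proc where
  S : Type
  I : Type
  bit : S → I → Bool
  next : S → S
  post : (I → Bool) → S

open Classical in
/-- limit superior of the bits `v γ i`, `γ < l` -/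
noncomputable def lsup {I : Type} (l : Ordinal.{0}) (v : Ordinal.{0} → I → Bool) : I → Bool :=
  fun i => decide (∀ β < l, ∃ γ, β ≤ γ ∧ γ < l ∧ v γ i = true)

open Classical in
/-- the run of a process from the state `a` -/
noncomputable def Proc.run (P : Proc) (a : P.S) (α : Ordinal.{0}) : P.S :=
  Ordinal.limitRecOn α a (fun _ s => P.next s) (fun l _ f => P.post fun i =>
    decide (∀ β < l, ∃ (γ : Ordinal.{0}) (h : γ < l), β ≤ γ ∧ P.bit (f γ h) i = true))

/-- constant bits -/
def Oks {I : Type} (cs : I → Option Bool) (v : I → Bool) : Prop := ∀ i b, cs i = some b → v i = b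

/-- `C` simulates `A`: `cor i j` says that the bit `i` of `A` is the bit `j` of `C`; the bits in
`fl` are `true` at some time in the simulation of each step of `A`; the bits in `cs` are constant
(for `C`); the step condition is required only for live states of `A`; all states of `C` before the
end satisfy `sf`. -/
structure Sim (A C : Proc) (cor : A.I → C.I → Prop) (fl : Set C.I) (cs : C.I → Option Bool)
    (live : A.S → Prop) (sf : C.S → Prop) (Rel : A.S → C.S → Prop) : Prop where
  bits : ∀ a c, Rel a c → ∀ i j, cor i j → C.bit c j = A.bit a i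
  step : ∀ a c, Rel a c → live a → ∃ β : Ordinal.{0}, 0 < β ∧ Rel (A.next a) (C.run c β) ∧
    (∀ γ < β, sf (C.run c γ) ∧ Oks cs (C.bit (C.run c γ)) ∧ ∀ i j, cor i j →
      (C.bit (C.run c γ) j = A.bit a i ∨ C.bit (C.run c γ) j = A.bit (A.next a) i)) ∧
    ∀ f ∈ fl, ∃ γ < β, C.bit (C.run c γ) f = true
  limit : ∀ (m : A.I → Bool) (m' : C.I → Bool), (∀ i j, cor i j → m' j = m i) →
    (∀ f ∈ fl, m' f = true) → Oks cs m' →
    ∃ β : Ordinal.{0}, Rel (A.post m) (C.run (C.post m') β) ∧
    ∀ γ < β, sf (C.run (C.post m') γ) ∧ Oks cs (C.bit (C.run (C.post m') γ)) ∧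
      ∀ i j, cor i j → (C.bit (C.run (C.post m') γ) j = m i ∨
        C.bit (C.run (C.post m') γ) j = A.bit (A.post m) i)

/-- a segment of the run of `C` from `c` to `c'`, all states before the end satisfying `G` -/
def Seg (C : Proc) (G : C.S → Prop) (c c' : C.S) : Prop :=
  ∃ β : Ordinal.{0}, C.run c β = c' ∧ ∀ γ < β, G (C.run c γ)

/-! ### Statements, level T -/

/-- T1: the equations of the run -/
def StT1 : Prop := ∀ (P : Proc) (a : P.S), P.run a 0 = a ∧
  (∀ α : Ordinal.{0}, P.run a (α + 1) = P.next (P.run a α)) ∧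
  (∀ l : Ordinal.{0}, IsSuccLimit l → P.run a l = P.post (lsup l fun γ => P.bit (P.run a γ)))

/-- T2: a run can be restarted -/
def StT2 : Prop := ∀ (P : Proc) (a : P.S) (α β : Ordinal.{0}),
  P.run a (α + β) = P.run (P.run a α) β

/-- T3: the simulation theorem -/
def StT3 : Prop := ∀ (A C : Proc) (cor : A.I → C.I → Prop) (fl : Set C.I)
  (cs : C.I → Option Bool) (live : A.S → Prop) (sf : C.S → Prop) (Rel : A.S → C.S → Prop),
  Sim A C cor fl cs live sf Rel → ∀ a c, Rel a c →
  (∀ α : Ordinal.{0}, (∀ α' < α, live (A.run a α')) →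
    ∃ β : Ordinal.{0}, α ≤ β ∧ Rel (A.run a α) (C.run c β) ∧
      ∀ γ < β, sf (C.run c γ) ∧ Oks cs (C.bit (C.run c γ))) ∧
  ((∀ α, live (A.run a α)) → ∀ i j, cor i j →
    (∃ α₀ : Ordinal.{0}, ∀ α, α₀ ≤ α → A.bit (A.run a α) i = true) →
    ∃ β₀ : Ordinal.{0}, ∀ γ, β₀ ≤ γ → C.bit (C.run c γ) j = true)

/-- T4: finite runs, and the limit after `ω` steps when every bit is eventually constant -/
def StT4 : Prop := ∀ (P : Proc) (a : P.S),
  (∀ n : ℕ, P.run a (n : Ordinal.{0}) = P.next^[n] a) ∧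
  (∀ v : P.I → Bool, (∀ i, ∃ n₀ : ℕ, ∀ n, n₀ ≤ n → P.bit (P.next^[n] a) i = v i) →
    P.run a ω = P.post v)

/-- T5: segments -/
def StT5 : Prop := ∀ (C : Proc) (G : C.S → Prop),
  (∀ c, Seg C G c c) ∧ (∀ c c' c'', Seg C G c c' → Seg C G c' c'' → Seg C G c c'') ∧
  (∀ c, G c → Seg C G c (C.next c)) ∧
  (∀ (c : C.S) (n : ℕ), (∀ k < n, G (C.next^[k] c)) → Seg C G c (C.next^[n] c)) ∧
  (∀ (c : C.S) (v : C.I → Bool), (∀ n : ℕ, G (C.next^[n] c)) →
    (∀ i, ∃ n₀ : ℕ, ∀ n, n₀ ≤ n → C.bit (C.next^[n] c) i = v i) → Seg C G c (C.post v)) ∧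
  (∀ (G' : C.S → Prop) (c c' : C.S), (∀ s, G s → G' s) → Seg C G c c' → Seg C G' c c')

end Pool.Agent.Helper91.MP
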