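import Pool.Agent.Helper91.MP.MachD

/-!
# Chapter MP: counter-array machines and their compilation to machines with tracks
(definitions, statements C)
-/

set_option autoImplicit false

open Ordinal Order

namespace Pool.Agent.Helper91.MP

/-- Instructions; labels are pairs (block, position). Counters are numbered, arrays are indexed by
`J`: an array is an infinite sequence of bits, accessed at the value of a counter. -/
inductive Ins (J Bk : Type) : Type
  | inc (j : ℕ) (l : Bk × ℕ) : Ins J Bk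
  | dec (j : ℕ) (l : Bk × ℕ) : Ins J Bk
  | tz (j : ℕ) (l0 l1 : Bk × ℕ) : Ins J Bk
  | rd (i : J) (j : ℕ) (l0 l1 : Bk × ℕ) : Ins J Bk
  | wr (i : J) (j : ℕ) (b : Bool) (l : Bk × ℕ) : Ins J Bk
  | jmp (l : Bk × ℕ) : Ins J Bk
  | hlt : Ins J Bk

structure Cam (J Bk : Type) where
  code : Bk → List (Ins J Bk)
  start : Bk × ℕ
  lim : Bk × ℕ

def Cam.ins {J Bk : Type} (P : Cam J Bk) (l : Bk × ℕ) : Ins J Bk := (P.code l.1).getD l.2 .hlt

/-- states: label and counters, memory -/
abbrev CSt (J Bk : Type) : Type := ((Bk × ℕ) × (ℕ → ℕ)) × (J × ℕ → Bool)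

def Cam.step {J Bk : Type} [DecidableEq J] (P : Cam J Bk) (s : CSt J Bk) : CSt J Bk :=
  match P.ins s.1.1 with
  | .inc j l => ((l, Function.update s.1.2 j (s.1.2 j + 1)), s.2)
  | .dec j l => ((l, Function.update s.1.2 j (s.1.2 j - 1)), s.2)
  | .tz j l0 l1 => ((if s.1.2 j = 0 then l0 else l1, s.1.2), s.2)
  | .rd i j l0 l1 => ((if s.2 (i, s.1.2 j) then l1 else l0, s.1.2), s.2)
  | .wr i j b l => ((l, s.1.2), Function.update s.2 (i, s.1.2 j) b)
  | .jmp l => ((l, s.1.2), s.2)
  | .hlt => s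

@[reducible] def Cam.proc {J Bk : Type} [DecidableEq J] (P : Cam J Bk) : Proc where
  S := CSt J Bk
  I := J × ℕ
  bit s := s.2
  next := P.step
  post m := ((P.lim, fun _ => 0), m)

/-- the instruction uses only the arrays in `U`, the blocks in `F` and the counters `< k` -/
def Ins.ok {J Bk : Type} (U : Finset J) (F : Finset Bk) (k : ℕ) : Ins J Bk → Prop
  | .inc j l => j < k ∧ l.1 ∈ F
  | .dec j l => j < k ∧ l.1 ∈ F
  | .tz j l0 l1 => j < k ∧ l0.1 ∈ F ∧ l1.1 ∈ F
  | .rd i j l0 l1 => i ∈ U ∧ j < k ∧ l0.1 ∈ F ∧ l1.1 ∈ F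
  | .wr i j _ l => i ∈ U ∧ j < k ∧ l.1 ∈ F
  | .jmp l => l.1 ∈ F
  | .hlt => True

structure Cam.Fn {J Bk : Type} (P : Cam J Bk) (U : Finset J) (F : Finset Bk) (k L : ℕ) : Prop where
  start : P.start.1 ∈ F
  lim : P.lim.1 ∈ F
  ins : ∀ b ∈ F, ∀ x ∈ P.code b, x.ok U F k
  len : ∀ b ∈ F, (P.code b).length ≤ L

/-! ### the machine -/

/-- tracks: arrays, counters (one mark at the value), left end, work flag, output -/
inductive Trk {J : Type} (U : Finset J) (k : ℕ) : Type
  | arr (i : {i // i ∈ U}) : Trk U k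
  | cnt (j : Fin k) : Trk U k
  | e : Trk U k
  | f : Trk U k
  | o : Trk U k

/-- states: start, limit, cleaning, act (search for the counter and perform the instruction),
mark (put a mark of the counter `j`), return -/
inductive CQ {Bk : Type} (F : Finset Bk) (k L : ℕ) : Type
  | s0 : CQ F k L
  | lm : CQ F k L
  | cl : CQ F k L
  | act (b : {b // b ∈ F}) (p : Fin (L + 1)) : CQ F k L
  | mk (b : {b // b ∈ F}) (p : Fin (L + 1)) (j : Fin k) : CQ F k L
  | rt (b : {b // b ∈ F}) (p : Fin (L + 1)) : CQ F k L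

open Classical in
/-- the state for a label; positions after the end are clamped -/
noncomputable def toQ {Bk : Type} {F : Finset Bk} {k L : ℕ}
    (st : {b // b ∈ F} → Fin (L + 1) → CQ F k L) (l : Bk × ℕ) : CQ F k L :=
  if h : l.1 ∈ F then st ⟨l.1, h⟩ ⟨min l.2 L, by omega⟩ else .s0

open Classical in
noncomputable def toMk {Bk : Type} {F : Finset Bk} {k L : ℕ} (j : ℕ) (l : Bk × ℕ) : CQ F k L :=
  if h : l.1 ∈ F ∧ j < k then .mk ⟨l.1, h.1⟩ ⟨min l.2 L, by omega⟩ ⟨j, h.2⟩ else .s0

section tracks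
variable {J : Type} {U : Finset J} {k : ℕ}

def getc (v : Trk U k → Bool) (j : ℕ) : Bool := if h : j < k then v (.cnt ⟨j, h⟩) else false

def setc (v : Trk U k → Bool) (j : ℕ) (b : Bool) : Trk U k → Bool
  | .cnt j' => if j'.1 = j then b else v (.cnt j')
  | t => v t

/-- set all counter tracks -/
def setall (v : Trk U k → Bool) (b : Bool) : Trk U k → Bool
  | .cnt _ => b
  | t => v t

open Classical in
noncomputable def geta (v : Trk U k → Bool) (i : J) : Bool := if h : i ∈ U then v (.arr ⟨i, h⟩) else false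

open Classical in
noncomputable def seta (v : Trk U k → Bool) (i : J) (b : Bool) : Trk U k → Bool
  | .arr i' => if i'.1 = i then b else v (.arr i')
  | t => v t

def sete (v : Trk U k → Bool) (b : Bool) : Trk U k → Bool
  | .e => b
  | t => v t

def setf (v : Trk U k → Bool) (b : Bool) : Trk U k → Bool
  | .f => b
  | t => v t

def seto (v : Trk U k → Bool) (b : Bool) : Trk U k → Bool
  | .o => b
  | t => v t

end tracks

/-- transitions -/
noncomputable def ctr {J Bk : Type} (P : Cam J Bk) (U : Finset J) (F : Finset Bk) (k L : ℕ) :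
    CQ F k L → (Trk U k → Bool) → (Trk U k → Bool) × Bool × Option (CQ F k L)
  | .s0, v => (seto (setf (sete (setall v true) true) true) true, false, some (toQ .act P.start))
  | .lm, v => if v .f then (setf (setall v false) false, true, some .cl)
      else (setf (setall v true) true, false, some (toQ .act P.lim))
  | .cl, v => (setall v false, true, some .cl)
  | .mk b p j, v => (setc v j.1 true, false, some (.rt b p))
  | .rt b p, v => if v .e then (v, false, some (.act b p)) else (v, false, some (.rt b p))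
  | .act b p, v =>
    match P.ins (b.1, p.1) with
    | .hlt => (seto v false, false, none)
    | .jmp l => (v, false, some (toQ .act l))
    | .inc j l => if getc v j then (setc v j false, true, some (toMk j l))
        else (v, true, some (.act b p))
    | .dec j l => if getc v j then
          (if v .e then (v, false, some (toQ .rt l)) else (setc v j false, false, some (toMk j l)))
        else (v, true, some (.act b p))
    | .tz j l0 l1 => if getc v j then (v, false, some (toQ .rt (if v .e then l0 else l1)))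
        else (v, true, some (.act b p))
    | .rd i j l0 l1 => if getc v j then (v, false, some (toQ .rt (if geta v i then l1 else l0)))
        else (v, true, some (.act b p))
    | .wr i j x l => if getc v j then (seta v i x, false, some (toQ .rt l))
        else (v, true, some (.act b p))

theorem finite_CQ {Bk : Type} (F : Finset Bk) (k L : ℕ) : Finite (CQ F k L) := by
  let f : CQ F k L → Fin 3 ⊕ ({b // b ∈ F} × Fin (L + 1)) ⊕ ({b // b ∈ F} × Fin (L + 1) × Fin k) ⊕
      ({b // b ∈ F} × Fin (L + 1)) := fun x => match x with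
    | .s0 => Sum.inl 0
    | .lm => Sum.inl 1
    | .cl => Sum.inl 2
    | .act b p => Sum.inr (Sum.inl (b, p))
    | .mk b p j => Sum.inr (Sum.inr (Sum.inl (b, p, j)))
    | .rt b p => Sum.inr (Sum.inr (Sum.inr (b, p)))
  refine Finite.of_injective f ?_
  intro x y h
  cases x <;> cases y <;> simp_all [f]

/-- positions after the end of a block are as the position `L` -/
theorem ins_clamp {J Bk : Type} {P : Cam J Bk} {U : Finset J} {F : Finset Bk} {k L : ℕ}
    (h : P.Fn U F k L) (l : Bk × ℕ) (hl : l.1 ∈ F) : P.ins (l.1, min l.2 L) = P.ins l := by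
  have h1 := h.len l.1 hl
  unfold Cam.ins
  simp only
  by_cases h2 : l.2 ≤ L
  · rw [min_eq_left h2]
  · rw [min_eq_right (by omega), List.getD_eq_default _ _ h1, List.getD_eq_default _ _ (by omega)]

theorem ins_ok {J Bk : Type} {P : Cam J Bk} {U : Finset J} {F : Finset Bk} {k L : ℕ}
    (h : P.Fn U F k L) (l : Bk × ℕ) (hl : l.1 ∈ F) : (P.ins l).ok U F k := by
  unfold Cam.ins
  by_cases h2 : l.2 < (P.code l.1).length
  · rw [List.getD_eq_getElem _ _ h2]
    exact h.ins l.1 hl _ (List.getElem_mem h2)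
  · rw [List.getD_eq_default _ _ (by omega)]
    trivial

theorem toQ_eq {J Bk : Type} {P : Cam J Bk} {U : Finset J} {F : Finset Bk} {k L : ℕ}
    (h : P.Fn U F k L) (l : Bk × ℕ) (hl : l.1 ∈ F) :
    ∃ p : Fin (L + 1), P.ins (l.1, p.1) = P.ins l ∧
      (∀ st : {b // b ∈ F} → Fin (L + 1) → CQ F k L, toQ st l = st ⟨l.1, hl⟩ p) ∧
      ∀ (j : ℕ) (hj : j < k), (toMk j l : CQ F k L) = .mk ⟨l.1, hl⟩ p ⟨j, hj⟩ :=
  ⟨⟨min l.2 L, by omega⟩, ins_clamp h l hl, fun st => by simp [toQ, hl],
    fun j hj => by simp [toMk, hl, hj]⟩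

@[reducible] noncomputable def Cam.mach {J Bk : Type} (P : Cam J Bk) (U : Finset J) (F : Finset Bk) (k L : ℕ) :
    Mach (Trk U k) where
  Q := CQ F k L
  fin := finite_CQ F k L
  start := .s0
  lim := .lm
  hne := by simp
  tr := ctr P U F k L

/-- corresponding states -/
def RelC {J Bk : Type} (P : Cam J Bk) (U : Finset J) (F : Finset Bk) (k L : ℕ) (a : CSt J Bk)
    (c : MSt (P.mach U F k L)) : Prop :=
  c.1 = (some (toQ .act a.1.1), 0) ∧ a.1.1.1 ∈ F ∧
  (∀ i (h : i ∈ U) n, c.2 (.arr ⟨i, h⟩, n) = a.2 (i, n)) ∧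
  (∀ (j : Fin k) n, c.2 (.cnt j, n) = decide (n = a.1.2 j.1)) ∧
  (∀ n, c.2 (.e, n) = decide (n = 0)) ∧ (∀ n, c.2 (.f, n) = decide (n = 0)) ∧ c.2 (.o, 0) = true

def corC {J : Type} (U : Finset J) (k : ℕ) (i : J × ℕ) (j : Trk U k × ℕ) : Prop :=
  ∃ h : i.1 ∈ U, j = (.arr ⟨i.1, h⟩, i.2)

/-- constant bits -/
def csC {J : Type} (U : Finset J) (k : ℕ) : Trk U k × ℕ → Option Bool
  | (.e, n) => some (decide (n = 0))
  | (.f, _ + 1) => some false
  | (.o, 0) => some true
  | _ => none

/-- C0: the first step -/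
def StC0 : Prop := ∀ (J Bk : Type) [DecidableEq J] (P : Cam J Bk) (U : Finset J) (F : Finset Bk)
  (k L : ℕ), P.Fn U F k L → ∀ (m : J × ℕ → Bool) (m' : Trk U k × ℕ → Bool),
  (∀ i (h : i ∈ U) n, m' (.arr ⟨i, h⟩, n) = m (i, n)) → (∀ j n, m' (.cnt j, n) = false) →
  (∀ n, m' (.e, n) = false) → (∀ n, m' (.f, n) = false) →
  RelC P U F k L ((P.start, fun _ => 0), m) ((P.mach U F k L).proc.next ((P.mach U F k L).ini m'))

/-- Ch: halting -/
def StCh : Prop := ∀ (J Bk : Type) [DecidableEq J] (P : Cam J Bk) (U : Finset J) (F : Finset Bk)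
  (k L : ℕ), P.Fn U F k L → ∀ a c, RelC P U F k L a c → P.ins a.1.1 = .hlt →
  c.1.1 ≠ none ∧ ((P.mach U F k L).proc.next c).1.1 = none ∧
    ((P.mach U F k L).proc.next c).2 (.o, 0) = false

/-- C1: the search: from cell `x` the head goes right to the cell `y` where the mark is -/
def StC1 : Prop := ∀ (J Bk : Type) [DecidableEq J] (P : Cam J Bk) (U : Finset J) (F : Finset Bk)
  (k L : ℕ) (b : {b // b ∈ F}) (p : Fin (L + 1)) (j : ℕ) (m : Trk U k × ℕ → Bool) (y : ℕ),
  ((∃ l, P.ins (b.1, p.1) = .inc j l) ∨ (∃ l, P.ins (b.1, p.1) = .dec j l) ∨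
    (∃ l0 l1, P.ins (b.1, p.1) = .tz j l0 l1) ∨ (∃ i l0 l1, P.ins (b.1, p.1) = .rd i j l0 l1) ∨
    ∃ i x l, P.ins (b.1, p.1) = .wr i j x l) →
  (∀ z < y, getc (fun t => m (t, z)) j = false) → ∀ x ≤ y,
  (P.mach U F k L).proc.next^[x] ((some (.act b p), 0), m) = ((some (.act b p), x), m)

/-- C2: the return -/
def StC2 : Prop := ∀ (J Bk : Type) [DecidableEq J] (P : Cam J Bk) (U : Finset J) (F : Finset Bk)
  (k L : ℕ) (b : {b // b ∈ F}) (p : Fin (L + 1)) (m : Trk U k × ℕ → Bool) (y : ℕ),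
  (∀ n, m (.e, n) = decide (n = 0)) →
  (∀ x ≤ y, (P.mach U F k L).proc.next^[x] ((some (.rt b p), y), m) = ((some (.rt b p), y - x), m)) ∧
  (P.mach U F k L).proc.next^[y + 1] ((some (.rt b p), y), m) = ((some (.act b p), 0), m)

/-- the step condition of the simulation for one state: after `n + 1` steps the next state; before,
the machine has not halted, the constant bits are constant, and the memory of the arrays is the
old or the new one -/
def StepC {J Bk : Type} [DecidableEq J] (P : Cam J Bk) (U : Finset J) (F : Finset Bk) (k L : ℕ)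
    (a : CSt J Bk) (c : MSt (P.mach U F k L)) : Prop :=
  ∃ n : ℕ, RelC P U F k L (P.proc.next a) ((P.mach U F k L).proc.next^[n + 1] c) ∧
    ∀ x ≤ n, ((P.mach U F k L).proc.next^[x] c).1.1 ≠ none ∧
      Oks (csC U k) ((P.mach U F k L).proc.next^[x] c).2 ∧
      ((∀ i (h : i ∈ U) z, ((P.mach U F k L).proc.next^[x] c).2 (.arr ⟨i, h⟩, z) = a.2 (i, z)) ∨
        ∀ i (h : i ∈ U) z,
          ((P.mach U F k L).proc.next^[x] c).2 (.arr ⟨i, h⟩, z) = (P.proc.next a).2 (i, z))

/-- C3: the step condition for `inc` -/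
def StC3 : Prop := ∀ (J Bk : Type) [DecidableEq J] (P : Cam J Bk) (U : Finset J) (F : Finset Bk)
  (k L : ℕ), P.Fn U F k L → ∀ a c, RelC P U F k L a c → (∃ j l, P.ins a.1.1 = .inc j l) →
  StepC P U F k L a c

/-- C4: the step condition for `dec` -/
def StC4 : Prop := ∀ (J Bk : Type) [DecidableEq J] (P : Cam J Bk) (U : Finset J) (F : Finset Bk)
  (k L : ℕ), P.Fn U F k L → ∀ a c, RelC P U F k L a c → (∃ j l, P.ins a.1.1 = .dec j l) →
  StepC P U F k L a c

/-- C5: the step condition for `tz`, `jmp` -/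
def StC5 : Prop := ∀ (J Bk : Type) [DecidableEq J] (P : Cam J Bk) (U : Finset J) (F : Finset Bk)
  (k L : ℕ), P.Fn U F k L → ∀ a c, RelC P U F k L a c →
  ((∃ j l0 l1, P.ins a.1.1 = .tz j l0 l1) ∨ ∃ l, P.ins a.1.1 = .jmp l) → StepC P U F k L a c

/-- C6: the step condition for `rd` -/
def StC6 : Prop := ∀ (J Bk : Type) [DecidableEq J] (P : Cam J Bk) (U : Finset J) (F : Finset Bk)
  (k L : ℕ), P.Fn U F k L → ∀ a c, RelC P U F k L a c → (∃ i j l0 l1, P.ins a.1.1 = .rd i j l0 l1) →
  StepC P U F k L a c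

/-- C7: the step condition for `wr` -/
def StC7 : Prop := ∀ (J Bk : Type) [DecidableEq J] (P : Cam J Bk) (U : Finset J) (F : Finset Bk)
  (k L : ℕ), P.Fn U F k L → ∀ a c, RelC P U F k L a c → (∃ i j x l, P.ins a.1.1 = .wr i j x l) →
  StepC P U F k L a c

/-- C8: the cleaning sweep after a limit -/
def StC8 : Prop := ∀ (J Bk : Type) [DecidableEq J] (P : Cam J Bk) (U : Finset J) (F : Finset Bk)
  (k L : ℕ), P.Fn U F k L → ∀ (m : J × ℕ → Bool) (m' : Trk U k × ℕ → Bool),
  (∀ i (h : i ∈ U) n, m' (.arr ⟨i, h⟩, n) = m (i, n)) → m' (.f, 0) = true → Oks (csC U k) m' →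
  ∃ β : Ordinal.{0}, RelC P U F k L ((P.lim, fun _ => 0), m)
    ((P.mach U F k L).proc.run ((P.mach U F k L).proc.post m') β) ∧
    ∀ γ < β, ((P.mach U F k L).proc.run ((P.mach U F k L).proc.post m') γ).1.1 ≠ none ∧
      Oks (csC U k) ((P.mach U F k L).proc.run ((P.mach U F k L).proc.post m') γ).2 ∧
      ∀ i (h : i ∈ U) n,
        ((P.mach U F k L).proc.run ((P.mach U F k L).proc.post m') γ).2 (.arr ⟨i, h⟩, n) = m (i, n)

/-- C: the simulation -/
def StC : Prop := ∀ (J Bk : Type) [DecidableEq J] (P : Cam J Bk) (U : Finset J) (F : Finset Bk)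
  (k L : ℕ), P.Fn U F k L →
  Sim P.proc (P.mach U F k L).proc (corC U k) {(.f, 0)} (csC U k) (fun a => P.ins a.1.1 ≠ .hlt)
    (fun c => c.1.1 ≠ none) (RelC P U F k L)

end Pool.Agent.Helper91.MP
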