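import Pool.Agent.Helper91.MP.CamD

/-!
# Chapter MP: structured commands on counters and arrays (definitions, statements K, R)
-/

set_option autoImplicit false

open Ordinal Order

namespace Pool.Agent.Helper91.MP

/-- structured commands -/
inductive Com (J : Type) : Type
  | skip : Com J
  | inc (j : ℕ) : Com J
  | dec (j : ℕ) : Com J
  | wr (i : J) (j : ℕ) (b : Bool) : Com J
  | seq (c d : Com J) : Com J
  | loop (j : ℕ) (c : Com J) : Com J
  | ifz (j : ℕ) (c d : Com J) : Com J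
  | ifa (i : J) (j : ℕ) (c d : Com J) : Com J

/-- states of commands: counters, memory -/
abbrev RSt (J : Type) : Type := (ℕ → ℕ) × (J × ℕ → Bool)

/-- big-step semantics; all memories after a `wr` satisfy `P`. `loop j c`: while counter `j` is not
zero do `c`; `ifz j c d`: if counter `j` is zero then `c` else `d`; `ifa i j c d`: if the bit of the
array `i` at counter `j` is true then `c` else `d` -/
inductive Ev {J : Type} [DecidableEq J] (P : (J × ℕ → Bool) → Prop) :
    Com J → RSt J → RSt J → Prop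
  | skip (s : RSt J) : Ev P .skip s s
  | inc (j : ℕ) (s : RSt J) : Ev P (.inc j) s (Function.update s.1 j (s.1 j + 1), s.2)
  | dec (j : ℕ) (s : RSt J) : Ev P (.dec j) s (Function.update s.1 j (s.1 j - 1), s.2)
  | wr (i : J) (j : ℕ) (b : Bool) (s : RSt J) (h : P (Function.update s.2 (i, s.1 j) b)) :
      Ev P (.wr i j b) s (s.1, Function.update s.2 (i, s.1 j) b)
  | seq {c d : Com J} {s s' s'' : RSt J} (h : Ev P c s s') (h' : Ev P d s' s'') :
      Ev P (.seq c d) s s''
  | loop0 {j : ℕ} {c : Com J} {s : RSt J} (h : s.1 j = 0) : Ev P (.loop j c) s s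
  | loop1 {j : ℕ} {c : Com J} {s s' s'' : RSt J} (h : s.1 j ≠ 0) (h' : Ev P c s s')
      (h'' : Ev P (.loop j c) s' s'') : Ev P (.loop j c) s s''
  | ifz0 {j : ℕ} {c d : Com J} {s s' : RSt J} (h : s.1 j = 0) (h' : Ev P c s s') :
      Ev P (.ifz j c d) s s'
  | ifz1 {j : ℕ} {c d : Com J} {s s' : RSt J} (h : s.1 j ≠ 0) (h' : Ev P d s s') :
      Ev P (.ifz j c d) s s'
  | ifaT {i : J} {j : ℕ} {c d : Com J} {s s' : RSt J} (h : s.2 (i, s.1 j) = true)
      (h' : Ev P c s s') : Ev P (.ifa i j c d) s s'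
  | ifaF {i : J} {j : ℕ} {c d : Com J} {s s' : RSt J} (h : s.2 (i, s.1 j) = false)
      (h' : Ev P d s s') : Ev P (.ifa i j c d) s s'

/-- length of the code -/
def Com.len {J : Type} : Com J → ℕ
  | .skip => 0
  | .inc _ => 1
  | .dec _ => 1
  | .wr _ _ _ => 1
  | .seq c d => c.len + d.len
  | .loop _ c => c.len + 2
  | .ifz _ c d => c.len + d.len + 2
  | .ifa _ _ c d => c.len + d.len + 2

/-- compilation to instructions of the block `b`, at position `o` -/
def comp {J Bk : Type} (b : Bk) : Com J → ℕ → List (Ins J Bk)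
  | .skip, _ => []
  | .inc j, o => [.inc j (b, o + 1)]
  | .dec j, o => [.dec j (b, o + 1)]
  | .wr i j x, o => [.wr i j x (b, o + 1)]
  | .seq c d, o => comp b c o ++ comp b d (o + c.len)
  | .loop j c, o => [.tz j (b, o + c.len + 2) (b, o + 1)] ++ comp b c (o + 1) ++ [.jmp (b, o)]
  | .ifz j c d, o => [.tz j (b, o + 1) (b, o + c.len + 2)] ++ comp b c (o + 1) ++
      [.jmp (b, o + c.len + d.len + 2)] ++ comp b d (o + c.len + 2)
  | .ifa i j c d, o => [.rd i j (b, o + c.len + 2) (b, o + 1)] ++ comp b c (o + 1) ++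
      [.jmp (b, o + c.len + d.len + 2)] ++ comp b d (o + c.len + 2)

/-- all counters are `< k` -/
def Com.regs {J : Type} (k : ℕ) : Com J → Prop
  | .skip => True
  | .inc j => j < k
  | .dec j => j < k
  | .wr _ j _ => j < k
  | .seq c d => c.regs k ∧ d.regs k
  | .loop j c => j < k ∧ c.regs k
  | .ifz j c d => j < k ∧ c.regs k ∧ d.regs k
  | .ifa _ j c d => j < k ∧ c.regs k ∧ d.regs k

/-- all arrays are in `U` -/
def Com.arrs {J : Type} (U : Set J) : Com J → Prop
  | .skip => True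
  | .inc _ => True
  | .dec _ => True
  | .wr i _ _ => i ∈ U
  | .seq c d => c.arrs U ∧ d.arrs U
  | .loop _ c => c.arrs U
  | .ifz _ c d => c.arrs U ∧ d.arrs U
  | .ifa i _ c d => i ∈ U ∧ c.arrs U ∧ d.arrs U

theorem Com.regs_mono {J : Type} {k k' : ℕ} (h : k ≤ k') : ∀ c : Com J, c.regs k → c.regs k'
  | .skip, _ => trivial
  | .inc _, h' => lt_of_lt_of_le h' h
  | .dec _, h' => lt_of_lt_of_le h' h
  | .wr _ _ _, h' => lt_of_lt_of_le h' h
  | .seq c d, h' => ⟨c.regs_mono h h'.1, d.regs_mono h h'.2⟩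
  | .loop _ c, h' => ⟨lt_of_lt_of_le h'.1 h, c.regs_mono h h'.2⟩
  | .ifz _ c d, h' => ⟨lt_of_lt_of_le h'.1 h, c.regs_mono h h'.2.1, d.regs_mono h h'.2.2⟩
  | .ifa _ _ c d, h' => ⟨lt_of_lt_of_le h'.1 h, c.regs_mono h h'.2.1, d.regs_mono h h'.2.2⟩

theorem Com.arrs_mono {J : Type} {U V : Set J} (h : U ⊆ V) : ∀ c : Com J, c.arrs U → c.arrs V
  | .skip, _ => trivial
  | .inc _, _ => trivial
  | .dec _, _ => trivial
  | .wr _ _ _, h' => h h'
  | .seq c d, h' => ⟨c.arrs_mono h h'.1, d.arrs_mono h h'.2⟩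
  | .loop _ c, h' => c.arrs_mono h h'
  | .ifz _ c d, h' => ⟨c.arrs_mono h h'.1, d.arrs_mono h h'.2⟩
  | .ifa _ _ c d, h' => ⟨h h'.1, c.arrs_mono h h'.2.1, d.arrs_mono h h'.2.2⟩

/-- the list `l` is the code of the block `b` of `P` from position `o` on -/
def CodeAt {J Bk : Type} (P : Cam J Bk) (b : Bk) (o : ℕ) (l : List (Ins J Bk)) : Prop :=
  ∀ (i : ℕ) (h : i < l.length), P.ins (b, o + i) = l[i]

/-- K1: correctness of the compilation -/
def StK1 : Prop := ∀ (J Bk : Type) [DecidableEq J] (P : Cam J Bk) (b : Bk)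
  (Q : (J × ℕ → Bool) → Prop) (c : Com J) (o : ℕ) (s s' : RSt J), CodeAt P b o (comp b c o) →
  Ev Q c s s' → Q s.2 →
  ∃ n : ℕ, P.proc.next^[n] (((b, o), s.1), s.2) = (((b, o + c.len), s'.1), s'.2) ∧
    (∀ x ≤ n, Q (P.proc.next^[x] (((b, o), s.1), s.2)).2) ∧
    ∀ x < n, P.ins (P.proc.next^[x] (((b, o), s.1), s.2)).1.1 ≠ .hlt

/-- K2: length of the code, instructions of the code -/
def StK2 : Prop := ∀ (J Bk : Type) (b : Bk) (c : Com J) (o : ℕ),
  (comp b c o : List (Ins J Bk)).length = c.len ∧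
  ∀ (U : Finset J) (F : Finset Bk) (k : ℕ), b ∈ F → c.regs k → c.arrs (U : Set J) →
    ∀ x ∈ (comp b c o : List (Ins J Bk)), x.ok U F k

/-- K3: determinism and monotonicity -/
def StK3 : Prop := ∀ (J : Type) [DecidableEq J] (P Q : (J × ℕ → Bool) → Prop),
  (∀ m, P m → Q m) → ∀ c s s', Ev P c s s' → Ev Q c s s'

/-! ### programs for primitive recursive functions -/

/-- The command `c` computes `f` from the counters `a i` (preserved) in the counter `o` (zero
before), with auxiliary counters in `[z, z + w)` which are zero before and after. All other counters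
and the memory are unchanged. -/
def Cmp {J : Type} [DecidableEq J] {n : ℕ} (f : List.Vector ℕ n → ℕ) (a : Fin n → ℕ) (o z w : ℕ)
    (c : Com J) : Prop :=
  c.regs (z + w) ∧ c.arrs ∅ ∧ ∀ (P : (J × ℕ → Bool) → Prop) (r : ℕ → ℕ) (m : J × ℕ → Bool),
    r o = 0 → (∀ j, z ≤ j → r j = 0) →
    Ev P c (r, m) (Function.update r o (f (List.Vector.ofFn fun i => r (a i))), m)

/-- `f` is computable by commands, for all choices of the counters -/
def Cmpb (J : Type) [DecidableEq J] {n : ℕ} (f : List.Vector ℕ n → ℕ) : Prop :=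
  ∃ w : ℕ, ∀ (a : Fin n → ℕ) (o z : ℕ), (∀ i, a i < z) → (∀ i, a i ≠ o) → o < z →
    ∃ c : Com J, Cmp f a o z w c

/-- R1: loops. `s i` is the state before the `i`-th execution of the body -/
def StR1 : Prop := ∀ (J : Type) [DecidableEq J] (P : (J × ℕ → Bool) → Prop) (j : ℕ) (c : Com J)
  (n : ℕ) (s : ℕ → RSt J), (∀ i < n, (s i).1 j ≠ 0) → (s n).1 j = 0 →
  (∀ i < n, Ev P c (s i) (s (i + 1))) → Ev P (.loop j c) (s 0) (s n)

/-- R2: clearing a counter; adding the counter `a` to the counter `o` with the auxiliary counter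
`z` (zero before and after); moving the counter `a` to `o` (adding) -/
def StR2 : Prop := ∀ (J : Type) [DecidableEq J] (P : (J × ℕ → Bool) → Prop) (m : J × ℕ → Bool),
  (∀ (a : ℕ) (r : ℕ → ℕ), Ev P (.loop a (.dec a)) (r, m) (Function.update r a 0, m)) ∧
  (∀ (a o : ℕ) (r : ℕ → ℕ), a ≠ o → Ev P (.loop a (.seq (.dec a) (.inc o))) (r, m)
    (Function.update (Function.update r o (r o + r a)) a 0, m)) ∧
  (∀ (a o z : ℕ) (r : ℕ → ℕ), a ≠ o → a ≠ z → o ≠ z → r z = 0 →
    Ev P (.seq (.loop a (.seq (.dec a) (.seq (.inc o) (.inc z))))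
      (.loop z (.seq (.dec z) (.inc a)))) (r, m) (Function.update r o (r o + r a), m))

/-- R3: zero, successor, projections -/
def StR3 : Prop := ∀ (J : Type) [DecidableEq J],
  Cmpb J (fun _ : List.Vector ℕ 0 => 0) ∧ Cmpb J (fun v : List.Vector ℕ 1 => v.head + 1) ∧
  ∀ (n : ℕ) (i : Fin n), Cmpb J (fun v : List.Vector ℕ n => v.get i)

/-- R4: composition -/
def StR4 : Prop := ∀ (J : Type) [DecidableEq J] (m n : ℕ) (f : List.Vector ℕ n → ℕ)
  (g : Fin n → List.Vector ℕ m → ℕ), Cmpb J f → (∀ i, Cmpb J (g i)) →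
  Cmpb J (fun a => f (List.Vector.ofFn fun i => g i a))

/-- R5: primitive recursion -/
def StR5 : Prop := ∀ (J : Type) [DecidableEq J] (n : ℕ) (f : List.Vector ℕ n → ℕ)
  (g : List.Vector ℕ (n + 2) → ℕ), Cmpb J f → Cmpb J g →
  Cmpb J (fun v : List.Vector ℕ (n + 1) =>
    v.head.rec (f v.tail) fun y IH => g (y ::ᵥ IH ::ᵥ v.tail))

/-- R6: unary primitive recursive functions: the counter `1` gets the value of `f` at the
counter `0`; counters `≥ 1` are zero before, counters `≥ 2` after. -/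
def StR6 : Prop := ∀ (J : Type) [DecidableEq J] (f : ℕ → ℕ), Primrec f →
  ∃ (c : Com J) (k : ℕ), c.regs k ∧ c.arrs ∅ ∧ ∀ (P : (J × ℕ → Bool) → Prop) (r : ℕ → ℕ)
    (m : J × ℕ → Bool), (∀ j, 1 ≤ j → r j = 0) → Ev P c (r, m) (Function.update r 1 (f (r 0)), m)

end Pool.Agent.Helper91.MP
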