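import Pool.Agent.Helper91.MP.CamD

set_option autoImplicit false

open Ordinal Order

namespace Pool.Agent.Helper91.MP

/-- one step -/
theorem stepGen {J Bk : Type} (P : Cam J Bk) (U : Finset J) (F : Finset Bk)
    (k L : ℕ) (q : CQ F k L) (m : Trk U k × ℕ → Bool) (z : ℕ) (v : Trk U k → Bool) (d : Bool)
    (o : Option (CQ F k L))
    (e : ctr P U F k L q (fun t => m (t, z)) = (v, d, o)) :
    (P.mach U F k L).proc.next ((some q, z), m) =
      ((o, if d then z + 1 else z - 1), fun i => if i.2 = z then v i.1 else m i) := by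
  change ((((ctr P U F k L q (fun t => m (t, z))).2.2 : Option (CQ F k L)),
    if (ctr P U F k L q (fun t => m (t, z))).2.1 then z + 1 else z - 1),
    fun i : Trk U k × ℕ => if i.2 = z then (ctr P U F k L q (fun t => m (t, z))).1 i.1
      else m i) = _
  rw [e]

/-- search, one step, return -/
theorem genC (hC2 : StC2) {J Bk : Type} [DecidableEq J] (P : Cam J Bk) (U : Finset J)
    (F : Finset Bk) (k L : ℕ) (b b' : {b // b ∈ F}) (p p' : Fin (L + 1))
    (m m' : Trk U k × ℕ → Bool) (y h : ℕ) (c : MSt (P.mach U F k L))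
    (h1 : ∀ x ≤ y, (P.mach U F k L).proc.next^[x] c = ((some (.act b p), x), m))
    (h2 : (P.mach U F k L).proc.next ((some (.act b p), y), m) = ((some (.rt b' p'), h), m'))
    (h3 : ∀ n, m' (.e, n) = decide (n = 0)) :
    (P.mach U F k L).proc.next^[(y + 1 + h) + 1] c = ((some (.act b' p'), 0), m') ∧
    ∀ x ≤ y + 1 + h, ∃ (q : CQ F k L) (z : ℕ),
      (P.mach U F k L).proc.next^[x] c = ((some q, z), m) ∨
      (P.mach U F k L).proc.next^[x] c = ((some q, z), m') := by
  have h4 : (P.mach U F k L).proc.next^[y + 1] c = ((some (.rt b' p'), h), m') := by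
    rw [Function.iterate_succ_apply', h1 y le_rfl, h2]
  obtain ⟨h5, h6⟩ := hC2 J Bk P U F k L b' p' m' h h3
  constructor
  · have e : (y + 1 + h) + 1 = (h + 1) + (y + 1) := by omega
    rw [e, Function.iterate_add_apply, h4, h6]
  · intro x hx
    by_cases hxy : x ≤ y
    · exact ⟨_, _, Or.inl (h1 x hxy)⟩
    · obtain ⟨d, rfl⟩ : ∃ d, x = d + (y + 1) := ⟨x - (y + 1), by omega⟩
      have h7 : (P.mach U F k L).proc.next^[d + (y + 1)] c = ((some (.rt b' p'), h - d), m') := by
        rw [Function.iterate_add_apply, h4]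
        exact h5 d (by omega)
      exact ⟨_, _, Or.inr h7⟩

end Pool.Agent.Helper91.MP
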