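import Pool.Agent.Helper91.MP.OpmD

/-!
# Chapter MP, module B1: bodies of the operators `cst` and `nand`
-/

set_option autoImplicit false

namespace Pool.Agent.Helper91.MP

/-- a write at the counter `0` -/
theorem B1_wr {J : Type} [DecidableEq J] (i : J) (b : Bool) (r : ℕ → ℕ) (m m' : J × ℕ → Bool)
    (h : m' = Function.update m (i, r 0) b) : Ev (Btw m m') (.wr i 0 b) (r, m) (r, m') := by
  subst h
  exact Ev.wr i 0 b (r, m) (fun _ => Or.inr rfl)

/-- module B1 -/
theorem pf_B1 : StB1 := by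
  intro Lb _ B g
  refine ⟨?_, ?_⟩
  · rintro t b s r m rfl -
    exact B1_wr _ _ _ _ _ rfl
  · rintro t u v s r m rfl -
    have e : eff B (.nand t u v) (r 0) m =
        Function.update m (.arr t, r 0) (!(m (.arr u, r 0) && m (.arr v, r 0))) := rfl
    show Ev _ (.ifa (.arr u) 0 (.ifa (.arr v) 0 (.wr (.arr t) 0 false) (.wr (.arr t) 0 true))
      (.wr (.arr t) 0 true)) (r, m) (r, eff B (.nand t u v) (r 0) m)
    rcases hu : m (.arr u, r 0) with _ | _
    · refine Ev.ifaF hu (B1_wr _ _ _ _ _ ?_)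
      rw [e, hu]
      rfl
    · rcases hv : m (.arr v, r 0) with _ | _
      · refine Ev.ifaT hu (Ev.ifaF hv (B1_wr _ _ _ _ _ ?_))
        rw [e, hu, hv]
        rfl
      · refine Ev.ifaT hu (Ev.ifaT hv (B1_wr _ _ _ _ _ ?_))
        rw [e, hu, hv]
        rfl

end Pool.Agent.Helper91.MP
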