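import Pool.Agent.Helper91.MP.OpmD

/-!
# Chapter MP, module B2: bodies of `prim`, `sub`, `ex`
-/

set_option autoImplicit false

open Ordinal Order

namespace Pool.Agent.Helper91.MP

theorem clear_B2 (hR2 : StR2) {Lb : Type} [DecidableEq Lb] (P : (JJ Lb × ℕ → Bool) → Prop)
    (r : ℕ → ℕ) (v : ℕ) (m : JJ Lb × ℕ → Bool) (h1 : r 1 = 0) :
    Ev P (.loop 1 (.dec 1)) (Function.update r 1 v, m) (r, m) := by
  have h := (hR2 (JJ Lb) P m).1 1 (Function.update r 1 v)
  have h2 : Function.update (Function.update r 1 v) 1 0 = r := by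
    rw [Function.update_idem, ← h1, Function.update_eq_self]
  rwa [h2] at h

theorem pf_B2 : StR2 → StB2 := by
  intro hR2 Lb _ B g hg
  refine ⟨?_, ?_, ?_⟩
  · intro t f hf s r m hs hr
    obtain ⟨-, -, h3⟩ := hg f hf
    have h4 := h3 (Btw m (eff B (.prim t f) s m)) r m hr
    rw [hs] at h4
    refine Ev.seq h4 (Ev.seq (s' := (Function.update r 1 (f s), eff B (.prim t f) s m)) ?_
      (clear_B2 hR2 _ r (f s) _ (hr 1 le_rfl)))
    by_cases h : f s = 0
    · refine Ev.ifz0 (by simp [h]) ?_
      have h5 : eff B (.prim t f) s m = Function.update m (.arr t, (Function.update r 1 (f s)) 0) false := by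
        simp [eff, h, hs]
      have h6 := Ev.wr (P := Btw m (eff B (.prim t f) s m)) (JJ.arr t) 0 false
        (Function.update r 1 (f s), m) (by rw [h5]; exact fun i => Or.inr rfl)
      rwa [← h5] at h6
    · refine Ev.ifz1 (by simp [h]) ?_
      have h5 : eff B (.prim t f) s m = Function.update m (.arr t, (Function.update r 1 (f s)) 0) true := by
        simp [eff, h, hs]
      have h6 := Ev.wr (P := Btw m (eff B (.prim t f) s m)) (JJ.arr t) 0 true
        (Function.update r 1 (f s), m) (by rw [h5]; exact fun i => Or.inr rfl)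
      rwa [← h5] at h6
  · intro t u f hf s r m hs hr
    obtain ⟨-, -, h3⟩ := hg f hf
    have h4 := h3 (Btw m (eff B (.sub t u f) s m)) r m hr
    rw [hs] at h4
    refine Ev.seq h4 (Ev.seq (s' := (Function.update r 1 (f s), eff B (.sub t u f) s m)) ?_
      (clear_B2 hR2 _ r (f s) _ (hr 1 le_rfl)))
    by_cases h : m (.arr u, f s) = true
    · refine Ev.ifaT (by simpa using h) ?_
      have h5 : eff B (.sub t u f) s m = Function.update m (.arr t, (Function.update r 1 (f s)) 0) true := by
        simp [eff, h, hs]
      have h6 := Ev.wr (P := Btw m (eff B (.sub t u f) s m)) (JJ.arr t) 0 true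
        (Function.update r 1 (f s), m) (by rw [h5]; exact fun i => Or.inr rfl)
      rwa [← h5] at h6
    · have h' : m (.arr u, f s) = false := by simpa using h
      refine Ev.ifaF (by simpa using h') ?_
      have h5 : eff B (.sub t u f) s m = Function.update m (.arr t, (Function.update r 1 (f s)) 0) false := by
        simp [eff, h', hs]
      have h6 := Ev.wr (P := Btw m (eff B (.sub t u f) s m)) (JJ.arr t) 0 false
        (Function.update r 1 (f s), m) (by rw [h5]; exact fun i => Or.inr rfl)
      rwa [← h5] at h6
  · intro t u s r m hs hr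
    by_cases h : m (.arr u, s) = true
    · obtain ⟨-, -, h3⟩ := hg (fun s => (Nat.unpair s).1) (Primrec.fst.comp Primrec.unpair)
      have h4 := h3 (Btw m (eff B (.ex t u) s m)) r m hr
      refine Ev.ifaT (by rw [← hs] at h; exact h) (Ev.seq h4 (Ev.seq
        (s' := (Function.update r 1 (Nat.unpair (r 0)).1, eff B (.ex t u) s m)) ?_
        (clear_B2 hR2 _ r _ _ (hr 1 le_rfl))))
      have h5 : eff B (.ex t u) s m = Function.update m (.arr t,
          (Function.update r 1 (Nat.unpair (r 0)).1) 1) true := by
        simp [eff, h, hs]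
      have h6 := Ev.wr (P := Btw m (eff B (.ex t u) s m)) (JJ.arr t) 1 true
        (Function.update r 1 (Nat.unpair (r 0)).1, m) (by rw [h5]; exact fun i => Or.inr rfl)
      rwa [← h5] at h6
    · have h' : m (.arr u, s) = false := by simpa using h
      refine Ev.ifaF (by rw [← hs] at h'; exact h') ?_
      have h5 : eff B (.ex t u) s m = m := by
        simp [eff, h']
      rw [h5]
      exact Ev.skip _

end Pool.Agent.Helper91.MP
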