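import Pool.Agent.Helper91.MP.OpmD

/-!
# Chapter MP: module B3 (the body of `inp`)
-/

set_option autoImplicit false

open Ordinal Order

namespace Pool.Agent.Helper91.MP

open Pool.Agent.Helper25.EV

namespace B3

/-- counters `0, 1, 2` -/
def R (a b c : ℕ) : ℕ → ℕ := fun j => if j = 0 then a else if j = 1 then b else if j = 2 then c else 0

theorem R_zero (a b c : ℕ) : R a b c 0 = a := rfl
theorem R_one (a b c : ℕ) : R a b c 1 = b := rfl
theorem R_two (a b c : ℕ) : R a b c 2 = c := rfl

theorem up0 (a b c x : ℕ) : Function.update (R a b c) 0 x = R x b c := by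
  funext j
  by_cases h : j = 0
  · subst h; rw [Function.update_self]; rfl
  · rw [Function.update_of_ne h]; simp [R, h]

theorem up1 (a b c x : ℕ) : Function.update (R a b c) 1 x = R a x c := by
  funext j
  by_cases h : j = 1
  · subst h; rw [Function.update_self]; rfl
  · rw [Function.update_of_ne h]; simp [R, h]

theorem up2 (a b c x : ℕ) : Function.update (R a b c) 2 x = R a b x := by
  funext j
  by_cases h : j = 2
  · subst h; rw [Function.update_self]; rfl
  · rw [Function.update_of_ne h]; simp [R, h]

variable {J : Type} [DecidableEq J]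

theorem ev_inc0 (P : (J × ℕ → Bool) → Prop) (a b c : ℕ) (m : J × ℕ → Bool) :
    Ev P (.inc 0) (R a b c, m) (R (a + 1) b c, m) := by
  have := Ev.inc (P := P) 0 (R a b c, m)
  simpa only [R_zero, up0] using this

theorem ev_inc1 (P : (J × ℕ → Bool) → Prop) (a b c : ℕ) (m : J × ℕ → Bool) :
    Ev P (.inc 1) (R a b c, m) (R a (b + 1) c, m) := by
  have := Ev.inc (P := P) 1 (R a b c, m)
  simpa only [R_one, up1] using this

theorem ev_inc2 (P : (J × ℕ → Bool) → Prop) (a b c : ℕ) (m : J × ℕ → Bool) :
    Ev P (.inc 2) (R a b c, m) (R a b (c + 1), m) := by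
  have := Ev.inc (P := P) 2 (R a b c, m)
  simpa only [R_two, up2] using this

theorem ev_dec0 (P : (J × ℕ → Bool) → Prop) (a b c : ℕ) (m : J × ℕ → Bool) :
    Ev P (.dec 0) (R a b c, m) (R (a - 1) b c, m) := by
  have := Ev.dec (P := P) 0 (R a b c, m)
  simpa only [R_zero, up0] using this

theorem ev_rep (P : (J × ℕ → Bool) → Prop) (m : J × ℕ → Bool) (a c : ℕ) : ∀ n b : ℕ,
    Ev P (seqs (List.replicate n (.inc 1))) (R a b c, m) (R a (b + n) c, m) := by
  intro n
  induction n with
  | zero => intro b; exact Ev.skip _
  | succ n ih =>
    intro b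
    rw [List.replicate_succ]
    have e : b + (n + 1) = (b + 1) + n := by ring
    rw [e]
    exact Ev.seq (ev_inc1 P a b c m) (ih (b + 1))

theorem ev_range' (P : (J × ℕ → Bool) → Prop) (f : ℕ → Com J) (st : ℕ → RSt J) : ∀ n a : ℕ,
    (∀ k, a ≤ k → k < a + n → Ev P (f k) (st k) (st (k + 1))) →
    Ev P (seqs ((List.range' a n).map f)) (st a) (st (a + n)) := by
  intro n
  induction n with
  | zero => intro a _; exact Ev.skip _
  | succ n ih =>
    intro a h
    rw [List.range'_succ, List.map_cons]
    have e : a + (n + 1) = (a + 1) + n := by ring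
    rw [e]
    exact Ev.seq (h a le_rfl (by omega)) (ih (a + 1) fun k hk hk' => h k (by omega) (by omega))

theorem ev_range (P : (J × ℕ → Bool) → Prop) (f : ℕ → Com J) (st : ℕ → RSt J) (n : ℕ)
    (h : ∀ k < n, Ev P (f k) (st k) (st (k + 1))) :
    Ev P (seqs ((List.range n).map f)) (st 0) (st n) := by
  have := ev_range' P f st n 0 (fun k _ hk => h k (by omega))
  rwa [← List.range_eq_range', zero_add] at this

open Classical in
/-- the memory after `k` bits have been written -/
noncomputable def mem {Lb : Type} (B t s : ℕ) (m : JJ Lb × ℕ → Bool) (k : ℕ) : JJ Lb × ℕ → Bool :=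
  fun i => if i.1 = .arr t ∧ B * s ≤ i.2 ∧ i.2 < B * s + k then m (.inp (i.2 - B * s), s) else m i

end B3

open B3

theorem pf_B3 : StR1 → StR2 → StB3 := by
  intro h1 h2 Lb _ B g t s r m hr0 hr
  have er : r = R s 0 0 := by
    funext j
    by_cases h : j = 0
    · subst h; rw [hr0]; rfl
    · rw [hr j (by omega)]; simp [R, h]
  have emem : eff B (.inp t) s m = mem B t s m B := by
    funext i
    unfold eff mem
    simp only
    split_ifs <;> rfl
  rw [er, emem]
  set Q : (JJ Lb × ℕ → Bool) → Prop := Btw m (mem B t s m B) with hQ
  refine Ev.seq (s' := (R s (B * s) 0, m)) ?_ ?_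
  · -- the counters
    refine Ev.seq (s' := (R 0 (B * s) s, m)) ?_ ?_
    · have := h1 (JJ Lb) Q 0 (.seq (.dec 0) (.seq (.inc 2) (seqs (List.replicate B (.inc 1))))) s
        (fun i => (R (s - i) (B * i) i, m)) ?_ ?_ ?_
      · simpa using this
      · intro i hi
        change s - i ≠ 0
        omega
      · change s - s = 0
        omega
      · intro i hi
        refine Ev.seq (ev_dec0 Q (s - i) (B * i) i m) ?_
        refine Ev.seq (ev_inc2 Q (s - i - 1) (B * i) i m) ?_
        have h3 := ev_rep Q m (s - i - 1) (i + 1) B (B * i)
        have e1 : s - i - 1 = s - (i + 1) := by omega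
        have e2 : B * i + B = B * (i + 1) := by ring
        rw [e1, e2] at h3
        rw [e1]
        exact h3
    · have := (h2 (JJ Lb) Q m).2.1 2 0 (R 0 (B * s) s) (by norm_num)
      rw [R_zero, R_two, up0, up2, zero_add] at this
      exact this
  · refine Ev.seq (s' := (R s (B * s + B) 0, mem B t s m B)) ?_ ?_
    · have e0 : mem B t s m 0 = m := by
        funext i
        unfold mem
        rw [if_neg (by omega)]
      have := ev_range Q (fun r => .seq (.ifa (.inp r) 0 (.wr (.arr t) 1 true)
        (.wr (.arr t) 1 false)) (.inc 1)) (fun k => (R s (B * s + k) 0, mem B t s m k)) B ?_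
      · rw [e0] at this
        simpa using this
      · intro k hk
        have ebit : mem B t s m k (.inp k, s) = m (.inp k, s) := by
          unfold mem
          rw [if_neg (by simp)]
        have eup : Function.update (mem B t s m k) (.arr t, B * s + k) (m (.inp k, s)) =
            mem B t s m (k + 1) := by
          funext i
          by_cases hi : i = (.arr t, B * s + k)
          · subst hi
            rw [Function.update_self]
            unfold mem
            rw [if_pos ⟨rfl, by simp, by simp⟩]
            simp
          · rw [Function.update_of_ne hi]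
            unfold mem
            by_cases hc : i.1 = .arr t ∧ B * s ≤ i.2 ∧ i.2 < B * s + k
            · rw [if_pos hc, if_pos ⟨hc.1, hc.2.1, by omega⟩]
            · rw [if_neg hc, if_neg]
              rintro ⟨h3, h4, h5⟩
              apply hi
              have h6 : i.2 = B * s + k := by
                by_contra h7
                exact hc ⟨h3, h4, by omega⟩
              exact Prod.ext h3 h6
        have hQ' : Q (mem B t s m (k + 1)) := by
          intro i
          unfold mem
          by_cases hc : i.1 = .arr t ∧ B * s ≤ i.2 ∧ i.2 < B * s + (k + 1)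
          · right
            rw [if_pos hc, if_pos ⟨hc.1, hc.2.1, by omega⟩]
          · left
            rw [if_neg hc]
        refine Ev.seq (s' := (R s (B * s + k) 0, mem B t s m (k + 1))) ?_
          (ev_inc1 Q s (B * s + k) 0 _)
        rcases hb : m (.inp k, s) with _ | _
        · refine Ev.ifaF ?_ ?_
          · change mem B t s m k (.inp k, s) = false
            rw [ebit, hb]
          · rw [hb] at eup
            have h3 := Ev.wr (P := Q) (.arr t : JJ Lb) 1 false (R s (B * s + k) 0, mem B t s m k)
            simp only [R_one, eup] at h3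
            exact h3 hQ'
        · refine Ev.ifaT ?_ ?_
          · change mem B t s m k (.inp k, s) = true
            rw [ebit, hb]
          · rw [hb] at eup
            have h3 := Ev.wr (P := Q) (.arr t : JJ Lb) 1 true (R s (B * s + k) 0, mem B t s m k)
            simp only [R_one, eup] at h3
            exact h3 hQ'
    · have := (h2 (JJ Lb) Q (mem B t s m B)).1 1 (R s (B * s + B) 0)
      rw [up1] at this
      exact this

end Pool.Agent.Helper91.MP
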