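import Pool.Agent.Helper91.MP.OpmD

/-!
# Module B4: counters and arrays of the bodies
-/

set_option autoImplicit false

open Ordinal Order

namespace Pool.Agent.Helper91.MP

open Pool.Agent.Helper25.EV

theorem B4_seqs_regs {J : Type} (k : ℕ) : ∀ l : List (Com J), (∀ c ∈ l, c.regs k) →
    (seqs l).regs k
  | [], _ => trivial
  | c :: l, h => ⟨h c (by simp), B4_seqs_regs k l fun d hd => h d (by simp [hd])⟩

theorem B4_seqs_arrs {J : Type} (U : Set J) : ∀ l : List (Com J), (∀ c ∈ l, c.arrs U) →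
    (seqs l).arrs U
  | [], _ => trivial
  | c :: l, h => ⟨h c (by simp), B4_seqs_arrs U l fun d hd => h d (by simp [hd])⟩

theorem pf_B4 : StB4 := by
  intro Lb _ g hg op hop
  cases op with
  | inp t =>
    refine ⟨3, fun B => ⟨?_, fun U hU => ?_⟩⟩
    · refine ⟨⟨⟨by norm_num, ?_, ?_, ?_⟩, ?_⟩, ?_, ?_⟩
      · change (0 : ℕ) < 3; norm_num
      · change (2 : ℕ) < 3; norm_num
      · refine B4_seqs_regs 3 _ fun c hc => ?_
        rw [List.eq_of_mem_replicate hc]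
        change (1 : ℕ) < 3; norm_num
      · refine ⟨by norm_num, ?_, ?_⟩
        · change (2 : ℕ) < 3; norm_num
        · change (0 : ℕ) < 3; norm_num
      · refine B4_seqs_regs 3 _ fun c hc => ?_
        obtain ⟨r, _, rfl⟩ := List.mem_map.1 hc
        refine ⟨⟨by norm_num, ?_, ?_⟩, ?_⟩
        · change (1 : ℕ) < 3; norm_num
        · change (1 : ℕ) < 3; norm_num
        · change (1 : ℕ) < 3; norm_num
      · refine ⟨by norm_num, ?_⟩
        change (1 : ℕ) < 3; norm_num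
    · refine ⟨⟨⟨trivial, trivial, ?_⟩, trivial, trivial⟩, ?_, trivial⟩
      · refine B4_seqs_arrs _ _ fun c hc => ?_
        rw [List.eq_of_mem_replicate hc]
        exact trivial
      · refine B4_seqs_arrs _ _ fun c hc => ?_
        obtain ⟨r, hr, rfl⟩ := List.mem_map.1 hc
        have h1 : (JJ.arr t : JJ Lb) ∈
            ({j | ∃ r < B, j = .inp r} ∪ {j | ∃ t ∈ U, j = .arr t} : Set (JJ Lb)) :=
          Or.inr ⟨t, hU, rfl⟩
        exact ⟨⟨Or.inl ⟨r, List.mem_range.1 hr, rfl⟩, h1, h1⟩, trivial⟩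
  | cst t b =>
    refine ⟨1, fun B => ⟨?_, fun U hU => ?_⟩⟩
    · change (0 : ℕ) < 1; norm_num
    · exact Or.inr ⟨t, hU, rfl⟩
  | prim t f =>
    obtain ⟨⟨k, hk⟩, ha, _⟩ := hg f hop
    refine ⟨max k 3, fun B => ⟨?_, fun U hU => ?_⟩⟩
    · refine ⟨Com.regs_mono (le_max_left _ _) _ hk, ⟨?_, ?_, ?_⟩, ?_, ?_⟩
      · exact lt_of_lt_of_le (by norm_num) (le_max_right _ _)
      · exact lt_of_lt_of_le (by norm_num) (le_max_right k 3)
      · exact lt_of_lt_of_le (by norm_num) (le_max_right k 3)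
      · exact lt_of_lt_of_le (by norm_num) (le_max_right _ _)
      · exact lt_of_lt_of_le (by norm_num) (le_max_right k 3)
    · have h1 : (JJ.arr t : JJ Lb) ∈
            ({j | ∃ r < B, j = .inp r} ∪ {j | ∃ t ∈ U, j = .arr t} : Set (JJ Lb)) :=
          Or.inr ⟨t, hU, rfl⟩
      exact ⟨Com.arrs_mono (Set.empty_subset _) _ ha, ⟨h1, h1⟩, trivial⟩
  | sub t u f =>
    obtain ⟨⟨k, hk⟩, ha, _⟩ := hg f hop.2
    refine ⟨max k 3, fun B => ⟨?_, fun U hU => ?_⟩⟩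
    · refine ⟨Com.regs_mono (le_max_left _ _) _ hk, ⟨?_, ?_, ?_⟩, ?_, ?_⟩
      · exact lt_of_lt_of_le (by norm_num) (le_max_right _ _)
      · exact lt_of_lt_of_le (by norm_num) (le_max_right k 3)
      · exact lt_of_lt_of_le (by norm_num) (le_max_right k 3)
      · exact lt_of_lt_of_le (by norm_num) (le_max_right _ _)
      · exact lt_of_lt_of_le (by norm_num) (le_max_right k 3)
    · have h1 : (JJ.arr t : JJ Lb) ∈
            ({j | ∃ r < B, j = .inp r} ∪ {j | ∃ t ∈ U, j = .arr t} : Set (JJ Lb)) :=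
          Or.inr ⟨t, hU.1, rfl⟩
      have h2 : (JJ.arr u : JJ Lb) ∈
            ({j | ∃ r < B, j = .inp r} ∪ {j | ∃ t ∈ U, j = .arr t} : Set (JJ Lb)) :=
          Or.inr ⟨u, hU.2, rfl⟩
      exact ⟨Com.arrs_mono (Set.empty_subset _) _ ha, ⟨h2, h1, h1⟩, trivial⟩
  | nand t u v =>
    refine ⟨1, fun B => ⟨?_, fun U hU => ?_⟩⟩
    · refine ⟨by norm_num, ⟨by norm_num, ?_, ?_⟩, ?_⟩
      · change (0 : ℕ) < 1; norm_num
      · change (0 : ℕ) < 1; norm_num
      · change (0 : ℕ) < 1; norm_num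
    · have h1 : (JJ.arr t : JJ Lb) ∈
            ({j | ∃ r < B, j = .inp r} ∪ {j | ∃ t ∈ U, j = .arr t} : Set (JJ Lb)) :=
          Or.inr ⟨t, hU.1, rfl⟩
      exact ⟨Or.inr ⟨u, hU.2.1, rfl⟩, ⟨Or.inr ⟨v, hU.2.2, rfl⟩, h1, h1⟩, h1⟩
  | ex t u =>
    obtain ⟨⟨k, hk⟩, ha, _⟩ := hg (fun s => (Nat.unpair s).1) (Primrec.fst.comp Primrec.unpair)
    refine ⟨max k 3, fun B => ⟨?_, fun U hU => ?_⟩⟩
    · refine ⟨?_, ⟨Com.regs_mono (le_max_left _ _) _ hk, ?_, ?_, ?_⟩, trivial⟩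
      · exact lt_of_lt_of_le (by norm_num) (le_max_right _ _)
      · exact lt_of_lt_of_le (by norm_num) (le_max_right k 3)
      · exact lt_of_lt_of_le (by norm_num) (le_max_right _ _)
      · exact lt_of_lt_of_le (by norm_num) (le_max_right k 3)
    · have h1 : (JJ.arr t : JJ Lb) ∈
            ({j | ∃ r < B, j = .inp r} ∪ {j | ∃ t ∈ U, j = .arr t} : Set (JJ Lb)) :=
          Or.inr ⟨t, hU.1, rfl⟩
      have h2 : (JJ.arr u : JJ Lb) ∈
            ({j | ∃ r < B, j = .inp r} ∪ {j | ∃ t ∈ U, j = .arr t} : Set (JJ Lb)) :=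
          Or.inr ⟨u, hU.2, rfl⟩
      exact ⟨h2, ⟨Com.arrs_mono (Set.empty_subset _) _ ha, h1, trivial⟩, trivial⟩

end Pool.Agent.Helper91.MP
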