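import Pool.Agent.Helper91.MP.CamD

set_option autoImplicit false

open Ordinal Order

namespace Pool.Agent.Helper91.MP

theorem pf_C : StT4 → StC3 → StC4 → StC5 → StC6 → StC7 → StC8 → StC := by
  intro hT4 h3 h4 h5 h6 h7 h8 J Bk _ P U F k L hF
  refine ⟨?_, ?_, ?_⟩
  · rintro a c ⟨-, -, harr, -⟩ i j ⟨h, rfl⟩
    exact harr i.1 h i.2
  · intro a c hR hl
    have hS : StepC P U F k L a c := by
      cases hi : P.ins a.1.1 with
      | inc j l => exact h3 J Bk P U F k L hF a c hR ⟨j, l, hi⟩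
      | dec j l => exact h4 J Bk P U F k L hF a c hR ⟨j, l, hi⟩
      | tz j l0 l1 => exact h5 J Bk P U F k L hF a c hR (Or.inl ⟨j, l0, l1, hi⟩)
      | rd i j l0 l1 => exact h6 J Bk P U F k L hF a c hR ⟨i, j, l0, l1, hi⟩
      | wr i j b l => exact h7 J Bk P U F k L hF a c hR ⟨i, j, b, l, hi⟩
      | jmp l => exact h5 J Bk P U F k L hF a c hR (Or.inr ⟨l, hi⟩)
      | hlt => exact absurd hi hl
    obtain ⟨n, hn, hx⟩ := hS
    have hfin := (hT4 (P.mach U F k L).proc c).1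
    refine ⟨((n + 1 : ℕ) : Ordinal.{0}), by exact_mod_cast Nat.succ_pos n, ?_, ?_, ?_⟩
    · rw [hfin]; exact hn
    · intro γ hγ
      obtain ⟨x, rfl⟩ := Ordinal.lt_omega0.1 (hγ.trans (Ordinal.nat_lt_omega0 _))
      have hxn : x < n + 1 := by exact_mod_cast hγ
      rw [hfin]
      obtain ⟨g1, g2, g3⟩ := hx x (by omega)
      refine ⟨g1, g2, ?_⟩
      rintro i j ⟨h, rfl⟩
      rcases g3 with g3 | g3
      · exact Or.inl (g3 i.1 h i.2)
      · exact Or.inr (g3 i.1 h i.2)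
    · rintro f rfl
      refine ⟨0, by exact_mod_cast Nat.succ_pos n, ?_⟩
      have h0 := hfin 0
      rw [Nat.cast_zero] at h0
      rw [h0]
      exact (hR.2.2.2.2.2.1 0).trans (by simp)
  · intro m m' hc hfl hcs
    obtain ⟨β, h1, h2⟩ := h8 J Bk P U F k L hF m m' (fun i h n => hc (i, n) _ ⟨h, rfl⟩)
      (hfl _ rfl) hcs
    refine ⟨β, h1, fun γ hγ => ?_⟩
    obtain ⟨g1, g2, g3⟩ := h2 γ hγ
    refine ⟨g1, g2, ?_⟩
    rintro i j ⟨h, rfl⟩
    exact Or.inl (g3 i.1 h i.2)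

end Pool.Agent.Helper91.MP
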