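import Pool.Agent.Helper91.MP.CamD

/-! Chapter MP, C0: the first step. -/

set_option autoImplicit false

open Ordinal Order

namespace Pool.Agent.Helper91.MP

theorem pf_C0 : StC0 := by
  intro J Bk _ P U F k L hP m m' ha hc he hf
  refine ⟨rfl, hP.start, ?_, ?_, ?_, ?_, ?_⟩
  · intro i h n
    refine Eq.trans ?_ (ha i h n)
    change (if n = 0 then m' (.arr ⟨i, h⟩, 0) else m' (.arr ⟨i, h⟩, n)) = m' (.arr ⟨i, h⟩, n)
    by_cases hn : n = 0
    · subst hn; simp
    · simp [hn]
  · intro j n
    change (if n = 0 then true else m' (.cnt j, n)) = decide (n = 0)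
    by_cases hn : n = 0
    · simp [hn]
    · simp [hn, hc]
  · intro n
    change (if n = 0 then true else m' (.e, n)) = decide (n = 0)
    by_cases hn : n = 0
    · simp [hn]
    · simp [hn, he]
  · intro n
    change (if n = 0 then true else m' (.f, n)) = decide (n = 0)
    by_cases hn : n = 0
    · simp [hn]
    · simp [hn, hf]
  · rfl

end Pool.Agent.Helper91.MP
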