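import Pool.Agent.Helper91.MP.CamD

/-! Chapter MP, C1: the search. -/

set_option autoImplicit false

open Ordinal Order

namespace Pool.Agent.Helper91.MP

theorem c1_same {κ : Type} (m : κ × ℕ → Bool) (z : ℕ) :
    (fun i : κ × ℕ => if i.2 = z then m (i.1, z) else m i) = m := by
  funext i
  obtain ⟨k, n⟩ := i
  by_cases h : n = z
  · subst h
    simp
  · simp [h]

theorem c1_step {J Bk : Type} (P : Cam J Bk) (U : Finset J) (F : Finset Bk)
    (k L : ℕ) (b : {b // b ∈ F}) (p : Fin (L + 1)) (m : Trk U k × ℕ → Bool) (z : ℕ)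
    (e : ctr P U F k L (.act b p) (fun t => m (t, z)) =
      (fun t => m (t, z), true, some (.act b p))) :
    (P.mach U F k L).proc.next ((some (.act b p), z), m) = ((some (.act b p), z + 1), m) := by
  change ((((ctr P U F k L (.act b p) (fun t => m (t, z))).2.2 : Option (CQ F k L)),
    if (ctr P U F k L (.act b p) (fun t => m (t, z))).2.1 then z + 1 else z - 1),
    fun i : Trk U k × ℕ => if i.2 = z then (ctr P U F k L (.act b p) (fun t => m (t, z))).1 i.1
      else m i) = ((some (.act b p), z + 1), m)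
  rw [e]
  simp only [if_true]
  rw [c1_same]

theorem pf_C1 : StC1 := by
  intro J Bk _ P U F k L b p j m y hi hm x
  induction x with
  | zero => intro _; rfl
  | succ x ih =>
    intro hx
    rw [Function.iterate_succ_apply', ih (by omega)]
    refine c1_step P U F k L b p m x ?_
    have h0 := hm x (by omega)
    rcases hi with ⟨l, h⟩ | ⟨l, h⟩ | ⟨l0, l1, h⟩ | ⟨i, l0, l1, h⟩ | ⟨i, u, l, h⟩ <;>
      simp [ctr, h, h0]

end Pool.Agent.Helper91.MP
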