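import Pool.Agent.Helper91.MP.CamD

/-! Chapter MP, C2: the return. -/

set_option autoImplicit false

open Ordinal Order

namespace Pool.Agent.Helper91.MP

theorem c2_same {κ : Type} (m : κ × ℕ → Bool) (z : ℕ) :
    (fun i : κ × ℕ => if i.2 = z then m (i.1, z) else m i) = m := by
  funext i
  obtain ⟨k, n⟩ := i
  by_cases h : n = z
  · subst h
    simp
  · simp [h]

theorem c2_step {J Bk : Type} (P : Cam J Bk) (U : Finset J) (F : Finset Bk)
    (k L : ℕ) (b : {b // b ∈ F}) (p : Fin (L + 1)) (m : Trk U k × ℕ → Bool) (z : ℕ)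
    (h : m (.e, z) = false) :
    (P.mach U F k L).proc.next ((some (.rt b p), z), m) = ((some (.rt b p), z - 1), m) := by
  show (P.mach U F k L).step ((some (.rt b p), z), m) = _
  have e : ctr P U F k L (.rt b p) (fun t => m (t, z)) =
      (fun t => m (t, z), false, some (.rt b p)) := by
    simp [ctr, h]
  show ((_, _), _) = _
  change ((((ctr P U F k L (.rt b p) (fun t => m (t, z))).2.2 : Option (CQ F k L)),
    if (ctr P U F k L (.rt b p) (fun t => m (t, z))).2.1 then z + 1 else z - 1),
    fun i : Trk U k × ℕ => if i.2 = z then (ctr P U F k L (.rt b p) (fun t => m (t, z))).1 i.1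
      else m i) = ((some (.rt b p), z - 1), m)
  rw [e]
  simp only [Bool.false_eq_true, if_false]
  rw [c2_same]

theorem c2_last {J Bk : Type} (P : Cam J Bk) (U : Finset J) (F : Finset Bk)
    (k L : ℕ) (b : {b // b ∈ F}) (p : Fin (L + 1)) (m : Trk U k × ℕ → Bool)
    (h : m (.e, 0) = true) :
    (P.mach U F k L).proc.next ((some (.rt b p), 0), m) = ((some (.act b p), 0), m) := by
  show (P.mach U F k L).step ((some (.rt b p), 0), m) = _
  have e : ctr P U F k L (.rt b p) (fun t => m (t, 0)) =
      (fun t => m (t, 0), false, some (.act b p)) := by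
    simp [ctr, h]
  show ((_, _), _) = _
  change ((((ctr P U F k L (.rt b p) (fun t => m (t, 0))).2.2 : Option (CQ F k L)),
    if (ctr P U F k L (.rt b p) (fun t => m (t, 0))).2.1 then 0 + 1 else 0 - 1),
    fun i : Trk U k × ℕ => if i.2 = 0 then (ctr P U F k L (.rt b p) (fun t => m (t, 0))).1 i.1
      else m i) = ((some (.act b p), 0), m)
  rw [e]
  simp only [Bool.false_eq_true, if_false]
  rw [c2_same]

theorem pf_C2 : StC2 := by
  intro J Bk _ P U F k L b p m y hm
  have h1 : ∀ x ≤ y, (P.mach U F k L).proc.next^[x] ((some (.rt b p), y), m) =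
      ((some (.rt b p), y - x), m) := by
    intro x
    induction x with
    | zero => intro _; rfl
    | succ x ih =>
      intro hx
      rw [Function.iterate_succ_apply', ih (by omega)]
      have h2 : m (.e, y - x) = false := by
        rw [hm]
        simp only [decide_eq_false_iff_not]
        omega
      refine (c2_step P U F k L b p m (y - x) h2).trans ?_
      rw [Nat.sub_sub]
  refine ⟨h1, ?_⟩
  rw [Function.iterate_succ_apply', h1 y le_rfl, Nat.sub_self]
  exact c2_last P U F k L b p m (by rw [hm]; simp)

end Pool.Agent.Helper91.MP
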