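import Pool.Agent.Helper91.MP.M_CAux

/-! Chapter MP, C3: the step condition for `inc`. -/

set_option autoImplicit false

open Ordinal Order

namespace Pool.Agent.Helper91.MP

theorem pf_C3 : StC1 → StC2 → StC3 := by
  intro hC1 hC2 J Bk _ P U F k L hP a c hR hins
  obtain ⟨j, l, hins⟩ := hins
  obtain ⟨haF, p, hp, hc, harr, hcnt, hbase⟩ := RelC_start hP hR
  have hok := ins_ok hP a.1.1 haF
  rw [hins] at hok hp
  obtain ⟨hjk, hlF⟩ := hok
  obtain ⟨p', _, hq', hmk⟩ := toQ_eq hP l hlF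
  have hnext : P.proc.next a = ((l, Function.update a.1.2 j (a.1.2 j + 1)), a.2) := by
    change P.step a = _
    unfold Cam.step
    rw [hins]
  have s1 := path_search (P := P) (F := F) (L := L) (a := a) hC1 hbase harr hcnt
    ⟨a.1.1.1, haF⟩ p j (Or.inl ⟨l, hp⟩)
  -- clear the mark
  have s2 := path_step (P := P) (a := a) hbase (Or.inl harr) (.act ⟨a.1.1.1, haF⟩ p) (a.1.2 j)
    (setc (fun t => c.2 (t, a.1.2 j)) j false) true (some (.mk ⟨l.1, hlF⟩ p' ⟨j, hjk⟩)) (by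
      simp only [ctr, hp]
      rw [if_pos (getc_self hcnt j hjk), hmk j hjk])
  rw [if_pos rfl] at s2
  -- set the new mark
  have s3 := path_step (P := P) (a := a) (wc_base hbase (a.1.2 j) j false)
    (Or.inl (wc_arr harr (a.1.2 j) j false)) (.mk ⟨l.1, hlF⟩ p' ⟨j, hjk⟩) (a.1.2 j + 1)
    (setc (fun t => wc c.2 (a.1.2 j) j false (t, a.1.2 j + 1)) j true) false
    (some (toQ .rt l)) (by
      rw [hq']
      rfl)
  have s4 := path_return (a := a) hP hC2
    (m := wc (wc c.2 (a.1.2 j) j false) (a.1.2 j + 1) j true)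
    (wc_base (wc_base hbase _ _ _) _ _ _) (Or.inl (wc_arr (wc_arr harr _ _ _) _ _ _)) l hlF
    (a.1.2 j)
  rw [hc]
  refine StepC_of (((s1.comp s2).comp s3).comp s4) (by omega) ?_
  rw [RelC_iff, hnext]
  exact ⟨rfl, hlF, wc_arr (wc_arr harr _ _ _) _ _ _, wc_move hcnt _ _,
    wc_base (wc_base hbase _ _ _) _ _ _⟩

end Pool.Agent.Helper91.MP

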