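import Pool.Agent.Helper91.MP.M_CAux

/-! Chapter MP, C4: the step condition for `dec`. -/

set_option autoImplicit false

open Ordinal Order

namespace Pool.Agent.Helper91.MP

theorem pf_C4 : StC1 → StC2 → StC4 := by
  intro hC1 hC2 J Bk _ P U F k L hP a c hR hins
  obtain ⟨j, l, hins⟩ := hins
  obtain ⟨haF, p, hp, hc, harr, hcnt, hbase⟩ := RelC_start hP hR
  have hok := ins_ok hP a.1.1 haF
  rw [hins] at hok hp
  obtain ⟨hjk, hlF⟩ := hok
  obtain ⟨p', _, hq', hmk⟩ := toQ_eq hP l hlF
  have hnext : P.proc.next a = ((l, Function.update a.1.2 j (a.1.2 j - 1)), a.2) := by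
    change P.step a = _
    unfold Cam.step
    rw [hins]
  have s1 := path_search (P := P) (F := F) (L := L) (a := a) hC1 hbase harr hcnt
    ⟨a.1.1.1, haF⟩ p j (Or.inr (Or.inl ⟨l, hp⟩))
  by_cases hy : a.1.2 j = 0
  · -- the counter is zero
    have he : c.2 (.e, a.1.2 j) = true := by
      rw [hbase.1]
      simp [hy]
    have s2 := path_step (P := P) (a := a) hbase (Or.inl harr) (.act ⟨a.1.1.1, haF⟩ p) (a.1.2 j)
      (fun t => c.2 (t, a.1.2 j)) false (some (toQ .rt l)) (by
        simp only [ctr, hp]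
        rw [if_pos (getc_self hcnt j hjk), if_pos he])
    rw [wm_same] at s2
    have s4 := path_return (a := a) hP hC2 (m := c.2) hbase (Or.inl harr) l hlF (a.1.2 j - 1)
    rw [hc]
    refine StepC_of ((s1.comp s2).comp s4) (by omega) ?_
    rw [RelC_iff, hnext]
    refine ⟨rfl, hlF, harr, ?_, hbase⟩
    have hu : Function.update a.1.2 j (a.1.2 j - 1) = a.1.2 := by
      rw [Function.update_eq_self_iff]
      omega
    change CntOk c.2 (Function.update a.1.2 j (a.1.2 j - 1))
    rw [hu]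
    exact hcnt
  · have he : ¬ c.2 (.e, a.1.2 j) = true := by
      rw [hbase.1]
      simp [hy]
    -- clear the mark
    have s2 := path_step (P := P) (a := a) hbase (Or.inl harr) (.act ⟨a.1.1.1, haF⟩ p) (a.1.2 j)
      (setc (fun t => c.2 (t, a.1.2 j)) j false) false
      (some (.mk ⟨l.1, hlF⟩ p' ⟨j, hjk⟩)) (by
        simp only [ctr, hp]
        rw [if_pos (getc_self hcnt j hjk), if_neg he, hmk j hjk])
    -- set the new mark
    have s3 := path_step (P := P) (a := a) (wc_base hbase (a.1.2 j) j false)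
      (Or.inl (wc_arr harr (a.1.2 j) j false)) (.mk ⟨l.1, hlF⟩ p' ⟨j, hjk⟩) (a.1.2 j - 1)
      (setc (fun t => wc c.2 (a.1.2 j) j false (t, a.1.2 j - 1)) j true) false
      (some (toQ .rt l)) (by
        rw [hq']
        rfl)
    have s4 := path_return (a := a) hP hC2
      (m := wc (wc c.2 (a.1.2 j) j false) (a.1.2 j - 1) j true)
      (wc_base (wc_base hbase _ _ _) _ _ _) (Or.inl (wc_arr (wc_arr harr _ _ _) _ _ _)) l hlF
      (a.1.2 j - 1 - 1)
    rw [hc]
    refine StepC_of (((s1.comp s2).comp s3).comp s4) (by omega) ?_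
    rw [RelC_iff, hnext]
    exact ⟨rfl, hlF, wc_arr (wc_arr harr _ _ _) _ _ _, wc_move hcnt _ _,
      wc_base (wc_base hbase _ _ _) _ _ _⟩

end Pool.Agent.Helper91.MP

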