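import Pool.Agent.Helper91.MP.M_CAux

/-! Chapter MP, C5: the step condition for `tz` and `jmp`. -/

set_option autoImplicit false

open Ordinal Order

namespace Pool.Agent.Helper91.MP

theorem pf_C5 : StC1 → StC2 → StC5 := by
  intro hC1 hC2 J Bk _ P U F k L hP a c hR hins
  obtain ⟨haF, p, hp, hc, harr, hcnt, hbase⟩ := RelC_start hP hR
  have hok := ins_ok hP a.1.1 haF
  rcases hins with ⟨j, l0, l1, hins⟩ | ⟨l, hins⟩
  · rw [hins] at hok hp
    obtain ⟨hjk, hl0, hl1⟩ := hok
    have hnext : P.proc.next a = ((if a.1.2 j = 0 then l0 else l1, a.1.2), a.2) := by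
      change P.step a = _
      unfold Cam.step
      rw [hins]
    have s1 := path_search (P := P) (F := F) (L := L) (a := a) hC1 hbase harr hcnt
      ⟨a.1.1.1, haF⟩ p j (Or.inr (Or.inr (Or.inl ⟨l0, l1, hp⟩)))
    have hlF : (if a.1.2 j = 0 then l0 else l1).1 ∈ F := by
      split_ifs
      · exact hl0
      · exact hl1
    have s2 := path_step (P := P) (a := a) hbase (Or.inl harr) (.act ⟨a.1.1.1, haF⟩ p) (a.1.2 j)
      (fun t => c.2 (t, a.1.2 j)) false (some (toQ .rt (if a.1.2 j = 0 then l0 else l1))) (by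
        simp only [ctr, hp]
        rw [if_pos (getc_self hcnt j hjk)]
        have he : (c.2 (.e, a.1.2 j) = true) ↔ a.1.2 j = 0 := by
          rw [hbase.1]
          simp
        simp only [he])
    rw [wm_same] at s2
    have s4 := path_return (a := a) hP hC2 (m := c.2) hbase (Or.inl harr) _ hlF (a.1.2 j - 1)
    rw [hc]
    refine StepC_of ((s1.comp s2).comp s4) (by omega) ?_
    rw [RelC_iff, hnext]
    exact ⟨rfl, hlF, harr, hcnt, hbase⟩
  · rw [hins] at hok hp
    have hlF : l.1 ∈ F := hok
    have hnext : P.proc.next a = ((l, a.1.2), a.2) := by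
      change P.step a = _
      unfold Cam.step
      rw [hins]
    have s2 := path_step (P := P) (a := a) hbase (Or.inl harr) (.act ⟨a.1.1.1, haF⟩ p) 0
      (fun t => c.2 (t, 0)) false (some (toQ .act l)) (by simp only [ctr, hp])
    rw [wm_same] at s2
    rw [hc]
    refine StepC_of s2 (by omega) ?_
    rw [RelC_iff, hnext]
    exact ⟨rfl, hlF, harr, hcnt, hbase⟩

end Pool.Agent.Helper91.MP

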