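import Pool.Agent.Helper91.MP.CamD
import Pool.Agent.Helper91.MP.GenC

set_option autoImplicit false

open Ordinal Order

namespace Pool.Agent.Helper91.MP

theorem pf_C6 : StC1 → StC2 → StC6 := by
  intro hC1 hC2 J Bk _ P U F k L hF a c hR ⟨i, j, l0, l1, hins⟩
  obtain ⟨⟨⟨ab, ap⟩, r⟩, w⟩ := a
  obtain ⟨hc1, hb, harr, hcnt, he, hf, ho⟩ := hR
  obtain ⟨hd, m⟩ := c
  simp only at hc1 hb harr hcnt he hf ho hins
  obtain ⟨p, hp1, hp2, hp3⟩ := toQ_eq hF (ab, ap) hb
  rw [hp2 .act] at hc1
  subst hc1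
  have hok := ins_ok hF (ab, ap) hb
  rw [hins] at hok
  obtain ⟨hiU, hj, h0, h1⟩ := hok
  have hget : ∀ z, getc (fun t => m (t, z)) j = decide (z = r j) := by
    intro z; simp [getc, hj, hcnt]
  have hs := hC1 J Bk P U F k L ⟨ab, hb⟩ p j m (r j)
    (by rw [hp1, hins]; right; right; right; left; exact ⟨_, _, _, rfl⟩)
    (fun z hz => by rw [hget]; simp; omega)
  obtain ⟨l, hl0⟩ : ∃ l, l = (if w (i, r j) then l1 else l0) := ⟨_, rfl⟩
  have hl : l.1 ∈ F := by rw [hl0]; split_ifs <;> assumption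
  obtain ⟨p', hp'1, hp'2, -⟩ := toQ_eq hF l hl
  have hn : (P.mach U F k L).proc.next ((some (.act ⟨ab, hb⟩ p), r j), m) =
      ((some (.rt ⟨l.1, hl⟩ p'), r j - 1), m) := by
    have hg := hget (r j)
    simp only [decide_true] at hg
    have hga : geta (fun t => m (t, r j)) i = w (i, r j) := by simp [geta, hiU, harr]
    have ht : ctr P U F k L (.act ⟨ab, hb⟩ p) (fun t => m (t, r j)) =
        ((fun t => m (t, r j)), false, some (.rt ⟨l.1, hl⟩ p')) := by
      simp only [ctr, hp1, hins, hg, hga, if_true]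
      rw [← hl0, hp'2]
    rw [stepGen P U F k L _ m (r j) _ _ _ ht]
    simp only [Bool.false_eq_true, if_false]
    congr 1
    funext t
    split_ifs with h
    · rw [← h]
    · rfl
  obtain ⟨g1, g2⟩ := genC hC2 P U F k L _ _ p p' m m (r j) (r j - 1) _ hs hn he
  refine ⟨r j + 1 + (r j - 1), ?_, ?_⟩
  · have hnext : P.proc.next (((ab, ap), r), w) = ((l, r), w) := by
      show P.step _ = _
      simp only [Cam.step, hins]
      rw [hl0]
    rw [hnext]
    refine ⟨?_, hl, ?_, ?_, ?_, ?_, ?_⟩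
    · rw [g1, hp'2]
    all_goals rw [g1]; assumption
  · intro x hx
    obtain ⟨q, z, g3⟩ := g2 x hx
    rw [or_self] at g3
    rw [g3]
    refine ⟨by simp, ?_, Or.inl harr⟩
    rintro ⟨t, n⟩ v hv
    cases t with
    | arr i => simp [csC] at hv
    | cnt j => simp [csC] at hv
    | e => simp only [csC, Option.some.injEq] at hv; rw [← hv]; exact he n
    | f =>
      cases n with
      | zero => simp [csC] at hv
      | succ n => simp only [csC, Option.some.injEq] at hv; rw [← hv]; simpa using hf (n + 1)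
    | o =>
      cases n with
      | zero => simp only [csC, Option.some.injEq] at hv; rw [← hv]; exact ho
      | succ n => simp [csC] at hv

end Pool.Agent.Helper91.MP
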