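import Pool.Agent.Helper91.MP.CamD
import Pool.Agent.Helper91.MP.GenC

set_option autoImplicit false

open Ordinal Order

namespace Pool.Agent.Helper91.MP

theorem pf_C7 : StC1 → StC2 → StC7 := by
  intro hC1 hC2 J Bk _ P U F k L hF a c hR ⟨i, j, x0, l, hins⟩
  obtain ⟨⟨⟨ab, ap⟩, r⟩, w⟩ := a
  obtain ⟨hc1, hb, harr, hcnt, he, hf, ho⟩ := hR
  obtain ⟨hd, m⟩ := c
  simp only at hc1 hb harr hcnt he hf ho hins
  obtain ⟨p, hp1, hp2, hp3⟩ := toQ_eq hF (ab, ap) hb
  rw [hp2 .act] at hc1
  subst hc1
  have hok := ins_ok hF (ab, ap) hb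
  rw [hins] at hok
  obtain ⟨hiU, hj, hl⟩ := hok
  have hget : ∀ z, getc (fun t => m (t, z)) j = decide (z = r j) := by
    intro z; simp [getc, hj, hcnt]
  have hs := hC1 J Bk P U F k L ⟨ab, hb⟩ p j m (r j)
    (by rw [hp1, hins]; right; right; right; right; exact ⟨_, _, _, rfl⟩)
    (fun z hz => by rw [hget]; simp; omega)
  obtain ⟨p', hp'1, hp'2, -⟩ := toQ_eq hF l hl
  obtain ⟨m', hm'⟩ : ∃ m' : Trk U k × ℕ → Bool, m' = fun t => if t.2 = r j then
    seta (fun t => m (t, r j)) i x0 t.1 else m t := ⟨_, rfl⟩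
  have hm'n : ∀ (t : Trk U k) n, (∀ z, t ≠ .arr z) → m' (t, n) = m (t, n) := by
    intro t n ht
    rw [hm']
    simp only
    split_ifs with h
    · cases t with
      | arr z => exact absurd rfl (ht z)
      | cnt j => simp [seta, h]
      | e => simp [seta, h]
      | f => simp [seta, h]
      | o => simp [seta, h]
    · rfl
  have hm'a : ∀ i' (h : i' ∈ U) n, m' (.arr ⟨i', h⟩, n) =
      Function.update w (i, r j) x0 (i', n) := by
    intro i' h n
    rw [hm', Function.update_apply]
    simp only [seta, Prod.mk.injEq]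
    by_cases h1 : n = r j
    · by_cases h2 : i' = i
      · simp [h1, h2]
      · simp [h1, h2, harr]
    · simp [h1, harr]
  have hn : (P.mach U F k L).proc.next ((some (.act ⟨ab, hb⟩ p), r j), m) =
      ((some (.rt ⟨l.1, hl⟩ p'), r j - 1), m') := by
    have hg := hget (r j)
    simp only [decide_true] at hg
    have ht : ctr P U F k L (.act ⟨ab, hb⟩ p) (fun t => m (t, r j)) =
        (seta (fun t => m (t, r j)) i x0, false, some (.rt ⟨l.1, hl⟩ p')) := by
      simp only [ctr, hp1, hins, hg, if_true]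
      rw [hp'2]
    rw [stepGen P U F k L _ m (r j) _ _ _ ht, hm']
    simp only [Bool.false_eq_true, if_false]
  obtain ⟨g1, g2⟩ := genC hC2 P U F k L _ _ p p' m m' (r j) (r j - 1) _ hs hn
    (fun n => by rw [hm'n _ _ (by simp), he])
  have hnext : P.proc.next (((ab, ap), r), w) = ((l, r), Function.update w (i, r j) x0) := by
    show P.step _ = _
    simp only [Cam.step, hins]
  refine ⟨r j + 1 + (r j - 1), ?_, ?_⟩
  · rw [hnext]
    refine ⟨?_, hl, ?_, ?_, ?_, ?_, ?_⟩
    · rw [g1, hp'2]
    · rw [g1]; exact hm'a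
    · rw [g1]; intro j n; exact (hm'n (.cnt j) n (by simp)).trans (hcnt j n)
    · rw [g1]; intro n; exact (hm'n .e n (by simp)).trans (he n)
    · rw [g1]; intro n; exact (hm'n .f n (by simp)).trans (hf n)
    · rw [g1]; exact (hm'n .o 0 (by simp)).trans ho
  · have hcs : Oks (csC U k) m := by
      rintro ⟨t, n⟩ v hv
      cases t with
      | arr i => simp [csC] at hv
      | cnt j => simp [csC] at hv
      | e => simp only [csC, Option.some.injEq] at hv; rw [← hv]; exact he n
      | f =>
        cases n with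
        | zero => simp [csC] at hv
        | succ n => simp only [csC, Option.some.injEq] at hv; rw [← hv]; simpa using hf (n + 1)
      | o =>
        cases n with
        | zero => simp only [csC, Option.some.injEq] at hv; rw [← hv]; exact ho
        | succ n => simp [csC] at hv
    intro x hx
    obtain ⟨q, z, g3 | g3⟩ := g2 x hx
    · rw [g3]
      exact ⟨by simp, hcs, Or.inl harr⟩
    · rw [g3, hnext]
      refine ⟨by simp, ?_, Or.inr hm'a⟩
      rintro ⟨t, n⟩ v hv
      exact (hm'n t n (by rintro z rfl; simp [csC] at hv)).trans (hcs _ _ hv)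

end Pool.Agent.Helper91.MP
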