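import Pool.Agent.Helper91.MP.CamD
import Pool.Agent.Helper91.MP.GenC

set_option autoImplicit false

open Ordinal Order

namespace Pool.Agent.Helper91.MP

section c8
variable {J : Type} {U : Finset J} {k : ℕ}

/-- memory after `n` cleaning steps -/
def c8mem (m' : Trk U k × ℕ → Bool) (n : ℕ) : Trk U k × ℕ → Bool
  | (.cnt j, z) => if z < n then false else m' (.cnt j, z)
  | (.f, z) => if z < n ∧ z = 0 then false else m' (.f, z)
  | (t, z) => m' (t, z)

/-- memory at the limit -/
def c8lim (m' : Trk U k × ℕ → Bool) : Trk U k × ℕ → Bool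
  | (.cnt _, _) => false
  | (.f, z) => if z = 0 then false else m' (.f, z)
  | (t, z) => m' (t, z)

/-- memory at the end -/
def c8end (m' : Trk U k × ℕ → Bool) : Trk U k × ℕ → Bool
  | (.cnt _, z) => decide (z = 0)
  | (.f, z) => if z = 0 then true else m' (.f, z)
  | (t, z) => m' (t, z)

end c8

theorem pf_C8 : StT1 → StT2 → StT4 → StC8 := by
  intro hT1 _ hT4 J Bk _ P U F k L hF m m' harr hf0 hcs
  have he : ∀ n, m' (.e, n) = decide (n = 0) := fun n => hcs (.e, n) _ rfl
  have hf : ∀ n, m' (.f, n + 1) = false := fun n => hcs (.f, n + 1) _ rfl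
  have ho : m' (.o, 0) = true := hcs (.o, 0) _ rfl
  have hstep : ∀ n : ℕ, (P.mach U F k L).proc.next^[n + 1] ((some .lm, 0), m') =
      ((some .cl, n + 1), c8mem m' (n + 1)) := by
    intro n
    induction n with
    | zero =>
      show (P.mach U F k L).proc.next ((some .lm, 0), m') = _
      have e : ctr P U F k L .lm (fun t => m' (t, 0)) =
          (setf (setall (fun t => m' (t, 0)) false) false, true, some .cl) := by
        simp [ctr, hf0]
      rw [stepGen P U F k L _ m' 0 _ _ _ e]
      simp only [if_true]
      congr 1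
      funext ⟨t, z⟩
      by_cases hz : z = 0
      · subst hz
        cases t <;> simp [setf, setall, c8mem]
      · have hz' : ¬ z < 0 + 1 := by omega
        cases t <;> simp [c8mem, hz]
    | succ n ih =>
      rw [Function.iterate_succ_apply', ih]
      have e : ctr P U F k L .cl (fun t => c8mem m' (n + 1) (t, n + 1)) =
          (setall (fun t => c8mem m' (n + 1) (t, n + 1)) false, true, some .cl) := by
        simp [ctr]
      rw [stepGen P U F k L _ _ (n + 1) _ _ _ e]
      simp only [if_true]
      congr 1
      funext ⟨t, z⟩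
      by_cases hz : z = n + 1
      · subst hz
        cases t <;> simp [setall, c8mem]
      · have h1 : z < n + 1 + 1 ↔ z < n + 1 := by omega
        cases t <;> simp [c8mem, hz, h1]
  have hall : ∀ n : ℕ, ∃ (q : CQ F k L) (z : ℕ) (mm : Trk U k × ℕ → Bool),
      (P.mach U F k L).proc.next^[n] ((some .lm, 0), m') = ((some q, z), mm) ∧
      Oks (csC U k) mm ∧ ∀ i (h : i ∈ U) n, mm (.arr ⟨i, h⟩, n) = m (i, n) := by
    intro n
    cases n with
    | zero => exact ⟨.lm, 0, m', rfl, hcs, harr⟩
    | succ n =>
      refine ⟨_, _, _, hstep n, ?_, ?_⟩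
      · rintro ⟨t, z⟩ v hv
        have h2 := hcs _ _ hv
        cases t with
        | arr i => simp [csC] at hv
        | cnt j => simp [csC] at hv
        | e => exact h2
        | f =>
          cases z with
          | zero => simp [csC] at hv
          | succ z => simp only [c8mem]; simpa using h2
        | o => exact h2
      · intro i h z
        exact harr i h z
  have hT1' := hT1 (P.mach U F k L).proc ((some .lm, 0), m')
  obtain ⟨hfin, hlim⟩ := hT4 (P.mach U F k L).proc ((some .lm, 0), m')
  have hω : (P.mach U F k L).proc.run ((some .lm, 0), m') ω = ((some .lm, 0), c8lim m') := by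
    refine hlim (c8lim m') ?_
    rintro ⟨t, z⟩
    refine ⟨z + 2, fun n hn => ?_⟩
    obtain ⟨n, rfl⟩ : ∃ n', n = n' + 1 := ⟨n - 1, by omega⟩
    show ((P.mach U F k L).proc.next^[n + 1] ((some .lm, 0), m')).2 (t, z) = _
    rw [hstep n]
    have h1 : z < n + 1 := by omega
    cases t <;> simp [c8mem, c8lim, h1]
  have hcsl : Oks (csC U k) (c8lim m') := by
    rintro ⟨t, z⟩ v hv
    have h2 := hcs _ _ hv
    cases t with
    | arr i => simp [csC] at hv
    | cnt j => simp [csC] at hv
    | e => exact h2
    | f =>
      cases z with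
      | zero => simp [csC] at hv
      | succ z => simp only [c8lim]; simpa using h2
    | o => exact h2
  have hend : (P.mach U F k L).proc.run ((some .lm, 0), m') (ω + 1) =
      ((some (toQ .act P.lim), 0), c8end m') := by
    rw [hT1'.2.1, hω]
    have e : ctr P U F k L .lm (fun t => c8lim m' (t, 0)) =
        (setf (setall (fun t => c8lim m' (t, 0)) true) true, false, some (toQ .act P.lim)) := by
      simp [ctr, c8lim]
    rw [stepGen P U F k L _ _ 0 _ _ _ e]
    simp only [Bool.false_eq_true, if_false]
    congr 1
    funext ⟨t, z⟩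
    by_cases hz : z = 0
    · subst hz
      cases t <;> simp [setf, setall, c8lim, c8end]
    · cases t <;> simp [c8lim, c8end, hz]
  have hpost : (P.mach U F k L).proc.post m' = ((some .lm, 0), m') := rfl
  rw [hpost]
  refine ⟨ω + 1, ?_, ?_⟩
  · refine ⟨?_, hF.lim, ?_, ?_, ?_, ?_, ?_⟩
    · rw [hend]
    · intro i h n; rw [hend]; exact harr i h n
    · intro j n; rw [hend]; rfl
    · intro n; rw [hend]; exact he n
    · intro n; rw [hend]
      show (if n = 0 then true else m' (.f, n)) = _
      cases n with
      | zero => simp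
      | succ n => simpa using hf n
    · rw [hend]; exact ho
  · intro γ hγ
    rcases (lt_or_eq_of_le (Order.lt_add_one_iff.1 hγ)) with h | h
    · obtain ⟨n, rfl⟩ := Ordinal.lt_omega0.1 h
      rw [hfin n]
      obtain ⟨q, z, mm, h1, h2, h3⟩ := hall n
      rw [h1]
      exact ⟨by simp, h2, h3⟩
    · subst h
      rw [hω]
      exact ⟨by simp, hcsl, fun i h n => harr i h n⟩

end Pool.Agent.Helper91.MP
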