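import Pool.Agent.Helper91.MP.CamD

/-! Chapter MP, common lemmas for C3 - C7. -/

set_option autoImplicit false

open Ordinal Order

namespace Pool.Agent.Helper91.MP

/-! ### one step -/

/-- memory after the cell `z` has been overwritten with `v` -/
def wm {κ : Type} (m : κ × ℕ → Bool) (z : ℕ) (v : κ → Bool) : κ × ℕ → Bool :=
  fun i => if i.2 = z then v i.1 else m i

theorem wm_same {κ : Type} (m : κ × ℕ → Bool) (z : ℕ) : wm m z (fun t => m (t, z)) = m := by
  funext i
  obtain ⟨t, n⟩ := i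
  by_cases h : n = z
  · subst h; simp [wm]
  · simp [wm, h]

theorem next_eq {κ : Type} (M : Mach κ) (q : M.Q) (z : ℕ) (m : κ × ℕ → Bool) (v : κ → Bool)
    (d : Bool) (q' : Option M.Q) (h : M.tr q (fun t => m (t, z)) = (v, d, q')) :
    M.proc.next ((some q, z), m) = ((q', if d then z + 1 else z - 1), wm m z v) := by
  change (((M.tr q (fun t => m (t, z))).2.2,
    if (M.tr q (fun t => m (t, z))).2.1 then z + 1 else z - 1),
    fun i : κ × ℕ => if i.2 = z then (M.tr q (fun t => m (t, z))).1 i.1 else m i) = _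
  rw [h]
  rfl

/-! ### finite paths -/

/-- `n` steps from `c` to `c'`; all states before the end satisfy `G` -/
def FPath (C : Proc) (G : C.S → Prop) (n : ℕ) (c c' : C.S) : Prop :=
  C.next^[n] c = c' ∧ ∀ x < n, G (C.next^[x] c)

theorem FPath.comp {C : Proc} {G : C.S → Prop} {n n' : ℕ} {c c' c'' : C.S}
    (h : FPath C G n c c') (h' : FPath C G n' c' c'') : FPath C G (n + n') c c'' := by
  obtain ⟨h1, h2⟩ := h
  obtain ⟨h3, h4⟩ := h'
  refine ⟨?_, ?_⟩
  · rw [Nat.add_comm, Function.iterate_add_apply, h1, h3]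
  · intro x hx
    by_cases hxn : x < n
    · exact h2 x hxn
    · have e : x = (x - n) + n := by omega
      rw [e, Function.iterate_add_apply, h1]
      exact h4 _ (by omega)

theorem FPath.one {C : Proc} {G : C.S → Prop} {c c' : C.S} (hG : G c) (h : C.next c = c') :
    FPath C G 1 c c' := by
  refine ⟨h, ?_⟩
  intro x hx
  have : x = 0 := by omega
  subst this
  exact hG

section
variable {J Bk : Type} {U : Finset J} {F : Finset Bk} {k L : ℕ}

/-! ### memory -/

/-- the tracks `e`, `f`, `o` -/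
def BaseOk (m : Trk U k × ℕ → Bool) : Prop :=
  (∀ n, m (.e, n) = decide (n = 0)) ∧ (∀ n, m (.f, n) = decide (n = 0)) ∧ m (.o, 0) = true

/-- the tracks of the arrays -/
def ArrOk (m : Trk U k × ℕ → Bool) (A : J × ℕ → Bool) : Prop :=
  ∀ i (h : i ∈ U) n, m (.arr ⟨i, h⟩, n) = A (i, n)

/-- the tracks of the counters -/
def CntOk (m : Trk U k × ℕ → Bool) (cn : ℕ → ℕ) : Prop :=
  ∀ (j : Fin k) n, m (.cnt j, n) = decide (n = cn j.1)

theorem BaseOk.oks {m : Trk U k × ℕ → Bool} (h : BaseOk m) : Oks (csC U k) m := by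
  obtain ⟨he, hf, ho⟩ := h
  rintro ⟨t, n⟩ b hb
  cases t with
  | arr i => simp [csC] at hb
  | cnt j => simp [csC] at hb
  | e =>
    rw [he]
    simp [csC] at hb
    exact hb
  | f =>
    cases n with
    | zero => simp [csC] at hb
    | succ n =>
      rw [hf]
      simp [csC] at hb
      simp [hb]
  | o =>
    cases n with
    | zero =>
      rw [ho]
      simp [csC] at hb
      exact hb.symm
    | succ n => simp [csC] at hb

/-- writing on a counter track -/
def wc (m : Trk U k × ℕ → Bool) (z j : ℕ) (b : Bool) : Trk U k × ℕ → Bool :=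
  wm m z (setc (fun t => m (t, z)) j b)

theorem wc_other (m : Trk U k × ℕ → Bool) (z j : ℕ) (b : Bool) (t : Trk U k) (n : ℕ)
    (ht : ∀ j', t ≠ .cnt j') : wc m z j b (t, n) = m (t, n) := by
  unfold wc wm
  by_cases h : n = z
  · subst h
    cases t with
    | cnt j' => exact absurd rfl (ht j')
    | arr i => simp [setc]
    | e => simp [setc]
    | f => simp [setc]
    | o => simp [setc]
  · simp [h]

theorem wc_cnt (m : Trk U k × ℕ → Bool) (z j : ℕ) (b : Bool) (j' : Fin k) (n : ℕ) :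
    wc m z j b (.cnt j', n) = if n = z ∧ j'.1 = j then b else m (.cnt j', n) := by
  unfold wc wm
  by_cases h : n = z
  · subst h
    by_cases h' : j'.1 = j <;> simp [setc, h']
  · simp [h]

theorem wc_base {m : Trk U k × ℕ → Bool} (h : BaseOk m) (z j : ℕ) (b : Bool) :
    BaseOk (wc m z j b) := by
  obtain ⟨he, hf, ho⟩ := h
  refine ⟨?_, ?_, ?_⟩
  · intro n
    rw [wc_other m z j b .e n (by intro j' h; cases h)]
    exact he n
  · intro n
    rw [wc_other m z j b .f n (by intro j' h; cases h)]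
    exact hf n
  · rw [wc_other m z j b .o 0 (by intro j' h; cases h)]
    exact ho

theorem wc_arr {m : Trk U k × ℕ → Bool} {A : J × ℕ → Bool} (h : ArrOk m A) (z j : ℕ) (b : Bool) :
    ArrOk (wc m z j b) A := by
  intro i hi n
  rw [wc_other m z j b (.arr ⟨i, hi⟩) n (by intro j' h; cases h)]
  exact h i hi n

/-- moving the mark of the counter `j` from `y` to `y'` -/
theorem wc_move {m : Trk U k × ℕ → Bool} {cn : ℕ → ℕ} (h : CntOk m cn) (j y' : ℕ) :
    CntOk (wc (wc m (cn j) j false) y' j true) (Function.update cn j y') := by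
  intro j' n
  rw [wc_cnt, wc_cnt, h j' n]
  by_cases hj : j'.1 = j
  · subst hj
    rw [Function.update_self]
    by_cases h1 : n = y'
    · simp [h1]
    · by_cases h2 : n = cn j'.1 <;> simp [h1, h2]
  · rw [Function.update_of_ne hj]
    simp [hj]

variable [DecidableEq J] {P : Cam J Bk}

/-- the condition on the states before the end, for the machine -/
def GC (P : Cam J Bk) (U : Finset J) (F : Finset Bk) (k L : ℕ) (a : CSt J Bk)
    (s : MSt (P.mach U F k L)) : Prop :=
  s.1.1 ≠ none ∧ Oks (csC U k) s.2 ∧ (ArrOk s.2 a.2 ∨ ArrOk s.2 (P.proc.next a).2)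

theorem GC_mk {a : CSt J Bk} (q : CQ F k L) (z : ℕ) {m : Trk U k × ℕ → Bool} (hb : BaseOk m)
    (ha : ArrOk m a.2 ∨ ArrOk m (P.proc.next a).2) :
    GC P U F k L a (((some q, z), m) : MSt (P.mach U F k L)) :=
  ⟨by simp, hb.oks, ha⟩

/-- from a path to the step condition -/
theorem StepC_of {a : CSt J Bk} {c c' : MSt (P.mach U F k L)} {n : ℕ}
    (h : FPath (P.mach U F k L).proc (GC P U F k L a) n c c') (hn : 0 < n)
    (hr : RelC P U F k L (P.proc.next a) c') : StepC P U F k L a c := by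
  obtain ⟨h1, h2⟩ := h
  refine ⟨n - 1, ?_, ?_⟩
  · rw [Nat.sub_add_cancel hn, h1]
    exact hr
  · intro x hx
    exact h2 x (by omega)

omit [DecidableEq J] in
/-- the contents of `RelC` -/
theorem RelC_iff {a : CSt J Bk} {c : MSt (P.mach U F k L)} :
    RelC P U F k L a c ↔ c.1 = (some (toQ .act a.1.1), 0) ∧ a.1.1.1 ∈ F ∧ ArrOk c.2 a.2 ∧
      CntOk c.2 a.1.2 ∧ BaseOk c.2 := Iff.rfl

/-- the search as a path -/
theorem path_search (hC1 : StC1) {a : CSt J Bk} {m : Trk U k × ℕ → Bool} {cn : ℕ → ℕ}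
    (hb : BaseOk m) (ha : ArrOk m a.2) (hc : CntOk m cn) (b : {b // b ∈ F}) (p : Fin (L + 1))
    (j : ℕ)
    (hins : (∃ l, P.ins (b.1, p.1) = .inc j l) ∨ (∃ l, P.ins (b.1, p.1) = .dec j l) ∨
      (∃ l0 l1, P.ins (b.1, p.1) = .tz j l0 l1) ∨ (∃ i l0 l1, P.ins (b.1, p.1) = .rd i j l0 l1) ∨
      ∃ i x l, P.ins (b.1, p.1) = .wr i j x l) :
    FPath (P.mach U F k L).proc (GC P U F k L a) (cn j) ((some (.act b p), 0), m)
      ((some (.act b p), cn j), m) := by
  have h := hC1 J Bk P U F k L b p j m (cn j) hins (by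
    intro z hz
    unfold getc
    split
    · rename_i hjk
      change m (Trk.cnt ⟨j, hjk⟩, z) = false
      rw [hc]
      simp only [decide_eq_false_iff_not]
      omega
    · rfl)
  refine ⟨h _ le_rfl, ?_⟩
  intro x hx
  rw [h x (by omega)]
  exact GC_mk _ _ hb (Or.inl ha)

/-- the return as a path -/
theorem path_return (hP : P.Fn U F k L) (hC2 : StC2) {a : CSt J Bk} {m : Trk U k × ℕ → Bool}
    (hb : BaseOk m) (ha : ArrOk m a.2 ∨ ArrOk m (P.proc.next a).2) (l : Bk × ℕ) (hl : l.1 ∈ F)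
    (y : ℕ) :
    FPath (P.mach U F k L).proc (GC P U F k L a) (y + 1) ((some (toQ .rt l), y), m)
      ((some (toQ .act l), 0), m) := by
  obtain ⟨p, _, hq, _⟩ := toQ_eq hP l hl
  rw [hq, hq]
  obtain ⟨h1, h2⟩ := hC2 J Bk P U F k L ⟨l.1, hl⟩ p m y hb.1
  refine ⟨h2, ?_⟩
  intro x hx
  rw [h1 x (by omega)]
  exact GC_mk _ _ hb ha

omit [DecidableEq J] in
theorem getc_self {m : Trk U k × ℕ → Bool} {cn : ℕ → ℕ} (hc : CntOk m cn) (j : ℕ) (hj : j < k) :
    getc (fun t => m (t, cn j)) j = true := by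
  unfold getc
  rw [dif_pos hj]
  change m (Trk.cnt ⟨j, hj⟩, cn j) = true
  rw [hc]
  simp

/-- one step as a path -/
theorem path_step {a : CSt J Bk} {m : Trk U k × ℕ → Bool} (hb : BaseOk m)
    (ha : ArrOk m a.2 ∨ ArrOk m (P.proc.next a).2) (q : CQ F k L) (z : ℕ) (v : Trk U k → Bool)
    (d : Bool) (q' : Option (CQ F k L)) (h : ctr P U F k L q (fun t => m (t, z)) = (v, d, q')) :
    FPath (P.mach U F k L).proc (GC P U F k L a) 1 ((some q, z), m)
      ((q', if d then z + 1 else z - 1), wm m z v) :=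
  FPath.one (GC_mk _ _ hb ha) (next_eq (P.mach U F k L) q z m v d q' h)

omit [DecidableEq J] in
/-- the first state of the simulation of one step -/
theorem RelC_start (hP : P.Fn U F k L) {a : CSt J Bk} {c : MSt (P.mach U F k L)}
    (hR : RelC P U F k L a c) : ∃ (haF : a.1.1.1 ∈ F) (p : Fin (L + 1)),
      P.ins (a.1.1.1, p.1) = P.ins a.1.1 ∧ c = ((some (.act ⟨a.1.1.1, haF⟩ p), 0), c.2) ∧
      ArrOk c.2 a.2 ∧ CntOk c.2 a.1.2 ∧ BaseOk c.2 := by
  obtain ⟨hc1, haF, harr, hcnt, hbase⟩ := RelC_iff.mp hR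
  obtain ⟨p, hp, hq, _⟩ := toQ_eq hP a.1.1 haF
  refine ⟨haF, p, hp, ?_, harr, hcnt, hbase⟩
  rw [hq] at hc1
  obtain ⟨c1, c2⟩ := c
  simp only at hc1 ⊢
  rw [hc1]

end

end Pool.Agent.Helper91.MP
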