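import Pool.Agent.Helper91.MP.CamD

/-! Chapter MP, Ch: halting. -/

set_option autoImplicit false

open Ordinal Order

namespace Pool.Agent.Helper91.MP

theorem pf_Ch : StCh := by
  intro J Bk _ P U F k L hP a c hr hi
  obtain ⟨c, m⟩ := c
  obtain ⟨h1, h2, -, -, -, -, -⟩ := hr
  obtain ⟨p, hp, hst, -⟩ := toQ_eq hP a.1.1 h2
  have h3 : c = (some (CQ.act ⟨a.1.1.1, h2⟩ p), 0) := by
    exact h1.trans (by rw [hst .act])
  subst h3
  have hi' : P.ins (a.1.1.1, p.1) = .hlt := hp.trans hi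
  have e : ctr P U F k L (.act ⟨a.1.1.1, h2⟩ p) (fun t => m (t, 0)) =
      (seto (fun t => m (t, 0)) false, false, none) := by
    simp only [ctr]
    rw [hi']
  refine ⟨by simp, ?_, ?_⟩
  · change (ctr P U F k L (.act ⟨a.1.1.1, h2⟩ p) (fun t => m (t, 0))).2.2 = none
    rw [e]
  · change (if (0 : ℕ) = 0 then (ctr P U F k L (.act ⟨a.1.1.1, h2⟩ p)
      (fun t => m (t, 0))).1 .o else m (.o, 0)) = false
    rw [e]
    rfl

end Pool.Agent.Helper91.MP
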