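import Pool.Agent.Helper91.MP.MacD

/-!
# Chapter MP: final assembly
-/

set_option autoImplicit false

open Ordinal Order

namespace Pool.Agent.Helper91.MP

open Pool.Agent.Helper25.EV

/-- some stage `≥ α` satisfies `Q`, all stages before satisfy `G` -/
def Rch (C : Proc) (G : C.S → Prop) (c : C.S) (α : Ordinal.{0}) (Q : C.S → Prop) : Prop :=
  ∃ β : Ordinal.{0}, α ≤ β ∧ Q (C.run c β) ∧ ∀ γ < β, G (C.run c γ)

theorem Rch.mono {C : Proc} {G : C.S → Prop} {c : C.S} {α : Ordinal.{0}} {Q Q' : C.S → Prop}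
    (h : Rch C G c α Q) (hQ : ∀ s, Q s → Q' s) : Rch C G c α Q' := by
  obtain ⟨β, h1, h2, h3⟩ := h
  exact ⟨β, h1, hQ _ h2, h3⟩

theorem off (t2 : StT2) {C : Proc} {G : C.S → Prop} {c c' : C.S} (hs : Seg C G c c')
    {α : Ordinal.{0}} {Q : C.S → Prop} (h : Rch C G c' α Q) : Rch C G c α Q := by
  obtain ⟨δ, h1, h2⟩ := hs
  obtain ⟨β, h3, h4, h5⟩ := h
  refine ⟨δ + β, h3.trans le_add_self, ?_, ?_⟩
  · rw [t2, h1]; exact h4
  · intro γ hγ
    rcases lt_or_ge γ δ with h6 | h6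
    · exact h2 γ h6
    · obtain ⟨γ', rfl⟩ : ∃ γ', γ = δ + γ' := ⟨γ - δ, (Ordinal.add_sub_cancel_of_le h6).symm⟩
      rw [t2, h1]
      exact h5 γ' (lt_of_add_lt_add_left hγ)

theorem offA (t2 : StT2) {C : Proc} {G : C.S → Prop} {c c' : C.S} (hs : Seg C G c c')
    (h : ∀ γ, G (C.run c' γ)) : ∀ γ, G (C.run c γ) := by
  obtain ⟨δ, h1, h2⟩ := hs
  intro γ
  rcases lt_or_ge γ δ with h6 | h6
  · exact h2 γ h6
  · obtain ⟨γ', rfl⟩ : ∃ γ', γ = δ + γ' := ⟨γ - δ, (Ordinal.add_sub_cancel_of_le h6).symm⟩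
    rw [t2, h1]
    exact h γ'

theorem simR (t3 : StT3) {A C : Proc} {cor : A.I → C.I → Prop} {fl : Set C.I}
    {cs : C.I → Option Bool} {live : A.S → Prop} {sf : C.S → Prop} {Rel : A.S → C.S → Prop}
    (hS : Sim A C cor fl cs live sf Rel) {a : A.S} {c : C.S} (hac : Rel a c) {α : Ordinal.{0}}
    {Q : A.S → Prop} (h : Rch A live a α Q) : Rch C sf c α fun s => ∃ s', Q s' ∧ Rel s' s := by
  obtain ⟨β, h3, h4, h5⟩ := h
  obtain ⟨β', h6, h7, h8⟩ := (t3 A C cor fl cs live sf Rel hS a c hac).1 β h5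
  exact ⟨β', h3.trans h6, ⟨_, h4, h7⟩, fun γ hγ => (h8 γ hγ).1⟩

theorem simA (t3 : StT3) {A C : Proc} {cor : A.I → C.I → Prop} {fl : Set C.I}
    {cs : C.I → Option Bool} {live : A.S → Prop} {sf : C.S → Prop} {Rel : A.S → C.S → Prop}
    (hS : Sim A C cor fl cs live sf Rel) {a : A.S} {c : C.S} (hac : Rel a c)
    (h : ∀ γ, live (A.run a γ)) : ∀ γ, sf (C.run c γ) ∧ Oks cs (C.bit (C.run c γ)) := by
  intro γ
  obtain ⟨β', h6, -, h8⟩ := (t3 A C cor fl cs live sf Rel hS a c hac).1 (γ + 1) fun _ _ => h _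
  exact h8 γ (lt_of_lt_of_le (lt_add_one γ) h6)

/-- the positions of the tracks in a block -/
theorem exists_iota {Lb : Type} [DecidableEq Lb] (V : Finset (JJ Lb)) (k : ℕ)
    (hV : ∀ r, JJ.inp r ∉ V) :
    ∃ ι : Trk (V ∪ (Finset.range (V.card + k + 2 + 2)).image JJ.inp) k →
        Fin 3 × Fin (V.card + k + 2 + 2), Function.Injective ι ∧
      (∀ (r : ℕ) (hr : r < V.card + k + 2 + 2) (h : JJ.inp r ∈ V ∪
          (Finset.range (V.card + k + 2 + 2)).image JJ.inp), ι (.arr ⟨.inp r, h⟩) = (0, ⟨r, hr⟩)) ∧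
      (∀ j, (ι (.cnt j)).1 = 1) ∧ (ι .e).1 = 1 ∧ (ι .f).1 = 1 ∧ ι .o = (2, 0) := by
  classical
  have key : ∀ i : {i // i ∈ V ∪ (Finset.range (V.card + k + 2 + 2)).image JJ.inp},
      ∃ p : Fin 3 × Fin (V.card + k + 2 + 2),
      (∀ h : i.1 ∈ V, p.1 = 1 ∧ p.2.1 = (V.equivFin ⟨i.1, h⟩).1) ∧
      (∀ (r : ℕ), i.1 = .inp r → r < V.card + k + 2 + 2 ∧ p.1 = 0 ∧ p.2.1 = r) := by
    rintro ⟨i, hi⟩
    rw [Finset.mem_union] at hi
    by_cases h : i ∈ V
    · refine ⟨(1, ⟨(V.equivFin ⟨i, h⟩).1, by have := (V.equivFin ⟨i, h⟩).2; omega⟩), ?_, ?_⟩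
      · intro h'; exact ⟨rfl, rfl⟩
      · intro r hr; simp only at hr; exact absurd (hr ▸ h) (hV r)
    · rcases hi with hi | hi
      · exact absurd hi h
      · rw [Finset.mem_image] at hi
        obtain ⟨r, hr, rfl⟩ := hi
        rw [Finset.mem_range] at hr
        refine ⟨(0, ⟨r, hr⟩), fun h' => absurd h' h, ?_⟩
        intro r' hr'
        simp only [JJ.inp.injEq] at hr'
        subst hr'
        exact ⟨hr, rfl, rfl⟩
  choose pos hpos1 hpos2 using key
  have hcase : ∀ i : {i // i ∈ V ∪ (Finset.range (V.card + k + 2 + 2)).image JJ.inp},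
      i.1 ∈ V ∨ ∃ r, i.1 = .inp r := by
    rintro ⟨i, hi⟩
    rw [Finset.mem_union, Finset.mem_image] at hi
    rcases hi with hi | ⟨r, _, hr⟩
    · exact Or.inl hi
    · exact Or.inr ⟨r, hr.symm⟩
  have hlt : ∀ x : {x // x ∈ V}, (V.equivFin x).1 < V.card := fun x => (V.equivFin x).2
  have h2 : ∀ i, (pos i).1 ≠ 2 := by
    intro i h
    rcases hcase i with h' | ⟨r, h'⟩
    · rw [(hpos1 i h').1] at h; exact absurd h (by decide)
    · rw [(hpos2 i r h').2.1] at h; exact absurd h (by decide)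
  have h1 : ∀ i, (pos i).1 = 1 → (pos i).2.1 < V.card := by
    intro i h
    rcases hcase i with h' | ⟨r, h'⟩
    · rw [(hpos1 i h').2]; exact hlt _
    · rw [(hpos2 i r h').2.1] at h; exact absurd h (by decide)
  let ι : Trk (V ∪ (Finset.range (V.card + k + 2 + 2)).image JJ.inp) k →
      Fin 3 × Fin (V.card + k + 2 + 2) := fun t => match t with
    | .arr i => pos i
    | .cnt j => (1, ⟨V.card + j.1, by omega⟩)
    | .e => (1, ⟨V.card + k, by omega⟩)
    | .f => (1, ⟨V.card + k + 1, by omega⟩)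
    | .o => (2, 0)
  refine ⟨ι, ?_, ?_, fun j => rfl, rfl, rfl, rfl⟩
  · have hinj : ∀ i j, pos i = pos j → i = j := by
      intro i j hij
      rcases hcase i with h' | ⟨r, h'⟩
      · rcases hcase j with h'' | ⟨r', h''⟩
        · have e1 := (hpos1 i h').2
          have e2 := (hpos1 j h'').2
          rw [hij, e2] at e1
          have e3 := V.equivFin.injective (Fin.ext e1)
          exact Subtype.ext (Subtype.mk.inj e3).symm
        · have e1 := (hpos1 i h').1
          have e2 := (hpos2 j r' h'').2.1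
          rw [hij, e2] at e1
          exact absurd e1 (by decide)
      · rcases hcase j with h'' | ⟨r', h''⟩
        · have e1 := (hpos1 j h'').1
          have e2 := (hpos2 i r h').2.1
          rw [hij, e1] at e2
          exact absurd e2 (by decide)
        · have e1 := (hpos2 i r h').2.2
          have e2 := (hpos2 j r' h'').2.2
          rw [hij, e2] at e1
          exact Subtype.ext (by rw [h', h'', e1])
    have cl : ∀ i (m : ℕ) (hm : m < V.card + k + 2 + 2), V.card ≤ m → pos i ≠ (1, ⟨m, hm⟩) := by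
      intro i m hm hm' h
      have := h1 i (by rw [h])
      rw [h] at this
      simp only at this
      omega
    intro s t hst
    cases s <;> cases t <;> simp only [ι] at hst
    · exact congrArg _ (hinj _ _ hst)
    · exact absurd hst (cl _ _ _ (by omega))
    · exact absurd hst (cl _ _ _ (by omega))
    · exact absurd hst (cl _ _ _ (by omega))
    · exact absurd (congrArg Prod.fst hst) (h2 _)
    · exact absurd hst.symm (cl _ _ _ (by omega))
    · congr 1
      simp only [Prod.mk.injEq, Fin.mk.injEq, true_and] at hst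
      exact Fin.ext (by omega)
    · simp only [Prod.mk.injEq, Fin.mk.injEq, true_and] at hst
      omega
    · simp only [Prod.mk.injEq, Fin.mk.injEq, true_and] at hst
      omega
    · have h3 := congrArg Prod.fst hst
      simp at h3
    · exact absurd hst.symm (cl _ _ _ (by omega))
    · simp only [Prod.mk.injEq, Fin.mk.injEq, true_and] at hst
      omega
    · rfl
    · simp only [Prod.mk.injEq, Fin.mk.injEq, true_and] at hst
      omega
    · have h3 := congrArg Prod.fst hst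
      simp at h3
    · exact absurd hst.symm (cl _ _ _ (by omega))
    · simp only [Prod.mk.injEq, Fin.mk.injEq, true_and] at hst
      omega
    · simp only [Prod.mk.injEq, Fin.mk.injEq, true_and] at hst
      omega
    · rfl
    · have h3 := congrArg Prod.fst hst
      simp at h3
    · exact absurd (congrArg Prod.fst hst.symm) (h2 _)
    · have h3 := congrArg Prod.fst hst
      simp at h3
    · have h3 := congrArg Prod.fst hst
      simp at h3
    · have h3 := congrArg Prod.fst hst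
      simp at h3
    · rfl
  · intro r hr h
    obtain ⟨_, e1, e2⟩ := hpos2 ⟨.inp r, h⟩ r rfl
    exact Prod.ext e1 (Fin.ext e2)

theorem exists_iota' {Lb : Type} [DecidableEq Lb] (V : Finset (JJ Lb)) (k : ℕ)
    (hV : ∀ r, JJ.inp r ∉ V) :
    ∃ b : ℕ, ∀ U' : Finset (JJ Lb), U' = V ∪ (Finset.range (b + 2)).image JJ.inp →
      ∃ ι : Trk U' k → Fin 3 × Fin (b + 2), Function.Injective ι ∧
      (∀ (r : ℕ) (hr : r < b + 2) (h : JJ.inp r ∈ U'), ι (.arr ⟨.inp r, h⟩) = (0, ⟨r, hr⟩)) ∧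
      (∀ j, (ι (.cnt j)).1 = 1) ∧ (ι .e).1 = 1 ∧ (ι .f).1 = 1 ∧ ι .o = (2, 0) := by
  refine ⟨V.card + k + 2, ?_⟩
  rintro U' rfl
  exact exists_iota V k hV

open Classical in
theorem exists_g (r6 : StR6) (Lb : Type) [DecidableEq Lb] :
    ∃ g : (ℕ → ℕ) → Com (JJ Lb), Gok g := by
  refine ⟨fun f => if h : Primrec f then (r6 (JJ Lb) f h).choose else .skip, ?_⟩
  intro f hf
  simp only [hf, dif_pos]
  obtain ⟨k, h1, h2, h3⟩ := (r6 (JJ Lb) f hf).choose_spec
  exact ⟨⟨k, h1⟩, h2, h3⟩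

/-- the assembly -/
theorem pf_Final (t2 : StT2) (t3 : StT3) (t5 : StT5) (t6 : StT6) (t1 : StT1) (h : StH) (g : StG)
    (c0 : StC0) (ch : StCh) (c : StC) (r6 : StR6) (p2 : StP2) (p5 : StP5) (p : StP) (ph : StPh)
    (o7 : StO7) (o8 : StO8) (o9 : StO9) (M : Macro) (hM : M.ok) : ∃ p : Prog, Compiled M p := by
  classical
  obtain ⟨F, U, hF⟩ := o9 M hM
  obtain ⟨g', hg⟩ := exists_g r6 (Bt × ℕ)
  obtain ⟨V, k, hV1, hV2, hV3⟩ := p5 (Bt × ℕ) (mopm M) F U g' hF hg
  obtain ⟨b, hb⟩ := exists_iota' V k hV2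
  obtain ⟨L, hL⟩ := hV3 (b + 2)
  obtain ⟨U', hU'⟩ : ∃ U', U' = V ∪ (Finset.range (b + 2)).image JJ.inp := ⟨_, rfl⟩
  rw [← hU'] at hL
  obtain ⟨ι, hι, hι1, hι2, hι3, hι4, hι5⟩ := hb U' hU'
  obtain ⟨F', hF'⟩ : ∃ F' : Finset (BB (Bt × ℕ)), F' = insert .lm (F.image .lab) := ⟨_, rfl⟩
  rw [← hF'] at hL
  let P := (mopm M).cam F.toList (b + 2) g'
  let MM := P.mach U' F' k L
  obtain ⟨pr, hp⟩ := h (MM.grp b ι)
  refine ⟨pr, ?_⟩
  intro y
  -- initial states
  let m0 : Trk U' k × ℕ → Bool := fun i => inp3 y ((ι i.1).1, (b + 2) * i.2 + (ι i.1).2.1)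
  let m3 : JJ (Bt × ℕ) × ℕ → Bool := fun i => if h : i.1 ∈ U' then m0 (.arr ⟨i.1, h⟩, i.2) else false
  have hR4 : RelG MM b ι (MM.ini m0) ((MM.grp b ι).ini (inp3 y)) := by
    refine ⟨fun k n => rfl, ?_⟩
    show (some (GQ.rd MM.start 0 (fun _ => false)), 0) = (some (GQ.rd MM.start 0 (fun _ => false)), (b + 2) * 0)
    rw [mul_zero]
  have hR3 : RelC P U' F' k L ((P.start, fun _ => 0), m3) (MM.proc.next (MM.ini m0)) := by
    refine c0 _ _ P U' F' k L hL m3 m0 ?_ ?_ ?_ ?_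
    · intro i hi n
      simp only [m3, hi, dif_pos]
    · intro j n
      simp only [m0, inp3, hι2 j]
      rfl
    · intro n
      simp only [m0, inp3, hι3]
      rfl
    · intro n
      simp only [m0, inp3, hι4]
      rfl
  have hPk : Pk (b + 2) y m3 := by
    intro r hr n
    have h1 : JJ.inp r ∈ U' := by
      rw [hU', Finset.mem_union, Finset.mem_image]
      exact Or.inr ⟨r, Finset.mem_range.2 hr, rfl⟩
    simp only [m3, h1, dif_pos, m0, inp3, hι1 r hr h1]
    rfl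
  obtain ⟨n, hR2, hn1, -, -⟩ := p2 (Bt × ℕ) (mopm M) F.toList (b + 2) g' y (mopm M).start m3
    (Finset.mem_toList.2 hF.start) hPk
  obtain ⟨c1, hR1, hs1⟩ := o8 M hM y (tabl m3)
  -- segments
  have hs4 : Seg MM.proc (fun s => s.1.1 ≠ none) (MM.ini m0) (MM.proc.next (MM.ini m0)) :=
    (t5 MM.proc _).2.2.1 _ (by simp [Mach.ini])
  have hs3 : Seg P.proc (fun s => P.ins s.1.1 ≠ .hlt) ((P.start, fun _ => 0), m3)
      (P.proc.next^[n] ((P.start, fun _ => 0), m3)) :=
    (t5 P.proc _).2.2.2.1 _ n hn1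
  have S1 := o7 M hM y
  have S2 := p (Bt × ℕ) (mopm M) F U (b + 2) g' y hF hg (by omega)
  have S3 := c _ _ P U' F' k L hL
  have S4 := g _ MM b ι hι
  constructor
  · -- never halting
    intro hnev
    have A1 : ∀ γ, (0 : ℕ) ∉ (show Set ℕ from (macProc M).run (execs M.init (setOf' y)) γ) := by
      intro γ
      have := hnev γ
      rw [← t6] at this
      exact this
    have A2 : ∀ γ, (mopm M).code (((mopm M).proc y).run ((mopm M).start, tabl m3) γ).1 ≠ none :=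
      offA t2 hs1 fun γ => (simA t3 S1 hR1 A1 γ).1
    have A3 : ∀ γ, P.ins (P.proc.run ((P.start, fun _ => 0), m3) γ).1.1 ≠ .hlt :=
      offA t2 hs3 fun γ => (simA t3 S2 hR2 A2 γ).1
    have A4' := fun γ => simA t3 S3 hR3 A3 γ
    have A4 : ∀ γ, (MM.proc.run (MM.ini m0) γ).1.1 ≠ none :=
      offA t2 hs4 fun γ => (A4' γ).1
    have A5 : ∀ γ, ((MM.grp b ι).proc.run ((MM.grp b ι).ini (inp3 y)) γ).1.1 ≠ none :=
      fun γ => (simA t3 S4 hR4 A4 γ).1
    obtain ⟨β₀, hβ₀⟩ := (t3 _ _ _ _ _ _ _ _ S4 _ _ hR4).2 A4 (.o, 0) (2, 0)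
      (by simp [corG, hι5]) ⟨1, by
        intro α hα
        have h1 := (A4' (α - 1)).2 (.o, 0) true rfl
        have h2 : MM.proc.run (MM.ini m0) 1 = MM.proc.next (MM.ini m0) := by
          have := (t1 MM.proc (MM.ini m0)).2.1 0
          rw [zero_add, (t1 MM.proc (MM.ini m0)).1] at this
          exact this
        have h3 := t2 MM.proc (MM.ini m0) 1 (α - 1)
        rw [Ordinal.add_sub_cancel_of_le hα, h2] at h3
        rw [h3]
        exact h1⟩
    refine ⟨β₀, fun β hβ => ?_⟩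
    obtain ⟨h1, h2⟩ := hp y β fun γ _ => A5 γ
    refine ⟨fun h3 => A5 β (h1.1 h3), ?_⟩
    rw [h2 0]
    exact hβ₀ β hβ
  · -- halting
    intro t ht hmin
    have B1 : Rch (macProc M) (fun X : Set ℕ => 0 ∉ X) (execs M.init (setOf' y)) t
        (fun X : Set ℕ => 0 ∈ X) := by
      refine ⟨t, le_rfl, ?_, fun γ hγ => ?_⟩
      · rw [t6]; exact ht
      · rw [t6]; exact hmin γ hγ
    have B2 : Rch ((mopm M).proc y) (fun s => (mopm M).code s.1 ≠ none) ((mopm M).start, tabl m3) t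
        (fun s => (mopm M).code s.1 = none) := by
      refine (off t2 hs1 (simR t3 S1 hR1 B1)).mono ?_
      rintro s ⟨X, hX, hs⟩
      rw [hs.1, if_pos hX]
      rfl
    have B3 : Rch P.proc (fun s => P.ins s.1.1 ≠ .hlt) ((P.start, fun _ => 0), m3) t
        (fun s => P.ins s.1.1 = .hlt) := by
      refine (off t2 hs3 (simR t3 S2 hR2 B2)).mono ?_
      rintro s ⟨X, hX, hs⟩
      exact ph _ _ _ _ _ y X s hs hX
    have B4' := simR t3 S3 hR3 B3
    have B4 : Rch MM.proc (fun s => s.1.1 ≠ none) (MM.proc.next (MM.ini m0)) t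
        (fun s => s.1.1 = none ∧ s.2 (.o, 0) = false) := by
      obtain ⟨β, h1, ⟨s', hs', hs⟩, h3⟩ := B4'
      obtain ⟨h4, h5, h6⟩ := ch _ _ P U' F' k L hL _ _ hs hs'
      refine ⟨β + 1, h1.trans (le_self_add), ?_, fun γ hγ => ?_⟩
      · rw [(t1 MM.proc _).2.1]
        exact ⟨h5, h6⟩
      · rcases (Order.lt_add_one_iff.1 hγ).lt_or_eq with h7 | h7
        · exact h3 γ h7
        · rw [h7]; exact h4
    have B5 := simR t3 S4 hR4 (off t2 hs4 B4)
    obtain ⟨α, h1, ⟨s', ⟨hs1', hs2'⟩, hs⟩, h3⟩ := B5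
    have h4 := fun γ (hγ : γ ≤ α) => hp y γ fun γ' hγ' => h3 γ' (lt_of_lt_of_le hγ' hγ)
    refine ⟨α, h1, ?_, ?_, ?_⟩
    · refine (h4 α le_rfl).1.2 ?_
      have := hs.2
      rw [hs1'] at this
      exact this
    · intro β hβ h5
      exact h3 β hβ ((h4 β hβ.le).1.1 h5)
    · rw [(h4 α le_rfl).2 0]
      have := hs.1 .o 0
      rw [hs2', hι5] at this
      exact this

end Pool.Agent.Helper91.MP
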