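import Pool.Agent.Helper91.MP.MachD

set_option autoImplicit false

open Ordinal Order

namespace Pool.Agent.Helper91.MP

open Pool.Agent.Helper25.EV

theorem pf_G : StT4 → StG1 → StG2 → StG3 → StG := by
  intro t4 g1 g2 g3 κ M b ι hι
  constructor
  · rintro a c hR i j hij
    rw [corG] at hij
    rw [hij]
    exact hR.1 i.1 i.2
  · rintro ⟨⟨q, n⟩, ma⟩ ⟨c1, mc⟩ ⟨hR1, hR2⟩ hl
    obtain ⟨q, rfl⟩ := Option.ne_none_iff_exists'.1 hl
    simp only at hR1 hR2
    subst hR2
    obtain ⟨u, hu⟩ : ∃ u : Blk b, u = fun y => mc (y.1, (b + 2) * n + y.2.1) := ⟨_, rfl⟩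
    have hu' : ∀ i r, u (i, r) = mc (i, (b + 2) * n + r.1) := fun i r => by rw [hu]
    have hut : (fun k => u (ι k)) = fun k => ma (k, n) := by
      funext k
      rw [hu]
      exact hR1 k n
    obtain ⟨w, hw⟩ : ∃ w : Blk b, w = Function.extend ι (M.tr q fun k => u (ι k)).1 u := ⟨_, rfl⟩
    have hwt : ∀ k, w (ι k) = (M.tr q fun k => ma (k, n)).1 k := by
      intro k
      rw [hw, hι.extend_apply, hut]
    -- bits of the tracks
    have hnew : ∀ k z, (M.proc.next ((some q, n), ma)).2 (k, z) =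
        if z = n then (M.tr q fun k => ma (k, n)).1 k else ma (k, z) := fun k z => rfl
    have hblk : ∀ (k : κ) (z r : ℕ), blkw b n w r mc ((ι k).1, (b + 2) * z + (ι k).2.1) =
        if z = n ∧ r ≤ (ι k).2.1 then (M.tr q fun k => ma (k, n)).1 k else ma (k, z) := by
      intro k z r
      have h1 := (ι k).2.2
      simp only [blkw]
      by_cases hz : z = n
      · subst hz
        by_cases hr : r ≤ (ι k).2.1
        · rw [if_pos ⟨rfl, hr⟩, dif_pos (by omega), ← hwt k]
          congr 2
          refine Fin.ext ?_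
          simp
        · rw [if_neg (fun h => hr h.2), dif_neg (by omega)]
          exact hR1 k z
      · rw [if_neg (fun h => hz h.1), dif_neg]
        · exact hR1 k z
        · rintro ⟨h2, h3⟩
          apply hz
          rcases lt_trichotomy z n with h4 | h4 | h4
          · have := Nat.mul_le_mul_left (b + 2) (Nat.succ_le_of_lt h4)
            rw [Nat.succ_eq_add_one, Nat.mul_add] at this
            omega
          · exact h4
          · have := Nat.mul_le_mul_left (b + 2) (Nat.succ_le_of_lt h4)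
            rw [Nat.succ_eq_add_one, Nat.mul_add] at this
            omega
    have hmid : ∀ (k : κ) (z r : ℕ), blkw b n w r mc ((ι k).1, (b + 2) * z + (ι k).2.1) = ma (k, z) ∨
        blkw b n w r mc ((ι k).1, (b + 2) * z + (ι k).2.1) =
          (M.proc.next ((some q, n), ma)).2 (k, z) := by
      intro k z r
      rw [hblk, hnew]
      split_ifs with h1 h2 h2
      · exact Or.inr rfl
      · exact absurd h1.1 h2
      · exact Or.inl rfl
      · exact Or.inl rfl
    have hend : ∀ (k : κ) (z : ℕ), blkw b n w 0 mc ((ι k).1, (b + 2) * z + (ι k).2.1) =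
          (M.proc.next ((some q, n), ma)).2 (k, z) := by
      intro k z
      rw [hblk, hnew]
      simp only [Nat.zero_le, and_true]
    have htop : blkw b n w (b + 2) mc = mc := by
      funext i
      rw [blkw, dif_neg (by omega)]
    -- the run
    obtain ⟨s0, hs0⟩ : ∃ s0 : MSt (M.grp b ι), s0 =
      ((some (GQ.rd q 0 (fun _ => false)), (b + 2) * n), mc) := ⟨_, rfl⟩
    have ph1 := g1 κ M b ι q n mc u hu'
    have ph2 := g2 κ M b ι q n mc u hu'
    rw [← hw, ← hs0] at *
    have h2s : (M.grp b ι).proc.next^[b + 1 + (b + 1)] s0 =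
        ((some (GQ.wr (M.tr q fun k => u (ι k)).2.2 (M.tr q fun k => u (ι k)).2.1 w 0),
          (b + 2) * n), blkw b n w 1 mc) := by
      rw [Function.iterate_add_apply, ph1.1, ph2 (b + 1) (by omega) le_rfl]
      have e1 : b + 2 - (b + 1) = 1 := by omega
      have e2 : (b + 2) * n + (b + 1 - (b + 1)) = (b + 2) * n := by omega
      have e3 : (⟨b + 1 - (b + 1), by omega⟩ : Fin (b + 2)) = 0 := Fin.ext (by simp)
      rw [e1, e2, e3]
    have hmids : ∀ k ≤ b + 1 + (b + 1), ∃ (s : GQ M.Q b × ℕ) (r : ℕ),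
        (M.grp b ι).proc.next^[k] s0 = ((some s.1, s.2), blkw b n w r mc) := by
      intro k hk
      by_cases h1 : k ≤ b + 1
      · obtain ⟨s, hs⟩ := ph1.2 k h1
        exact ⟨s, b + 2, by rw [hs, htop]⟩
      · obtain ⟨j, rfl⟩ : ∃ j, k = j + (b + 1) := ⟨k - (b + 1), by omega⟩
        rw [Function.iterate_add_apply, ph1.1, ph2 j (by omega) (by omega)]
        exact ⟨(_, _), _, rfl⟩
    -- conclusion from the number of steps
    have fin : ∀ N, (∀ k < N + 1, ∃ (s : GQ M.Q b × ℕ) (r : ℕ),
        (M.grp b ι).proc.next^[k] s0 = ((some s.1, s.2), blkw b n w r mc)) →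
        RelG M b ι (M.proc.next ((some q, n), ma)) ((M.grp b ι).proc.next^[N + 1] s0) →
        ∃ β : Ordinal.{0}, 0 < β ∧ RelG M b ι (M.proc.next ((some q, n), ma))
            ((M.grp b ι).proc.run s0 β) ∧
          (∀ γ < β, ((M.grp b ι).proc.run s0 γ).1.1 ≠ none ∧
            Oks (fun _ => none) ((M.grp b ι).proc.bit ((M.grp b ι).proc.run s0 γ)) ∧
            ∀ i j, corG b ι i j →
            ((M.grp b ι).proc.bit ((M.grp b ι).proc.run s0 γ) j = M.proc.bit ((some q, n), ma) i ∨
              (M.grp b ι).proc.bit ((M.grp b ι).proc.run s0 γ) j =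
                M.proc.bit (M.proc.next ((some q, n), ma)) i)) ∧
          ∀ f ∈ (∅ : Set (Fin 3 × ℕ)), ∃ γ < β,
            (M.grp b ι).proc.bit ((M.grp b ι).proc.run s0 γ) f = true := by
      intro N hN1 hN2
      refine ⟨((N + 1 : ℕ) : Ordinal.{0}), by exact_mod_cast Nat.succ_pos N, ?_, ?_, ?_⟩
      · rw [(t4 _ _).1]; exact hN2
      · intro γ hγ
        obtain ⟨k, rfl⟩ := Ordinal.lt_omega0.1 (hγ.trans (Ordinal.natCast_lt_omega0 _))
        have hk : k < N + 1 := by exact_mod_cast hγ
        obtain ⟨s, r, hs⟩ := hN1 k hk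
        rw [(t4 _ _).1, hs]
        refine ⟨by simp, fun i b h => absurd h (by simp), ?_⟩
        rintro ⟨i, z⟩ j hij
        rw [corG] at hij
        rw [hij]
        exact hmid i z r
      · intro f hf
        exact absurd hf (Set.notMem_empty f)
    rcases ht : (M.tr q fun k => u (ι k)).2.2 with _ | q'
    · obtain ⟨h, hh⟩ := (g3 κ M b ι (M.tr q fun k => u (ι k)).2.1 n mc w).2
      rw [ht] at h2s
      have e1 : (M.grp b ι).proc.next^[b + 1 + (b + 1) + 1] s0 = ((none, h), blkw b n w 0 mc) := by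
        rw [Function.iterate_succ_apply', h2s, hh]
      refine fin (b + 1 + (b + 1)) (fun k hk => hmids k (by omega)) ?_
      rw [e1]
      refine ⟨hend, ?_⟩
      have : (M.proc.next ((some q, n), ma)).1.1 = none := by
        show (M.tr q fun k => ma (k, n)).2.2 = none
        rw [← hut, ht]
      rw [this]
    · obtain ⟨h1, h2⟩ := (g3 κ M b ι (M.tr q fun k => u (ι k)).2.1 n mc w).1 q'
      rw [ht] at h2s
      have e1 : ∀ k, (M.grp b ι).proc.next^[k + (b + 1 + (b + 1))] s0 =
          (M.grp b ι).proc.next^[k] ((some (GQ.wr (some q') (M.tr q fun k => u (ι k)).2.1 w 0),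
          (b + 2) * n), blkw b n w 1 mc) := by
        intro k
        rw [Function.iterate_add_apply, h2s]
      refine fin (b + 1 + (b + 1 + (b + 1))) (fun k hk => ?_) ?_
      · by_cases h3 : k ≤ b + 1 + (b + 1)
        · exact hmids k h3
        · obtain ⟨j, rfl⟩ : ∃ j, k = j + (b + 1 + (b + 1)) := ⟨k - (b + 1 + (b + 1)), by omega⟩
          rw [e1]
          obtain ⟨s, hs⟩ := h2 j (by omega) (by omega)
          exact ⟨s, 0, hs⟩
      · have e2 := e1 (b + 2)
        rw [show b + 2 + (b + 1 + (b + 1)) = b + 1 + (b + 1 + (b + 1)) + 1 by omega] at e2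
        rw [e2, h1]
        refine ⟨hend, ?_⟩
        have e3 : (M.proc.next ((some q, n), ma)).1 = (some q',
            if (M.tr q fun k => ma (k, n)).2.1 then n + 1 else n - 1) := by
          show ((M.tr q fun k => ma (k, n)).2.2, _) = _
          rw [← hut, ht]
        rw [e3, ← hut]
  · intro m m' h1 _ _
    refine ⟨0, ?_, fun γ hγ => absurd hγ not_lt_bot⟩
    have h0 := (t4 (M.grp b ι).proc ((M.grp b ι).proc.post m')).1 0
    rw [Nat.cast_zero] at h0
    rw [h0]
    refine ⟨fun k n => h1 (k, n) _ rfl, ?_⟩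
    show (some (GQ.rd M.lim 0 (fun _ => false)), 0) = (some (GQ.rd M.lim 0 (fun _ => false)), (b + 2) * 0)
    rw [mul_zero]

end Pool.Agent.Helper91.MP
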