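import Pool.Agent.Helper91.MP.MachD

set_option autoImplicit false

open Ordinal Order

namespace Pool.Agent.Helper91.MP

open Pool.Agent.Helper25.EV

theorem grp_next {κ : Type} (M : Mach κ) (b : ℕ) (ι : κ → Fin 3 × Fin (b + 2)) (q : GQ M.Q b)
    (h : ℕ) (m : Fin 3 × ℕ → Bool) :
    (M.grp b ι).proc.next ((some q, h), m) =
      (((gtr M b ι q (fun k => m (k, h))).2.2,
        if (gtr M b ι q (fun k => m (k, h))).2.1 then h + 1 else h - 1),
        fun i => if i.2 = h then (gtr M b ι q (fun k => m (k, h))).1 i.1 else m i) := rfl

theorem pf_G1 : StG1 := by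
  intro κ M b ι q n m u hu
  have key : ∀ (k : ℕ) (hk : k ≤ b + 1),
      (M.grp b ι).proc.next^[k] ((some (GQ.rd q 0 (fun _ => false)), (b + 2) * n), m) =
      ((some (GQ.rd q ⟨k, by omega⟩ (fun y => if y.2.1 < k then u y else false)),
        (b + 2) * n + k), m) := by
    intro k
    induction k with
    | zero =>
      intro _
      simp only [Function.iterate_zero, id_eq, Nat.not_lt_zero, if_false, add_zero]
      rfl
    | succ k ih =>
      intro hk
      rw [Function.iterate_succ_apply', ih (by omega), grp_next]
      have h1 : k + 1 < b + 2 := by omega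
      simp only [gtr, h1, dif_pos, if_true]
      refine Prod.ext (Prod.ext ?_ ?_) ?_
      · simp only [Option.some.injEq, GQ.rd.injEq, true_and]
        funext y
        obtain ⟨i, r⟩ := y
        simp only [Fin.ext_iff]
        by_cases h2 : r.1 = k
        · rw [if_pos h2, if_pos (by omega), hu i r, h2]
        · rw [if_neg h2]
          by_cases h3 : r.1 < k
          · rw [if_pos h3, if_pos (by omega)]
          · rw [if_neg h3, if_neg (by omega)]
      · simp only [add_assoc]
      · funext i
        simp only
        split_ifs with h2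
        · rw [← h2]
        · rfl
  refine ⟨?_, ?_⟩
  · rw [key (b + 1) le_rfl]
    have h3 : (fun y : Fin 3 × Fin (b + 2) => if y.2.1 < b + 1 then u y else false) =
        fun y => if y.2 = Fin.last (b + 1) then false else u y := by
      funext y
      obtain ⟨i, r⟩ := y
      simp only [Fin.ext_iff, Fin.val_last]
      have := r.2
      by_cases h2 : r.1 = b + 1
      · rw [if_pos h2, if_neg (by omega)]
      · rw [if_neg h2, if_pos (by omega)]
    rw [h3]
    rfl
  · intro k hk
    exact ⟨(_, _), key k hk⟩

end Pool.Agent.Helper91.MP
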