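import Pool.Agent.Helper91.MP.M_G1

set_option autoImplicit false

open Ordinal Order

namespace Pool.Agent.Helper91.MP

open Pool.Agent.Helper25.EV

theorem blkw_step (b n : ℕ) (w : Blk b) (r : ℕ) (hr : r < b + 2) (m : Fin 3 × ℕ → Bool) :
    (fun i : Fin 3 × ℕ => if i.2 = (b + 2) * n + r then w (i.1, ⟨r, hr⟩) else
      blkw b n w (r + 1) m i) = blkw b n w r m := by
  funext i
  obtain ⟨i, z⟩ := i
  simp only [blkw]
  by_cases h1 : z = (b + 2) * n + r
  · rw [if_pos h1, dif_pos (by omega)]
    congr 3
    omega
  · rw [if_neg h1]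
    by_cases h2 : (b + 2) * n + r ≤ z ∧ z < (b + 2) * n + (b + 2)
    · rw [dif_pos h2, dif_pos (by omega)]
    · rw [dif_neg h2, dif_neg (by omega)]

theorem blkw_top (b n : ℕ) (w : Blk b) (m : Fin 3 × ℕ → Bool) :
    blkw b n w (b + 2) m = m := by
  funext i
  rw [blkw, dif_neg (by omega)]

theorem pf_G2 : StG2 := by
  intro κ M b ι q n m u hu k hk1 hk2
  induction k, hk1 using Nat.le_induction with
  | base =>
    have hu' : (fun y : Fin 3 × Fin (b + 2) => if y.2 = Fin.last (b + 1) then
        m (y.1, (b + 2) * n + (b + 1)) else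
        if y.2 = Fin.last (b + 1) then false else u y) = u := by
      funext y
      obtain ⟨i, r⟩ := y
      simp only
      split_ifs with h
      · rw [hu i r, h, Fin.val_last]
      · rfl
    have hg : gtr M b ι (GQ.rd q (Fin.last (b + 1))
          (fun y => if y.2 = Fin.last (b + 1) then false else u y))
          (fun k => m (k, (b + 2) * n + (b + 1))) =
        gwr (M.tr q fun k => u (ι k)).2.2 (M.tr q fun k => u (ι k)).2.1
          (Function.extend ι (M.tr q fun k => u (ι k)).1 u) (Fin.last (b + 1)) := by
      have hu2 : (fun k : κ => if (ι k).2 = Fin.last (b + 1) then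
          m ((ι k).1, (b + 2) * n + (b + 1)) else
          if (ι k).2 = Fin.last (b + 1) then false else u (ι k)) = fun k => u (ι k) := by
        funext k
        exact congrFun hu' (ι k)
      simp only [gtr, Fin.val_last, lt_self_iff_false, dif_neg, not_false_eq_true]
      rw [hu', hu2]
    rw [Function.iterate_one, grp_next, hg]
    simp only [gwr, Fin.val_last, Nat.add_eq_zero_iff, one_ne_zero, and_false, if_false]
    refine Prod.ext (Prod.ext rfl rfl) ?_
    simp only
    have h1 := blkw_step b n (Function.extend ι (M.tr q fun k => u (ι k)).1 u) (b + 1) (by omega) m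
    have h0 : ∀ w : Blk b, blkw b n w (b + 1 + 1) m = m := fun w => blkw_top b n w m
    simp only [h0] at h1
    exact h1
  | succ k hk ih =>
    rw [Function.iterate_succ_apply', ih (by omega), grp_next]
    have h2 : b + 1 - k ≠ 0 := by omega
    simp only [gtr, gwr, h2, if_false]
    refine Prod.ext (Prod.ext ?_ ?_) ?_
    · simp only [Option.some.injEq, GQ.wr.injEq, true_and, Fin.mk.injEq]
      omega
    · simp only [Bool.false_eq_true, if_false]
      omega
    · simp only
      have h1 := blkw_step b n (Function.extend ι (M.tr q fun k => u (ι k)).1 u) (b + 1 - k)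
        (by omega) m
      rw [show b + 2 - (k + 1) = b + 1 - k by omega, ← h1, show b + 2 - k = b + 1 - k + 1 by omega]

end Pool.Agent.Helper91.MP
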