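import Pool.Agent.Helper91.MP.M_G2

set_option autoImplicit false

open Ordinal Order

namespace Pool.Agent.Helper91.MP

open Pool.Agent.Helper25.EV

theorem upd_same (m : Fin 3 × ℕ → Bool) (h : ℕ) :
    (fun i : Fin 3 × ℕ => if i.2 = h then m (i.1, h) else m i) = m := by
  funext i
  by_cases h2 : i.2 = h
  · rw [if_pos h2, ← h2]
  · rw [if_neg h2]

theorem blkw_zero_step (b n : ℕ) (w : Blk b) (m : Fin 3 × ℕ → Bool) :
    (fun i : Fin 3 × ℕ => if i.2 = (b + 2) * n then w (i.1, 0) else
      blkw b n w 1 m i) = blkw b n w 0 m := by
  have := blkw_step b n w 0 (by omega) m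
  simpa using this

theorem pf_G3 : StG3 := by
  intro κ M b ι d n m w
  constructor
  · intro q
    have first : (M.grp b ι).proc.next ((some (GQ.wr (some q) d w 0), (b + 2) * n), blkw b n w 1 m) =
        ((some (GQ.mv q d ⟨b, by omega⟩), if d then (b + 2) * n + 1 else (b + 2) * n - 1),
          blkw b n w 0 m) := by
      rw [grp_next]
      simp only [gtr, gwr, Fin.val_zero, if_true, Option.map_some]
      rw [blkw_zero_step]
    have key : ∀ j (hj : j ≤ b), (M.grp b ι).proc.next^[j + 1]
        ((some (GQ.wr (some q) d w 0), (b + 2) * n), blkw b n w 1 m) =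
        ((some (GQ.mv q d ⟨b - j, by omega⟩),
          if d then (b + 2) * n + (j + 1) else (b + 2) * n - (j + 1)), blkw b n w 0 m) := by
      intro j
      induction j with
      | zero => intro _; rw [Function.iterate_one, first]; rfl
      | succ j ih =>
        intro hj
        rw [Function.iterate_succ_apply', ih (by omega), grp_next]
        have h1 : b - j ≠ 0 := by omega
        simp only [gtr, h1, if_false]
        refine Prod.ext (Prod.ext ?_ ?_) ?_
        · simp only [Option.some.injEq, GQ.mv.injEq, true_and, Fin.mk.injEq]
          omega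
        · cases d
          · simp only [Bool.false_eq_true, if_false]; omega
          · simp only [if_true]; omega
        · exact upd_same _ _
    have last : (M.grp b ι).proc.next^[b + 2]
        ((some (GQ.wr (some q) d w 0), (b + 2) * n), blkw b n w 1 m) =
        ((some (GQ.rd q 0 (fun _ => false)), (b + 2) * (if d then n + 1 else n - 1)),
          blkw b n w 0 m) := by
      rw [Function.iterate_succ_apply', key b le_rfl, grp_next]
      simp only [gtr, Nat.sub_self, if_true]
      refine Prod.ext (Prod.ext rfl ?_) ?_
      · cases d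
        · simp only [Bool.false_eq_true, if_false]
          rw [Nat.mul_sub]; omega
        · simp only [if_true]
          rw [Nat.mul_add]; omega
      · exact upd_same _ _
    refine ⟨last, ?_⟩
    intro k hk1 hk2
    rcases hk2.lt_or_eq with h | h
    · obtain ⟨j, rfl⟩ : ∃ j, k = j + 1 := ⟨k - 1, by omega⟩
      exact ⟨(_, _), key j (by omega)⟩
    · rw [h]
      exact ⟨(_, _), last⟩
  · refine ⟨if d then (b + 2) * n + 1 else (b + 2) * n - 1, ?_⟩
    rw [grp_next]
    simp only [gtr, gwr, Fin.val_zero, if_true, Option.map_none]
    rw [blkw_zero_step]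

end Pool.Agent.Helper91.MP
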