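import Pool.Agent.Helper91.MP.MachD

set_option autoImplicit false

open Ordinal Order

namespace Pool.Agent.Helper91.MP

open Pool.Agent.Helper25.EV

theorem exists_num {Q : Type} [Finite Q] (a b : Q) (h : a ≠ b) :
    ∃ (n : ℕ) (e : Q ≃ Fin (n + 2)), e a = 0 ∧ e b = 1 := by
  classical
  obtain ⟨m, ⟨e⟩⟩ := Finite.exists_equiv_fin Q
  match m, e with
  | 0, e => exact (e a).elim0
  | 1, e => exact absurd (e.injective (Subsingleton.elim (e a) (e b))) h
  | n + 2, e =>
    refine ⟨n, (e.trans (Equiv.swap (e a) 0)).trans (Equiv.swap ((Equiv.swap (e a) 0) (e b)) 1), ?_, ?_⟩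
    · simp only [Equiv.trans_apply, Equiv.swap_apply_left]
      refine Equiv.swap_apply_of_ne_of_ne ?_ (by simp)
      intro h1
      have h2 := congrArg (Equiv.swap (e a) 0) h1
      rw [Equiv.swap_apply_right, Equiv.swap_apply_self] at h2
      exact h (e.injective h2)
    · simp only [Equiv.trans_apply, Equiv.swap_apply_left]

theorem run_zero (p : Prog) (y : Real2) : Pool.Agent.Helper25.EV.run p y 0 = initSnap p y := by
  simp only [Pool.Agent.Helper25.EV.run, Ordinal.limitRecOn_zero]

theorem run_add_one (p : Prog) (y : Real2) (α : Ordinal.{0}) :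
    Pool.Agent.Helper25.EV.run p y (α + 1) = stepSnap p (Pool.Agent.Helper25.EV.run p y α) := by
  simp only [Pool.Agent.Helper25.EV.run]
  rw [Ordinal.limitRecOn_add_one]

theorem run_limit (p : Prog) (y : Real2) (l : Ordinal.{0}) (hl : IsSuccLimit l) :
    Pool.Agent.Helper25.EV.run p y l = limSnap p l fun β _ => Pool.Agent.Helper25.EV.run p y β := by
  simp only [Pool.Agent.Helper25.EV.run]
  rw [Ordinal.limitRecOn_limit _ _ _ _ hl]

theorem pf_H : StT1 → StH := by
  intro t1 M
  have := M.fin
  obtain ⟨n, e, he0, he1⟩ := exists_num M.start M.lim M.hne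
  let p : Prog := ⟨n, fun i v =>
    (((M.tr (e.symm i) ![v.1, v.2.1, v.2.2]).1 0, (M.tr (e.symm i) ![v.1, v.2.1, v.2.2]).1 1,
      (M.tr (e.symm i) ![v.1, v.2.1, v.2.2]).1 2), (M.tr (e.symm i) ![v.1, v.2.1, v.2.2]).2.1,
      (M.tr (e.symm i) ![v.1, v.2.1, v.2.2]).2.2.map e)⟩
  let S : MSt M → Snap p := fun s => ⟨s.1.1.map e, s.1.2, fun k => s.2 (0, k), fun k => s.2 (1, k),
    fun k => s.2 (2, k)⟩
  refine ⟨p, ?_⟩
  have key : ∀ (y : Real2) (α : Ordinal.{0}),
      (∀ β < α, (M.proc.run (M.ini (inp3 y)) β).1.1 ≠ none) →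
      Pool.Agent.Helper25.EV.run p y α = S (M.proc.run (M.ini (inp3 y)) α) := by
    intro y α
    induction α using Ordinal.limitRecOn with
    | zero =>
      intro _
      rw [run_zero, (t1 _ _).1]
      simp [initSnap, S, Mach.ini, he0, inp3]
    | add_one α ih =>
      intro h
      rw [run_add_one, (t1 _ _).2.1, ih fun β hβ => h β (hβ.trans (lt_add_one α))]
      have h1 := h α (lt_add_one α)
      generalize M.proc.run (M.ini (inp3 y)) α = s at h1
      obtain ⟨⟨q, hd⟩, m⟩ := s
      obtain ⟨q, rfl⟩ := Option.ne_none_iff_exists'.1 h1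
      have h2 : (![m (0, hd), m (1, hd), m (2, hd)] : Fin 3 → Bool) = fun k => m (k, hd) := by
        funext k; fin_cases k <;> rfl
      show stepSnap p (S ((some q, hd), m)) = S (M.step ((some q, hd), m))
      simp only [stepSnap, S, Option.map_some, Mach.step, p, Equiv.symm_apply_apply, h2]
      congr 1 <;>
      · funext k
        simp only [Function.update_apply]
    | limit l hl ih =>
      intro h
      have ih' : ∀ β < l, Pool.Agent.Helper25.EV.run p y β = S (M.proc.run (M.ini (inp3 y)) β) :=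
        fun β hβ => ih β hβ fun γ hγ => h γ (hγ.trans hβ)
      rw [run_limit p y l hl, (t1 _ _).2.2 l hl]
      have h1 : ¬ ∃ (β : Ordinal.{0}) (_ : β < l), (Pool.Agent.Helper25.EV.run p y β).st = none := by
        rintro ⟨β, hβ, h1⟩
        rw [ih' β hβ] at h1
        exact h β hβ (by simpa [S] using h1)
      rw [limSnap, dif_neg h1]
      have h2 : ∀ (k : ℕ) (i : Fin 3) (g : Snap p → ℕ → Bool), (∀ s : MSt M, g (S s) k = s.2 (i, k)) →
          ((∀ β < l, ∃ (γ : Ordinal.{0}) (_ : γ < l), β ≤ γ ∧
            g (Pool.Agent.Helper25.EV.run p y γ) k = true) ↔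
            ∀ β < l, ∃ γ, β ≤ γ ∧ γ < l ∧ M.proc.bit (M.proc.run (M.ini (inp3 y)) γ) (i, k) = true) := by
        intro k i g hg
        refine forall₂_congr fun β _ => exists_congr fun γ => ?_
        constructor
        · rintro ⟨e1, e2, e3⟩
          refine ⟨e2, e1, ?_⟩
          rw [ih' γ e1, hg] at e3
          exact e3
        · rintro ⟨e1, e2, e3⟩
          refine ⟨e2, e1, ?_⟩
          rw [ih' γ e2, hg]
          exact e3
      show _ = S ((some M.lim, 0), lsup l fun γ => M.proc.bit (M.proc.run (M.ini (inp3 y)) γ))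
      simp only [S, Option.map_some, he1, lsup]
      congr 1
      · funext k
        rw [decide_eq_decide]
        exact h2 k 0 Snap.tin fun s => rfl
      · funext k
        rw [decide_eq_decide]
        exact h2 k 1 Snap.tsc fun s => rfl
      · funext k
        rw [decide_eq_decide]
        exact h2 k 2 Snap.tout fun s => rfl
  intro y α h
  rw [key y α h]
  refine ⟨by simp [S], fun n => rfl⟩

end Pool.Agent.Helper91.MP
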