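import Pool.Agent.Helper91.MP.ComD

/-!
# Chapter MP, module K1: correctness of the compilation
-/

set_option autoImplicit false

open Ordinal Order

namespace Pool.Agent.Helper91.MP

section K1
variable {J Bk : Type}

private theorem K1_len (b : Bk) (c : Com J) : ∀ o, (comp b c o : List (Ins J Bk)).length = c.len := by
  induction c with
  | skip => intro o; rfl
  | inc j => intro o; rfl
  | dec j => intro o; rfl
  | wr i j x => intro o; rfl
  | seq c d hc hd => intro o; simp [comp, Com.len, hc, hd]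
  | loop j c hc => intro o; simp [comp, Com.len, hc]
  | ifz j c d hc hd => intro o; simp [comp, Com.len, hc, hd]; omega
  | ifa i j c d hc hd => intro o; simp [comp, Com.len, hc, hd]; omega

private theorem K1_app {P : Cam J Bk} {b : Bk} {o : ℕ} {l1 l2 : List (Ins J Bk)}
    (h : CodeAt P b o (l1 ++ l2)) : CodeAt P b o l1 ∧ CodeAt P b (o + l1.length) l2 := by
  constructor
  · intro i hi
    have h1 := h i (by rw [List.length_append]; omega)
    rw [h1, List.getElem_append_left hi]
  · intro i hi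
    have h1 := h (l1.length + i) (by rw [List.length_append]; omega)
    rw [add_assoc, h1, List.getElem_append_right (by omega)]
    simp

private theorem K1_cons {P : Cam J Bk} {b : Bk} {o : ℕ} {x : Ins J Bk} {l : List (Ins J Bk)}
    (h : CodeAt P b o (x :: l)) : P.ins (b, o) = x ∧ CodeAt P b (o + 1) l := by
  constructor
  · exact h 0 (by simp)
  · intro i hi
    have h1 := h (i + 1) (by simp; omega)
    rw [add_assoc, add_comm 1 i, h1]
    simp

variable [DecidableEq J]

/-- runs of the counter-array machine -/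
private def K1_Rn (P : Cam J Bk) (Q : (J × ℕ → Bool) → Prop) (x y : CSt J Bk) (n : ℕ) : Prop :=
  P.step^[n] x = y ∧ (∀ k ≤ n, Q (P.step^[k] x).2) ∧ ∀ k < n, P.ins (P.step^[k] x).1.1 ≠ .hlt

private theorem K1_refl {P : Cam J Bk} {Q : (J × ℕ → Bool) → Prop} {x : CSt J Bk} (h : Q x.2) :
    K1_Rn P Q x x 0 := by
  refine ⟨rfl, fun k hk => ?_, fun k hk => absurd hk (by omega)⟩
  have : k = 0 := by omega
  subst this
  exact h

private theorem K1_trans {P : Cam J Bk} {Q : (J × ℕ → Bool) → Prop} {x y z : CSt J Bk} {n m : ℕ}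
    (h1 : K1_Rn P Q x y n) (h2 : K1_Rn P Q y z m) : K1_Rn P Q x z (n + m) := by
  have hadd : ∀ k, P.step^[n + k] x = P.step^[k] y := by
    intro k
    rw [add_comm, Function.iterate_add_apply, h1.1]
  refine ⟨by rw [hadd]; exact h2.1, fun k hk => ?_, fun k hk => ?_⟩
  · by_cases hkn : k ≤ n
    · exact h1.2.1 k hkn
    · obtain ⟨k', rfl⟩ : ∃ k', k = n + k' := ⟨k - n, by omega⟩
      rw [hadd]
      exact h2.2.1 k' (by omega)
  · by_cases hkn : k < n
    · exact h1.2.2 k hkn
    · obtain ⟨k', rfl⟩ : ∃ k', k = n + k' := ⟨k - n, by omega⟩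
      rw [hadd]
      exact h2.2.2 k' (by omega)

private theorem K1_one {P : Cam J Bk} {Q : (J × ℕ → Bool) → Prop} {x y : CSt J Bk}
    (h1 : Q x.2) (h2 : Q y.2) (h3 : P.ins x.1.1 ≠ .hlt) (h4 : P.step x = y) :
    K1_Rn P Q x y 1 := by
  refine ⟨by simpa using h4, fun k hk => ?_, fun k hk => ?_⟩
  · rcases Nat.le_one_iff_eq_zero_or_eq_one.1 hk with rfl | rfl
    · exact h1
    · simpa [h4] using h2
  · have : k = 0 := by omega
    subst this
    exact h3

private theorem K1_end {P : Cam J Bk} {Q : (J × ℕ → Bool) → Prop} {x y : CSt J Bk} {n : ℕ}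
    (h : K1_Rn P Q x y n) : Q y.2 := by
  have := h.2.1 n le_rfl
  rw [h.1] at this
  exact this

private theorem K1_main (P : Cam J Bk) (b : Bk) (Q : (J × ℕ → Bool) → Prop) (c : Com J)
    (s s' : RSt J) (hev : Ev Q c s s') : ∀ o : ℕ, CodeAt P b o (comp b c o) → Q s.2 →
    ∃ n : ℕ, K1_Rn P Q (((b, o), s.1), s.2) (((b, o + c.len), s'.1), s'.2) n := by
  induction hev with
  | skip s =>
    intro o _ hQ
    exact ⟨0, K1_refl hQ⟩
  | inc j s =>
    intro o hc hQ
    have h1 := (K1_cons hc).1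
    refine ⟨1, K1_one hQ hQ ?_ ?_⟩
    · simp [h1]
    · unfold Cam.step; simp only [h1]; rfl
  | dec j s =>
    intro o hc hQ
    have h1 := (K1_cons hc).1
    refine ⟨1, K1_one hQ hQ ?_ ?_⟩
    · simp [h1]
    · unfold Cam.step; simp only [h1]; rfl
  | wr i j x s h =>
    intro o hc hQ
    have h1 := (K1_cons hc).1
    refine ⟨1, K1_one hQ h ?_ ?_⟩
    · simp [h1]
    · unfold Cam.step; simp only [h1]; rfl
  | @seq c d s s' s'' h h' ih1 ih2 =>
    intro o hc hQ
    obtain ⟨hc1, hc2⟩ := K1_app hc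
    rw [K1_len] at hc2
    obtain ⟨n, hn⟩ := ih1 o hc1 hQ
    obtain ⟨m, hm⟩ := ih2 (o + c.len) hc2 (K1_end hn)
    refine ⟨n + m, ?_⟩
    have := K1_trans hn hm
    rw [add_assoc] at this
    exact this
  | @loop0 j c s h =>
    intro o hc hQ
    have h1 := (K1_cons hc).1
    refine ⟨1, K1_one hQ hQ ?_ ?_⟩
    · simp [h1]
    · unfold Cam.step; simp only [h1, h, if_true]; rfl
  | @loop1 j c s s' s'' h h' h'' ih1 ih2 =>
    intro o hc hQ
    have hc0 : CodeAt P b o (Ins.tz j (b, o + c.len + 2) (b, o + 1) ::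
        (comp b c (o + 1) ++ [Ins.jmp (b, o)])) := hc
    obtain ⟨h1, h2⟩ := K1_cons hc0
    obtain ⟨h3, h4⟩ := K1_app h2
    rw [K1_len] at h4
    have h5 := (K1_cons h4).1
    have r1 : K1_Rn P Q (((b, o), s.1), s.2) (((b, o + 1), s.1), s.2) 1 := by
      refine K1_one hQ hQ ?_ ?_
      · simp [h1]
      · unfold Cam.step; simp only [h1, h, if_false]
    obtain ⟨n, hn⟩ := ih1 (o + 1) h3 hQ
    have r2 := K1_trans r1 hn
    have r3 : K1_Rn P Q (((b, o + 1 + c.len), s'.1), s'.2) (((b, o), s'.1), s'.2) 1 := by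
      have hQ' : Q s'.2 := K1_end hn
      refine K1_one hQ' hQ' ?_ ?_
      · simp [h5]
      · unfold Cam.step; simp only [h5]
    have r4 := K1_trans r2 r3
    obtain ⟨m, hm⟩ := ih2 o hc (K1_end hn)
    exact ⟨_, K1_trans r4 hm⟩
  | @ifz0 j c d s s' h h' ih =>
    intro o hc hQ
    have hc0 : CodeAt P b o (Ins.tz j (b, o + 1) (b, o + c.len + 2) ::
        (comp b c (o + 1) ++ [Ins.jmp (b, o + c.len + d.len + 2)] ++
          comp b d (o + c.len + 2))) := hc
    obtain ⟨h1, h2⟩ := K1_cons hc0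
    rw [List.append_assoc] at h2
    obtain ⟨h3, h4⟩ := K1_app h2
    rw [K1_len] at h4
    have h5 := (K1_cons h4).1
    have r1 : K1_Rn P Q (((b, o), s.1), s.2) (((b, o + 1), s.1), s.2) 1 := by
      refine K1_one hQ hQ ?_ ?_
      · simp [h1]
      · unfold Cam.step; simp only [h1, h, if_true]
    obtain ⟨n, hn⟩ := ih (o + 1) h3 hQ
    have r3 : K1_Rn P Q (((b, o + 1 + c.len), s'.1), s'.2)
        (((b, o + c.len + d.len + 2), s'.1), s'.2) 1 := by
      have hQ' : Q s'.2 := K1_end hn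
      refine K1_one hQ' hQ' ?_ ?_
      · simp [h5]
      · unfold Cam.step; simp only [h5]
    have e : o + (Com.ifz j c d).len = o + c.len + d.len + 2 := by
      simp only [Com.len]; omega
    rw [e]
    exact ⟨_, K1_trans (K1_trans r1 hn) r3⟩
  | @ifz1 j c d s s' h h' ih =>
    intro o hc hQ
    have hc0 : CodeAt P b o (Ins.tz j (b, o + 1) (b, o + c.len + 2) ::
        (comp b c (o + 1) ++ [Ins.jmp (b, o + c.len + d.len + 2)] ++
          comp b d (o + c.len + 2))) := hc
    obtain ⟨h1, h2⟩ := K1_cons hc0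
    obtain ⟨h3, h4⟩ := K1_app h2
    have e0 : o + 1 + (comp b c (o + 1) ++
        [(Ins.jmp (b, o + c.len + d.len + 2) : Ins J Bk)]).length = o + c.len + 2 := by
      rw [List.length_append, K1_len]; simp; omega
    rw [e0] at h4
    have r1 : K1_Rn P Q (((b, o), s.1), s.2) (((b, o + c.len + 2), s.1), s.2) 1 := by
      refine K1_one hQ hQ ?_ ?_
      · simp [h1]
      · unfold Cam.step; simp only [h1, h, if_false]
    obtain ⟨n, hn⟩ := ih (o + c.len + 2) h4 hQ
    have e : o + (Com.ifz j c d).len = o + c.len + 2 + d.len := by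
      simp only [Com.len]; omega
    rw [e]
    exact ⟨_, K1_trans r1 hn⟩
  | @ifaT i j c d s s' h h' ih =>
    intro o hc hQ
    have hc0 : CodeAt P b o (Ins.rd i j (b, o + c.len + 2) (b, o + 1) ::
        (comp b c (o + 1) ++ [Ins.jmp (b, o + c.len + d.len + 2)] ++
          comp b d (o + c.len + 2))) := hc
    obtain ⟨h1, h2⟩ := K1_cons hc0
    rw [List.append_assoc] at h2
    obtain ⟨h3, h4⟩ := K1_app h2
    rw [K1_len] at h4
    have h5 := (K1_cons h4).1
    have r1 : K1_Rn P Q (((b, o), s.1), s.2) (((b, o + 1), s.1), s.2) 1 := by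
      refine K1_one hQ hQ ?_ ?_
      · simp [h1]
      · unfold Cam.step; simp only [h1, h, if_true]
    obtain ⟨n, hn⟩ := ih (o + 1) h3 hQ
    have r3 : K1_Rn P Q (((b, o + 1 + c.len), s'.1), s'.2)
        (((b, o + c.len + d.len + 2), s'.1), s'.2) 1 := by
      have hQ' : Q s'.2 := K1_end hn
      refine K1_one hQ' hQ' ?_ ?_
      · simp [h5]
      · unfold Cam.step; simp only [h5]
    have e : o + (Com.ifa i j c d).len = o + c.len + d.len + 2 := by
      simp only [Com.len]; omega
    rw [e]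
    exact ⟨_, K1_trans (K1_trans r1 hn) r3⟩
  | @ifaF i j c d s s' h h' ih =>
    intro o hc hQ
    have hc0 : CodeAt P b o (Ins.rd i j (b, o + c.len + 2) (b, o + 1) ::
        (comp b c (o + 1) ++ [Ins.jmp (b, o + c.len + d.len + 2)] ++
          comp b d (o + c.len + 2))) := hc
    obtain ⟨h1, h2⟩ := K1_cons hc0
    obtain ⟨h3, h4⟩ := K1_app h2
    have e0 : o + 1 + (comp b c (o + 1) ++
        [(Ins.jmp (b, o + c.len + d.len + 2) : Ins J Bk)]).length = o + c.len + 2 := by
      rw [List.length_append, K1_len]; simp; omega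
    rw [e0] at h4
    have r1 : K1_Rn P Q (((b, o), s.1), s.2) (((b, o + c.len + 2), s.1), s.2) 1 := by
      refine K1_one hQ hQ ?_ ?_
      · simp [h1]
      · unfold Cam.step; simp only [h1, h]; rfl
    obtain ⟨n, hn⟩ := ih (o + c.len + 2) h4 hQ
    have e : o + (Com.ifa i j c d).len = o + c.len + 2 + d.len := by
      simp only [Com.len]; omega
    rw [e]
    exact ⟨_, K1_trans r1 hn⟩

end K1

theorem pf_K1 : StK1 := by
  intro J Bk _ P b Q c o s s' hc hev hQ
  obtain ⟨n, h1, h2, h3⟩ := K1_main P b Q c s s' hev o hc hQ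
  exact ⟨n, h1, h2, h3⟩

end Pool.Agent.Helper91.MP
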