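import Pool.Agent.Helper91.MP.ComD

/-!
# Chapter MP, module K2: length of the code, instructions of the code
-/

set_option autoImplicit false

open Ordinal Order

namespace Pool.Agent.Helper91.MP

theorem pf_K2 : StK2 := by
  intro J Bk b c
  induction c with
  | skip =>
    intro o
    refine ⟨rfl, fun U F k _ _ _ x hx => ?_⟩
    simp [comp] at hx
  | inc j =>
    intro o
    refine ⟨rfl, fun U F k hb hk _ x hx => ?_⟩
    simp only [comp, List.mem_singleton] at hx
    subst hx
    exact ⟨hk, hb⟩
  | dec j =>
    intro o
    refine ⟨rfl, fun U F k hb hk _ x hx => ?_⟩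
    simp only [comp, List.mem_singleton] at hx
    subst hx
    exact ⟨hk, hb⟩
  | wr i j y =>
    intro o
    refine ⟨rfl, fun U F k hb hk ha x hx => ?_⟩
    simp only [comp, List.mem_singleton] at hx
    subst hx
    exact ⟨by simpa [Com.arrs] using ha, hk, hb⟩
  | seq c d ihc ihd =>
    intro o
    refine ⟨?_, fun U F k hb hk ha x hx => ?_⟩
    · simp only [comp, List.length_append, Com.len]
      rw [(ihc o).1, (ihd _).1]
    · simp only [comp, List.mem_append] at hx
      rcases hx with hx | hx
      · exact (ihc o).2 U F k hb hk.1 ha.1 x hx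
      · exact (ihd _).2 U F k hb hk.2 ha.2 x hx
  | loop j c ih =>
    intro o
    refine ⟨?_, fun U F k hb hk ha x hx => ?_⟩
    · simp only [comp, List.length_append, Com.len, List.length_singleton]
      rw [(ih _).1]
      omega
    · simp only [comp, List.mem_append, List.mem_singleton] at hx
      rcases hx with (hx | hx) | hx
      · subst hx
        exact ⟨hk.1, hb, hb⟩
      · exact (ih _).2 U F k hb hk.2 ha x hx
      · subst hx
        exact hb
  | ifz j c d ihc ihd =>
    intro o
    refine ⟨?_, fun U F k hb hk ha x hx => ?_⟩
    · simp only [comp, List.length_append, Com.len, List.length_singleton]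
      rw [(ihc _).1, (ihd _).1]
      omega
    · simp only [comp, List.mem_append, List.mem_singleton] at hx
      rcases hx with ((hx | hx) | hx) | hx
      · subst hx
        exact ⟨hk.1, hb, hb⟩
      · exact (ihc _).2 U F k hb hk.2.1 ha.1 x hx
      · subst hx
        exact hb
      · exact (ihd _).2 U F k hb hk.2.2 ha.2 x hx
  | ifa i j c d ihc ihd =>
    intro o
    refine ⟨?_, fun U F k hb hk ha x hx => ?_⟩
    · simp only [comp, List.length_append, Com.len, List.length_singleton]
      rw [(ihc _).1, (ihd _).1]
      omega
    · simp only [comp, List.mem_append, List.mem_singleton] at hx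
      rcases hx with ((hx | hx) | hx) | hx
      · subst hx
        exact ⟨by simpa using ha.1, hk.1, hb, hb⟩
      · exact (ihc _).2 U F k hb hk.2.1 ha.2.1 x hx
      · subst hx
        exact hb
      · exact (ihd _).2 U F k hb hk.2.2 ha.2.2 x hx

end Pool.Agent.Helper91.MP
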