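import Pool.Agent.Helper91.MP.ComD

/-!
# Chapter MP, module K3: monotonicity of the semantics
-/

set_option autoImplicit false

open Ordinal Order

namespace Pool.Agent.Helper91.MP

theorem pf_K3 : StK3 := by
  intro J _ P Q h c s s' hc
  induction hc with
  | skip s => exact .skip s
  | inc j s => exact .inc j s
  | dec j s => exact .dec j s
  | wr i j b s h' => exact .wr i j b s (h _ h')
  | seq _ _ ih ih' => exact .seq ih ih'
  | loop0 h' => exact .loop0 h'
  | loop1 h' _ _ ih ih' => exact .loop1 h' ih ih'
  | ifz0 h' _ ih => exact .ifz0 h' ih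
  | ifz1 h' _ ih => exact .ifz1 h' ih
  | ifaT h' _ ih => exact .ifaT h' ih
  | ifaF h' _ ih => exact .ifaF h' ih

end Pool.Agent.Helper91.MP
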