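import Pool.Agent.Helper91.MP.MacD

/-! Chapter MP, O1: arithmetical predicates are computed by lists of operators. -/

set_option autoImplicit false

open Ordinal Order

namespace Pool.Agent.Helper91.MP

open Pool.Agent.Helper25.EV

theorem o1_ne (x : Real2) : ∀ (ops : List Op) (m : ℕ × ℕ → Bool) (t : ℕ),
    (∀ op ∈ ops, op.tgt ≠ t) → ∀ n, runOps x ops m (t, n) = m (t, n) := by
  intro ops
  induction ops with
  | nil => intro m t _ n; rfl
  | cons a l ih =>
    intro m t h n
    have h1 : runOps x (a :: l) m = runOps x l (a.app x m) := rfl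
    rw [h1, ih _ t (fun op hop => h op (List.mem_cons_of_mem _ hop)) n]
    have h2 : t ≠ a.tgt := fun e => h a List.mem_cons_self e.symm
    simp [Op.app, h2]

theorem o1_append (x : Real2) (a b : List Op) (m : ℕ × ℕ → Bool) :
    runOps x (a ++ b) m = runOps x b (runOps x a m) := by
  simp [runOps, List.foldl_append]

theorem o1_row (x : Real2) (ops : List Op) (m : ℕ × ℕ → Bool) (t : ℕ)
    (h : ∀ op ∈ ops, op.tgt ≠ t) : row (runOps x ops m) t = row m t := by
  ext n
  show runOps x ops m (t, n) = true ↔ m (t, n) = true
  rw [o1_ne x ops m t h n]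

theorem pf_O1 : StO1 := by
  intro P hP
  induction hP with
  | prim f hf =>
    intro t ht
    refine ⟨[.prim t (fun n => cond (f n) 1 0)], ?_, ?_⟩
    · intro op hop
      simp only [List.mem_singleton] at hop
      subst hop
      exact ⟨Primrec.cond hf (Primrec.const 1) (Primrec.const 0), le_rfl⟩
    · intro x m n
      simp only [runOps, List.foldl_cons, List.foldl_nil, Op.app, Op.tgt, Op.val, if_true]
      rw [decide_eq_true_iff]
      cases f n <;> simp
  | mem f hf =>
    intro t ht
    refine ⟨[.sub t 1 f], ?_, ?_⟩
    · intro op hop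
      simp only [List.mem_singleton] at hop
      subst hop
      exact ⟨⟨by omega, hf⟩, le_rfl⟩
    · intro x m n
      simp [runOps, Op.app, Op.tgt, Op.val, row]
  | @neg P hP ih =>
    intro t ht
    obtain ⟨ops, h1, h2⟩ := ih t ht
    refine ⟨ops ++ [.nand t t t], ?_, ?_⟩
    · intro op hop
      rw [List.mem_append, List.mem_singleton] at hop
      rcases hop with hop | hop
      · exact h1 op hop
      · subst hop
        exact ⟨trivial, le_rfl⟩
    · intro x m n
      show _ ↔ ¬ P (row m 1) n
      rw [o1_append, ← h2 x m n]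
      simp [runOps, Op.app, Op.tgt, Op.val]
  | @and P Q hP hQ ihP ihQ =>
    intro t ht
    obtain ⟨a, ha1, ha2⟩ := ihP (t + 1) (by omega)
    obtain ⟨b, hb1, hb2⟩ := ihQ (t + 2) (by omega)
    refine ⟨a ++ (b ++ [.nand t (t + 1) (t + 2), .nand t t t]), ?_, ?_⟩
    · intro op hop
      simp only [List.mem_append, List.mem_cons, List.not_mem_nil, or_false] at hop
      rcases hop with hop | hop | hop | hop
      · exact ⟨(ha1 op hop).1, by have := (ha1 op hop).2; omega⟩
      · exact ⟨(hb1 op hop).1, by have := (hb1 op hop).2; omega⟩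
      · subst hop
        exact ⟨trivial, le_rfl⟩
      · subst hop
        exact ⟨trivial, le_rfl⟩
    · intro x m n
      rw [o1_append, o1_append]
      have e1 : row (runOps x a m) 1 = row m 1 :=
        o1_row x a m 1 fun op hop => by have := (ha1 op hop).2; omega
      have e2 := ha2 x m n
      have e3 := hb2 x (runOps x a m) n
      rw [e1] at e3
      have e4 : runOps x b (runOps x a m) (t + 1, n) = runOps x a m (t + 1, n) :=
        o1_ne x b _ (t + 1) (fun op hop => by have := (hb1 op hop).2; omega) n
      show _ ↔ P (row m 1) n ∧ Q (row m 1) n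
      rw [← e2, ← e3, ← e4]
      generalize runOps x b (runOps x a m) = M
      simp [runOps, Op.app, Op.tgt, Op.val]
  | @ex P hP ih =>
    intro t ht
    obtain ⟨a, ha1, ha2⟩ := ih (t + 1) (by omega)
    refine ⟨a ++ [.cst t false, .ex t (t + 1)], ?_, ?_⟩
    · intro op hop
      simp only [List.mem_append, List.mem_cons, List.not_mem_nil, or_false] at hop
      rcases hop with hop | hop | hop
      · exact ⟨(ha1 op hop).1, by have := (ha1 op hop).2; omega⟩
      · subst hop
        exact ⟨trivial, le_rfl⟩
      · subst hop
        exact ⟨by simp [Op.ok], le_rfl⟩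
    · intro x m n
      rw [o1_append]
      have e2 := fun k => ha2 x m (Nat.pair n k)
      show _ ↔ ∃ k, P (row m 1) (Nat.pair n k)
      simp only [← e2]
      generalize runOps x a m = M
      simp [runOps, Op.app, Op.tgt, Op.val]

end Pool.Agent.Helper91.MP
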