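import Pool.Agent.Helper91.MP.MacD

/-!
# Chapter MP, module O2: lists of operators, the closure step
-/

set_option autoImplicit false

namespace Pool.Agent.Helper91.MP

open Pool.Agent.Helper25.EV

theorem O2_runOps_append (x : Real2) (a b : List Op) (m : ℕ × ℕ → Bool) :
    runOps x (a ++ b) m = runOps x b (runOps x a m) := by
  unfold runOps
  exact List.foldl_append ..

theorem O2_runOps_cons (x : Real2) (op : Op) (b : List Op) (m : ℕ × ℕ → Bool) :
    runOps x (op :: b) m = runOps x b (op.app x m) := rfl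

theorem O2_runOps_nil (x : Real2) (m : ℕ × ℕ → Bool) : runOps x [] m = m := rfl

theorem O2_unchanged (x : Real2) (ops : List Op) (m : ℕ × ℕ → Bool) (t : ℕ)
    (h : ∀ op ∈ ops, op.tgt ≠ t) (n : ℕ) : runOps x ops m (t, n) = m (t, n) := by
  induction ops generalizing m with
  | nil => rfl
  | cons op ops ih =>
    rw [O2_runOps_cons, ih _ (fun o ho => h o (List.mem_cons_of_mem _ ho))]
    have h1 := h op List.mem_cons_self
    unfold Op.app
    rw [if_neg (fun e => h1 e.symm)]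

theorem O2_app_ne (x : Real2) (op : Op) (m : ℕ × ℕ → Bool) {t n : ℕ} (h : t ≠ op.tgt) :
    op.app x m (t, n) = m (t, n) := by
  unfold Op.app
  rw [if_neg h]

theorem O2_app_nand (x : Real2) (m : ℕ × ℕ → Bool) (t u v n : ℕ) :
    (Op.nand t u v).app x m (t, n) = !(m (u, n) && m (v, n)) := by
  unfold Op.app
  rw [if_pos (show (t, n).1 = (Op.nand t u v).tgt from rfl)]
  rfl

theorem O2_app_sub (x : Real2) (m : ℕ × ℕ → Bool) (t u : ℕ) (f : ℕ → ℕ) (n : ℕ) :
    (Op.sub t u f).app x m (t, n) = m (u, f n) := by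
  unfold Op.app
  rw [if_pos (show (t, n).1 = (Op.sub t u f).tgt from rfl)]
  rfl

theorem O2_app_cst (x : Real2) (m : ℕ × ℕ → Bool) (t : ℕ) (b : Bool) (n : ℕ) :
    (Op.cst t b).app x m (t, n) = b := by
  unfold Op.app
  rw [if_pos (show (t, n).1 = (Op.cst t b).tgt from rfl)]
  rfl

theorem O2_app_ex (x : Real2) (m : ℕ × ℕ → Bool) (t u n : ℕ) :
    (Op.ex t u).app x m (t, n) = true ↔
      m (t, n) = true ∨ ∃ k, m (u, Nat.pair n k) = true := by
  unfold Op.app
  rw [if_pos (show (t, n).1 = (Op.ex t u).tgt from rfl)]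
  unfold Op.val
  simp only [Bool.or_eq_true, decide_eq_true_eq]

theorem pf_O2 : StO2 := by
  refine ⟨O2_unchanged, ?_⟩
  intro G t hG ht
  constructor
  · intro op hop
    unfold clOps at hop
    rw [List.mem_append] at hop
    rcases hop with hop | hop
    · exact ⟨(hG.1 op hop).1, Or.inr (hG.1 op hop).2⟩
    · simp only [List.mem_cons, List.not_mem_nil, or_false] at hop
      rcases hop with rfl | rfl | rfl | rfl | rfl | rfl | rfl | rfl | rfl
      · exact ⟨trivial, Or.inr (by simp [Op.tgt])⟩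
      · exact ⟨trivial, Or.inr (by simp [Op.tgt])⟩
      · exact ⟨trivial, Or.inr (by simp [Op.tgt])⟩
      · exact ⟨⟨by omega, Primrec.snd.comp Primrec.unpair⟩, Or.inr (by simp [Op.tgt])⟩
      · exact ⟨trivial, Or.inl rfl⟩
      · exact ⟨by show (3 : ℕ) ≠ t + 2; omega, Or.inl rfl⟩
      · exact ⟨trivial, Or.inr (by simp [Op.tgt])⟩
      · exact ⟨trivial, Or.inr (by simp [Op.tgt])⟩
      · exact ⟨trivial, Or.inr (by simp [Op.tgt])⟩
  · intro x m
    have h1 : ∀ n, runOps x (evalOps G t) m (1, n) = m (1, n) := by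
      apply O2_unchanged
      intro op hop
      have := (hG.1 op hop).2
      omega
    have h2 := hG.2 x m
    obtain ⟨m1, hm1⟩ : ∃ m1, m1 = runOps x (evalOps G t) m := ⟨_, rfl⟩
    unfold clOps
    rw [O2_runOps_append, ← hm1]
    rw [← hm1] at h1 h2
    clear hm1
    simp only [O2_runOps_cons, O2_runOps_nil]
    obtain ⟨m2, e2⟩ : ∃ m2, m2 = (Op.nand (t + 1) 1 1).app x m1 := ⟨_, rfl⟩
    obtain ⟨m3, e3⟩ : ∃ m3, m3 = (Op.nand (t + 1) t (t + 1)).app x m2 := ⟨_, rfl⟩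
    obtain ⟨m4, e4⟩ : ∃ m4, m4 = (Op.nand (t + 1) (t + 1) (t + 1)).app x m3 := ⟨_, rfl⟩
    obtain ⟨m5, e5⟩ : ∃ m5, m5 = (Op.sub (t + 2) (t + 1) (fun s => (Nat.unpair s).2)).app x m4 :=
      ⟨_, rfl⟩
    obtain ⟨m6, e6⟩ : ∃ m6, m6 = (Op.cst 3 false).app x m5 := ⟨_, rfl⟩
    obtain ⟨m7, e7⟩ : ∃ m7, m7 = (Op.ex 3 (t + 2)).app x m6 := ⟨_, rfl⟩
    obtain ⟨m8, e8⟩ : ∃ m8, m8 = (Op.nand t t t).app x m7 := ⟨_, rfl⟩
    obtain ⟨m9, e9⟩ : ∃ m9, m9 = (Op.nand (t + 1) 1 1).app x m8 := ⟨_, rfl⟩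
    rw [← e2, ← e3, ← e4, ← e5, ← e6, ← e7, ← e8, ← e9]
    -- values
    have w1 : ∀ n, m1 (1, n) = m (1, n) := h1
    have w2 : ∀ n, m2 (1, n) = m (1, n) := fun n => by
      rw [e2, O2_app_ne _ _ _ (by show (1 : ℕ) ≠ t + 1; omega), w1]
    have w3 : ∀ n, m3 (1, n) = m (1, n) := fun n => by
      rw [e3, O2_app_ne _ _ _ (by show (1 : ℕ) ≠ t + 1; omega), w2]
    have w4 : ∀ n, m4 (1, n) = m (1, n) := fun n => by
      rw [e4, O2_app_ne _ _ _ (by show (1 : ℕ) ≠ t + 1; omega), w3]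
    have w5 : ∀ n, m5 (1, n) = m (1, n) := fun n => by
      rw [e5, O2_app_ne _ _ _ (by show (1 : ℕ) ≠ t + 2; omega), w4]
    have w6 : ∀ n, m6 (1, n) = m (1, n) := fun n => by
      rw [e6, O2_app_ne _ _ _ (by show (1 : ℕ) ≠ 3; omega), w5]
    have w7 : ∀ n, m7 (1, n) = m (1, n) := fun n => by
      rw [e7, O2_app_ne _ _ _ (by show (1 : ℕ) ≠ 3; omega), w6]
    have w8 : ∀ n, m8 (1, n) = m (1, n) := fun n => by
      rw [e8, O2_app_ne _ _ _ (by show (1 : ℕ) ≠ t; omega), w7]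
    have t2 : ∀ n, m2 (t, n) = m1 (t, n) := fun n => by
      rw [e2, O2_app_ne _ _ _ (by show t ≠ t + 1; omega)]
    have t3 : ∀ n, m3 (t, n) = m1 (t, n) := fun n => by
      rw [e3, O2_app_ne _ _ _ (by show t ≠ t + 1; omega), t2]
    have t4 : ∀ n, m4 (t, n) = m1 (t, n) := fun n => by
      rw [e4, O2_app_ne _ _ _ (by show t ≠ t + 1; omega), t3]
    have t5 : ∀ n, m5 (t, n) = m1 (t, n) := fun n => by
      rw [e5, O2_app_ne _ _ _ (by show t ≠ t + 2; omega), t4]
    have t6 : ∀ n, m6 (t, n) = m1 (t, n) := fun n => by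
      rw [e6, O2_app_ne _ _ _ (by show t ≠ 3; omega), t5]
    have t7 : ∀ n, m7 (t, n) = m1 (t, n) := fun n => by
      rw [e7, O2_app_ne _ _ _ (by show t ≠ 3; omega), t6]
    have t8 : ∀ n, m8 (t, n) = !(m1 (t, n)) := fun n => by
      rw [e8, O2_app_nand, t7, Bool.and_self]
    have t9 : ∀ n, m9 (t, n) = !(m1 (t, n)) := fun n => by
      rw [e9, O2_app_ne _ _ _ (by show t ≠ t + 1; omega), t8]
    have u2 : ∀ n, m2 (t + 1, n) = !(m (1, n)) := fun n => by
      rw [e2, O2_app_nand, w1, Bool.and_self]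
    have u3 : ∀ n, m3 (t + 1, n) = !(m1 (t, n) && !(m (1, n))) := fun n => by
      rw [e3, O2_app_nand, t2, u2]
    have u4 : ∀ n, m4 (t + 1, n) = (m1 (t, n) && !(m (1, n))) := fun n => by
      rw [e4, O2_app_nand, u3, Bool.and_self, Bool.not_not]
    have v5 : ∀ n, m5 (t + 2, n) = (m1 (t, (Nat.unpair n).2) && !(m (1, (Nat.unpair n).2))) :=
      fun n => by rw [e5, O2_app_sub, u4]
    have v6 : ∀ n, m6 (t + 2, n) = (m1 (t, (Nat.unpair n).2) && !(m (1, (Nat.unpair n).2))) :=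
      fun n => by rw [e6, O2_app_ne _ _ _ (by show t + 2 ≠ 3; omega), v5]
    have x6 : ∀ n, m6 (3, n) = false := fun n => by rw [e6, O2_app_cst]
    have x7 : m7 (3, 0) = true ↔ ∃ k, m1 (t, k) = true ∧ m (1, k) = false := by
      rw [e7, O2_app_ex, x6]
      rw [or_iff_right (by simp)]
      refine exists_congr fun k => ?_
      rw [v6, Nat.unpair_pair]
      simp only [Bool.and_eq_true, Bool.not_eq_true']
    have x8 : m8 (3, 0) = m7 (3, 0) := by
      rw [e8, O2_app_ne _ _ _ (by show 3 ≠ t; omega)]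
    have x9 : m9 (3, 0) = m7 (3, 0) := by
      rw [e9, O2_app_ne _ _ _ (by show 3 ≠ t + 1; omega), x8]
    have u9 : ∀ n, m9 (t + 1, n) = !(m (1, n)) := fun n => by
      rw [e9, O2_app_nand, w8, Bool.and_self]
    constructor
    · ext n
      have h3 := h2 n
      show (Op.nand (t + 1) t (t + 1)).app x m9 (t + 1, n) = true ↔ _
      rw [O2_app_nand, t9, u9, Set.mem_union]
      refine Iff.trans ?_ (or_congr Iff.rfl h3)
      show _ ↔ m (1, n) = true ∨ m1 (t, n) = true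
      cases m1 (t, n) <;> cases m (1, n) <;> simp
    · rw [O2_app_ne _ _ _ (by show 3 ≠ t + 1; omega), x9, x7, Set.not_subset]
      refine exists_congr fun k => ?_
      refine and_congr (h2 k) ?_
      show _ ↔ ¬ (m (1, k) = true)
      rw [Bool.not_eq_true]

end Pool.Agent.Helper91.MP
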