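import Pool.Agent.Helper91.MP.MacD

/-!
# Chapter MP, module O3: execution of a block
-/

set_option autoImplicit false

namespace Pool.Agent.Helper91.MP

open Pool.Agent.Helper25.EV

theorem O3_take_succ (x : Real2) (ops : List Op) (k : ℕ) (h : k < ops.length)
    (m : ℕ × ℕ → Bool) :
    runOps x (ops.take (k + 1)) m = (ops[k]).app x (runOps x (ops.take k) m) := by
  rw [List.take_succ_eq_append_getElem h]
  unfold runOps
  rw [List.foldl_append]
  rfl

theorem O3_code (M : Macro) (b : Bt) (k : ℕ) (h : k < (mops M b).length) :
    (mopm M).code (b, k) = if k + 1 = (mops M b).length then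
        some ((mops M b)[k], (mext M b).1, ((mext M b).2.1, 0), ((mext M b).2.2, 0))
      else some ((mops M b)[k], 0, (b, k + 1), (b, k + 1)) := by
  have h1 : (mops M b)[k]? = some (mops M b)[k] := List.getElem?_eq_getElem h
  show (match (mops M b)[k]? with
    | none => none
    | some op => if k + 1 = (mops M b).length then
        some (op, (mext M b).1, ((mext M b).2.1, 0), ((mext M b).2.2, 0))
      else some (op, 0, (b, k + 1), (b, k + 1))) = _
  rw [h1]

theorem O3_step {Lb : Type} (P : Opm Lb) (x : Real2) (l : Lb) (m : ℕ × ℕ → Bool) {op : Op}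
    {d : ℕ} {l0 l1 : Lb} (h : P.code l = some (op, d, l0, l1)) :
    (P.proc x).next (l, m) = (if op.app x m (d, 0) then l1 else l0, op.app x m) := by
  show P.step x (l, m) = _
  unfold Opm.step
  simp only [h]

theorem O3_aux (M : Macro) (x : Real2) (b : Bt) (m : ℕ × ℕ → Bool) :
    ∀ k, k < (mops M b).length → ((mopm M).proc x).next^[k] ((b, 0), m) =
      ((b, k), runOps x ((mops M b).take k) m) := by
  intro k
  induction k with
  | zero =>
    intro _
    rw [Function.iterate_zero, List.take_zero]
    rfl
  | succ k ih =>
    intro hk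
    have hk' : k < (mops M b).length := by omega
    rw [Function.iterate_succ_apply', ih hk']
    have hc := O3_code M b k hk'
    rw [if_neg (by omega)] at hc
    rw [O3_step _ x _ _ hc, ite_self, O3_take_succ x _ k hk']

theorem pf_O3 : StO2 → StO3 := by
  intro _ M x b m hne
  have hpos : 0 < (mops M b).length := List.length_pos_iff.2 hne
  refine ⟨?_, ?_⟩
  · intro k hk
    refine ⟨O3_aux M x b m k hk, ?_⟩
    rw [O3_code M b k hk]
    split_ifs <;> simp
  · obtain ⟨k, hk⟩ : ∃ k, (mops M b).length = k + 1 := ⟨(mops M b).length - 1, by omega⟩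
    have hk' : k < (mops M b).length := by omega
    have hc := O3_code M b k hk'
    rw [if_pos hk.symm] at hc
    rw [hk, Function.iterate_succ_apply', O3_aux M x b m k hk', O3_step _ x _ _ hc]
    have e1 : runOps x (mops M b) m =
        ((mops M b)[k]).app x (runOps x ((mops M b).take k) m) := by
      rw [← O3_take_succ x _ k hk', List.take_of_length_le (by omega)]
    rw [e1]
    split_ifs <;> rfl

end Pool.Agent.Helper91.MP
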