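import Pool.Agent.Helper91.MP.MacD

/-!
# Chapter MP, module O4: the closure loop simulates the closure process
-/

set_option autoImplicit false

open Ordinal Order

namespace Pool.Agent.Helper91.MP

open Pool.Agent.Helper25.EV

theorem O4_nat {n : ℕ} {γ : Ordinal.{0}} (h : γ < (n : Ordinal.{0})) : ∃ k : ℕ, k < n ∧ γ = k := by
  obtain ⟨k, rfl⟩ := Ordinal.lt_omega0.1 (lt_trans h (Ordinal.natCast_lt_omega0 n))
  exact ⟨k, by exact_mod_cast h, rfl⟩

theorem O4_ok {M : Macro} (hM : M.ok) {j : ℕ} {I : Instr} (h : (allI M)[j]? = some I) : I.ok := by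
  have h1 : I ∈ allI M := List.mem_of_getElem? h
  unfold allI at h1
  rw [List.mem_append, List.mem_append] at h1
  rcases h1 with (h1 | h1) | h1
  · exact hM.1 I h1
  · exact hM.2.1 I h1
  · exact hM.2.2 I h1

theorem O4_lt {M : Macro} {j : ℕ} {I : Instr} (h : (allI M)[j]? = some I) :
    j < (allI M).length := by
  by_contra h1
  rw [List.getElem?_eq_none (not_lt.1 h1)] at h
  cases h

theorem O4_good (hO1 : StO1) {F : Set ℕ → Set ℕ} (hF : ArOp F) {t : ℕ} (ht : 1 < t) :
    Good (fun X n => n ∈ F X) t (evalOps F t) := by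
  have h := hO1 _ hF t ht
  unfold evalOps
  rw [dif_pos h]
  exact h.choose_spec

theorem O4_append (x : Real2) (l1 l2 : List Op) (m : ℕ × ℕ → Bool) :
    runOps x (l1 ++ l2) m = runOps x l2 (runOps x l1 m) := by
  unfold runOps
  rw [List.foldl_append]

/-- execution of the block `ib j` -/
theorem O4_block (hO1 : StO1) (hO2 : StO2) (hO3 : StO3) {M : Macro} (hM : M.ok) (x : Real2)
    {j : ℕ} {G : Set ℕ → Set ℕ} (hj : (allI M)[j]? = some (.cl G)) (m : ℕ × ℕ → Bool) :
    ∃ m2 : ℕ × ℕ → Bool, 0 < (mops M (.ib j)).length ∧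
      ((mopm M).proc x).next^[(mops M (.ib j)).length] ((.ib j, 0), m) =
        ((if m2 (3, 0) = true then .ib j else nx M j, 0), m2) ∧
      (m2 (3, 0) = true ↔ ¬ G (row m 1) ⊆ row m 1) ∧
      row m2 1 = row m 1 ∪ G (row m 1) ∧
      (∀ t, t ≠ 1 → t ≠ 3 → t < tb M → ∀ n, m2 (t, n) = m (t, n)) ∧
      ∀ k < (mops M (.ib j)).length, ∃ m3 : ℕ × ℕ → Bool,
        ((mopm M).proc x).next^[k] ((.ib j, 0), m) = ((.ib j, k), m3) ∧
        (mopm M).code (.ib j, k) ≠ none ∧ ∀ t, t ≠ 3 → t < tb M → ∀ n, m3 (t, n) = m (t, n) := by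
  have htb : 3 < tb M := by unfold tb; omega
  have hops : mops M (.ib j) = clOps G (tb M) ++ [.sub 1 (tb M + 1) id] := by
    unfold mops
    simp only [hj]
  have hgood := O4_good hO1 (F := G) (O4_ok hM hj) (t := tb M) (by omega)
  obtain ⟨h1, h2⟩ := hO2.2 G (tb M) hgood htb
  obtain ⟨h3, h4⟩ := h2 x m
  have hne : mops M (.ib j) ≠ [] := by rw [hops]; simp
  have hlen : (mops M (.ib j)).length = (clOps G (tb M)).length + 1 := by rw [hops]; simp
  obtain ⟨hb1, hb2⟩ := hO3 M x (.ib j) m hne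
  refine ⟨runOps x (mops M (.ib j)) m, by omega, ?_, ?_, ?_, ?_, ?_⟩
  · rw [hb2]
    have e1 : (mext M (.ib j)).1 = 3 := rfl
    have e2 : (mext M (.ib j)).2.2 = .ib j := rfl
    have e3 : (mext M (.ib j)).2.1 = nx M j := rfl
    rw [e1, e2, e3]
  · have e : runOps x (mops M (.ib j)) m (3, 0) = runOps x (clOps G (tb M)) m (3, 0) := by
      rw [hops, O4_append]
      unfold runOps
      simp only [List.foldl_cons, List.foldl_nil, Op.app, Op.tgt]
      rw [if_neg (by norm_num)]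
    rw [e]
    exact h4
  · rw [← h3, hops, O4_append]
    ext n
    unfold row
    simp [runOps, Op.app, Op.tgt, Op.val]
  · intro t ht1 ht3 ht n
    refine hO2.1 x (mops M (.ib j)) m t ?_ n
    intro op hop
    rw [hops, List.mem_append] at hop
    rcases hop with hop | hop
    · rcases (h1 op hop).2 with h | h <;> omega
    · rw [List.mem_singleton] at hop
      rw [hop]
      exact fun h => ht1 h.symm
  · intro k hk
    obtain ⟨hk1, hk2⟩ := hb1 k hk
    refine ⟨_, hk1, hk2, ?_⟩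
    intro t ht3 ht n
    refine hO2.1 x _ m t ?_ n
    intro op hop
    rw [hops, List.take_append_of_le_length (by omega)] at hop
    rcases (h1 op (List.mem_of_mem_take hop)).2 with h | h <;> omega

/-- the constant bits depend only on the tables `≠ 1, 3`, `< tb M` -/
theorem O4_oks {M : Macro} {j : ℕ} {x0 : ℕ → Bool} {m m' : ℕ × ℕ → Bool}
    (h : Oks (csO M j x0) m) (hm : ∀ t, t ≠ 1 → t ≠ 3 → t < tb M → ∀ n, m' (t, n) = m (t, n)) :
    Oks (csO M j x0) m' := by
  have htb : 3 < tb M := by unfold tb; omega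
  rintro ⟨t, n⟩ b hb
  have hb' := h (t, n) b hb
  unfold csO at hb
  simp only at hb
  by_cases h0 : t = 0
  · rw [hm t (by omega) (by omega) (by omega)]
    exact hb'
  · rw [if_neg h0] at hb
    by_cases h2 : (t, n) = (2, 0)
    · have h2' : t = 2 := congrArg Prod.fst h2
      rw [hm t (by omega) (by omega) (by omega)]
      exact hb'
    · rw [if_neg h2] at hb
      by_cases h4 : 4 ≤ t ∧ t < tb M ∧ n = 0
      · rw [hm t (by omega) (by omega) h4.2.1]
        exact hb'
      · rw [if_neg h4] at hb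
        cases hb

/-- the search of the closure loop -/
theorem O4_search (hO3 : StO3) {M : Macro} (x : Real2) {j : ℕ} (hj : j < (allI M).length)
    {x0 : ℕ → Bool} (m : ℕ × ℕ → Bool) (hm : Oks (csO M j x0) m) :
    ∃ m2 : ℕ × ℕ → Bool, (∀ t, t ≠ 3 → ∀ n, m2 (t, n) = m (t, n)) ∧
      ((mopm M).proc x).next^[j + 2] ((.lt, 0), m) = ((.ib j, 0), m2) ∧
      ∀ k < j + 2, ∃ (b : Bt) (m3 : ℕ × ℕ → Bool),
        ((mopm M).proc x).next^[k] ((.lt, 0), m) = ((b, 0), m3) ∧ (mopm M).code (b, 0) ≠ none ∧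
        ∀ t, t ≠ 3 → ∀ n, m3 (t, n) = m (t, n) := by
  set C := (mopm M).proc x with hC
  set m2 : ℕ × ℕ → Bool := runOps x [.cst 3 false] m with hm2
  have h2t : ∀ t, t ≠ 3 → ∀ n, m2 (t, n) = m (t, n) := by
    intro t ht n
    rw [hm2]
    simp only [runOps, List.foldl_cons, List.foldl_nil, Op.app, Op.tgt]
    rw [if_neg ht]
  have h22 : runOps x [.cst 3 false] m2 = m2 := by
    funext i
    rw [hm2]
    simp only [runOps, List.foldl_cons, List.foldl_nil, Op.app, Op.tgt, Op.val]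
    split_ifs <;> rfl
  have hone : ∀ (b : Bt) (m' : ℕ × ℕ → Bool), mops M b = [.cst 3 false] →
      C.next ((b, 0), m') = ((if runOps x [.cst 3 false] m' ((mext M b).1, 0) then
        (mext M b).2.2 else (mext M b).2.1, 0), runOps x [.cst 3 false] m') ∧
      (mopm M).code (b, 0) ≠ none := by
    intro b m' hb
    obtain ⟨h1, h2⟩ := hO3 M x b m' (by rw [hb]; simp)
    rw [hb] at h1 h2
    exact ⟨h2, (h1 0 (by simp)).2⟩
  have hc2 : m (2, 0) = false := hm (2, 0) false (by simp [csO])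
  have hc4 : ∀ i, i < (allI M).length → m (4 + i, 0) = decide (4 + i = 4 + j) := by
    intro i hi
    refine hm (4 + i, 0) _ ?_
    unfold csO
    simp only
    rw [if_neg (by omega), if_neg (by simp only [Prod.mk.injEq, not_and]; omega),
      if_pos ⟨by omega, by unfold tb; omega, trivial⟩]
  have hds : ∀ i, mops M (.ds i) = [.cst 3 false] := fun i => rfl
  have hlt : mops M .lt = [.cst 3 false] := rfl
  have hs1 : C.next ((.lt, 0), m) = ((.ds 0, 0), m2) := by
    rw [(hone .lt m hlt).1]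
    have e1 : (mext M .lt).1 = 2 := rfl
    have e2 : (mext M .lt).2.1 = .ds 0 := rfl
    rw [e1, e2, ← hm2, h2t 2 (by omega), hc2]
    rfl
  have hsi : ∀ i ≤ j, C.next^[1 + i] ((.lt, 0), m) = ((.ds i, 0), m2) := by
    intro i
    induction i with
    | zero => intro _; simpa using hs1
    | succ i ih =>
      intro hi
      rw [← add_assoc, Function.iterate_succ_apply', ih (by omega), (hone (.ds i) m2 (hds i)).1,
        h22]
      have e : mext M (.ds i) = (4 + i, .ds (i + 1), .ib i) := by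
        have : mext M (.ds i) = if i < (allI M).length then (4 + i, .ds (i + 1), .ib i)
          else (0, .ha, .ha) := rfl
        rw [this, if_pos (by omega)]
      rw [e]
      simp only
      rw [h2t (4 + i) (by omega), hc4 i (by omega), if_neg]
      simp; omega
  have hend : C.next^[j + 2] ((.lt, 0), m) = ((.ib j, 0), m2) := by
    have e0 : j + 2 = (1 + j) + 1 := by omega
    rw [e0, Function.iterate_succ_apply', hsi j le_rfl, (hone (.ds j) m2 (hds j)).1, h22]
    have e : mext M (.ds j) = (4 + j, .ds (j + 1), .ib j) := by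
      have : mext M (.ds j) = if j < (allI M).length then (4 + j, .ds (j + 1), .ib j)
        else (0, .ha, .ha) := rfl
      rw [this, if_pos hj]
    rw [e]
    simp only
    rw [h2t (4 + j) (by omega), hc4 j hj, if_pos]
    simp
  refine ⟨m2, h2t, hend, ?_⟩
  intro k hk
  rcases Nat.eq_zero_or_pos k with rfl | hk0
  · exact ⟨.lt, m, rfl, (hone .lt m hlt).2, fun t _ n => rfl⟩
  · obtain ⟨i, rfl⟩ : ∃ i, k = 1 + i := ⟨k - 1, by omega⟩
    exact ⟨.ds i, m2, hsi i (by omega), (hone (.ds i) m2 (hds i)).2, h2t⟩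

theorem O4_bit {m : ℕ × ℕ → Bool} {Y : Set ℕ} (h : row m 1 = Y) (n : ℕ) :
    m (1, n) = (clProc (fun X => X)).bit Y n := by
  subst h
  change m (1, n) = @decide (m (1, n) = true) (Classical.propDecidable _)
  simp

theorem pf_O4 : StT4 → StO1 → StO2 → StO3 → StO4 := by
  intro hT4 hO1 hO2 hO3 M hM x j G x0 hj
  have hjl := O4_lt hj
  have htb : 3 < tb M := by unfold tb; omega
  refine ⟨?_, ?_, ?_⟩
  · rintro Y c ⟨-, hc, -⟩ n i rfl
    exact O4_bit hc n
  · rintro (Y : Set ℕ) c ⟨hc1, hc2, hc3⟩ hlive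
    obtain ⟨m2, hpos, hrun, h3, hrow, htab, hk⟩ := O4_block hO1 hO2 hO3 hM x hj c.2
    have hc : c = ((.ib j, 0), c.2) := by
      obtain ⟨c1, c2⟩ := c
      simp only at hc1
      rw [hc1]
    have hr : ∀ k : ℕ, ((mopm M).proc x).run c (k : Ordinal.{0}) =
        ((mopm M).proc x).next^[k] ((.ib j, 0), c.2) := by
      intro k
      rw [(hT4 ((mopm M).proc x) c).1 k]
      exact congrArg _ hc
    have key : ∀ s : OSt (Bt × ℕ), s = ((if m2 (3, 0) = true then .ib j else nx M j, 0), m2) →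
        s.1 = (.ib j, 0) ∧ row s.2 1 = Y ∪ G Y ∧ Oks (csO M j x0) s.2 := by
      rintro s rfl
      rw [hc2] at h3 hrow
      have h33 : m2 (3, 0) = true := h3.2 hlive
      refine ⟨?_, hrow, ?_⟩
      · simp [h33]
      · exact O4_oks hc3 htab
    have key2 : ∀ (k : ℕ) (s : OSt (Bt × ℕ)) (m3 : ℕ × ℕ → Bool), s = ((.ib j, k), m3) →
        (mopm M).code (.ib j, k) ≠ none → (∀ t, t ≠ 3 → t < tb M → ∀ n, m3 (t, n) = c.2 (t, n)) →
        (mopm M).code s.1 ≠ none ∧ Oks (csO M j x0) s.2 ∧ ∀ (n : ℕ) (i : ℕ × ℕ), i = (1, n) →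
          (s.2 i = (clProc G).bit Y n ∨ s.2 i = (clProc G).bit ((clProc G).next Y) n) := by
      rintro k s m3 rfl h4 h5
      refine ⟨h4, ?_, ?_⟩
      · exact O4_oks hc3 (fun t _ ht3 ht n => h5 t ht3 ht n)
      · rintro n i rfl
        left
        refine Eq.trans (h5 1 (by omega) (by omega) n) ?_
        exact O4_bit hc2 n
    refine ⟨((mops M (.ib j)).length : ℕ), ?_, ?_, ?_, ?_⟩
    · exact_mod_cast hpos
    · exact key _ ((hr _).trans hrun)
    · intro γ hγ
      obtain ⟨k, hkl, rfl⟩ := O4_nat hγ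
      obtain ⟨m3, hk1, hk2, hk3⟩ := hk k hkl
      exact key2 k _ m3 ((hr _).trans hk1) hk2 hk3
    · intro f hf
      exact absurd hf (Set.notMem_empty f)
  · intro m m' hm _ hoks
    obtain ⟨m2, h2t, hend, hk⟩ := O4_search hO3 x hjl m' hoks
    have hr : ∀ k : ℕ, ((mopm M).proc x).run (((mopm M).proc x).post m') (k : Ordinal.{0}) =
        ((mopm M).proc x).next^[k] ((.lt, 0), m') := fun k =>
      (hT4 ((mopm M).proc x) _).1 k
    have hrow : ∀ m3 : ℕ × ℕ → Bool, (∀ t, t ≠ 3 → ∀ n, m3 (t, n) = m' (t, n)) →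
        row m3 1 = {n | m n = true} := by
      intro m3 h3
      ext n
      change m3 (1, n) = true ↔ m n = true
      have e : m3 (1, n) = m n := (h3 1 (by omega) n).trans (hm n (1, n) rfl)
      rw [e]
    have key : ∀ s : OSt (Bt × ℕ), s = ((.ib j, 0), m2) →
        s.1 = (.ib j, 0) ∧ row s.2 1 = {n | m n = true} ∧ Oks (csO M j x0) s.2 := by
      rintro s rfl
      exact ⟨rfl, hrow m2 h2t, O4_oks hoks (fun t _ ht3 _ n => h2t t ht3 n)⟩
    have key2 : ∀ (b : Bt) (s : OSt (Bt × ℕ)) (m3 : ℕ × ℕ → Bool), s = ((b, 0), m3) →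
        (mopm M).code (b, 0) ≠ none → (∀ t, t ≠ 3 → ∀ n, m3 (t, n) = m' (t, n)) →
        (mopm M).code s.1 ≠ none ∧ Oks (csO M j x0) s.2 ∧ ∀ (n : ℕ) (i : ℕ × ℕ), i = (1, n) →
          (s.2 i = m n ∨ s.2 i = (clProc G).bit ((clProc G).post m) n) := by
      rintro b s m3 rfl h4 h5
      refine ⟨h4, ?_, ?_⟩
      · exact O4_oks hoks (fun t _ ht3 _ n => h5 t ht3 n)
      · rintro n i rfl
        left
        exact Eq.trans (h5 1 (by omega) n) (hm n (1, n) rfl)
    refine ⟨((j + 2 : ℕ) : Ordinal.{0}), ?_, ?_⟩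
    · exact key _ ((hr _).trans hend)
    · intro γ hγ
      obtain ⟨k, hkl, rfl⟩ := O4_nat hγ
      obtain ⟨b, m3, hk1, hk2, hk3⟩ := hk k hkl
      exact key2 b _ m3 ((hr _).trans hk1) hk2 hk3

end Pool.Agent.Helper91.MP
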