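import Pool.Agent.Helper91.MP.M_O4

/-!
# Chapter MP, module O5: execution of one instruction
-/

set_option autoImplicit false

open Ordinal Order

namespace Pool.Agent.Helper91.MP

open Pool.Agent.Helper25.EV

theorem O5_cst (x : Real2) (b : ℕ → Bool) (n : ℕ) (m : ℕ × ℕ → Bool) :
    ∀ i k, runOps x ((List.range n).map fun i => .cst (4 + i) (b i)) m (4 + i, k) =
      if i < n then b i else m (4 + i, k) := by
  induction n with
  | zero => intro i k; simp [runOps]
  | succ n ih =>
    intro i k
    rw [List.range_succ, List.map_append, O4_append]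
    have e : ∀ m' : ℕ × ℕ → Bool, runOps x (List.map (fun i => Op.cst (4 + i) (b i)) [n]) m'
        (4 + i, k) = if i = n then b n else m' (4 + i, k) := by
      intro m'
      simp only [List.map_cons, List.map_nil, runOps, List.foldl_cons, List.foldl_nil, Op.app,
        Op.tgt, Op.val]
      by_cases h : i = n
      · rw [if_pos (by omega), if_pos h]
      · rw [if_neg (by omega), if_neg h]
    rw [e, ih]
    by_cases h : i = n
    · subst h
      simp
    · rw [if_neg h]
      by_cases h1 : i < n
      · rw [if_pos h1, if_pos (by omega)]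
      · rw [if_neg h1, if_neg (by omega)]

/-- execution of a block which does not change the tables `0` and `2` -/
theorem O5_block (hO2 : StO2) (hO3 : StO3) (hT5 : StT5) {M : Macro} (x : Real2) (b : Bt)
    (m : ℕ × ℕ → Bool) (hne : mops M b ≠ []) (h : ∀ op ∈ mops M b, op.tgt ≠ 0 ∧ op.tgt ≠ 2)
    (h2 : m (2, 0) = false) (b' : Bt)
    (hb : (if runOps x (mops M b) m ((mext M b).1, 0) then (mext M b).2.2 else (mext M b).2.1) =
      b') :
    Seg ((mopm M).proc x) (InvO M (row m 0)) ((b, 0), m) ((b', 0), runOps x (mops M b) m) ∧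
      runOps x (mops M b) m (2, 0) = false ∧ row (runOps x (mops M b) m) 0 = row m 0 := by
  obtain ⟨hb1, hb2⟩ := hO3 M x b m hne
  have hrow : ∀ ops : List Op, (∀ op ∈ ops, op.tgt ≠ 0 ∧ op.tgt ≠ 2) →
      runOps x ops m (2, 0) = false ∧ row (runOps x ops m) 0 = row m 0 := by
    intro ops hops
    refine ⟨(hO2.1 x ops m 2 (fun op hop => (hops op hop).2) 0).trans h2, ?_⟩
    ext n
    change runOps x ops m (0, n) = true ↔ m (0, n) = true
    rw [hO2.1 x ops m 0 (fun op hop => (hops op hop).1) n]
  rw [hb] at hb2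
  refine ⟨?_, hrow _ h⟩
  have h4 := (hT5 ((mopm M).proc x) (InvO M (row m 0))).2.2.2.1 ((b, 0), m) (mops M b).length ?_
  · rw [hb2] at h4
    exact h4
  · intro k hk
    obtain ⟨h5, h6⟩ := hb1 k hk
    rw [h5]
    obtain ⟨h7, h8⟩ := hrow ((mops M b).take k)
      (fun op hop => h op (List.mem_of_mem_take hop))
    exact ⟨h6, h8, h7⟩

theorem pf_O5 : StT3 → StT4 → StT5 → StT7 → StT8 → StO1 → StO2 → StO3 → StO4 → StO5 := by
  intro hT3 hT4 hT5 hT7 hT8 hO1 hO2 hO3 hO4 M hM x j I hj m hm2
  have hjl := O4_lt hj
  have htb : 3 < tb M := by unfold tb; omega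
  have hIok := O4_ok hM hj
  match I, hj, hIok with
  | .ar F, hj, hIok =>
    have hgood := O4_good hO1 (F := F) hIok (t := tb M) (by omega)
    have hops : mops M (.ia j) = evalOps F (tb M) ++ [.sub 1 (tb M) id] := by
      unfold mops
      simp only [hj]
    have hext : mext M (.ia j) = (0, nx M j, nx M j) := by
      unfold mext
      simp only [hj]
    have hb := O5_block hO2 hO3 hT5 (M := M) x (.ia j) m (by rw [hops]; simp) (by
      intro op hop
      rw [hops, List.mem_append] at hop
      rcases hop with hop | hop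
      · have := (hgood.1 op hop).2
        omega
      · rw [List.mem_singleton] at hop
        rw [hop]
        simp [Op.tgt]) hm2 (nx M j) (by rw [hext]; simp)
    refine ⟨_, hb.1, hb.2.1, hb.2.2, ?_⟩
    rw [hops, O4_append]
    ext n
    change runOps x [.sub 1 (tb M) id] (runOps x (evalOps F (tb M)) m) (1, n) = true ↔
      n ∈ F (row m 1)
    refine Iff.trans ?_ (hgood.2 x m n)
    have e : ∀ m' : ℕ × ℕ → Bool, runOps x [.sub 1 (tb M) id] m' (1, n) = m' (tb M, n) := by
      intro m'
      simp [runOps, Op.app, Op.tgt, Op.val]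
    rw [e]
  | .cl G, hj, hIok =>
    have hops : mops M (.ia j) =
        (List.range (allI M).length).map fun i => .cst (4 + i) (i = j) := by
      unfold mops
      simp only [hj]
    have hext : mext M (.ia j) = (0, .ib j, .ib j) := by
      unfold mext
      simp only [hj]
    obtain ⟨hs1, h12, h10⟩ := O5_block hO2 hO3 hT5 (M := M) x (.ia j) m (by
      rw [hops]
      intro h
      rw [List.map_eq_nil_iff, List.range_eq_nil] at h
      omega) (by
      intro op hop
      rw [hops, List.mem_map] at hop
      obtain ⟨i, -, rfl⟩ := hop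
      simp only [Op.tgt]
      omega) hm2 (.ib j) (by rw [hext]; simp)
    set m1 := runOps x (mops M (.ia j)) m with hm1
    have h1t : ∀ t, t < 4 → ∀ n, m1 (t, n) = m (t, n) := by
      intro t ht n
      rw [hm1]
      refine hO2.1 x _ m t ?_ n
      intro op hop
      rw [hops, List.mem_map] at hop
      obtain ⟨i, -, rfl⟩ := hop
      simp only [Op.tgt]
      omega
    have hoks : Oks (csO M j fun n => m (0, n)) m1 := by
      rintro ⟨t, n⟩ b hb
      unfold csO at hb
      simp only at hb
      by_cases h0 : t = 0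
      · rw [if_pos h0] at hb
        subst h0
        rw [h1t 0 (by omega)]
        exact Option.some.inj hb
      · rw [if_neg h0] at hb
        by_cases h2 : (t, n) = (2, 0)
        · rw [if_pos h2] at hb
          rw [h2, h12]
          exact Option.some.inj hb
        · rw [if_neg h2] at hb
          by_cases h4 : 4 ≤ t ∧ t < tb M ∧ n = 0
          · rw [if_pos h4] at hb
            obtain ⟨i, rfl⟩ : ∃ i, t = 4 + i := ⟨t - 4, by omega⟩
            rw [hm1, hops, O5_cst x (fun i => decide (i = j)), if_pos (by unfold tb at h4; omega),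
              ← Option.some.inj hb]
            congr 1
            simp
          · rw [if_neg h4] at hb
            cases hb
    have hr1 : row m1 1 = row m 1 := by
      ext n
      change m1 (1, n) = true ↔ m (1, n) = true
      rw [h1t 1 (by omega)]
    obtain ⟨α, hα1, hα2, hα3⟩ := hT8 G (row m 1)
    have hsim := hO4 M hM x j G (fun n => m (0, n)) hj
    obtain ⟨β, -, hrel, hβ⟩ := (hT3 _ _ _ _ _ _ _ _ hsim (row m 1) ((.ib j, 0), m1)
      ⟨rfl, hr1, hoks⟩).1 α (by
        intro α' hα'
        rw [hT7]
        exact hα2 α' hα')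
    rw [hT7] at hrel
    -- the invariant
    have hinv : ∀ s : OSt (Bt × ℕ), (mopm M).code s.1 ≠ none →
        Oks (csO M j fun n => m (0, n)) s.2 → InvO M (row m 0) s := by
      intro s h1 h2
      refine ⟨h1, ?_, h2 (2, 0) false (by simp [csO])⟩
      ext n
      change s.2 (0, n) = true ↔ m (0, n) = true
      rw [h2 (0, n) (m (0, n)) (by simp [csO])]
    have hs2 : Seg ((mopm M).proc x) (InvO M (row m 0)) ((.ib j, 0), m1)
        (((mopm M).proc x).run ((.ib j, 0), m1) β) :=
      ⟨β, rfl, fun γ hγ => hinv _ (hβ γ hγ).1 (hβ γ hγ).2⟩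
    obtain ⟨c2, hc2⟩ : ∃ c2 : OSt (Bt × ℕ), c2 = ((mopm M).proc x).run ((.ib j, 0), m1) β :=
      ⟨_, rfl⟩
    have hrel' : c2.1 = (.ib j, 0) ∧ row c2.2 1 = clS G (row m 1) α ∧
        Oks (csO M j fun n => m (0, n)) c2.2 := by
      rw [hc2]
      exact hrel
    obtain ⟨hc21, hc22, hc23⟩ := hrel'
    have hc2e : c2 = ((.ib j, 0), c2.2) := by
      obtain ⟨a, b⟩ := c2
      simp only at hc21
      rw [hc21]
    obtain ⟨m2, hpos, hrun, h3, hrow, htab, hk⟩ := O4_block hO1 hO2 hO3 hM x hj c2.2
    have hm23 : m2 (3, 0) = false := by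
      rw [hc22] at h3
      cases h : m2 (3, 0) with
      | false => rfl
      | true => exact absurd hα1 (h3.1 h)
    have hoks2 := O4_oks hc23 htab
    have hs3 : Seg ((mopm M).proc x) (InvO M (row m 0)) ((.ib j, 0), c2.2) ((nx M j, 0), m2) := by
      have h4 := (hT5 ((mopm M).proc x) (InvO M (row m 0))).2.2.2.1 ((.ib j, 0), c2.2)
        (mops M (.ib j)).length ?_
      · rw [hrun] at h4
        rw [hm23] at h4
        exact h4
      · intro k hkl
        obtain ⟨m3, hk1, hk2, hk3⟩ := hk k hkl
        rw [hk1]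
        exact hinv ((.ib j, k), m3) hk2
          (O4_oks hc23 (fun t _ ht3 ht n => hk3 t ht3 ht n))
    have htr := (hT5 ((mopm M).proc x) (InvO M (row m 0))).2.1
    refine ⟨m2, ?_, ?_, ?_, ?_⟩
    · refine htr _ _ _ (htr _ _ _ hs1 hs2) ?_
      rw [← hc2e] at hs3
      rw [← hc2]
      exact hs3
    · exact hoks2 (2, 0) false (by simp [csO])
    · ext n
      change m2 (0, n) = true ↔ m (0, n) = true
      rw [hoks2 (0, n) (m (0, n)) (by simp [csO])]
    · rw [hrow, hc22]
      change _ = clos G (row m 1)
      rw [hα3]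
      exact Set.union_eq_self_of_subset_right hα1

end Pool.Agent.Helper91.MP
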