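import Pool.Agent.Helper91.MP.MacD

/-!
# Chapter MP, module O6: execution of a list of instructions
-/

set_option autoImplicit false

open Ordinal Order

namespace Pool.Agent.Helper91.MP

open Pool.Agent.Helper25.EV

theorem O6_get (M : Macro) (s : ℕ) (L : List Instr)
    (h : (s = 0 ∧ L = M.init) ∨ (s = M.init.length ∧ L = M.main) ∨
      (s = M.init.length + M.main.length ∧ L = M.lim)) (i : ℕ) (hi : i < L.length) :
    (allI M)[s + i]? = some L[i] := by
  unfold allI
  rcases h with ⟨rfl, rfl⟩ | ⟨rfl, rfl⟩ | ⟨rfl, rfl⟩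
  · rw [List.append_assoc, List.getElem?_append_left (by omega), Nat.zero_add,
      List.getElem?_eq_getElem hi]
  · rw [List.append_assoc, List.getElem?_append_right (by omega), Nat.add_sub_cancel_left,
      List.getElem?_append_left hi, List.getElem?_eq_getElem hi]
  · rw [List.getElem?_append_right (by rw [List.length_append]; omega), List.length_append,
      Nat.add_sub_cancel_left, List.getElem?_eq_getElem hi]

theorem O6_nx (M : Macro) (s : ℕ) (L : List Instr)
    (h : (s = 0 ∧ L = M.init) ∨ (s = M.init.length ∧ L = M.main) ∨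
      (s = M.init.length + M.main.length ∧ L = M.lim)) (i : ℕ) (hi : i < L.length) :
    nx M (s + i) = if i + 1 = L.length then .fi else .ia (s + (i + 1)) := by
  unfold nx
  by_cases h1 : i + 1 = L.length
  · rw [if_pos h1, if_pos]
    rcases h with ⟨rfl, rfl⟩ | ⟨rfl, rfl⟩ | ⟨rfl, rfl⟩ <;> omega
  · rw [if_neg h1, if_neg, Nat.add_assoc]
    rcases h with ⟨rfl, rfl⟩ | ⟨rfl, rfl⟩ | ⟨rfl, rfl⟩ <;> omega

theorem pf_O6 : StT5 → StO5 → StO6 := by
  intro hT5 hO5 M hM x s L h m hm
  have key : ∀ i, i ≤ L.length → ∃ m' : ℕ × ℕ → Bool,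
      Seg ((mopm M).proc x) (InvO M (row m 0)) ((ent s L.length, 0), m)
        (((if i = L.length then .fi else .ia (s + i)), 0), m') ∧
      m' (2, 0) = false ∧ row m' 0 = row m 0 ∧ row m' 1 = execs (L.take i) (row m 1) := by
    intro i
    induction i with
    | zero =>
      intro _
      refine ⟨m, ?_, hm, rfl, ?_⟩
      · have e : (if 0 = L.length then Bt.fi else .ia (s + 0)) = ent s L.length := by
          unfold ent
          by_cases h0 : L.length = 0
          · rw [if_pos h0.symm, if_pos h0]
          · rw [if_neg (Ne.symm h0), if_neg h0, Nat.add_zero]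
        rw [e]
        exact (hT5 _ _).1 _
      · simp [execs]
    | succ i ih =>
      intro hi
      obtain ⟨m1, h1, h2, h3, h4⟩ := ih (by omega)
      have hi' : i < L.length := by omega
      rw [if_neg (by omega)] at h1
      obtain ⟨m2, g1, g2, g3, g4⟩ := hO5 M hM x (s + i) L[i] (O6_get M s L h i hi') m1 h2
      refine ⟨m2, ?_, g2, g3.trans h3, ?_⟩
      · rw [h3, O6_nx M s L h i hi'] at g1
        exact (hT5 _ _).2.1 _ _ _ h1 g1
      · rw [g4, h4, List.take_add_one, List.getElem?_eq_getElem hi']
        unfold execs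
        rw [List.foldl_append]
        rfl
  obtain ⟨m', h1, h2, h3, h4⟩ := key L.length le_rfl
  rw [if_pos rfl] at h1
  rw [List.take_length] at h4
  exact ⟨m', h1, h2, h3, h4⟩

end Pool.Agent.Helper91.MP
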