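import Pool.Agent.Helper91.MP.MacD

/-!
# Chapter MP, module O7: the operator machine simulates the macro process
-/

set_option autoImplicit false

open Ordinal Order

namespace Pool.Agent.Helper91.MP

open Pool.Agent.Helper25.EV

/-- weak invariant: not halted, table `0` constant -/
def O7_G (M : Macro) (X : Set ℕ) (s : OSt (Bt × ℕ)) : Prop :=
  (mopm M).code s.1 ≠ none ∧ row s.2 0 = X

theorem O7_const (x : Real2) (ops : List Op) (t : ℕ) (h : ∀ op ∈ ops, op.tgt ≠ t) :
    ∀ (m : ℕ × ℕ → Bool) (n : ℕ), runOps x ops m (t, n) = m (t, n) := by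
  induction ops with
  | nil => intro m n; rfl
  | cons op ops ih =>
    intro m n
    have h1 := ih (fun op' hop' => h op' (List.mem_cons_of_mem _ hop')) (op.app x m) n
    have h2 : runOps x (op :: ops) m = runOps x ops (op.app x m) := rfl
    rw [h2, h1]
    unfold Op.app
    rw [if_neg (fun h' => h op List.mem_cons_self h'.symm)]

theorem O7_row (x : Real2) (ops : List Op) (t : ℕ) (h : ∀ op ∈ ops, op.tgt ≠ t)
    (m : ℕ × ℕ → Bool) : row (runOps x ops m) t = row m t := by
  ext n
  change runOps x ops m (t, n) = true ↔ m (t, n) = true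
  rw [O7_const x ops t h]

theorem O7_bit (M : Macro) (m : ℕ × ℕ → Bool) (i : ℕ) :
    m (0, i) = (macProc M).bit (row m 0) i := by
  classical
  by_cases h : m (0, i) = true
  · rw [h]
    exact (decide_eq_true (show i ∈ row m 0 from h)).symm
  · have h' : m (0, i) = false := by simpa using h
    rw [h']
    exact (decide_eq_false (show i ∉ row m 0 from h)).symm

/-- execution of a block which does not change the table `0` before the last operator -/
theorem O7_block (hT5 : StT5) (hO3 : StO3) (M : Macro) (x : Real2) (b : Bt)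
    (m : ℕ × ℕ → Bool) (hne : mops M b ≠ [])
    (h : ∀ k < (mops M b).length, ∀ op ∈ (mops M b).take k, op.tgt ≠ 0) :
    Seg ((mopm M).proc x) (O7_G M (row m 0)) ((b, 0), m)
      ((if runOps x (mops M b) m ((mext M b).1, 0) then (mext M b).2.2 else (mext M b).2.1, 0),
        runOps x (mops M b) m) := by
  obtain ⟨hb1, hb2⟩ := hO3 M x b m hne
  have h4 := (hT5 ((mopm M).proc x) (O7_G M (row m 0))).2.2.2.1 ((b, 0), m) (mops M b).length ?_
  · rw [hb2] at h4
    exact h4
  · intro k hk
    obtain ⟨h5, h6⟩ := hb1 k hk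
    rw [h5]
    exact ⟨h6, O7_row x _ 0 (h k hk) m⟩

/-- a list of instructions, then the block `fi` -/
theorem O7_finish (hT5 : StT5) (hO3 : StO3) (hO6 : StO6) (M : Macro) (hM : M.ok) (x : Real2)
    (s : ℕ) (L : List Instr)
    (h : (s = 0 ∧ L = M.init) ∨ (s = M.init.length ∧ L = M.main) ∨
      (s = M.init.length + M.main.length ∧ L = M.lim))
    (m : ℕ × ℕ → Bool) (hm : m (2, 0) = false) :
    ∃ c : OSt (Bt × ℕ), Seg ((mopm M).proc x) (O7_G M (row m 0)) ((ent s L.length, 0), m) c ∧
      RelO (execs L (row m 1)) c ∧ c.2 (2, 0) = false := by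
  classical
  obtain ⟨m1, h1, h2, h3, h4⟩ := hO6 M hM x s L h m hm
  have h5 := O7_block hT5 hO3 M x .fi m1 (by simp [mops]) (by
    intro k hk op hop
    have e : mops M .fi = [.sub 0 1 id] := rfl
    rw [e] at hk hop
    have hk0 : k = 0 := by simpa using hk
    subst hk0
    simp at hop)
  have e1 : mops M .fi = [.sub 0 1 id] := rfl
  have e2 : mext M .fi = (0, .mn, .ha) := rfl
  rw [e1, e2] at h5
  set m2 := runOps x [.sub 0 1 id] m1 with hm2
  have h6 : row m2 0 = row m1 1 := by
    ext n
    change m2 (0, n) = true ↔ m1 (1, n) = true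
    rw [hm2]
    simp [runOps, Op.app, Op.tgt, Op.val]
  have h7 : m2 (2, 0) = false := by
    rw [hm2, O7_const x _ 2 (by simp [Op.tgt])]
    exact h2
  refine ⟨((if m2 (0, 0) then .ha else .mn, 0), m2),
    (hT5 _ _).2.1 _ _ _ ((hT5 _ _).2.2.2.2.2 _ _ _ ?_ h1) ?_, ?_, h7⟩
  · rintro s' ⟨a1, a2, -⟩
    exact ⟨a1, a2⟩
  · rw [← h3]
    exact h5
  · unfold RelO
    rw [← h4, ← h6]
    refine ⟨?_, rfl⟩
    have h8 : (m2 (0, 0) = true) ↔ 0 ∈ row m2 0 := Iff.rfl
    by_cases h9 : m2 (0, 0) = true
    · have h10 : 0 ∈ row m2 0 := h9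
      simp only [h9, if_true]
      rw [if_pos h10]
    · have h10 : 0 ∉ row m2 0 := h9
      simp only [h9]
      rw [if_neg h10]
      rfl

theorem pf_O7 : StT2 → StT4 → StT5 → StO3 → StO6 → StO7 := by
  classical
  intro hT2 hT4 hT5 hO3 hO6 M hM x
  refine ⟨?_, ?_, ?_⟩
  · rintro X ⟨l, m⟩ ⟨-, h2⟩ i j rfl
    simp only at h2 ⊢
    rw [← h2]
    exact O7_bit M m i
  · rintro X ⟨l, m⟩ ⟨h1, h2⟩ hlive
    simp only at h1 h2
    rw [if_neg hlive] at h1
    subst h1
    have e1 : mops M .mn = [.cst 2 true, .cst 2 false, .sub 1 0 id] := rfl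
    have e2 : mext M .mn = (0, ent M.init.length M.main.length,
      ent M.init.length M.main.length) := rfl
    obtain ⟨hb1, hb2⟩ := hO3 M x .mn m (by simp [mops])
    set m1 := runOps x (mops M .mn) m with hm1
    have hk0 := hb1 0 (by rw [e1]; simp)
    have hk1 := hb1 1 (by rw [e1]; simp)
    have hk2 := hb1 2 (by rw [e1]; simp)
    have e3 : (mops M .mn).length = 3 := rfl
    rw [e3, e2] at hb2
    simp only [ite_self] at hb2
    have hrow : ∀ k < 3, row (runOps x ((mops M .mn).take k) m) 0 = X := by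
      intro k hk
      rw [O7_row x _ 0 _ m]
      · exact h2
      · intro op hop
        have := List.mem_of_mem_take hop
        rw [e1] at this
        simp only [List.mem_cons, List.not_mem_nil, or_false] at this
        rcases this with rfl | rfl | rfl <;> simp [Op.tgt]
    have hm12 : m1 (2, 0) = false := by
      rw [hm1, e1]
      simp [runOps, Op.app, Op.tgt, Op.val]
    have hm10 : row m1 0 = X := by
      rw [hm1, O7_row x _ 0 _ m]
      · exact h2
      · intro op hop
        rw [e1] at hop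
        simp only [List.mem_cons, List.not_mem_nil, or_false] at hop
        rcases hop with rfl | rfl | rfl <;> simp [Op.tgt]
    have hm11 : row m1 1 = X := by
      rw [← h2]
      ext n
      change m1 (1, n) = true ↔ m (0, n) = true
      rw [hm1, e1]
      simp [runOps, Op.app, Op.tgt, Op.val]
    obtain ⟨c, hc1, hc2, hc3⟩ := O7_finish hT5 hO3 hO6 M hM x M.init.length M.main
      (Or.inr (Or.inl ⟨rfl, rfl⟩)) m1 hm12
    rw [hm10] at hc1
    rw [hm11] at hc2
    -- the segment from the second state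
    have hs1 : Seg ((mopm M).proc x) (O7_G M X) (((mopm M).proc x).next (((.mn, 0), m) : OSt (Bt × ℕ)))
        ((ent M.init.length M.main.length, 0), m1) := by
      have h4 := (hT5 ((mopm M).proc x) (O7_G M X)).2.2.2.1 (((mopm M).proc x).next (((.mn, 0), m) : OSt (Bt × ℕ))) 2 ?_
      · rw [← Function.iterate_succ_apply] at h4
        rw [hb2] at h4
        exact h4
      · intro k hk
        rw [← Function.iterate_succ_apply]
        obtain ⟨h5, h6⟩ := hb1 (k + 1) (by rw [e3]; omega)
        rw [h5]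
        exact ⟨h6, hrow (k + 1) (by omega)⟩
    obtain ⟨β, hβ1, hβ2⟩ := (hT5 _ _).2.1 _ _ _ hs1 hc1
    have hrun1 : ((mopm M).proc x).run (((.mn, 0), m) : OSt (Bt × ℕ)) 1 =
        ((mopm M).proc x).next (((.mn, 0), m) : OSt (Bt × ℕ)) := by
      have := (hT4 ((mopm M).proc x) ((.mn, 0), m)).1 1
      rw [Nat.cast_one] at this
      exact this
    have hrun0 : ((mopm M).proc x).run (((.mn, 0), m) : OSt (Bt × ℕ)) 0 = (((.mn, 0), m) : OSt (Bt × ℕ)) := by
      have := (hT4 ((mopm M).proc x) ((.mn, 0), m)).1 0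
      rw [Nat.cast_zero] at this
      exact this
    have hflag : ((mopm M).proc x).bit (((mopm M).proc x).next (((.mn, 0), m) : OSt (Bt × ℕ))) (2, 0) = true := by
      have h5 := hk1.1
      rw [Function.iterate_one] at h5
      rw [h5, e1]
      change runOps x (List.take 1 [.cst 2 true, .cst 2 false, .sub 1 0 id]) m (2, 0) = true
      simp [runOps, Op.app, Op.tgt, Op.val]
    have hG : ∀ γ < 1 + β, O7_G M X (((mopm M).proc x).run (((.mn, 0), m) : OSt (Bt × ℕ)) γ) := by
      intro γ hγ
      rcases lt_or_ge γ 1 with h6 | h6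
      · rw [Order.lt_one_iff] at h6
        rw [h6, hrun0]
        exact ⟨by simpa using hk0.2, h2⟩
      · obtain ⟨γ', rfl⟩ : ∃ γ', γ = 1 + γ' := ⟨γ - 1, (Ordinal.add_sub_cancel_of_le h6).symm⟩
        rw [hT2, hrun1]
        exact hβ2 γ' (lt_of_add_lt_add_left hγ)
    have hβpos : 0 < β := by
      rw [pos_iff_ne_zero]
      rintro rfl
      have h7 : ((mopm M).proc x).run (((mopm M).proc x).next (((.mn, 0), m) : OSt (Bt × ℕ))) 0 =
          ((mopm M).proc x).next (((.mn, 0), m) : OSt (Bt × ℕ)) := by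
        have := (hT4 ((mopm M).proc x) (((mopm M).proc x).next (((.mn, 0), m) : OSt (Bt × ℕ)))).1 0
        rw [Nat.cast_zero] at this
        exact this
      rw [h7] at hβ1
      rw [hβ1] at hflag
      exact absurd (hflag.symm.trans hc3) (by simp)
    refine ⟨1 + β, lt_of_lt_of_le zero_lt_one (le_add_of_nonneg_right bot_le), ?_, ?_, ?_⟩
    · rw [hT2, hrun1, hβ1]
      exact hc2
    · intro γ hγ
      obtain ⟨g1, g2⟩ := hG γ hγ
      refine ⟨g1, fun i b hb => (by simp at hb), ?_⟩
      rintro i j rfl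
      left
      have g3 := O7_bit M (((mopm M).proc x).run (((.mn, 0), m) : OSt (Bt × ℕ)) γ).2 i
      rw [g2] at g3
      exact g3
    · rintro f rfl
      refine ⟨1, ?_, ?_⟩
      · calc (1 : Ordinal.{0}) = 1 + 0 := (add_zero _).symm
          _ < 1 + β := by
            rw [add_lt_add_iff_left]
            exact hβpos
      · rw [hrun1]
        exact hflag
  · intro m (m' : ℕ × ℕ → Bool) hcor hfl _
    have hflag : m' (2, 0) = true := hfl _ rfl
    have h0 : ∀ n, m' (0, n) = m n := fun n => hcor n _ rfl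
    have hX : row m' 0 = {n | m n = true} := by
      ext n
      change m' (0, n) = true ↔ m n = true
      rw [h0]
    -- the block `lt`
    have e1 : mops M .lt = [.cst 3 false] := rfl
    have e2 : mext M .lt = (2, .ds 0, .lm) := rfl
    have hs1 := O7_block hT5 hO3 M x .lt m' (by simp [mops]) (by
      intro k hk op hop
      have := List.mem_of_mem_take hop
      rw [e1] at this
      simp only [List.mem_cons, List.not_mem_nil, or_false] at this
      rcases this with rfl
      simp [Op.tgt])
    rw [e1, e2] at hs1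
    set m1 := runOps x [.cst 3 false] m' with hm1
    have hm12 : m1 (2, 0) = true := by
      rw [hm1, O7_const x _ 2 (by simp [Op.tgt])]
      exact hflag
    simp only [hm12, if_true] at hs1
    have hm10 : row m1 0 = row m' 0 := by
      rw [hm1, O7_row x _ 0 (by simp [Op.tgt])]
    -- the block `lm`
    have e3 : mops M .lm = [.cst 2 false, .sub 1 0 id] := rfl
    have e4 : mext M .lm = (0, ent (M.init.length + M.main.length) M.lim.length,
      ent (M.init.length + M.main.length) M.lim.length) := rfl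
    have hs2 := O7_block hT5 hO3 M x .lm m1 (by simp [mops]) (by
      intro k hk op hop
      have := List.mem_of_mem_take hop
      rw [e3] at this
      simp only [List.mem_cons, List.not_mem_nil, or_false] at this
      rcases this with rfl | rfl <;> simp [Op.tgt])
    rw [e3, e4] at hs2
    simp only [ite_self] at hs2
    set m2 := runOps x [.cst 2 false, .sub 1 0 id] m1 with hm2
    have hm22 : m2 (2, 0) = false := by
      rw [hm2]
      simp [runOps, Op.app, Op.tgt, Op.val]
    have hm20 : row m2 0 = row m1 0 := by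
      rw [hm2, O7_row x _ 0 (by simp [Op.tgt])]
    have hm21 : row m2 1 = row m1 0 := by
      ext n
      change m2 (1, n) = true ↔ m1 (0, n) = true
      rw [hm2]
      simp [runOps, Op.app, Op.tgt, Op.val]
    obtain ⟨c, hc1, hc2, hc3⟩ := O7_finish hT5 hO3 hO6 M hM x (M.init.length + M.main.length) M.lim
      (Or.inr (Or.inr ⟨rfl, rfl⟩)) m2 hm22
    rw [hm20, hm10] at hc1
    rw [hm10] at hs2
    rw [hm21, hm10, hX] at hc2
    obtain ⟨β, hβ1, hβ2⟩ := (hT5 _ _).2.1 _ _ _ ((hT5 _ _).2.1 _ _ _ hs1 hs2) hc1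
    refine ⟨β, ?_, ?_⟩
    · change RelO _ (((mopm M).proc x).run (((.lt, 0), m') : OSt (Bt × ℕ)) β)
      rw [hβ1]
      exact hc2
    · intro γ hγ
      obtain ⟨g1, g2⟩ := hβ2 γ hγ
      refine ⟨g1, fun i b hb => (by simp at hb), ?_⟩
      rintro i j rfl
      left
      rw [← h0]
      have g3 : (((mopm M).proc x).run (((.lt, 0), m') : OSt (Bt × ℕ)) γ).2 (0, i) = true ↔ m' (0, i) = true := by
        have : i ∈ row (((mopm M).proc x).run (((.lt, 0), m') : OSt (Bt × ℕ)) γ).2 0 ↔ i ∈ row m' 0 := by
          rw [g2]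
        exact this
      change (((mopm M).proc x).run (((.lt, 0), m') : OSt (Bt × ℕ)) γ).2 (0, i) = m' (0, i)
      exact Bool.eq_iff_iff.2 g3

end Pool.Agent.Helper91.MP
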