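import Pool.Agent.Helper91.MP.M_O7

/-!
# Chapter MP, module O8: the start
-/

set_option autoImplicit false

open Ordinal Order

namespace Pool.Agent.Helper91.MP

open Pool.Agent.Helper25.EV

theorem pf_O8 : StT5 → StO3 → StO6 → StO8 := by
  classical
  intro hT5 hO3 hO6 M hM x m
  have e1 : mops M .st = [.cst 2 false, .inp 1] := rfl
  have e2 : mext M .st = (0, ent 0 M.init.length, ent 0 M.init.length) := rfl
  have hs1 := O7_block hT5 hO3 M x .st m (by simp [mops]) (by
    intro k hk op hop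
    have := List.mem_of_mem_take hop
    rw [e1] at this
    simp only [List.mem_cons, List.not_mem_nil, or_false] at this
    rcases this with rfl | rfl <;> simp [Op.tgt])
  rw [e1, e2] at hs1
  simp only [ite_self] at hs1
  set m1 := runOps x [.cst 2 false, .inp 1] m with hm1
  have hm12 : m1 (2, 0) = false := by
    rw [hm1]
    simp [runOps, Op.app, Op.tgt, Op.val]
  have hm10 : row m1 0 = row m 0 := by
    rw [hm1, O7_row x _ 0 (by simp [Op.tgt])]
  have hm11 : row m1 1 = setOf' x := by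
    ext n
    change m1 (1, n) = true ↔ x n = true
    rw [hm1]
    simp [runOps, Op.app, Op.tgt, Op.val]
  obtain ⟨c, hc1, hc2, hc3⟩ := O7_finish hT5 hO3 hO6 M hM x 0 M.init
    (Or.inl ⟨rfl, rfl⟩) m1 hm12
  rw [hm10] at hc1
  rw [hm11] at hc2
  refine ⟨c, hc2, ?_⟩
  refine (hT5 _ _).2.2.2.2.2 _ _ _ ?_ ((hT5 _ _).2.1 _ _ _ hs1 hc1)
  rintro s ⟨a1, -⟩
  exact a1

end Pool.Agent.Helper91.MP
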