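import Pool.Agent.Helper91.MP.MacD

set_option autoImplicit false

open Ordinal Order

namespace Pool.Agent.Helper91.MP

open Pool.Agent.Helper25.EV

/-- tables of an operator -/
def opT9 : Op → Finset ℕ
  | .inp t => {t}
  | .cst t _ => {t}
  | .prim t _ => {t}
  | .sub t u _ => {t, u}
  | .nand t u v => {t, u, v}
  | .ex t u => {t, u}

theorem tabs_of_opT9 (U : Set ℕ) (op : Op) (h : ∀ t ∈ opT9 op, t ∈ U) : op.tabs U := by
  cases op <;> simp_all [opT9, Op.tabs]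

theorem evalOps_good9 (o1 : StO1) (F : Set ℕ → Set ℕ) (hF : ArOp F) (t : ℕ) (ht : 1 < t) :
    Good (fun X n => n ∈ F X) t (evalOps F t) := by
  have h := o1 _ hF t ht
  rw [evalOps, dif_pos h]
  exact h.choose_spec

theorem allI_ok9 (M : Macro) (hM : M.ok) (j : ℕ) (I : Instr) (h : (allI M)[j]? = some I) :
    I.ok := by
  have h1 := List.mem_of_getElem? h
  simp only [allI, List.mem_append] at h1
  rcases h1 with (h1 | h1) | h1
  · exact hM.1 I h1
  · exact hM.2.1 I h1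
  · exact hM.2.2 I h1

theorem mops_ok9 (o1 : StO1) (o2 : StO2) (M : Macro) (hM : M.ok) (b : Bt) :
    ∀ op ∈ mops M b, op.ok := by
  have h4 : 4 ≤ tb M := by simp [tb]
  have h1 : (Op.sub 1 0 id).ok := ⟨by omega, Primrec.id⟩
  cases b with
  | st => simp [mops, Op.ok]
  | mn => simp [mops, Op.ok]; exact Primrec.id
  | lt => simp [mops, Op.ok]
  | lm => simp [mops, Op.ok]; exact Primrec.id
  | fi => simp [mops, Op.ok]; exact Primrec.id
  | ha => simp [mops]
  | ds j => simp [mops, Op.ok]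
  | ia j =>
    rcases hj : (allI M)[j]? with _ | (F | G)
    · simp [mops, hj]
    · have h2 := allI_ok9 M hM j _ hj
      simp only [mops, hj, List.mem_append, List.mem_singleton]
      rintro op (h | h)
      · exact ((evalOps_good9 o1 F h2 (tb M) (by omega)).1 op h).1
      · rw [h]
        exact ⟨by omega, Primrec.id⟩
    · simp only [mops, hj, List.mem_map]
      rintro op ⟨i, -, rfl⟩
      trivial
  | ib j =>
    rcases hj : (allI M)[j]? with _ | (F | G)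
    · simp [mops, hj]
    · simp [mops, hj]
    · have h2 := allI_ok9 M hM j _ hj
      simp only [mops, hj, List.mem_append, List.mem_singleton]
      rintro op (h | h)
      · exact ((o2.2 G (tb M) (evalOps_good9 o1 G h2 (tb M) (by omega)) (by omega)).1 op h).1
      · rw [h]
        exact ⟨by omega, Primrec.id⟩

/-- the blocks in use -/
def Bs9 (M : Macro) : Finset Bt :=
  {.st, .mn, .lt, .lm, .fi, .ha} ∪ (Finset.range ((allI M).length + 1)).image .ds ∪
    (Finset.range (allI M).length).image .ia ∪ (Finset.range (allI M).length).image .ib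

theorem mem_Bs9_fi (M : Macro) : .fi ∈ Bs9 M := by simp [Bs9]

theorem mem_Bs9_ha (M : Macro) : .ha ∈ Bs9 M := by simp [Bs9]

theorem mem_Bs9_ds (M : Macro) (j : ℕ) : .ds j ∈ Bs9 M ↔ j < (allI M).length + 1 := by simp [Bs9]

theorem mem_Bs9_ia (M : Macro) (j : ℕ) : .ia j ∈ Bs9 M ↔ j < (allI M).length := by simp [Bs9]

theorem mem_Bs9_ib (M : Macro) (j : ℕ) : .ib j ∈ Bs9 M ↔ j < (allI M).length := by simp [Bs9]

theorem length_allI9 (M : Macro) :
    (allI M).length = M.init.length + M.main.length + M.lim.length := by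
  simp [allI, add_assoc]

theorem mem_Bs9_nx (M : Macro) (j : ℕ) (hj : j < (allI M).length) : nx M j ∈ Bs9 M := by
  have := length_allI9 M
  rw [nx]
  split_ifs with h
  · exact mem_Bs9_fi M
  · rw [mem_Bs9_ia]
    omega

theorem mem_Bs9_ent (M : Macro) (s n : ℕ) (h : s + n ≤ (allI M).length) : ent s n ∈ Bs9 M := by
  rw [ent]
  split_ifs with h1
  · exact mem_Bs9_fi M
  · rw [mem_Bs9_ia]
    omega

theorem mext9 (M : Macro) (b : Bt) (hb : b ∈ Bs9 M) :
    (mext M b).2.1 ∈ Bs9 M ∧ (mext M b).2.2 ∈ Bs9 M := by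
  have hl := length_allI9 M
  cases b with
  | st => exact ⟨mem_Bs9_ent M _ _ (by omega), mem_Bs9_ent M _ _ (by omega)⟩
  | mn => exact ⟨mem_Bs9_ent M _ _ (by omega), mem_Bs9_ent M _ _ (by omega)⟩
  | lt => exact ⟨(mem_Bs9_ds M 0).2 (by omega), by simp [mext, Bs9]⟩
  | lm => exact ⟨mem_Bs9_ent M _ _ (by omega), mem_Bs9_ent M _ _ (by omega)⟩
  | fi => exact ⟨by simp [mext, Bs9], by simp [mext, Bs9]⟩
  | ha => exact ⟨mem_Bs9_ha M, mem_Bs9_ha M⟩
  | ds j =>
    rw [mext]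
    split_ifs with h
    · exact ⟨(mem_Bs9_ds M _).2 (by omega), (mem_Bs9_ib M _).2 h⟩
    · exact ⟨mem_Bs9_ha M, mem_Bs9_ha M⟩
  | ia j =>
    rw [mem_Bs9_ia] at hb
    rcases hj : (allI M)[j]? with _ | (F | G)
    · simp only [mext, hj]
      exact ⟨mem_Bs9_nx M j hb, mem_Bs9_nx M j hb⟩
    · simp only [mext, hj]
      exact ⟨mem_Bs9_nx M j hb, mem_Bs9_nx M j hb⟩
    · simp only [mext, hj]
      exact ⟨(mem_Bs9_ib M j).2 hb, (mem_Bs9_ib M j).2 hb⟩
  | ib j =>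
    rw [mem_Bs9_ib] at hb
    exact ⟨mem_Bs9_nx M j hb, (mem_Bs9_ib M j).2 hb⟩

theorem exists_bounds9 (S : Finset Bt) (f : Bt → List Op) (g : Bt → ℕ) :
    ∃ (K : ℕ) (U : Finset ℕ), (∀ b ∈ S, (f b).length ≤ K) ∧ 0 ∈ U ∧ (∀ b ∈ S, g b ∈ U) ∧
      ∀ b ∈ S, ∀ op ∈ f b, ∀ t ∈ opT9 op, t ∈ U := by
  classical
  refine ⟨S.sup fun b => (f b).length, insert 0 (S.biUnion fun b =>
    insert (g b) ((f b).toFinset.biUnion opT9)), ?_, ?_, ?_, ?_⟩
  · exact fun b hb => Finset.le_sup (f := fun b => (f b).length) hb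
  · exact Finset.mem_insert_self _ _
  · exact fun b hb =>
      Finset.mem_insert_of_mem (Finset.mem_biUnion.2 ⟨b, hb, Finset.mem_insert_self _ _⟩)
  · exact fun b hb op hop t ht =>
      Finset.mem_insert_of_mem (Finset.mem_biUnion.2 ⟨b, hb, Finset.mem_insert_of_mem
        (Finset.mem_biUnion.2 ⟨op, List.mem_toFinset.2 hop, ht⟩)⟩)

theorem mem_Bs9_st (M : Macro) : .st ∈ Bs9 M := by simp [Bs9]

theorem mem_Bs9_lt (M : Macro) : .lt ∈ Bs9 M := by simp [Bs9]

theorem code9 (L : List Op) (E : ℕ × Bt × Bt) (b : Bt) (p : ℕ) (op : Op) (d : ℕ)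
    (l0 l1 : Bt × ℕ)
    (hc : (match L[p]? with
      | none => none
      | some op => if p + 1 = L.length then some (op, E.1, (E.2.1, 0), (E.2.2, 0))
        else some (op, 0, (b, p + 1), (b, p + 1))) = some (op, d, l0, l1)) :
    op ∈ L ∧ p < L.length ∧ ((d = E.1 ∧ l0 = (E.2.1, 0) ∧ l1 = (E.2.2, 0)) ∨
      (p + 1 ≠ L.length ∧ d = 0 ∧ l0 = (b, p + 1) ∧ l1 = (b, p + 1))) := by
  rcases ho : L[p]? with _ | op'
  · rw [ho] at hc
    exact absurd hc (by simp)
  · rw [ho] at hc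
    simp only at hc
    have hmem := List.mem_of_getElem? ho
    have hp' : p < L.length := (List.getElem?_eq_some_iff.1 ho).1
    split_ifs at hc with h
    · simp only [Option.some.injEq, Prod.mk.injEq] at hc
      obtain ⟨rfl, rfl, rfl, rfl⟩ := hc
      exact ⟨hmem, hp', Or.inl ⟨rfl, rfl, rfl⟩⟩
    · simp only [Option.some.injEq, Prod.mk.injEq] at hc
      obtain ⟨rfl, rfl, rfl, rfl⟩ := hc
      exact ⟨hmem, hp', Or.inr ⟨h, rfl, rfl, rfl⟩⟩

attribute [local irreducible] Bs9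

theorem pf_O9 : StO1 → StO2 → StO9 := by
  intro o1 o2 M hM
  obtain ⟨K, U, hK, hU1, hU2, hU3⟩ := exists_bounds9 (Bs9 M) (mops M) fun b => (mext M b).1
  refine ⟨Bs9 M ×ˢ Finset.range (K + 1), U, ?_, ?_, ?_⟩
  · rw [Finset.mem_product, Finset.mem_range]
    exact ⟨mem_Bs9_st M, Nat.succ_pos _⟩
  · rw [Finset.mem_product, Finset.mem_range]
    exact ⟨mem_Bs9_lt M, Nat.succ_pos _⟩
  · rintro ⟨b, p⟩ hl op d l0 l1 hc
    rw [Finset.mem_product, Finset.mem_range] at hl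
    obtain ⟨hb, hp⟩ := hl
    obtain ⟨h1, h2, h3⟩ := code9 (mops M b) (mext M b) b p op d l0 l1 hc
    obtain ⟨h4, h5⟩ := mext9 M b hb
    have h6 : op.ok ∧ op.tabs (U : Set ℕ) := ⟨mops_ok9 o1 o2 M hM b _ h1,
      tabs_of_opT9 _ _ fun t ht => hU3 b hb _ h1 t ht⟩
    rcases h3 with ⟨h7, h8, h9⟩ | ⟨h3, h7, h8, h9⟩
    · rw [h7, h8, h9, Finset.mem_product, Finset.mem_product, Finset.mem_range]
      exact ⟨⟨h4, Nat.succ_pos _⟩, ⟨h5, Nat.succ_pos _⟩, hU2 b hb, h6⟩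
    · rw [h7, h8, h9, Finset.mem_product, Finset.mem_range]
      have h10 : p + 1 < K + 1 := Nat.succ_lt_succ (lt_of_lt_of_le h2 (hK b hb))
      exact ⟨⟨hb, h10⟩, ⟨hb, h10⟩, hU1, h6⟩

end Pool.Agent.Helper91.MP
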