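import Pool.Agent.Helper91.MP.OpmD

/-! Chapter MP, P: the simulation of operator machines by counter-array machines. -/

set_option autoImplicit false

open Ordinal Order

namespace Pool.Agent.Helper91.MP

open Pool.Agent.Helper25.EV

section
variable {Lb : Type}

theorem p_tabl_wtab (m : JJ Lb × ℕ → Bool) (v : ℕ × ℕ → Bool) : tabl (wtab m v) = v := rfl

theorem p_pk_wtab {B : ℕ} {x : Real2} {m : JJ Lb × ℕ → Bool} (h : Pk B x m) (v : ℕ × ℕ → Bool) :
    Pk B x (wtab m v) := fun r hr n => h r hr n

theorem p_oks {B : ℕ} {x : Real2} {m : JJ Lb × ℕ → Bool} (h : Pk B x m) : Oks (csP B x) m := by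
  intro i b hi
  obtain ⟨j, n⟩ := i
  cases j with
  | inp r =>
    simp only [csP] at hi
    by_cases hr : r < B
    · rw [if_pos hr] at hi
      rw [h r hr n]
      exact Option.some.inj hi
    · rw [if_neg hr] at hi
      exact absurd hi (by simp)
  | arr t => exact absurd hi (by simp [csP])
  | ph l => exact absurd hi (by simp [csP])
  | pb => exact absurd hi (by simp [csP])

theorem p_pk {B : ℕ} {x : Real2} {m : JJ Lb × ℕ → Bool} (h : Oks (csP B x) m) : Pk B x m := by
  intro r hr n
  refine h (.inp r, n) _ ?_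
  simp [csP, hr]

theorem p_oks_btw {B : ℕ} {x : Real2} {m m' v : JJ Lb × ℕ → Bool} (h : Pk B x m) (h' : Pk B x m')
    (hb : Btw m m' v) : Oks (csP B x) v := by
  intro i b hi
  rcases hb i with e | e
  · rw [e]
    exact p_oks h i b hi
  · rw [e]
    exact p_oks h' i b hi

end

theorem pf_P : StT2 → StT4 → StP2 → StP3 → StP4 → StP := by
  intro T2 T4 P2 P3 P4 Lb _ P F U B g x hFn hg hB
  refine ⟨?_, ?_, ?_⟩
  · intro a c hR i j hij
    obtain ⟨-, -, h, -⟩ := hR
    have hij' : j = (.arr i.1, i.2) := hij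
    rw [hij']
    exact congrFun h i
  · rintro ⟨l, v⟩ ⟨⟨lab, cnt⟩, m⟩ hR hlive
    obtain ⟨hl, hc, htab, hPk, hpb, hph⟩ := hR
    have hlF : l ∈ F := Finset.mem_toList.1 hl
    have htab' : tabl m = v := htab
    have hPk' : Pk B x m := hPk
    have hpb' : m (.pb, 0) = false := hpb
    have hph' : ∀ l' ∈ F.toList, m (.ph l', 0) = decide (l' = l) := hph
    obtain ⟨⟨op, d, l0, l1⟩, hcode⟩ := Option.ne_none_iff_exists'.1 (show P.code l ≠ none from hlive)
    obtain ⟨hl0, hl1, -, hok, -⟩ := hFn.nxt l hlF op d l0 l1 hcode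
    set C := P.cam F.toList B g with hC
    obtain ⟨e1, e2⟩ := P4 Lb P F.toList B g x l op d l0 l1 m hB hg hcode hok hPk'
    set m1 : JJ Lb × ℕ → Bool := wtab m (op.app x (tabl m)) with hm1
    have hPk1 : Pk B x m1 := p_pk_wtab hPk' _
    have hcs : (((lab, cnt), m) : CSt (JJ Lb) (BB Lb)) =
        (((.lab l, (entr F.toList l).len), fun _ => 0), m) := by
      have : (lab, cnt) = ((BB.lab l, (entr F.toList l).len), fun _ : ℕ => 0) := hc
      rw [this]
    obtain ⟨n1, e3, e4⟩ := (P3 Lb P F.toList B g m1 F.nodup_toList).2 l op d l0 l1 hl hcode hpb' hph'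
    set l' : Lb := if m1 (.arr d, 0) then l1 else l0 with hl'
    have hl'F : l' ∈ F.toList := by
      rw [hl']
      split_ifs
      · exact Finset.mem_toList.2 hl1
      · exact Finset.mem_toList.2 hl0
    obtain ⟨n2, hR2, e5, e6, y0, hy0, e7⟩ := P2 Lb P F.toList B g x l' m1 hl'F hPk1
    have hnext : (P.proc x).next (l, v) = (l', tabl m1) := by
      show P.step x (l, v) = _
      unfold Opm.step
      simp only [hcode]
      rw [hl', hm1, p_tabl_wtab, htab']
      rfl
    -- the states of the run
    have hfin : ∀ n : ℕ, C.proc.run ((lab, cnt), m) (n : Ordinal.{0}) =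
        C.proc.next^[n] (((.lab l, (entr F.toList l).len), fun _ => 0), m) := by
      intro n
      rw [hcs]
      exact (T4 C.proc _).1 n
    have hom : ∀ n : ℕ, C.proc.run ((lab, cnt), m) (ω + (n : Ordinal.{0})) =
        C.proc.next^[n] (((.lm, 0), fun _ => 0), m1) := by
      intro n
      rw [T2 C.proc, (T4 C.proc _).1 n, hcs]
      exact congrArg _ e1
    have hom2 : ∀ n : ℕ, C.proc.run ((lab, cnt), m) (ω + ((n1 + n : ℕ) : Ordinal.{0})) =
        C.proc.next^[n] (((.lab l', 0), fun _ => 0), m1) := by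
      intro n
      rw [hom, add_comm n1 n, Function.iterate_add_apply]
      exact congrArg _ e3
    refine ⟨ω + ((n1 + n2 : ℕ) : Ordinal.{0}), ?_, ?_, ?_, ?_⟩
    · exact lt_of_lt_of_le omega0_pos le_self_add
    · rw [hom2, hnext]
      exact hR2
    · intro γ hγ
      rcases lt_or_ge γ ω with hγω | hγω
      · obtain ⟨n, rfl⟩ := lt_omega0.1 hγω
        rw [hfin]
        obtain ⟨f1, f2⟩ := e2 n
        refine ⟨f1, p_oks_btw hPk' hPk1 f2, ?_⟩
        intro i j hij
        have hij' : j = (.arr i.1, i.2) := hij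
        rw [hij', hnext]
        rcases f2 (.arr i.1, i.2) with e | e
        · left
          refine Eq.trans e ?_
          rw [← htab']
          rfl
        · right
          exact e
      · obtain ⟨δ, rfl⟩ := exists_add_of_le hγω
        have hδ : δ < ((n1 + n2 : ℕ) : Ordinal.{0}) := (add_lt_add_iff_left ω).1 hγ
        obtain ⟨n, rfl⟩ := lt_omega0.1 (hδ.trans (natCast_lt_omega0 _))
        have hn : n < n1 + n2 := by exact_mod_cast hδ
        rcases Nat.lt_or_ge n n1 with h1 | h1
        · rw [hom]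
          obtain ⟨p, f1, f2⟩ := e4 n h1
          have f3 : C.proc.next^[n] (((.lm, 0), fun _ => 0), m1) = (((.lm, p), fun _ => 0), m1) := f1
          rw [f3]
          refine ⟨f2, p_oks hPk1, ?_⟩
          intro i j hij
          have hij' : j = (.arr i.1, i.2) := hij
          right
          rw [hij', hnext]
          rfl
        · obtain ⟨y, rfl⟩ := Nat.exists_eq_add_of_le h1
          rw [hom2]
          have hy : y < n2 := by omega
          obtain ⟨f1, f2⟩ := e6 y hy.le
          refine ⟨e5 y hy, p_oks f2, ?_⟩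
          intro i j hij
          have hij' : j = (.arr i.1, i.2) := hij
          right
          rw [hij', hnext]
          exact congrFun f1 i
    · intro f hf
      have hf' : f = (.pb, 0) := hf
      rw [hf']
      refine ⟨ω + ((n1 + y0 : ℕ) : Ordinal.{0}), ?_, ?_⟩
      · rw [add_lt_add_iff_left]
        exact_mod_cast (by omega : n1 + y0 < n1 + n2)
      · rw [hom2]
        exact e7
  · intro (m : ℕ × ℕ → Bool) (m' : JJ Lb × ℕ → Bool) hcor hfl hOk
    set C := P.cam F.toList B g with hC
    have hpb : m' (.pb, 0) = true := hfl (.pb, 0) rfl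
    have hPk : Pk B x m' := p_pk hOk
    have htab : tabl m' = m := by
      funext i
      exact hcor i (.arr i.1, i.2) rfl
    have e1 := (P3 Lb P F.toList B g m' F.nodup_toList).1 hpb
    obtain ⟨n2, hR2, e5, e6, -⟩ := P2 Lb P F.toList B g x P.lim m' (Finset.mem_toList.2 hFn.lim) hPk
    have hrun : ∀ n : ℕ, C.proc.run (C.proc.post m') ((n + 1 : ℕ) : Ordinal.{0}) =
        C.proc.next^[n] (((.lab P.lim, 0), fun _ => 0), m') := by
      intro n
      rw [(T4 C.proc _).1 (n + 1), Function.iterate_succ_apply]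
      exact congrArg _ e1
    have h0 : C.proc.run (C.proc.post m') ((0 : ℕ) : Ordinal.{0}) = (((.lm, 0), fun _ => 0), m') :=
      (T4 C.proc _).1 0
    refine ⟨((n2 + 1 : ℕ) : Ordinal.{0}), ?_, ?_⟩
    · rw [hrun]
      have h3 : (P.proc x).post m = (P.lim, tabl m') :=
        congrArg (Prod.mk P.lim) htab.symm
      rw [h3]
      exact hR2
    · intro γ hγ
      obtain ⟨n, rfl⟩ := lt_omega0.1 (hγ.trans (natCast_lt_omega0 _))
      have hn : n < n2 + 1 := by exact_mod_cast hγ
      rcases Nat.eq_zero_or_pos n with rfl | hn0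
      · rw [h0]
        refine ⟨?_, hOk, fun i j hij => Or.inl (hcor i j hij)⟩
        show C.ins (.lm, 0) ≠ .hlt
        simp [hC, Cam.ins, Opm.cam, lmi]
      · obtain ⟨y, rfl⟩ := Nat.exists_eq_succ_of_ne_zero hn0.ne'
        rw [hrun]
        have hy : y < n2 := by omega
        obtain ⟨f1, f2⟩ := e6 y hy.le
        refine ⟨e5 y hy, p_oks f2, ?_⟩
        intro i j hij
        have hij' : j = (.arr i.1, i.2) := hij
        left
        rw [hij', ← htab]
        exact congrFun f1 i

end Pool.Agent.Helper91.MP
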