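import Pool.Agent.Helper91.MP.OpmD

set_option autoImplicit false

open Ordinal Order

namespace Pool.Agent.Helper91.MP

open Pool.Agent.Helper25.EV

variable {Lb : Type} [DecidableEq Lb]

/-- from a description of the bits of `iter`: at time `s` the bit is the old or the new one -/
theorem P1_of (B : ℕ) (x : Real2) (op : Op) (m : JJ Lb × ℕ → Bool)
    (h1 : ∀ s i, (∀ n, i ≠ (.arr op.tgt, n)) → iter B op m s i = m i)
    (h2 : ∀ s n, iter B op m s (.arr op.tgt, n) = m (.arr op.tgt, n) ∨
      iter B op m s (.arr op.tgt, n) = op.val x (tabl m) n)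
    (h3 : ∀ n, ∃ s₀, ∀ s, s₀ ≤ s → iter B op m s (.arr op.tgt, n) = op.val x (tabl m) n) :
    (∀ s, Btw m (wtab m (op.app x (tabl m))) (iter B op m s)) ∧
    ∀ i, ∃ s₀, ∀ s, s₀ ≤ s → iter B op m s i = wtab m (op.app x (tabl m)) i := by
  have hw : ∀ n, wtab m (op.app x (tabl m)) (.arr op.tgt, n) = op.val x (tabl m) n := by
    intro n
    simp only [wtab, Op.app, if_true]
  have hw' : ∀ i : JJ Lb × ℕ, (∀ n, i ≠ (.arr op.tgt, n)) →
      wtab m (op.app x (tabl m)) i = m i := by
    rintro ⟨j, n⟩ h
    cases j with
    | arr t =>
      have : t ≠ op.tgt := fun e => h n (by rw [e])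
      simp only [wtab, Op.app, this, if_false, tabl]
    | inp r => rfl
    | ph l => rfl
    | pb => rfl
  constructor
  · intro s i
    by_cases h : ∃ n, i = (.arr op.tgt, n)
    · obtain ⟨n, rfl⟩ := h
      rw [hw]
      exact h2 s n
    · push Not at h
      exact Or.inl (h1 s i h)
  · intro i
    by_cases h : ∃ n, i = (.arr op.tgt, n)
    · obtain ⟨n, rfl⟩ := h
      rw [hw]
      exact h3 n
    · push Not at h
      exact ⟨0, fun s _ => by rw [h1 s i h, hw' i h]⟩

/-- the case of one write at `s`, of a value which does not depend on the time -/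
theorem P1_simple (B : ℕ) (x : Real2) (op : Op) (m : JJ Lb × ℕ → Bool)
    (h : ∀ s (m' : JJ Lb × ℕ → Bool), (∀ i, (∀ n, i ≠ (.arr op.tgt, n)) → m' i = m i) →
      (∀ n, s ≤ n → m' (.arr op.tgt, n) = m (.arr op.tgt, n)) →
      eff B op s m' = Function.update m' (.arr op.tgt, s) (op.val x (tabl m) s)) :
    (∀ s, Btw m (wtab m (op.app x (tabl m))) (iter B op m s)) ∧
    ∀ i, ∃ s₀, ∀ s, s₀ ≤ s → iter B op m s i = wtab m (op.app x (tabl m)) i := by
  have key : ∀ s, (∀ i, (∀ n, i ≠ (.arr op.tgt, n)) → iter B op m s i = m i) ∧
      (∀ n, s ≤ n → iter B op m s (.arr op.tgt, n) = m (.arr op.tgt, n)) ∧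
      (∀ n, n < s → iter B op m s (.arr op.tgt, n) = op.val x (tabl m) n) := by
    intro s
    induction s with
    | zero => exact ⟨fun i _ => rfl, fun n _ => rfl, fun n hn => absurd hn (Nat.not_lt_zero n)⟩
    | succ s ih =>
      obtain ⟨i1, i2, i3⟩ := ih
      have h4 := h s _ i1 i2
      refine ⟨fun i hi => ?_, fun n hn => ?_, fun n hn => ?_⟩
      · rw [iter, h4, Function.update_of_ne (hi s)]
        exact i1 i hi
      · rw [iter, h4, Function.update_of_ne]
        · exact i2 n (by omega)
        · intro e
          have := congrArg Prod.snd e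
          simp only at this
          omega
      · rw [iter, h4]
        by_cases hns : n = s
        · rw [hns, Function.update_self]
        · rw [Function.update_of_ne]
          · exact i3 n (by omega)
          · intro e
            exact hns (congrArg Prod.snd e)
  refine P1_of B x op m (fun s i hi => (key s).1 i hi) (fun s n => ?_) (fun n => ?_)
  · rcases lt_or_ge n s with h5 | h5
    · exact Or.inr ((key s).2.2 n h5)
    · exact Or.inl ((key s).2.1 n h5)
  · exact ⟨n + 1, fun s hs => (key s).2.2 n (by omega)⟩

theorem pf_P1 : StP1 := by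
  intro Lb _ B x op m hB hok hPk
  cases op with
  | cst t b => exact P1_simple B x _ m fun s m' _ _ => rfl
  | prim t f => exact P1_simple B x _ m fun s m' _ _ => rfl
  | sub t u f =>
    refine P1_simple B x _ m fun s m' h1 _ => ?_
    simp only [eff, Op.val, Op.tgt, tabl]
    rw [h1]
    intro n h
    simp only [Prod.mk.injEq, JJ.arr.injEq, Op.tgt] at h
    exact hok.1 h.1.symm
  | nand t u v =>
    refine P1_simple B x _ m fun s m' h1 h2 => ?_
    have h3 : ∀ u, m' (.arr u, s) = m (.arr u, s) := by
      intro u
      by_cases h : u = t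
      · rw [h]; exact h2 s le_rfl
      · refine h1 _ fun n hn => ?_
        simp only [Prod.mk.injEq, JJ.arr.injEq, Op.tgt] at hn
        exact h hn.1
    simp only [eff, Op.val, Op.tgt, tabl, h3]
  | inp t =>
    have key : ∀ s, (∀ i, (∀ n, i ≠ (.arr t, n)) → iter B (.inp t) m s i = m i) ∧
        (∀ n, B * s ≤ n → iter B (.inp t) m s (.arr t, n) = m (.arr t, n)) ∧
        (∀ n, n < B * s → iter B (.inp t) m s (.arr t, n) = x n) := by
      intro s
      induction s with
      | zero => exact ⟨fun i _ => rfl, fun n _ => rfl, fun n hn => absurd hn (by simp)⟩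
      | succ s ih =>
        obtain ⟨i1, i2, i3⟩ := ih
        refine ⟨fun i hi => ?_, fun n hn => ?_, fun n hn => ?_⟩
        · rw [iter]
          simp only [eff]
          rw [if_neg]
          · exact i1 i hi
          · rintro ⟨h1, -⟩
            exact hi i.2 (Prod.ext h1 rfl)
        · rw [Nat.mul_add, Nat.mul_one] at hn
          rw [iter]
          simp only [eff]
          rw [if_neg (by omega)]
          exact i2 n (by omega)
        · rw [Nat.mul_add, Nat.mul_one] at hn
          rw [iter]
          simp only [eff, true_and]
          split_ifs with h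
          · rw [i1 _ (by intro n' h'; simp at h'), hPk _ (by omega)]
            congr 1
            omega
          · exact i3 n (by omega)
    refine P1_of B x _ m (fun s i hi => (key s).1 i hi) (fun s n => ?_) (fun n => ?_)
    · rcases lt_or_ge n (B * s) with h5 | h5
      · exact Or.inr ((key s).2.2 n h5)
      · exact Or.inl ((key s).2.1 n h5)
    · refine ⟨n + 1, fun s hs => (key s).2.2 n ?_⟩
      calc n < n + 1 := Nat.lt_succ_self n
        _ ≤ s := hs
        _ = 1 * s := (one_mul s).symm
        _ ≤ B * s := Nat.mul_le_mul_right s hB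
  | ex t u =>
    have htu : t ≠ u := hok
    have key : ∀ s, (∀ i, (∀ n, i ≠ (.arr t, n)) → iter B (.ex t u) m s i = m i) ∧
        (∀ n, iter B (.ex t u) m s (.arr t, n) = true ↔ m (.arr t, n) = true ∨
          ∃ s' < s, m (.arr u, s') = true ∧ (Nat.unpair s').1 = n) := by
      intro s
      induction s with
      | zero => exact ⟨fun i _ => rfl, fun n => by simp [iter]⟩
      | succ s ih =>
        obtain ⟨i1, i2⟩ := ih
        have h3 : iter B (.ex t u) m s (.arr u, s) = m (.arr u, s) := by
          refine i1 _ fun n hn => ?_
          simp only [Prod.mk.injEq, JJ.arr.injEq] at hn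
          exact htu hn.1.symm
        refine ⟨fun i hi => ?_, fun n => ?_⟩
        · rw [iter]
          simp only [eff]
          split_ifs
          · rw [Function.update_of_ne (hi _)]
            exact i1 i hi
          · exact i1 i hi
        · rw [iter]
          simp only [eff, h3]
          split_ifs with h
          · by_cases hn : (Nat.unpair s).1 = n
            · rw [hn, Function.update_self]
              simp only [true_iff]
              exact Or.inr ⟨s, Nat.lt_succ_self s, h, hn⟩
            · rw [Function.update_of_ne (by intro e; exact hn (congrArg Prod.snd e).symm), i2]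
              constructor
              · rintro (h4 | ⟨s', h4, h5⟩)
                · exact Or.inl h4
                · exact Or.inr ⟨s', by omega, h5⟩
              · rintro (h4 | ⟨s', h4, h5, h6⟩)
                · exact Or.inl h4
                · refine Or.inr ⟨s', ?_, h5, h6⟩
                  rcases Nat.lt_succ_iff_lt_or_eq.1 h4 with h7 | h7
                  · exact h7
                  · rw [h7] at h6; exact absurd h6 hn
          · rw [i2]
            constructor
            · rintro (h4 | ⟨s', h4, h5⟩)
              · exact Or.inl h4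
              · exact Or.inr ⟨s', by omega, h5⟩
            · rintro (h4 | ⟨s', h4, h5, h6⟩)
              · exact Or.inl h4
              · refine Or.inr ⟨s', ?_, h5, h6⟩
                rcases Nat.lt_succ_iff_lt_or_eq.1 h4 with h7 | h7
                · exact h7
                · rw [h7] at h5; exact absurd h5 h
    have hval : ∀ n, (Op.ex t u).val x (tabl m) n = true ↔ m (.arr t, n) = true ∨
          ∃ s', m (.arr u, s') = true ∧ (Nat.unpair s').1 = n := by
      intro n
      simp only [Op.val, Bool.or_eq_true, decide_eq_true_eq]
      refine or_congr Iff.rfl ?_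
      constructor
      · rintro ⟨k, hk⟩
        exact ⟨_, hk, by rw [Nat.unpair_pair]⟩
      · rintro ⟨s', h1, h2⟩
        refine ⟨(Nat.unpair s').2, ?_⟩
        rw [← h2, Nat.pair_unpair]
        exact h1
    refine P1_of B x _ m (fun s i hi => (key s).1 i hi) (fun s n => ?_) (fun n => ?_)
    · show iter B (.ex t u) m s (.arr t, n) = m (.arr t, n) ∨
        iter B (.ex t u) m s (.arr t, n) = (Op.ex t u).val x (tabl m) n
      by_cases h : iter B (.ex t u) m s (.arr t, n) = true
      · right
        rw [h]
        symm
        rw [hval]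
        rcases ((key s).2 n).1 h with h4 | ⟨s', -, h5⟩
        · exact Or.inl h4
        · exact Or.inr ⟨s', h5⟩
      · left
        rw [Bool.not_eq_true] at h
        rw [h]
        by_contra hc
        have h5 : m (.arr t, n) = true := by
          rw [eq_comm, Bool.not_eq_false] at hc
          exact hc
        rw [((key s).2 n).2 (Or.inl h5)] at h
        exact absurd h (by decide)
    · show ∃ s₀, ∀ s, s₀ ≤ s → iter B (.ex t u) m s (.arr t, n) = (Op.ex t u).val x (tabl m) n
      by_cases h : (Op.ex t u).val x (tabl m) n = true
      · rcases (hval n).1 h with h4 | ⟨s', h5⟩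
        · exact ⟨0, fun s _ => by rw [h, ((key s).2 n).2 (Or.inl h4)]⟩
        · exact ⟨s' + 1, fun s hs => by rw [h, ((key s).2 n).2 (Or.inr ⟨s', by omega, h5⟩)]⟩
      · refine ⟨0, fun s _ => ?_⟩
        rw [Bool.not_eq_true] at h
        rw [h]
        by_contra hc
        rw [Bool.not_eq_false] at hc
        have : (Op.ex t u).val x (tabl m) n = true := by
          rw [hval]
          rcases ((key s).2 n).1 hc with h4 | ⟨s', -, h5⟩
          · exact Or.inl h4
          · exact Or.inr ⟨s', h5⟩
        rw [h] at this
        exact absurd this (by decide)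

end Pool.Agent.Helper91.MP
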