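import Pool.Agent.Helper91.MP.OpmD

/-!
# Chapter MP, module P2: entering a label
-/

set_option autoImplicit false

namespace Pool.Agent.Helper91.MP

open Pool.Agent.Helper25.EV

section
variable {Lb : Type} [DecidableEq Lb]

theorem P2_tabl_update (m : JJ Lb × ℕ → Bool) (j : JJ Lb) (n : ℕ) (b : Bool)
    (hj : ∀ t, j ≠ .arr t) : tabl (Function.update m (j, n) b) = tabl m := by
  funext i
  unfold tabl
  rw [Function.update_of_ne]
  intro e
  exact hj _ (Prod.mk.inj e).1.symm

theorem P2_pk_update {B : ℕ} {x : Real2} {m : JJ Lb × ℕ → Bool} (h : Pk B x m) (j : JJ Lb) (n : ℕ)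
    (b : Bool) (hj : ∀ r, j ≠ .inp r) : Pk B x (Function.update m (j, n) b) := by
  intro r hr k
  rw [Function.update_of_ne]
  · exact h r hr k
  · intro e
    exact hj _ (Prod.mk.inj e).1.symm

/-- the invariant of the memories -/
def P2_Q (B : ℕ) (x : Real2) (v : ℕ × ℕ → Bool) (m : JJ Lb × ℕ → Bool) : Prop :=
  tabl m = v ∧ Pk B x m

theorem P2_Q_pb {B : ℕ} {x : Real2} {v : ℕ × ℕ → Bool} {m : JJ Lb × ℕ → Bool}
    (h : P2_Q B x v m) (n : ℕ) (b : Bool) :
    P2_Q B x v (Function.update m (.pb, n) b) :=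
  ⟨by rw [P2_tabl_update _ _ _ _ (by intro t; simp)]; exact h.1,
    P2_pk_update h.2 _ _ _ (by intro t; simp)⟩

theorem P2_Q_ph {B : ℕ} {x : Real2} {v : ℕ × ℕ → Bool} {m : JJ Lb × ℕ → Bool}
    (h : P2_Q B x v m) (l : Lb) (n : ℕ) (b : Bool) :
    P2_Q B x v (Function.update m (.ph l, n) b) :=
  ⟨by rw [P2_tabl_update _ _ _ _ (by intro t; simp)]; exact h.1,
    P2_pk_update h.2 _ _ _ (by intro t; simp)⟩

theorem P2_flags (B : ℕ) (x : Real2) (v : ℕ × ℕ → Bool) (l : Lb) (r : ℕ → ℕ) (hr : r 0 = 0)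
    (F : List Lb) (m : JJ Lb × ℕ → Bool) (hQ : P2_Q B x v m) :
    ∃ m' : JJ Lb × ℕ → Bool,
      Ev (P2_Q B x v) (seqs (F.map fun l' => .wr (.ph l') 0 (l' = l))) (r, m) (r, m') ∧
      P2_Q B x v m' ∧ m' (.pb, 0) = m (.pb, 0) ∧
      (∀ l' ∈ F, m' (.ph l', 0) = decide (l' = l)) ∧
      ∀ l', l' ∉ F → m' (.ph l', 0) = m (.ph l', 0) := by
  induction F generalizing m with
  | nil =>
    refine ⟨m, Ev.skip _, hQ, rfl, ?_, fun _ _ => rfl⟩
    intro l' hl'
    exact absurd hl' (List.not_mem_nil)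
  | cons a F ih =>
    have hQ1 : P2_Q B x v (Function.update m (.ph a, 0) (decide (a = l))) := P2_Q_ph hQ a 0 _
    obtain ⟨m', h1, h2, h3, h4, h5⟩ := ih _ hQ1
    refine ⟨m', ?_, h2, ?_, ?_, ?_⟩
    · refine Ev.seq (s' := (r, Function.update m (.ph a, 0) (decide (a = l)))) ?_ h1
      have h6 := Ev.wr (P := P2_Q B x v) (JJ.ph a) 0 (decide (a = l)) (r, m)
        (by show P2_Q B x v (Function.update m (.ph a, r 0) _); rw [hr]; exact hQ1)
      have e : Function.update (r, m).2 (JJ.ph a, (r, m).1 0) (decide (a = l)) =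
          Function.update m (.ph a, 0) (decide (a = l)) := by
        show Function.update m (.ph a, r 0) _ = _
        rw [hr]
      rw [e] at h6
      exact h6
    · rw [h3, Function.update_of_ne]
      simp
    · intro l' hl'
      by_cases hm : l' ∈ F
      · exact h4 l' hm
      · have hla : l' = a := by
          rcases List.mem_cons.1 hl' with h | h
          · exact h
          · exact absurd h hm
        rw [h5 l' hm, hla, Function.update_self]
    · intro l' hl'
      rw [List.mem_cons, not_or] at hl'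
      rw [h5 l' hl'.2, Function.update_of_ne]
      intro e
      exact hl'.1 (by injection (Prod.mk.inj e).1)

theorem P2_codeAt (P : Opm Lb) (F : List Lb) (B : ℕ) (g : (ℕ → ℕ) → Com (JJ Lb)) (l : Lb) :
    CodeAt (P.cam F B g) (.lab l) 0 (comp (.lab l) (entr F l) 0) := by
  intro i hi
  show (blk P F B g l).getD (0 + i) .hlt = _
  unfold blk
  rw [zero_add, List.getD_append _ _ _ _ hi, List.getD_eq_getElem _ _ hi]

theorem P2_ev (B : ℕ) (x : Real2) (F : List Lb) (l : Lb) (m : JJ Lb × ℕ → Bool)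
    (hx : Pk B x m) :
    ∃ m' : JJ Lb × ℕ → Bool,
      Ev (P2_Q B x (tabl m)) (entr F l) (fun _ => 0, m) (fun _ => 0, m') ∧
      P2_Q B x (tabl m) m' ∧ m' (.pb, 0) = false ∧
      ∀ l' ∈ F, m' (.ph l', 0) = decide (l' = l) := by
  have hQ : P2_Q B x (tabl m) m := ⟨rfl, hx⟩
  have hQ1 := P2_Q_pb hQ 0 true
  have hQ2 := P2_Q_pb hQ1 0 false
  obtain ⟨m', h1, h2, h3, h4, -⟩ := P2_flags B x (tabl m) l (fun _ => 0) rfl F _ hQ2
  refine ⟨m', ?_, h2, ?_, h4⟩
  · unfold entr
    exact Ev.seq (Ev.wr .pb 0 true (fun _ => 0, m) hQ1)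
      (Ev.seq (Ev.wr .pb 0 false (fun _ => 0, Function.update m (.pb, 0) true) hQ2) h1)
  · rw [h3, Function.update_self]

end

theorem pf_P2 : StK1 → StK2 → StP2 := by
  intro K1 _ Lb _ P F B g x l m hl hx
  obtain ⟨m', h1, h2, h3, h4⟩ := P2_ev B x F l m hx
  have hcode := P2_codeAt P F B g l
  obtain ⟨n, k1, k2, k3⟩ := K1 (JJ Lb) (BB Lb) (P.cam F B g) (.lab l) (P2_Q B x (tabl m))
    (entr F l) 0 (fun _ => 0, m) (fun _ => 0, m') hcode h1 ⟨rfl, hx⟩
  have k1' : (P.cam F B g).proc.next^[n] (((.lab l, 0), fun _ => 0), m) =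
      (((.lab l, 0 + (entr F l).len), fun _ => 0), m') := k1
  rw [zero_add] at k1'
  have hlen : 2 ≤ (entr F l).len := by
    show 2 ≤ 1 + (1 + _)
    omega
  -- the first step
  have hins : (P.cam F B g).ins (.lab l, 0) = .wr .pb 0 true (.lab l, 1) := by
    have h0 : 0 < (comp (BB.lab l) (entr F l) 0).length := by
      show 0 < (_ :: _ : List (Ins (JJ Lb) (BB Lb))).length
      simp
    exact hcode 0 h0
  have hstep : (P.cam F B g).proc.next (((.lab l, 0), fun _ => 0), m) =
      (((.lab l, 1), fun _ => 0), Function.update m (.pb, 0) true) := by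
    show (P.cam F B g).step (((.lab l, 0), fun _ => 0), m) = _
    unfold Cam.step
    simp only [hins]
  have hn : 1 < n := by
    by_contra hc
    have h01 : n = 0 ∨ n = 1 := by omega
    rcases h01 with rfl | rfl
    · rw [Function.iterate_zero] at k1'
      have := congrArg (fun s => s.1.1.2) k1'
      simp only [id_eq] at this
      omega
    · rw [Function.iterate_one, hstep] at k1'
      have := congrArg (fun s => s.1.1.2) k1'
      simp only at this
      omega
  refine ⟨n, ?_, k3, fun y hy => k2 y hy, 1, hn, ?_⟩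
  · rw [k1']
    exact ⟨hl, rfl, h2.1, h2.2, h3, h4⟩
  · rw [Function.iterate_one, hstep]
    show Function.update m (.pb, 0) true (.pb, 0) = true
    rw [Function.update_self]

end Pool.Agent.Helper91.MP
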