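import Pool.Agent.Helper91.MP.OpmD

/-!
# Chapter MP: module P3 (the code at the limit label)
-/

set_option autoImplicit false

open Ordinal Order

namespace Pool.Agent.Helper91.MP

open Pool.Agent.Helper25.EV

namespace P3

theorem fm {α β : Type} (f : β × ℕ → List α) (hf : ∀ x, (f x).length = 2) (dflt : α) :
    ∀ (F : List β) (k j : ℕ) (hj : j < F.length) (b : ℕ), b < 2 →
      ((F.zipIdx k).flatMap f).getD (2 * j + b) dflt = (f (F[j], k + j)).getD b dflt := by
  intro F
  induction F with
  | nil => intro k j hj; exact absurd hj (by simp)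
  | cons x F ih =>
    intro k j hj b hb
    rw [List.zipIdx_cons, List.flatMap_cons]
    cases j with
    | zero =>
      rw [List.getD_append _ _ _ _ (by rw [hf]; omega)]
      simp
    | succ j =>
      have hj' : j < F.length := by simpa using hj
      rw [List.getD_append_right _ _ _ _ (by rw [hf]; omega), hf]
      have e : 2 * (j + 1) + b - 2 = 2 * j + b := by omega
      rw [e, ih (k + 1) j hj' b hb]
      have e2 : k + 1 + j = k + (j + 1) := by ring
      rw [e2]
      simp

variable {Lb : Type} [DecidableEq Lb]

/-- the two instructions of an entry -/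
def ent (P : Opm Lb) (li : Lb × ℕ) : List (Ins (JJ Lb) (BB Lb)) :=
  match P.code li.1 with
  | none => [.jmp (.lm, 2 * li.2 + 3), .hlt]
  | some (_, d, l0, l1) => [.rd (.ph li.1) 0 (.lm, 2 * li.2 + 3) (.lm, 2 * li.2 + 2),
      .rd (.arr d) 0 (.lab l0, 0) (.lab l1, 0)]

omit [DecidableEq Lb] in
theorem ent_len (P : Opm Lb) (li : Lb × ℕ) : (ent P li).length = 2 := by
  unfold ent
  split <;> rfl

theorem ins_zero (P : Opm Lb) (F : List Lb) (B : ℕ) (g : (ℕ → ℕ) → Com (JJ Lb)) :
    (P.cam F B g).ins (.lm, 0) = .rd .pb 0 (.lm, 1) (.lab P.lim, 0) := rfl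

theorem ins_entry (P : Opm Lb) (F : List Lb) (B : ℕ) (g : (ℕ → ℕ) → Com (JJ Lb)) (j : ℕ)
    (hj : j < F.length) (b : ℕ) (hb : b < 2) :
    (P.cam F B g).ins (.lm, 2 * j + b + 1) = (ent P (F[j], j)).getD b .hlt := by
  have h := fm (ent P) (ent_len P) Ins.hlt F 0 j hj b hb
  rw [zero_add] at h
  rw [← h]
  rfl

end P3

open P3

theorem pf_P3 : StP3 := by
  intro Lb _ P F B g m hnd
  refine ⟨?_, ?_⟩
  · intro hpb
    change (P.cam F B g).step (((.lm, 0), fun _ => 0), m) = _
    unfold Cam.step
    simp only [ins_zero, hpb, if_true]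
  · intro l op d l0 l1 hl hcode hpb hfl
    set C := P.cam F B g with hC
    set i := F.idxOf l with hi
    have hiF : i < F.length := List.idxOf_lt_length_iff.2 hl
    have hFi : F[i] = l := List.getElem_idxOf hiF
    have hlt : ∀ j (hj : j < i), F[j]'(hj.trans hiF) ≠ l := by
      intro j hj h
      have h1 := hnd.idxOf_getElem j (hj.trans hiF)
      rw [h] at h1
      omega
    -- one step at position `2 j + 1`, `j < i`
    have hstep : ∀ j (hj : j < i), C.proc.next (((.lm, 2 * j + 1), fun _ => 0), m) =
        (((.lm, 2 * (j + 1) + 1), fun _ => 0), m) ∧ C.ins (.lm, 2 * j + 1) ≠ .hlt := by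
      intro j hj
      have hjF := hj.trans hiF
      have h1 : C.ins (.lm, 2 * j + 1) = (ent P (F[j], j)).getD 0 .hlt := by
        have := ins_entry P F B g j hjF 0 (by norm_num)
        simpa using this
      have h2 : m (.ph F[j], 0) = false := by
        rw [hfl _ (List.getElem_mem hjF)]
        simpa using hlt j hj
      change C.step (((.lm, 2 * j + 1), fun _ => 0), m) = _ ∧ _
      unfold Cam.step
      simp only [h1]
      unfold ent
      rcases hc : P.code F[j] with _ | ⟨op', d', l0', l1'⟩
      · simp only [List.getD_cons_zero]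
        refine ⟨?_, by simp⟩
        have e : 2 * j + 3 = 2 * (j + 1) + 1 := by ring
        rw [e]
      · simp only [List.getD_cons_zero]
        refine ⟨?_, by simp⟩
        have e : 2 * j + 3 = 2 * (j + 1) + 1 := by ring
        simp only [h2, e]
        rfl
    have h0 : C.proc.next (((.lm, 0), fun _ => 0), m) = (((.lm, 1), fun _ => 0), m) := by
      change C.step (((.lm, 0), fun _ => 0), m) = _
      unfold Cam.step
      simp only [hC, ins_zero, hpb]
      simp
    have hwalk : ∀ j ≤ i, C.proc.next^[j + 1] (((.lm, 0), fun _ => 0), m) =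
        (((.lm, 2 * j + 1), fun _ => 0), m) := by
      intro j
      induction j with
      | zero => intro _; simpa using h0
      | succ j ih =>
        intro hj
        rw [Function.iterate_succ_apply', ih (by omega)]
        exact (hstep j (by omega)).1
    have hent : ent P (F[i], i) = [.rd (.ph l) 0 (.lm, 2 * i + 3) (.lm, 2 * i + 2),
        .rd (.arr d) 0 (.lab l0, 0) (.lab l1, 0)] := by
      unfold ent
      simp only [hFi, hcode]
    have hA : C.ins (.lm, 2 * i + 1) = .rd (.ph l) 0 (.lm, 2 * i + 3) (.lm, 2 * i + 2) := by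
      have := ins_entry P F B g i hiF 0 (by norm_num)
      rw [hent] at this
      simpa using this
    have hB : C.ins (.lm, 2 * i + 2) = .rd (.arr d) 0 (.lab l0, 0) (.lab l1, 0) := by
      have := ins_entry P F B g i hiF 1 (by norm_num)
      rw [hent] at this
      simpa using this
    have hs1 : C.proc.next^[i + 2] (((.lm, 0), fun _ => 0), m) =
        (((.lm, 2 * i + 2), fun _ => 0), m) := by
      rw [Function.iterate_succ_apply', hwalk i le_rfl]
      change C.step _ = _
      unfold Cam.step
      simp only [hA, hfl l hl, decide_true, if_true]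
    have hs2 : C.proc.next^[i + 3] (((.lm, 0), fun _ => 0), m) =
        (((.lab (if m (.arr d, 0) then l1 else l0), 0), fun _ => 0), m) := by
      rw [Function.iterate_succ_apply', hs1]
      change C.step _ = _
      unfold Cam.step
      simp only [hB]
      split_ifs <;> rfl
    refine ⟨i + 3, hs2, ?_⟩
    intro y hy
    rcases Nat.eq_zero_or_pos y with rfl | hy0
    · exact ⟨0, rfl, by rw [hC, ins_zero]; simp⟩
    · by_cases hy2 : y = i + 2
      · refine ⟨2 * i + 2, by rw [hy2]; exact hs1, ?_⟩
        rw [hB]; simp
      · obtain ⟨j, rfl⟩ : ∃ j, y = j + 1 := ⟨y - 1, by omega⟩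
        refine ⟨2 * j + 1, hwalk j (by omega), ?_⟩
        rcases Nat.lt_or_ge j i with hji | hji
        · exact (hstep j hji).2
        · have : j = i := by omega
          subst this
          rw [hA]; simp

end Pool.Agent.Helper91.MP
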