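import Pool.Agent.Helper91.MP.OpmD

/-! Chapter MP, P4: the sweep of a label. -/

set_option autoImplicit false

open Ordinal Order

namespace Pool.Agent.Helper91.MP

open Pool.Agent.Helper25.EV

/-- concatenation of segments of positive length -/
theorem p4_chain {S : Type} (f : S → S) (c : ℕ → S) (n : ℕ → ℕ) (hn : ∀ s, 0 < n s)
    (h : ∀ s, f^[n s] (c s) = c (s + 1)) :
    ∃ N : ℕ → ℕ, (∀ s, f^[N s] (c 0) = c s) ∧
      ∀ k, ∃ s y, k = N s + y ∧ y < n s ∧ ∀ s₀, N s₀ ≤ k → s₀ ≤ s := by
  refine ⟨fun s => ∑ i ∈ Finset.range s, n i, ?_, ?_⟩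
  · intro s
    induction s with
    | zero => rfl
    | succ s ih =>
      simp only at ih
      show f^[∑ i ∈ Finset.range (s + 1), n i] (c 0) = c (s + 1)
      rw [Finset.sum_range_succ, add_comm, Function.iterate_add_apply, ih, h]
  · have hmono : StrictMono (fun s => ∑ i ∈ Finset.range s, n i) := by
      refine strictMono_nat_of_lt_succ fun s => ?_
      rw [Finset.sum_range_succ]
      have := hn s
      omega
    have h1 : ∀ k, ∃ s y, k = (∑ i ∈ Finset.range s, n i) + y ∧ y < n s := by
      intro k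
      induction k with
      | zero => exact ⟨0, 0, by simp, hn 0⟩
      | succ k ih =>
        obtain ⟨s, y, e, hy⟩ := ih
        rcases Nat.lt_or_ge (y + 1) (n s) with h2 | h2
        · exact ⟨s, y + 1, by omega, h2⟩
        · refine ⟨s + 1, 0, ?_, hn _⟩
          rw [Finset.sum_range_succ]
          omega
    intro k
    obtain ⟨s, y, e, hy⟩ := h1 k
    refine ⟨s, y, e, hy, fun s₀ hs₀ => ?_⟩
    by_contra hlt
    have h2 : s + 1 ≤ s₀ := by omega
    have h3 := hmono.monotone h2
    simp only at h3 hs₀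
    rw [Finset.sum_range_succ] at h3
    omega

theorem p4_btw {I : Type} {m m' a b v : I → Bool} (ha : Btw m m' a) (hb : Btw m m' b)
    (hv : Btw a b v) : Btw m m' v := by
  intro i
  rcases hv i with e | e
  · rw [e]
    exact ha i
  · rw [e]
    exact hb i

section
variable {Lb : Type} [DecidableEq Lb]

theorem p4_body (B1 : StB1) (B2 : StB2) (B3 : StB3) (B : ℕ) (g : (ℕ → ℕ) → Com (JJ Lb))
    (hg : Gok g) (op : Op) (hop : op.ok) : BodyOk B g op := by
  cases op with
  | inp t => exact B3 Lb B g t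
  | cst t b => exact (B1 Lb B g).1 t b
  | prim t f => exact (B2 Lb B g hg).1 t f hop
  | sub t u f => exact (B2 Lb B g hg).2.1 t u f hop.2
  | nand t u v => exact (B1 Lb B g).2 t u v
  | ex t u => exact (B2 Lb B g hg).2.2 t u

end

theorem pf_P4 : StT1 → StT4 → StK1 → StK2 → StB1 → StB2 → StB3 → StP1 → StP4 := by
  intro _ T4 K1 K2 B1 B2 B3 P1 Lb _ P F B g x l op d l0 l1 m hB hg hcode hok hPk
  set C := P.cam F B g with hC
  set e := (entr F l).len with he
  set m' : JJ Lb × ℕ → Bool := wtab m (op.app x (tabl m)) with hm'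
  set body' : Com (JJ Lb) := .seq (body B g op) (.inc 0) with hbody'
  -- the code of the block
  have hblk : C.code (.lab l) = comp (.lab l) (entr F l) 0 ++
      (comp (.lab l) body' e ++ [.jmp (.lab l, e)]) := by
    show blk P F B g l = _
    unfold blk
    rw [hcode]
  have hlen1 : (comp (.lab l) (entr F l) 0 : List (Ins (JJ Lb) (BB Lb))).length = e :=
    (K2 (JJ Lb) (BB Lb) (.lab l) (entr F l) 0).1
  have hlen2 : (comp (.lab l) body' e : List (Ins (JJ Lb) (BB Lb))).length = body'.len :=
    (K2 (JJ Lb) (BB Lb) (.lab l) body' e).1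
  have hcodeAt : CodeAt C (.lab l) e (comp (.lab l) body' e) := by
    intro i hi
    show (C.code (.lab l)).getD (e + i) .hlt = _
    rw [hblk, List.getD_append_right _ _ _ _ (by omega), hlen1, Nat.add_sub_cancel_left,
      List.getD_append _ _ _ _ hi, List.getD_eq_getElem _ _ hi]
  have hjmp : C.ins (.lab l, e + body'.len) = .jmp (.lab l, e) := by
    show (C.code (.lab l)).getD (e + body'.len) .hlt = _
    rw [hblk, List.getD_append_right _ _ _ _ (by omega), hlen1, Nat.add_sub_cancel_left,
      List.getD_append_right _ _ _ _ (by omega), hlen2, Nat.sub_self]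
    rfl
  -- the states
  set it : ℕ → JJ Lb × ℕ → Bool := iter B op m with hit
  set r : ℕ → ℕ → ℕ := fun s => Function.update (fun _ => 0) 0 s with hr
  set c : ℕ → CSt (JJ Lb) (BB Lb) := fun s => (((.lab l, e), r s), it s) with hc
  have hseg : ∀ s, ∃ n, 0 < n ∧ C.proc.next^[n] (c s) = c (s + 1) ∧
      ∀ y < n, C.ins (C.proc.next^[y] (c s)).1.1 ≠ .hlt ∧
        Btw (it s) (it (s + 1)) (C.proc.next^[y] (c s)).2 := by
    intro s
    have hev : Ev (Btw (it s) (it (s + 1))) body' (r s, it s) (r (s + 1), it (s + 1)) := by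
      have h1 := p4_body B1 B2 B3 B g hg op hok s (r s) (it s) (by simp [hr])
        (fun j hj => by
          simp only [hr]
          rw [Function.update_of_ne (by omega)])
      have h2 : Ev (Btw (it s) (it (s + 1))) (.inc 0) (r s, it (s + 1))
          (Function.update (r s) 0 (r s 0 + 1), it (s + 1)) := Ev.inc 0 _
      have h3 : Function.update (r s) 0 (r s 0 + 1) = r (s + 1) := by
        simp only [hr]
        rw [Function.update_idem, Function.update_self]
      rw [h3] at h2
      exact Ev.seq h1 h2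
    obtain ⟨n, e1, e2, e3⟩ := K1 (JJ Lb) (BB Lb) C (.lab l) _ body' e _ _ hcodeAt hev
      (fun i => Or.inl rfl)
    refine ⟨n + 1, Nat.succ_pos n, ?_, ?_⟩
    · rw [Function.iterate_succ_apply']
      refine (congrArg C.proc.next e1).trans ?_
      show C.step (((.lab l, e + body'.len), r (s + 1)), it (s + 1)) = _
      unfold Cam.step
      simp only [hjmp]
      rfl
    · intro y hy
      rcases Nat.lt_or_ge y n with h | h
      · exact ⟨e3 y h, e2 y h.le⟩
      · have hyn : y = n := by omega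
        subst hyn
        refine ⟨?_, e2 y le_rfl⟩
        have e4 : C.ins (C.proc.next^[y] (c s)).1.1 = .jmp (.lab l, e) := by
          rw [← hjmp]
          exact congrArg (fun z : CSt (JJ Lb) (BB Lb) => C.ins z.1.1) e1
        rw [e4]
        simp
  choose n hn hstep hmid using hseg
  obtain ⟨N, hN1, hN2⟩ := p4_chain C.proc.next c n hn hstep
  obtain ⟨hP1, hP2⟩ := P1 Lb B x op m hB hok hPk
  have hc0 : c 0 = (((.lab l, e), fun _ => 0), m) := by
    simp only [hc, hr, hit]
    rw [Function.update_eq_self_iff.2 rfl]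
    rfl
  have hstate : ∀ k, ∃ s y, y < n s ∧ (∀ s₀, N s₀ ≤ k → s₀ ≤ s) ∧
      C.proc.next^[k] (c 0) = C.proc.next^[y] (c s) := by
    intro k
    obtain ⟨s, y, hk, hy, hs⟩ := hN2 k
    refine ⟨s, y, hy, hs, ?_⟩
    rw [hk, add_comm, Function.iterate_add_apply, hN1]
  rw [← hc0]
  refine ⟨?_, ?_⟩
  · refine (T4 C.proc (c 0)).2 m' fun i => ?_
    obtain ⟨s₀, hs₀⟩ := hP2 i
    refine ⟨N s₀, fun k hk => ?_⟩
    obtain ⟨s, y, hy, hs, hst⟩ := hstate k
    have h1 : s₀ ≤ s := hs s₀ hk
    rw [hst]
    show (C.proc.next^[y] (c s)).2 i = m' i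
    rcases (hmid s y hy).2 i with h2 | h2
    · rw [h2]
      exact hs₀ s h1
    · rw [h2]
      exact hs₀ (s + 1) (by omega)
  · intro k
    obtain ⟨s, y, hy, -, hst⟩ := hstate k
    rw [hst]
    exact ⟨(hmid s y hy).1, p4_btw (hP1 s) (hP1 (s + 1)) (hmid s y hy).2⟩

end Pool.Agent.Helper91.MP
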