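import Pool.Agent.Helper91.MP.OpmD

set_option autoImplicit false

open Ordinal Order

namespace Pool.Agent.Helper91.MP

open Pool.Agent.Helper25.EV

theorem seqs_regs5 {J : Type} (k : ℕ) (L : List (Com J)) (h : ∀ c ∈ L, c.regs k) :
    (seqs L).regs k := by
  induction L with
  | nil => trivial
  | cons c L ih =>
    exact ⟨h c (List.mem_cons_self), ih fun d hd => h d (List.mem_cons_of_mem _ hd)⟩

theorem seqs_arrs5 {J : Type} (U : Set J) (L : List (Com J)) (h : ∀ c ∈ L, c.arrs U) :
    (seqs L).arrs U := by
  induction L with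
  | nil => trivial
  | cons c L ih =>
    exact ⟨h c (List.mem_cons_self), ih fun d hd => h d (List.mem_cons_of_mem _ hd)⟩

theorem pf_P5 : StK2 → StB4 → StP5 := by
  intro k2 b4 Lb _ P F U g hF hg
  classical
  have h1 : ∀ l ∈ F, ∃ k, ∀ op d l0 l1, P.code l = some (op, d, l0, l1) →
      ∀ B, (body B g op).regs k ∧ ∀ U : Set ℕ, op.tabs U →
        (body B g op).arrs ({j | ∃ r < B, j = .inp r} ∪ {j | ∃ t ∈ U, j = .arr t}) := by
    intro l hl
    rcases hc : P.code l with _ | ⟨op, d, l0, l1⟩
    · exact ⟨0, fun op d l0 l1 h => absurd h (by simp)⟩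
    · obtain ⟨k, hk⟩ := b4 Lb g hg op (hF.nxt l hl op d l0 l1 hc).2.2.2.1
      refine ⟨k, fun op' d' l0' l1' h => ?_⟩
      simp only [Option.some.injEq, Prod.mk.injEq] at h
      rw [← h.1]
      exact hk
  choose! kk hkk using h1
  refine ⟨insert .pb (F.image .ph ∪ U.image .arr), F.sup kk + 1, ?_, ?_, ?_⟩
  · intro t ht
    simp [ht]
  · intro r
    simp
  · intro B
    obtain ⟨V, hV⟩ : ∃ V : Finset (JJ Lb), V = insert .pb (F.image .ph ∪ U.image .arr) ∪
        (Finset.range B).image .inp := ⟨_, rfl⟩
    obtain ⟨F', hF'⟩ : ∃ F' : Finset (BB Lb), F' = insert .lm (F.image .lab) := ⟨_, rfl⟩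
    rw [← hV, ← hF']
    have hpb : JJ.pb ∈ V := by simp [hV]
    have hph : ∀ l ∈ F, JJ.ph l ∈ V := fun l hl => by simp [hV, hl]
    have harr : ∀ t ∈ U, JJ.arr t ∈ V := fun l hl => by simp [hV, hl]
    have hinp : ∀ r < B, JJ.inp r ∈ V := fun l hl => by simp [hV, hl]
    have hlm : BB.lm ∈ F' := by simp [hF']
    have hlab : ∀ l ∈ F, BB.lab l ∈ F' := fun l hl => by simp [hF', hl]
    have hF'' : ∀ b ∈ F', b = .lm ∨ ∃ l ∈ F, b = .lab l := by
      intro b hb
      rw [hF', Finset.mem_insert, Finset.mem_image] at hb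
      rcases hb with hb | ⟨l, hl, hb⟩
      · exact Or.inl hb
      · exact Or.inr ⟨l, hl, hb.symm⟩
    have hk1 : 0 < F.sup kk + 1 := Nat.succ_pos _
    refine ⟨F'.sup fun b => ((P.cam F.toList B g).code b).length, ?_, ?_, ?_, ?_⟩
    · exact hlab _ hF.start
    · exact hlm
    · intro b hb x hx
      rcases hF'' b hb with rfl | ⟨l, hl, rfl⟩
      · simp only [Opm.cam, lmi, List.mem_cons, List.mem_flatMap] at hx
        rcases hx with rfl | ⟨⟨l, i⟩, hli, hx⟩
        · exact ⟨hpb, hk1, hlm, hlab _ hF.lim⟩
        · have hl : l ∈ F := by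
            have := List.mem_zipIdx hli
            rw [← Finset.mem_toList]
            rw [this.2.2]
            exact List.getElem_mem _
          rcases hc : P.code l with _ | ⟨op, d, l0, l1⟩
          · simp only [hc, List.mem_cons, List.not_mem_nil, or_false] at hx
            rcases hx with rfl | rfl
            · exact hlm
            · trivial
          · obtain ⟨e1, e2, e3, -, -⟩ := hF.nxt l hl op d l0 l1 hc
            simp only [hc, List.mem_cons, List.not_mem_nil, or_false] at hx
            rcases hx with rfl | rfl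
            · exact ⟨hph l hl, hk1, hlm, hlm⟩
            · exact ⟨harr d e3, hk1, hlab _ e1, hlab _ e2⟩
      · have hreg : (entr F.toList l).regs (F.sup kk + 1) := by
          refine ⟨hk1, hk1, seqs_regs5 _ _ ?_⟩
          intro c hc
          rw [List.mem_map] at hc
          obtain ⟨l', -, rfl⟩ := hc
          exact hk1
        have harrs : (entr F.toList l).arrs (V : Set (JJ Lb)) := by
          refine ⟨hpb, hpb, seqs_arrs5 _ _ ?_⟩
          intro c hc
          rw [List.mem_map] at hc
          obtain ⟨l', h3, rfl⟩ := hc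
          exact hph l' (Finset.mem_toList.1 h3)
        simp only [Opm.cam, blk, List.mem_append] at hx
        rcases hx with hx | hx
        · exact (k2 _ _ (.lab l) (entr F.toList l) 0).2 V F' _ (hlab l hl) hreg harrs x hx
        · rcases hc : P.code l with _ | ⟨op, d, l0, l1⟩
          · simp only [hc, List.mem_singleton] at hx
            rw [hx]
            trivial
          · obtain ⟨e1, e2, e3, e4, e5⟩ := hF.nxt l hl op d l0 l1 hc
            simp only [hc, List.mem_append, List.mem_singleton] at hx
            rcases hx with hx | rfl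
            · obtain ⟨e6, e7⟩ := hkk l hl op d l0 l1 hc B
              refine (k2 _ _ (.lab l) (.seq (body B g op) (.inc 0)) _).2 V F' (F.sup kk + 1)
                (hlab l hl) ⟨Com.regs_mono ?_ _ e6, hk1⟩ ⟨Com.arrs_mono ?_ _ (e7 _ e5), trivial⟩ x hx
              · exact (Finset.le_sup hl).trans (Nat.le_succ _)
              · rintro j (⟨r, hr, rfl⟩ | ⟨t, ht, rfl⟩)
                · exact hinp r hr
                · exact harr t ht
            · exact hlab l hl
    · intro b hb
      exact Finset.le_sup (f := fun b => ((P.cam F.toList B g).code b).length) hb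

end Pool.Agent.Helper91.MP
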