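import Pool.Agent.Helper91.MP.OpmD

set_option autoImplicit false

open Ordinal Order

namespace Pool.Agent.Helper91.MP

open Pool.Agent.Helper25.EV

theorem pf_Ph : StK2 → StPh := by
  intro k2 Lb _ P F B g x a c hR hc
  have h1 : c.1.1 = (.lab a.1, (entr F a.1).len) := congrArg Prod.fst hR.2.1
  rw [h1]
  have h2 := (k2 (JJ Lb) (BB Lb) (.lab a.1) (entr F a.1) 0).1
  simp only [Cam.ins, Opm.cam, blk, hc]
  rw [← h2]
  simp [List.getD]

end Pool.Agent.Helper91.MP
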