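import Pool.Agent.Helper91.MP.ComD

/-!
# Chapter MP, module R1: loops
-/

set_option autoImplicit false

open Ordinal Order

namespace Pool.Agent.Helper91.MP

theorem pf_R1 : StR1 := by
  intro J _ P j c n
  induction n with
  | zero =>
    intro s _ h2 _
    exact .loop0 h2
  | succ n ih =>
    intro s h1 h2 h3
    refine .loop1 (h1 0 (Nat.succ_pos n)) (h3 0 (Nat.succ_pos n)) ?_
    exact ih (fun i => s (i + 1)) (fun i hi => h1 (i + 1) (by omega)) h2
      (fun i hi => h3 (i + 1) (by omega))

end Pool.Agent.Helper91.MP
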