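import Pool.Agent.Helper91.MP.ComD

/-!
# Chapter MP, module R2: clearing, moving and copying counters
-/

set_option autoImplicit false

open Ordinal Order

namespace Pool.Agent.Helper91.MP

private theorem R2_ev {J : Type} [DecidableEq J] {P : (J × ℕ → Bool) → Prop} {c : Com J}
    {u u' v v' : ℕ → ℕ} {m : J × ℕ → Bool} (h : Ev P c (u, m) (v, m)) (e : u = u') (e' : v = v') :
    Ev P c (u', m) (v', m) := by
  subst e e'
  exact h

theorem pf_R2 : StR1 → StR2 := by
  intro hR1 J _ P m
  refine ⟨?_, ?_, ?_⟩
  · intro a r
    have key := hR1 J P a (.dec a) (r a) (fun i => (Function.update r a (r a - i), m)) ?_ ?_ ?_
    · refine R2_ev key ?_ ?_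
      · simp
      · simp
    · intro i hi
      simp only [Function.update_self]
      omega
    · simp
    · intro i hi
      have := Ev.dec (P := P) a (Function.update r a (r a - i), m)
      simp only [Function.update_self, Function.update_idem] at this
      rw [Nat.sub_sub] at this
      exact this
  · intro a o r hao
    have key := hR1 J P a (.seq (.dec a) (.inc o)) (r a)
      (fun i => (Function.update (Function.update r o (r o + i)) a (r a - i), m)) ?_ ?_ ?_
    · refine R2_ev key ?_ ?_
      · simp
      · simp
    · intro i hi
      simp only [Function.update_self]
      omega
    · simp
    · intro i hi
      have h1 := Ev.dec (P := P) a (Function.update (Function.update r o (r o + i)) a (r a - i), m)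
      simp only [Function.update_self, Function.update_idem] at h1
      have h2 := Ev.inc (P := P) o
        (Function.update (Function.update r o (r o + i)) a (r a - i - 1), m)
      simp only [Function.update_of_ne hao.symm, Function.update_self] at h2
      refine Ev.seq h1 (R2_ev h2 rfl ?_)
      rw [Function.update_comm hao, Function.update_idem, Nat.sub_sub, Nat.add_assoc]
  · intro a o z r hao haz hoz hz
    have key := hR1 J P a (.seq (.dec a) (.seq (.inc o) (.inc z))) (r a)
      (fun i => (Function.update (Function.update (Function.update r o (r o + i)) z i) a (r a - i),
        m)) ?_ ?_ ?_
    · have key2 := hR1 J P z (.seq (.dec z) (.inc a)) (r a)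
        (fun i => (Function.update (Function.update (Function.update r o (r o + r a)) z (r a - i)) a
          i, m)) ?_ ?_ ?_
      · have e0 : Function.update (Function.update (Function.update r o (r o + 0)) z 0) a
            (r a - 0) = r := by
          funext j
          by_cases h1 : j = a
          · subst h1
            rw [Function.update_self, Nat.sub_zero]
          · rw [Function.update_of_ne h1]
            by_cases h2 : j = z
            · subst h2
              rw [Function.update_self, hz]
            · rw [Function.update_of_ne h2, Nat.add_zero, Function.update_eq_self]
        refine Ev.seq (R2_ev key e0 rfl) ?_
        simp only [Nat.sub_self] at key2 ⊢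
        rw [Nat.sub_zero] at key2
        refine R2_ev key2 rfl ?_
        funext j
        by_cases h1 : j = a
        · subst h1
          rw [Function.update_self, Function.update_of_ne hao]
        · rw [Function.update_of_ne h1]
          by_cases h2 : j = z
          · subst h2
            rw [Function.update_self, Function.update_of_ne hoz.symm, hz]
          · rw [Function.update_of_ne h2]
      · intro i hi
        simp only [Function.update_of_ne haz.symm, Function.update_self]
        omega
      · simp [Function.update_of_ne haz.symm]
      · intro i hi
        have h1 := Ev.dec (P := P) z
          (Function.update (Function.update (Function.update r o (r o + r a)) z (r a - i)) a i, m)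
        simp only [Function.update_of_ne haz.symm, Function.update_self] at h1
        rw [Function.update_comm haz, Function.update_idem] at h1
        have h2 := Ev.inc (P := P) a
          (Function.update (Function.update (Function.update r o (r o + r a)) z (r a - i - 1)) a i, m)
        simp only [Function.update_self, Function.update_idem] at h2
        rw [Nat.sub_sub] at h1 h2
        exact Ev.seq h1 h2
    · intro i hi
      simp only [Function.update_self]
      omega
    · simp
    · intro i hi
      have h1 := Ev.dec (P := P) a
        (Function.update (Function.update (Function.update r o (r o + i)) z i) a (r a - i), m)
      simp only [Function.update_self, Function.update_idem] at h1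
      have h2 := Ev.inc (P := P) o
        (Function.update (Function.update (Function.update r o (r o + i)) z i) a (r a - i - 1), m)
      simp only [Function.update_of_ne hao.symm, Function.update_of_ne hoz,
        Function.update_self] at h2
      have e2 : Function.update (Function.update (Function.update (Function.update r o (r o + i)) z
          i) a (r a - i - 1)) o (r o + i + 1) =
          Function.update (Function.update (Function.update r o (r o + (i + 1))) z i) a
          (r a - (i + 1)) := by
        rw [Function.update_comm hao, Function.update_comm hoz.symm, Function.update_idem,
          Nat.sub_sub, Nat.add_assoc]
      rw [e2] at h2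
      have h3 := Ev.inc (P := P) z
        (Function.update (Function.update (Function.update r o (r o + (i + 1))) z i) a
          (r a - (i + 1)), m)
      simp only [Function.update_of_ne haz.symm, Function.update_self] at h3
      rw [Function.update_comm haz, Function.update_idem] at h3
      exact Ev.seq h1 (Ev.seq h2 h3)

end Pool.Agent.Helper91.MP
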