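import Pool.Agent.Helper91.MP.ComD

/-!
# Chapter MP, module R3: zero, successor, projections
-/

set_option autoImplicit false

open Ordinal Order

namespace Pool.Agent.Helper91.MP

/-- copy the counter `a` to `o` with the auxiliary counter `z` -/
private def R3_cp {J : Type} (a o z : ℕ) : Com J :=
  .seq (.loop a (.seq (.dec a) (.seq (.inc o) (.inc z)))) (.loop z (.seq (.dec z) (.inc a)))

theorem pf_R3 : StR2 → StR3 := by
  intro hR2 J _
  refine ⟨⟨0, ?_⟩, ⟨1, ?_⟩, fun n i => ⟨1, ?_⟩⟩
  · intro a o z _ _ _
    refine ⟨.skip, trivial, trivial, ?_⟩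
    intro P r m hro _
    have h : Function.update r o 0 = r := by rw [← hro, Function.update_eq_self]
    simp only [h]
    exact .skip _
  · intro a o z ha hao hoz
    have h0 := ha 0
    have h1 := hao 0
    refine ⟨.seq (R3_cp (a 0) o z) (.inc o), ?_, ?_, ?_⟩
    · simp only [R3_cp, Com.regs]
      refine ⟨⟨⟨by omega, by omega, by omega, by omega⟩, by omega, by omega, by omega⟩, by omega⟩
    · simp only [R3_cp, Com.arrs]
      exact ⟨⟨⟨trivial, trivial, trivial⟩, trivial, trivial⟩, trivial⟩
    · intro P r m hro hrz
      have h2 := (hR2 J P m).2.2 (a 0) o z r h1 (by omega) (by omega) (hrz z le_rfl)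
      rw [hro, zero_add] at h2
      have h3 := Ev.inc (P := P) o (Function.update r o (r (a 0)), m)
      simp only [Function.update_self, Function.update_idem] at h3
      exact Ev.seq h2 h3
  · intro a o z ha hao hoz
    have h0 := ha i
    have h1 := hao i
    refine ⟨R3_cp (a i) o z, ?_, ?_, ?_⟩
    · simp only [R3_cp, Com.regs]
      refine ⟨⟨by omega, by omega, by omega, by omega⟩, by omega, by omega, by omega⟩
    · simp only [R3_cp, Com.arrs]
      exact ⟨⟨trivial, trivial, trivial⟩, trivial, trivial⟩
    · intro P r m hro hrz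
      have h2 := (hR2 J P m).2.2 (a i) o z r h1 (by omega) (by omega) (hrz z le_rfl)
      rw [hro, zero_add] at h2
      have h3 : (fun v : List.Vector ℕ n => v.get i) (List.Vector.ofFn fun i => r (a i)) =
          r (a i) := List.Vector.get_ofFn _ _
      rw [h3]
      exact h2

end Pool.Agent.Helper91.MP
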