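import Pool.Agent.Helper91.MP.ComD

/-!
# Chapter MP, module R4: composition
-/

set_option autoImplicit false

open Ordinal Order

namespace Pool.Agent.Helper91.MP

/-- the sequence `C 0; ...; C (n - 1)` -/
private def R4_sq {J : Type} (C : ℕ → Com J) : ℕ → Com J
  | 0 => .skip
  | n + 1 => .seq (R4_sq C n) (C n)

private theorem R4_ev {J : Type} [DecidableEq J] {P : (J × ℕ → Bool) → Prop} {C : ℕ → Com J}
    {s : ℕ → RSt J} : ∀ n : ℕ, (∀ i < n, Ev P (C i) (s i) (s (i + 1))) →
    Ev P (R4_sq C n) (s 0) (s n)
  | 0, _ => .skip _
  | n + 1, h => .seq (R4_ev n fun i hi => h i (by omega)) (h n (by omega))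

private theorem R4_regs {J : Type} {C : ℕ → Com J} {k : ℕ} :
    ∀ n : ℕ, (∀ i < n, (C i).regs k) → (R4_sq C n).regs k
  | 0, _ => trivial
  | n + 1, h => ⟨R4_regs n fun i hi => h i (by omega), h n (by omega)⟩

private theorem R4_arrs {J : Type} {C : ℕ → Com J} {U : Set J} :
    ∀ n : ℕ, (∀ i < n, (C i).arrs U) → (R4_sq C n).arrs U
  | 0, _ => trivial
  | n + 1, h => ⟨R4_arrs n fun i hi => h i (by omega), h n (by omega)⟩

theorem pf_R4 : StR2 → StR4 := by
  intro hR2 J _ m n f g hf hg
  obtain ⟨wf, hf⟩ := hf
  choose w hw using hg
  set W := wf + Finset.univ.sup w with hW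
  have hwW : ∀ i, w i ≤ W := fun i =>
    (Finset.le_sup (f := w) (Finset.mem_univ i)).trans (Nat.le_add_left _ _)
  refine ⟨n + W, ?_⟩
  intro a o z ha hao hoz
  have hc : ∀ i : Fin n, ∃ c : Com J, Cmp (g i) a (z + i.1) (z + n) (w i) c := fun i =>
    hw i a (z + i.1) (z + n) (fun j => by have := ha j; omega)
      (fun j => by have := ha j; omega) (by have := i.2; omega)
  choose c hc using hc
  obtain ⟨d, hd⟩ := hf (fun i : Fin n => z + i.1) o (z + n) (fun i => by have := i.2; omega)
    (fun i => by omega) (by omega)
  set C : ℕ → Com J := fun j => if h : j < n then c ⟨j, h⟩ else .skip with hC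
  have hCi : ∀ j (h : j < n), C j = c ⟨j, h⟩ := fun j h => by rw [hC]; simp [h]
  refine ⟨.seq (R4_sq C n) (.seq d (R4_sq (fun j => .loop (z + j) (.dec (z + j))) n)), ?_, ?_, ?_⟩
  · refine ⟨R4_regs n fun j hj => ?_, ?_, R4_regs n fun j hj => ?_⟩
    · rw [hCi j hj]
      exact Com.regs_mono (by have := hwW ⟨j, hj⟩; omega) _ (hc ⟨j, hj⟩).1
    · exact Com.regs_mono (by omega) _ hd.1
    · exact ⟨by omega, by change z + j < _; omega⟩
  · refine ⟨R4_arrs n fun j hj => ?_, hd.2.1, R4_arrs n fun j hj => trivial⟩
    rw [hCi j hj]
    exact (hc ⟨j, hj⟩).2.1
  · intro P r μ hro hrz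
    set G : ℕ → ℕ := fun j => if h : j < n then g ⟨j, h⟩ (List.Vector.ofFn fun i => r (a i)) else 0
      with hG
    have hGi : ∀ j (h : j < n), G j = g ⟨j, h⟩ (List.Vector.ofFn fun i => r (a i)) :=
      fun j h => by rw [hG]; simp [h]
    -- first phase
    set S : ℕ → ℕ → ℕ := fun j x => if z ≤ x ∧ x < z + j then G (x - z) else r x with hS
    have hS0 : S 0 = r := by
      funext x
      rw [hS]
      simp only
      rw [if_neg (by omega)]
    have ev1 : Ev P (R4_sq C n) (r, μ) (S n, μ) := by
      have := R4_ev (P := P) (C := C) (s := fun j => (S j, μ)) n ?_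
      · rw [hS0] at this
        exact this
      · intro j hj
        rw [hCi j hj]
        have h1 := (hc ⟨j, hj⟩).2.2 P (S j) μ ?_ ?_
        · have h2 : (List.Vector.ofFn fun i => S j (a i)) = List.Vector.ofFn fun i => r (a i) := by
            congr 1
            funext i
            rw [hS]
            simp only
            rw [if_neg (by have := ha i; omega)]
          rw [h2, ← hGi j hj] at h1
          have h3 : Function.update (S j) (z + j) (G j) = S (j + 1) := by
            funext x
            by_cases hx : x = z + j
            · subst hx
              rw [Function.update_self, hS]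
              simp only
              rw [if_pos (by omega), Nat.add_sub_cancel_left]
            · rw [Function.update_of_ne hx, hS]
              simp only
              by_cases h4 : z ≤ x ∧ x < z + j
              · rw [if_pos h4, if_pos (by omega)]
              · rw [if_neg h4, if_neg (by omega)]
          simp only [h3] at h1
          exact h1
        · rw [hS]
          simp only
          rw [if_neg (by omega)]
          exact hrz _ (by omega)
        · intro x hx
          rw [hS]
          simp only
          rw [if_neg (by omega)]
          exact hrz _ (by omega)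
    -- second phase
    set v := f (List.Vector.ofFn fun i => g i (List.Vector.ofFn fun i => r (a i))) with hv
    have ev2 : Ev P d (S n, μ) (Function.update (S n) o v, μ) := by
      have h1 := hd.2.2 P (S n) μ ?_ ?_
      · have h2 : (List.Vector.ofFn fun i : Fin n => S n (z + i.1)) =
            List.Vector.ofFn fun i => g i (List.Vector.ofFn fun i => r (a i)) := by
          congr 1
          funext i
          rw [hS]
          simp only
          rw [if_pos (by have := i.2; omega), Nat.add_sub_cancel_left, hGi i.1 i.2]
        rw [h2] at h1
        exact h1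
      · rw [hS]
        simp only
        rw [if_neg (by omega)]
        exact hro
      · intro x hx
        rw [hS]
        simp only
        rw [if_neg (by omega)]
        exact hrz _ (by omega)
    -- third phase
    set T : ℕ → ℕ → ℕ := fun j x => if z + j ≤ x ∧ x < z + n then G (x - z)
      else Function.update r o v x with hT
    have hT0 : T 0 = Function.update (S n) o v := by
      funext x
      rw [hT, hS]
      simp only
      by_cases hx : x = o
      · subst hx
        rw [if_neg (by omega), Function.update_self, Function.update_self]
      · rw [Function.update_of_ne hx, Function.update_of_ne hx]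
        rfl
    have hTn : T n = Function.update r o v := by
      funext x
      rw [hT]
      simp only
      rw [if_neg (by omega)]
    have ev3 : Ev P (R4_sq (fun j => .loop (z + j) (.dec (z + j))) n)
        (Function.update (S n) o v, μ) (Function.update r o v, μ) := by
      have := R4_ev (P := P) (C := fun j => .loop (z + j) (.dec (z + j)))
        (s := fun j => (T j, μ)) n ?_
      · rw [hT0, hTn] at this
        exact this
      · intro j hj
        have h1 := (hR2 J P μ).1 (z + j) (T j)
        have h2 : Function.update (T j) (z + j) 0 = T (j + 1) := by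
          funext x
          by_cases hx : x = z + j
          · subst hx
            rw [Function.update_self, hT]
            simp only
            rw [if_neg (by omega), Function.update_of_ne (by omega)]
            exact (hrz _ (by omega)).symm
          · rw [Function.update_of_ne hx, hT]
            simp only
            by_cases h4 : z + j ≤ x ∧ x < z + n
            · rw [if_pos h4, if_pos (by omega)]
            · rw [if_neg h4, if_neg (by omega)]
        rw [h2] at h1
        exact h1
    exact Ev.seq ev1 (Ev.seq ev2 ev3)

end Pool.Agent.Helper91.MP
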