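import Pool.Agent.Helper91.MP.ComD

/-!
# Chapter MP, module R5: primitive recursion
-/

set_option autoImplicit false

open Ordinal Order

namespace Pool.Agent.Helper91.MP

private theorem R5_ev {J : Type} [DecidableEq J] {P : (J × ℕ → Bool) → Prop} {c : Com J}
    {u v v' : ℕ → ℕ} {m : J × ℕ → Bool} (h : Ev P c (u, m) (v, m)) (e : v = v') :
    Ev P c (u, m) (v', m) := by
  subst e
  exact h

/-- the counters: `y = z`, `h = z + 1`, `cnt = z + 2`, `nw = z + 3`, output `o` -/
private def R5_st (r : ℕ → ℕ) (z o y h c w q : ℕ) : ℕ → ℕ := fun j =>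
  if j = z then y else if j = z + 1 then h else if j = z + 2 then c else if j = z + 3 then w
  else if j = o then q else r j

/-- the command -/
private def R5_cmd {J : Type} (cF cG : Com J) (a0 z o : ℕ) : Com J :=
  .seq cF (.seq (.seq (.loop a0 (.seq (.dec a0) (.seq (.inc (z + 2)) (.inc (z + 4)))))
      (.loop (z + 4) (.seq (.dec (z + 4)) (.inc a0))))
    (.seq (.loop (z + 2) (.seq (.dec (z + 2)) (.seq cG (.seq (.loop (z + 1) (.dec (z + 1)))
        (.seq (.loop (z + 3) (.seq (.dec (z + 3)) (.inc (z + 1)))) (.inc z))))))
      (.seq (.loop (z + 1) (.seq (.dec (z + 1)) (.inc o))) (.loop z (.dec z)))))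

theorem pf_R5 : StR1 → StR2 → StR5 := by
  intro hR1 hR2 J _ n f g hf hg
  obtain ⟨wf, hf⟩ := hf
  obtain ⟨wg, hg⟩ := hg
  refine ⟨5 + max wf wg, ?_⟩
  intro a o z ha hao hoz
  obtain ⟨cF, hF⟩ := hf (fun i => a i.succ) (z + 1) (z + 4)
    (fun i => by have := ha i.succ; omega) (fun i => by have := ha i.succ; omega) (by omega)
  obtain ⟨cG, hG⟩ := hg (Fin.cons z (Fin.cons (z + 1) (fun i => a i.succ))) (z + 3) (z + 4)
    (fun i => by
      refine Fin.cases ?_ (fun i => ?_) i
      · simp
      · refine Fin.cases ?_ (fun i => ?_) i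
        · simp
        · simp only [Fin.cons_succ]
          have := ha i.succ; omega)
    (fun i => by
      refine Fin.cases ?_ (fun i => ?_) i
      · simp
      · refine Fin.cases ?_ (fun i => ?_) i
        · simp
        · simp only [Fin.cons_succ]
          have := ha i.succ; omega) (by omega)
  refine ⟨R5_cmd cF cG (a 0) z o, ?_, ?_, ?_⟩
  · have h0 := ha 0
    have h1 : cF.regs (z + (5 + max wf wg)) :=
      Com.regs_mono (by have := le_max_left wf wg; omega) _ hF.1
    have h2 : cG.regs (z + (5 + max wf wg)) :=
      Com.regs_mono (by have := le_max_right wf wg; omega) _ hG.1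
    unfold R5_cmd
    simp only [Com.regs]
    refine ⟨h1, ⟨⟨by omega, by omega, by omega, by omega⟩, by omega, by omega, by omega⟩,
      ⟨by omega, by omega, h2, ⟨by omega, by omega⟩, ⟨by omega, by omega, by omega⟩, by omega⟩,
      ⟨by omega, by omega, by omega⟩, by omega, by omega⟩
  · unfold R5_cmd
    simp only [Com.arrs]
    exact ⟨hF.2.1, ⟨⟨trivial, trivial, trivial⟩, trivial, trivial⟩,
      ⟨trivial, hG.2.1, trivial, ⟨trivial, trivial⟩, trivial⟩, ⟨trivial, trivial⟩, trivial⟩
  · intro P r m hro hrz
    have h0z := ha 0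
    have h0o := hao 0
    set N := r (a 0) with hN
    set p : List.Vector ℕ n := List.Vector.ofFn (fun i => r (a i.succ)) with hp
    set H : ℕ → ℕ := fun k => k.rec (f p) fun y IH => g (y ::ᵥ IH ::ᵥ p) with hH
    have hH0 : H 0 = f p := rfl
    have hHs : ∀ k, H (k + 1) = g (k ::ᵥ H k ::ᵥ p) := fun k => rfl
    have hval : (fun v : List.Vector ℕ (n + 1) =>
        (v.head.rec (f v.tail) fun y IH => g (y ::ᵥ IH ::ᵥ v.tail) : ℕ))
        (List.Vector.ofFn fun i => r (a i)) = H N := by
      have e1 : (List.Vector.ofFn fun i => r (a i)).head = N := by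
        rw [List.Vector.head_ofFn]
      have e2 : (List.Vector.ofFn fun i => r (a i)).tail = p := by
        rw [List.Vector.tail_ofFn]
      simp only [e1, e2, hH]
    rw [hval]
    -- values of the state functions
    have st_z : ∀ y h c w q, R5_st r z o y h c w q z = y := by
      intro y h c w q; simp [R5_st]
    have st_1 : ∀ y h c w q, R5_st r z o y h c w q (z + 1) = h := by
      intro y h c w q; simp [R5_st]
    have st_2 : ∀ y h c w q, R5_st r z o y h c w q (z + 2) = c := by
      intro y h c w q; simp [R5_st]
    have st_3 : ∀ y h c w q, R5_st r z o y h c w q (z + 3) = w := by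
      intro y h c w q; simp [R5_st]
    have st_o : ∀ y h c w q, R5_st r z o y h c w q o = q := by
      intro y h c w q
      unfold R5_st
      rw [if_neg (by omega), if_neg (by omega), if_neg (by omega), if_neg (by omega), if_pos rfl]
    have st_r : ∀ y h c w q j, j < z → j ≠ o → R5_st r z o y h c w q j = r j := by
      intro y h c w q j hj hjo
      unfold R5_st
      rw [if_neg (by omega), if_neg (by omega), if_neg (by omega), if_neg (by omega), if_neg hjo]
    have st_4 : ∀ y h c w q j, z + 4 ≤ j → R5_st r z o y h c w q j = 0 := by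
      intro y h c w q j hj
      unfold R5_st
      rw [if_neg (by omega), if_neg (by omega), if_neg (by omega), if_neg (by omega),
        if_neg (by omega)]
      exact hrz j (by omega)
    have up_z : ∀ y h c w q y', Function.update (R5_st r z o y h c w q) z y' =
        R5_st r z o y' h c w q := by
      intro y h c w q y'
      funext j
      by_cases hj : j = z
      · subst hj; simp [R5_st]
      · rw [Function.update_of_ne hj]
        simp [R5_st, hj]
    have up_1 : ∀ y h c w q h', Function.update (R5_st r z o y h c w q) (z + 1) h' =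
        R5_st r z o y h' c w q := by
      intro y h c w q h'
      funext j
      by_cases hj : j = z + 1
      · subst hj; simp [R5_st]
      · rw [Function.update_of_ne hj]
        simp [R5_st, hj]
    have up_2 : ∀ y h c w q c', Function.update (R5_st r z o y h c w q) (z + 2) c' =
        R5_st r z o y h c' w q := by
      intro y h c w q c'
      funext j
      by_cases hj : j = z + 2
      · subst hj; simp [R5_st]
      · rw [Function.update_of_ne hj]
        simp [R5_st, hj]
    have up_3 : ∀ y h c w q w', Function.update (R5_st r z o y h c w q) (z + 3) w' =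
        R5_st r z o y h c w' q := by
      intro y h c w q w'
      funext j
      by_cases hj : j = z + 3
      · subst hj; simp [R5_st]
      · rw [Function.update_of_ne hj]
        simp [R5_st, hj]
    have up_o : ∀ y h c w q q', Function.update (R5_st r z o y h c w q) o q' =
        R5_st r z o y h c w q' := by
      intro y h c w q q'
      funext j
      by_cases hj : j = o
      · subst hj; rw [Function.update_self, st_o]
      · rw [Function.update_of_ne hj]
        simp [R5_st, hj]
    have hr0 : r = R5_st r z o 0 0 0 0 0 := by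
      funext j
      unfold R5_st
      split_ifs with h1 h2 h3 h4 h5
      · subst h1; exact hrz _ le_rfl
      · subst h2; exact hrz _ (by omega)
      · subst h3; exact hrz _ (by omega)
      · subst h4; exact hrz _ (by omega)
      · subst h5; exact hro
      · rfl
    have hpar : ∀ y h c w q, (List.Vector.ofFn fun i : Fin n =>
        R5_st r z o y h c w q (a i.succ)) = p := by
      intro y h c w q
      rw [hp]
      congr 1
      funext i
      exact st_r _ _ _ _ _ _ (ha i.succ) (hao i.succ)
    have hfin : Function.update r o (H N) = R5_st r z o 0 0 0 0 (H N) := by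
      conv_lhs => rw [hr0]
      rw [up_o]
    rw [hfin]
    conv_lhs => rw [hr0]
    unfold R5_cmd
    -- first command
    have c1 : Ev P cF (R5_st r z o 0 0 0 0 0, m) (R5_st r z o 0 (f p) 0 0 0, m) := by
      have := hF.2.2 P (R5_st r z o 0 0 0 0 0) m (st_1 _ _ _ _ _) (fun j hj => st_4 _ _ _ _ _ j hj)
      rw [hpar, up_1] at this
      exact this
    have c2 : Ev P (.seq (.loop (a 0) (.seq (.dec (a 0)) (.seq (.inc (z + 2)) (.inc (z + 4)))))
      (.loop (z + 4) (.seq (.dec (z + 4)) (.inc (a 0))))) (R5_st r z o 0 (f p) 0 0 0, m)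
        (R5_st r z o 0 (f p) N 0 0, m) := by
      have := (hR2 J P m).2.2 (a 0) (z + 2) (z + 4) (R5_st r z o 0 (f p) 0 0 0) (by omega)
        (by omega) (by omega) (st_4 _ _ _ _ _ _ le_rfl)
      rw [up_2, st_2, st_r _ _ _ _ _ _ h0z h0o, zero_add] at this
      exact this
    have c3 : Ev P (.loop (z + 2) (.seq (.dec (z + 2)) (.seq cG (.seq (.loop (z + 1)
        (.dec (z + 1))) (.seq (.loop (z + 3) (.seq (.dec (z + 3)) (.inc (z + 1)))) (.inc z))))))
        (R5_st r z o 0 (f p) N 0 0, m) (R5_st r z o N (H N) 0 0 0, m) := by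
      have key := hR1 J P (z + 2) (.seq (.dec (z + 2)) (.seq cG (.seq (.loop (z + 1)
        (.dec (z + 1))) (.seq (.loop (z + 3) (.seq (.dec (z + 3)) (.inc (z + 1)))) (.inc z)))))
        N (fun i => (R5_st r z o i (H i) (N - i) 0 0, m)) ?_ ?_ ?_
      · simpa [hH0] using key
      · intro i hi
        simp only [st_2]
        omega
      · simp only [st_2]
        omega
      · intro i hi
        have d1 : Ev P (.dec (z + 2)) (R5_st r z o i (H i) (N - i) 0 0, m)
            (R5_st r z o i (H i) (N - (i + 1)) 0 0, m) := by
          have := Ev.dec (P := P) (z + 2) (R5_st r z o i (H i) (N - i) 0 0, m)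
          simp only [st_2, up_2] at this
          rw [Nat.sub_sub] at this
          exact this
        have d2 : Ev P cG (R5_st r z o i (H i) (N - (i + 1)) 0 0, m)
            (R5_st r z o i (H i) (N - (i + 1)) (H (i + 1)) 0, m) := by
          have := hG.2.2 P (R5_st r z o i (H i) (N - (i + 1)) 0 0) m (st_3 _ _ _ _ _)
            (fun j hj => st_4 _ _ _ _ _ j hj)
          rw [up_3] at this
          have e : (List.Vector.ofFn fun i' => R5_st r z o i (H i) (N - (i + 1)) 0 0
              ((Fin.cons z (Fin.cons (z + 1) fun i => a i.succ) : Fin (n + 2) → ℕ) i')) =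
              i ::ᵥ H i ::ᵥ p := by
            have e3 : (List.Vector.ofFn fun i' => R5_st r z o i (H i) (N - (i + 1)) 0 0
              ((Fin.cons z (Fin.cons (z + 1) fun i => a i.succ) : Fin (n + 2) → ℕ) i')) =
              R5_st r z o i (H i) (N - (i + 1)) 0 0 z ::ᵥ
              R5_st r z o i (H i) (N - (i + 1)) 0 0 (z + 1) ::ᵥ
              (List.Vector.ofFn fun i' => R5_st r z o i (H i) (N - (i + 1)) 0 0 (a i'.succ)) := rfl
            rw [e3, st_z, st_1, hpar]
          rw [e, ← hHs] at this
          exact this
        have d3 : Ev P (.loop (z + 1) (.dec (z + 1)))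
            (R5_st r z o i (H i) (N - (i + 1)) (H (i + 1)) 0, m)
            (R5_st r z o i 0 (N - (i + 1)) (H (i + 1)) 0, m) := by
          have := (hR2 J P m).1 (z + 1) (R5_st r z o i (H i) (N - (i + 1)) (H (i + 1)) 0)
          rw [up_1] at this
          exact this
        have d4 : Ev P (.loop (z + 3) (.seq (.dec (z + 3)) (.inc (z + 1))))
            (R5_st r z o i 0 (N - (i + 1)) (H (i + 1)) 0, m)
            (R5_st r z o i (H (i + 1)) (N - (i + 1)) 0 0, m) := by
          have := (hR2 J P m).2.1 (z + 3) (z + 1)
            (R5_st r z o i 0 (N - (i + 1)) (H (i + 1)) 0) (by omega)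
          rw [st_1, st_3, zero_add, up_1, up_3] at this
          exact this
        have d5 : Ev P (.inc z) (R5_st r z o i (H (i + 1)) (N - (i + 1)) 0 0, m)
            (R5_st r z o (i + 1) (H (i + 1)) (N - (i + 1)) 0 0, m) := by
          have := Ev.inc (P := P) z (R5_st r z o i (H (i + 1)) (N - (i + 1)) 0 0, m)
          simp only [st_z, up_z] at this
          exact this
        exact Ev.seq d1 (Ev.seq d2 (Ev.seq d3 (Ev.seq d4 d5)))
    have c4 : Ev P (.loop (z + 1) (.seq (.dec (z + 1)) (.inc o)))
        (R5_st r z o N (H N) 0 0 0, m) (R5_st r z o N 0 0 0 (H N), m) := by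
      have := (hR2 J P m).2.1 (z + 1) o (R5_st r z o N (H N) 0 0 0) (by omega)
      rw [st_o, st_1, zero_add, up_o, up_1] at this
      exact this
    have c5 : Ev P (.loop z (.dec z)) (R5_st r z o N 0 0 0 (H N), m)
        (R5_st r z o 0 0 0 0 (H N), m) := by
      have := (hR2 J P m).1 z (R5_st r z o N 0 0 0 (H N))
      rw [up_z] at this
      exact this
    exact Ev.seq c1 (Ev.seq c2 (Ev.seq c3 (Ev.seq c4 c5)))

end Pool.Agent.Helper91.MP
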