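import Pool.Agent.Helper91.MP.ComD

/-!
# Chapter MP, module R6: unary primitive recursive functions
-/

set_option autoImplicit false

open Ordinal Order

namespace Pool.Agent.Helper91.MP

theorem pf_R6 : StR3 → StR4 → StR5 → StR6 := by
  intro h3 h4 h5 J _ f hf
  have key : ∀ (n : ℕ) (F : List.Vector ℕ n → ℕ), Nat.Primrec' F → Cmpb J F := by
    intro n F hF
    induction hF with
    | zero => exact (h3 J).1
    | succ => exact (h3 J).2.1
    | get i => exact (h3 J).2.2 _ i
    | comp g _ _ ih ih' => exact h4 J _ _ _ g ih ih'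
    | prec _ _ ih ih' => exact h5 J _ _ _ ih ih'
  obtain ⟨w, hw⟩ := key 1 (fun v => f v.head) (Nat.Primrec'.prim_iff₁.2 hf)
  obtain ⟨c, hc⟩ := hw (fun _ => 0) 1 2 (fun _ => by omega) (fun _ => by omega) (by omega)
  refine ⟨c, 2 + w, hc.1, hc.2.1, fun P r m hr => ?_⟩
  have h := hc.2.2 P r m (hr 1 le_rfl) (fun j hj => hr j (by omega))
  have h2 : (fun v : List.Vector ℕ 1 => f v.head)
      (List.Vector.ofFn fun i => r ((fun _ => 0 : Fin 1 → ℕ) i)) = f (r 0) := by
    simp only [List.Vector.head_ofFn]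
  rw [h2] at h
  exact h

end Pool.Agent.Helper91.MP
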