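import Pool.Agent.Helper91.MP.Base

set_option autoImplicit false

open Ordinal Order

namespace Pool.Agent.Helper91.MP

theorem pf_T1 : StT1 := by
  intro P a
  refine ⟨?_, ?_, ?_⟩
  · simp only [Proc.run, Ordinal.limitRecOn_zero]
  · intro α
    simp only [Proc.run]
    rw [Ordinal.limitRecOn_add_one]
  · intro l hl
    simp only [Proc.run]
    rw [Ordinal.limitRecOn_limit _ _ _ _ hl]
    congr 1
    funext i
    simp only [lsup, decide_eq_decide]
    refine forall₂_congr fun β _ => exists_congr fun γ => ?_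
    constructor
    · rintro ⟨h1, h2, h3⟩; exact ⟨h2, h1, h3⟩
    · rintro ⟨h1, h2, h3⟩; exact ⟨h2, h1, h3⟩

end Pool.Agent.Helper91.MP
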