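import Pool.Agent.Helper91.MP.Base

set_option autoImplicit false

open Ordinal Order

namespace Pool.Agent.Helper91.MP

theorem pf_T2 : StT1 → StT2 := by
  intro t1 P a α β
  induction β using Ordinal.limitRecOn with
  | zero => rw [add_zero, (t1 P _).1]
  | add_one β ih =>
    rw [← add_assoc, (t1 P _).2.1, ih, (t1 P _).2.1]
  | limit l hl ih =>
    rw [(t1 P a).2.2 _ (Ordinal.isSuccLimit_add α hl), (t1 P (P.run a α)).2.2 l hl]
    congr 1
    funext i
    simp only [lsup, decide_eq_decide]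
    constructor
    · intro h β hβ
      obtain ⟨γ, h1, h2, h3⟩ := h (α + β) ((add_lt_add_iff_left _).2 hβ)
      have h4 : α ≤ γ := le_self_add.trans h1
      obtain ⟨γ', rfl⟩ : ∃ γ', γ = α + γ' := ⟨γ - α, (Ordinal.add_sub_cancel_of_le h4).symm⟩
      have h5 : γ' < l := lt_of_add_lt_add_left h2
      refine ⟨γ', (add_le_add_iff_left _).1 h1, h5, ?_⟩
      rw [← ih γ' h5]; exact h3
    · intro h β hβ
      rcases lt_or_ge β α with h4 | h4
      · obtain ⟨γ, h1, h2, h3⟩ := h 0 hl.bot_lt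
        refine ⟨α + γ, h4.le.trans le_self_add, (add_lt_add_iff_left _).2 h2, ?_⟩
        rw [ih γ h2]; exact h3
      · obtain ⟨β', rfl⟩ : ∃ β', β = α + β' := ⟨β - α, (Ordinal.add_sub_cancel_of_le h4).symm⟩
        obtain ⟨γ, h1, h2, h3⟩ := h β' (lt_of_add_lt_add_left hβ)
        refine ⟨α + γ, (add_le_add_iff_left _).2 h1, (add_lt_add_iff_left _).2 h2, ?_⟩
        rw [ih γ h2]; exact h3

end Pool.Agent.Helper91.MP
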