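import Pool.Agent.Helper91.MP.Base

/-!
# Chapter MP: the simulation theorem
-/

set_option autoImplicit false

open Ordinal Order

namespace Pool.Agent.Helper91.MP

section
variable {A C : Proc} (cor : A.I → C.I → Prop) (fl : Set C.I)
  (cs : C.I → Option Bool) (sf : C.S → Prop) (Rel : A.S → C.S → Prop)

/-- the step property -/
def T3S (a : A.S) (c : C.S) (β : Ordinal.{0}) : Prop := 0 < β ∧ Rel (A.next a) (C.run c β) ∧
    (∀ γ < β, sf (C.run c γ) ∧ Oks cs (C.bit (C.run c γ)) ∧ ∀ i j, cor i j →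
      (C.bit (C.run c γ) j = A.bit a i ∨ C.bit (C.run c γ) j = A.bit (A.next a) i)) ∧
    ∀ f ∈ fl, ∃ γ < β, C.bit (C.run c γ) f = true

/-- the limit property -/
def T3L (m : A.I → Bool) (m' : C.I → Bool) (β : Ordinal.{0}) : Prop :=
  Rel (A.post m) (C.run (C.post m') β) ∧
    ∀ γ < β, sf (C.run (C.post m') γ) ∧ Oks cs (C.bit (C.run (C.post m') γ)) ∧
      ∀ i j, cor i j → (C.bit (C.run (C.post m') γ) j = m i ∨
        C.bit (C.run (C.post m') γ) j = A.bit (A.post m) i)

open Classical in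
theorem exists_T (a : A.S) (c : C.S) : ∃ T : Ordinal.{0} → Ordinal.{0}, T 0 = 0 ∧
    (∀ α, (∃ β, T3S cor fl cs sf Rel (A.run a α) (C.run c (T α)) β) →
      ∃ β, T3S cor fl cs sf Rel (A.run a α) (C.run c (T α)) β ∧ T (α + 1) = T α + β) ∧
    (∀ l, IsSuccLimit l →
      (∃ β, T3L cor cs sf Rel (lsup l fun γ => A.bit (A.run a γ))
        (lsup (⨆ β : Set.Iio l, T β.1) fun γ => C.bit (C.run c γ)) β) →
      ∃ β, T3L cor cs sf Rel (lsup l fun γ => A.bit (A.run a γ))
        (lsup (⨆ β : Set.Iio l, T β.1) fun γ => C.bit (C.run c γ)) β ∧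
        T l = (⨆ β : Set.Iio l, T β.1) + β) := by
  let stp : A.S → C.S → Ordinal.{0} := fun a c =>
    if h : ∃ β, T3S cor fl cs sf Rel a c β then h.choose else 0
  let lm : (A.I → Bool) → (C.I → Bool) → Ordinal.{0} := fun m m' =>
    if h : ∃ β, T3L cor cs sf Rel m m' β then h.choose else 0
  let T : Ordinal.{0} → Ordinal.{0} := fun α => Ordinal.limitRecOn α 0
    (fun α t => t + stp (A.run a α) (C.run c t))
    (fun l _ f => (⨆ β : Set.Iio l, f β.1 β.2) +
      lm (lsup l fun γ => A.bit (A.run a γ))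
        (lsup (⨆ β : Set.Iio l, f β.1 β.2) fun γ => C.bit (C.run c γ)))
  refine ⟨T, ?_, ?_, ?_⟩
  · simp only [T, Ordinal.limitRecOn_zero]
  · intro α h
    refine ⟨stp (A.run a α) (C.run c (T α)), ?_, ?_⟩
    · simp only [stp, h, dif_pos]
      exact h.choose_spec
    · simp only [T]
      rw [Ordinal.limitRecOn_add_one]
  · intro l hl h
    refine ⟨lm (lsup l fun γ => A.bit (A.run a γ))
        (lsup (⨆ β : Set.Iio l, T β.1) fun γ => C.bit (C.run c γ)), ?_, ?_⟩
    · simp only [lm, h, dif_pos]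
      exact h.choose_spec
    · simp only [T]
      rw [Ordinal.limitRecOn_limit _ _ _ _ hl]

end

theorem pf_T3 (t1 : StT1) (t2 : StT2) : StT3 := by
  intro A C cor fl cs live sf Rel hS a c hac
  obtain ⟨T, hT0, hTs, hTl⟩ := exists_T cor fl cs sf Rel a c
  -- the main induction
  have main : ∀ α : Ordinal.{0}, (∀ α' < α, live (A.run a α')) →
      Rel (A.run a α) (C.run c (T α)) ∧
      (∀ γ < T α, sf (C.run c γ) ∧ Oks cs (C.bit (C.run c γ))) ∧
      (∀ γ < T α, ∀ δ ≤ α, T δ ≤ γ → ∀ i j, cor i j →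
        ∃ β, δ ≤ β ∧ β ≤ α ∧ A.bit (A.run a β) i = C.bit (C.run c γ) j) ∧
      (∀ δ < α, ∀ f ∈ fl, ∃ γ, T δ ≤ γ ∧ γ < T α ∧ C.bit (C.run c γ) f = true) ∧
      (∀ δ < α, T δ < T α) ∧ α ≤ T α := by
    intro α
    induction α using Ordinal.limitRecOn with
    | zero =>
      intro _
      rw [hT0]
      refine ⟨?_, ?_, ?_, ?_, ?_, le_rfl⟩
      · rw [(t1 A a).1, (t1 C c).1]; exact hac
      · intro γ hγ; exact absurd hγ (not_lt_bot)
      · intro γ hγ; exact absurd hγ (not_lt_bot)
      · intro γ hγ; exact absurd hγ (not_lt_bot)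
      · intro γ hγ; exact absurd hγ (not_lt_bot)
    | add_one α ih =>
      intro hlive
      obtain ⟨h1, h2, h3, h4, h5, h6⟩ := ih fun α' hα' => hlive α' (hα'.trans (lt_add_one α))
      obtain ⟨β, hβ, hTβ⟩ := hTs α (hS.step _ _ h1 (hlive α (lt_add_one α)))
      obtain ⟨hb0, hb1, hb2, hb3⟩ := hβ
      have hlt : T α < T (α + 1) := by
        rw [hTβ]; exact lt_add_of_pos_right _ hb0
      have hsplit : ∀ γ < T (α + 1), γ < T α ∨ ∃ γ' < β, γ = T α + γ' := by
        intro γ hγ
        rcases lt_or_ge γ (T α) with h | h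
        · exact Or.inl h
        · refine Or.inr ⟨γ - T α, ?_, (Ordinal.add_sub_cancel_of_le h).symm⟩
          rw [hTβ] at hγ
          rw [← Ordinal.add_sub_cancel_of_le h] at hγ
          exact lt_of_add_lt_add_left hγ
      refine ⟨?_, ?_, ?_, ?_, ?_, ?_⟩
      · rw [(t1 A a).2.1, hTβ, t2]; exact hb1
      · intro γ hγ
        rcases hsplit γ hγ with h | ⟨γ', h, rfl⟩
        · exact h2 γ h
        · rw [t2]; exact ⟨(hb2 γ' h).1, (hb2 γ' h).2.1⟩
      · intro γ hγ δ hδ hδγ i j hij
        have hδ' : δ ≤ α := by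
          rcases hδ.lt_or_eq with h | h
          · exact Order.lt_add_one_iff.1 h
          · rw [h] at hδγ; exact absurd hγ (not_lt.2 hδγ)
        rcases hsplit γ hγ with h | ⟨γ', h, rfl⟩
        · obtain ⟨β', e1, e2, e3⟩ := h3 γ h δ hδ' hδγ i j hij
          exact ⟨β', e1, e2.trans (lt_add_one α).le, e3⟩
        · rcases (hb2 γ' h).2.2 i j hij with e | e
          · exact ⟨α, hδ', (lt_add_one α).le, by rw [t2, e]⟩
          · exact ⟨α + 1, hδ, le_rfl, by rw [(t1 A a).2.1 α, t2 C c, e]⟩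
      · intro δ hδ f hf
        have hδ' : δ ≤ α := Order.lt_add_one_iff.1 hδ
        obtain ⟨γ', e1, e2⟩ := hb3 f hf
        refine ⟨T α + γ', ?_, ?_, ?_⟩
        · rcases hδ'.lt_or_eq with h | h
          · exact (h5 δ h).le.trans le_self_add
          · rw [h]; exact le_self_add
        · rw [hTβ]; exact (add_lt_add_iff_left _).2 e1
        · rw [t2]; exact e2
      · intro δ hδ
        rcases (Order.lt_add_one_iff.1 hδ).lt_or_eq with h | h
        · exact (h5 δ h).trans hlt
        · rw [h]; exact hlt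
      · exact Order.add_one_le_iff.2 (lt_of_le_of_lt h6 hlt)
    | limit l hl ih =>
      intro hlive
      have ih' := fun α (hα : α < l) => ih α hα fun α' hα' => hlive α' (hα'.trans hα)
      obtain ⟨S, hSdef⟩ : ∃ S, S = ⨆ β : Set.Iio l, T β.1 := ⟨_, rfl⟩
      have hsucc : ∀ α < l, α + 1 < l := fun α hα => hl.add_one_lt hα
      have hle : ∀ α < l, T α ≤ S := fun α hα => by
        rw [hSdef]; exact Ordinal.le_iSup (fun β : Set.Iio l => T β.1) ⟨α, hα⟩
      have hlt : ∀ α < l, T α < S := fun α hα =>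
        lt_of_lt_of_le ((ih' (α + 1) (hsucc α hα)).2.2.2.2.1 α (lt_add_one α)) (hle _ (hsucc α hα))
      have hex : ∀ γ < S, ∃ α < l, γ < T α := by
        intro γ hγ
        rw [hSdef, Ordinal.lt_iSup_iff] at hγ
        obtain ⟨⟨α, hα⟩, h⟩ := hγ
        exact ⟨α, hα, h⟩
      have hmono : ∀ δ < l, ∀ δ' < l, δ ≤ δ' → T δ ≤ T δ' := by
        intro δ _ δ' hδ' h
        rcases h.lt_or_eq with h | h
        · exact ((ih' δ' hδ').2.2.2.2.1 δ h).le
        · rw [h]
      have hl0 : 0 < l := hl.bot_lt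
      have hS0 : 0 < S := lt_of_le_of_lt zero_le (hlt 0 hl0)
      have hSl : IsSuccLimit S := by
        rw [Order.isSuccLimit_iff]
        refine ⟨not_isMin_of_lt hS0, ?_⟩
        rw [Order.isSuccPrelimit_iff_succ_lt]
        intro γ hγ
        obtain ⟨α, hα, h⟩ := hex γ hγ
        exact lt_of_le_of_lt (Order.succ_le_of_lt h) (hlt α hα)
      have hall : ∀ γ < S, sf (C.run c γ) ∧ Oks cs (C.bit (C.run c γ)) := by
        intro γ hγ
        obtain ⟨α, hα, h⟩ := hex γ hγ
        exact (ih' α hα).2.1 γ h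
      have hloc : ∀ γ < S, ∀ δ < l, T δ ≤ γ → ∀ i j, cor i j →
          ∃ β, δ ≤ β ∧ β < l ∧ A.bit (A.run a β) i = C.bit (C.run c γ) j := by
        intro γ hγ δ hδ hδγ i j hij
        obtain ⟨α, hα, h⟩ := hex γ hγ
        have hm : max α δ < l := max_lt hα hδ
        obtain ⟨β, e1, e2, e3⟩ := (ih' _ hm).2.2.1 γ
          (lt_of_lt_of_le h (hmono α hα _ hm (le_max_left _ _))) δ (le_max_right _ _) hδγ i j hij
        exact ⟨β, e1, lt_of_le_of_lt e2 hm, e3⟩
      have hcor : ∀ i j, cor i j → lsup S (fun γ => C.bit (C.run c γ)) j =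
          lsup l (fun γ => A.bit (A.run a γ)) i := by
        intro i j hij
        simp only [lsup, decide_eq_decide]
        constructor
        · intro h δ hδ
          obtain ⟨γ, e1, e2, e3⟩ := h (T δ) (hlt δ hδ)
          obtain ⟨β, e4, e5, e6⟩ := hloc γ e2 δ hδ e1 i j hij
          exact ⟨β, e4, e5, e6.trans e3⟩
        · intro h β hβ
          obtain ⟨α, hα, hβα⟩ := hex β hβ
          obtain ⟨γ, e1, e2, e3⟩ := h α hα
          refine ⟨T γ, hβα.le.trans (hmono α hα γ e2 e1), hlt γ e2, ?_⟩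
          rw [hS.bits _ _ (ih' γ e2).1 i j hij]
          exact e3
      have hfl : ∀ f ∈ fl, lsup S (fun γ => C.bit (C.run c γ)) f = true := by
        intro f hf
        simp only [lsup, decide_eq_true_eq]
        intro β hβ
        obtain ⟨α, hα, hβα⟩ := hex β hβ
        obtain ⟨γ, e1, e2, e3⟩ := (ih' (α + 1) (hsucc α hα)).2.2.2.1 α (lt_add_one α) f hf
        exact ⟨γ, hβα.le.trans e1, lt_of_lt_of_le e2 (hle _ (hsucc α hα)), e3⟩
      have hoks : Oks cs (lsup S (fun γ => C.bit (C.run c γ))) := by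
        intro i b hib
        have hb := fun γ hγ => (hall γ hγ).2 i b hib
        cases b with
        | true =>
          simp only [lsup, decide_eq_true_eq]
          intro β hβ
          exact ⟨β, le_rfl, hβ, hb β hβ⟩
        | false =>
          simp only [lsup, decide_eq_false_iff_not]
          intro h
          obtain ⟨γ, _, e2, e3⟩ := h 0 hS0
          rw [hb γ e2] at e3
          exact absurd e3 (by decide)
      obtain ⟨β, hβ, hTβ⟩ := hTl l hl (by
        rw [← hSdef]
        exact hS.limit _ _ hcor hfl hoks)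
      rw [← hSdef] at hβ hTβ
      obtain ⟨hb1, hb2⟩ := hβ
      have hrunS : C.run c S = C.post (lsup S fun γ => C.bit (C.run c γ)) := (t1 C c).2.2 S hSl
      have hrunl : A.run a l = A.post (lsup l fun γ => A.bit (A.run a γ)) := (t1 A a).2.2 l hl
      have hSle : S ≤ T l := by rw [hTβ]; exact le_self_add
      have hsplit : ∀ γ < T l, γ < S ∨ ∃ γ' < β, γ = S + γ' := by
        intro γ hγ
        rcases lt_or_ge γ S with h | h
        · exact Or.inl h
        · refine Or.inr ⟨γ - S, ?_, (Ordinal.add_sub_cancel_of_le h).symm⟩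
          rw [hTβ] at hγ
          rw [← Ordinal.add_sub_cancel_of_le h] at hγ
          exact lt_of_add_lt_add_left hγ
      refine ⟨?_, ?_, ?_, ?_, ?_, ?_⟩
      · rw [hrunl, hTβ, t2, hrunS]; exact hb1
      · intro γ hγ
        rcases hsplit γ hγ with h | ⟨γ', h, rfl⟩
        · exact hall γ h
        · rw [t2, hrunS]; exact ⟨(hb2 γ' h).1, (hb2 γ' h).2.1⟩
      · intro γ hγ δ hδ hδγ i j hij
        have hδ' : δ < l := by
          rcases hδ.lt_or_eq with h | h
          · exact h
          · rw [h] at hδγ; exact absurd hγ (not_lt.2 hδγ)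
        rcases hsplit γ hγ with h | ⟨γ', h, rfl⟩
        · obtain ⟨β', e1, e2, e3⟩ := hloc γ h δ hδ' hδγ i j hij
          exact ⟨β', e1, e2.le, e3⟩
        · rcases (hb2 γ' h).2.2 i j hij with e | e
          · rw [t2, hrunS, e]
            by_cases hm : lsup l (fun γ => A.bit (A.run a γ)) i = true
            · have hm' := hm
              simp only [lsup, decide_eq_true_eq] at hm'
              obtain ⟨β', e1, e2, e3⟩ := hm' δ hδ'
              exact ⟨β', e1, e2.le, by rw [hm]; exact e3⟩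
            · rw [Bool.not_eq_true] at hm
              have hm' := hm
              simp only [lsup, decide_eq_false_iff_not] at hm'
              push Not at hm'
              obtain ⟨β0, e1, e2⟩ := hm'
              refine ⟨max β0 δ, le_max_right _ _, (max_lt e1 hδ').le, ?_⟩
              rw [hm]
              have := e2 (max β0 δ) (le_max_left _ _) (max_lt e1 hδ')
              rwa [Ne, Bool.not_eq_true] at this
          · exact ⟨l, hδ, le_rfl, by rw [t2, hrunS, e, hrunl]⟩
      · intro δ hδ f hf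
        obtain ⟨γ, e1, e2, e3⟩ := (ih' (δ + 1) (hsucc δ hδ)).2.2.2.1 δ (lt_add_one δ) f hf
        exact ⟨γ, e1, lt_of_lt_of_le e2 ((hle _ (hsucc δ hδ)).trans hSle), e3⟩
      · intro δ hδ
        exact lt_of_lt_of_le (hlt δ hδ) hSle
      · refine le_trans ?_ hSle
        by_contra hcon
        rw [not_le] at hcon
        have e1 := (ih' S hcon).2.2.2.2.2
        exact absurd (hlt S hcon) (not_lt.2 e1)
  refine ⟨fun α hα => ?_, ?_⟩
  · obtain ⟨h1, h2, -, -, -, h6⟩ := main α hα
    exact ⟨T α, h6, h1, h2⟩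
  · rintro hlive i j hij ⟨α₀, hα₀⟩
    refine ⟨T α₀, fun γ hγ => ?_⟩
    have h := main (max α₀ (γ + 1)) fun _ _ => hlive _
    have h6 := h.2.2.2.2.2
    obtain ⟨β, e1, -, e3⟩ := h.2.2.1 γ
      (lt_of_lt_of_le (lt_add_one γ) ((le_max_right _ _).trans h6)) α₀ (le_max_left _ _) hγ i j hij
    rw [← e3]
    exact hα₀ β e1

end Pool.Agent.Helper91.MP
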