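import Pool.Agent.Helper91.MP.Base

set_option autoImplicit false

open Ordinal Order

namespace Pool.Agent.Helper91.MP

theorem pf_T4 : StT1 → StT4 := by
  intro t1 P a
  have h1 : ∀ n : ℕ, P.run a (n : Ordinal.{0}) = P.next^[n] a := by
    intro n
    induction n with
    | zero => rw [Nat.cast_zero, (t1 P _).1]; rfl
    | succ n ih => rw [Nat.cast_succ, (t1 P _).2.1, ih, Function.iterate_succ_apply']
  refine ⟨h1, ?_⟩
  intro v hv
  rw [(t1 P a).2.2 ω Ordinal.isSuccLimit_omega0]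
  congr 1
  funext i
  obtain ⟨n₀, hn₀⟩ := hv i
  rcases hvi : v i with _ | _
  · simp only [lsup, decide_eq_false_iff_not]
    intro h
    obtain ⟨γ, e1, e2, e3⟩ := h (n₀ : Ordinal.{0}) (Ordinal.nat_lt_omega0 n₀)
    obtain ⟨n, rfl⟩ := Ordinal.lt_omega0.1 e2
    rw [h1, hn₀ n (by exact_mod_cast e1), hvi] at e3
    exact absurd e3 (by decide)
  · simp only [lsup, decide_eq_true_eq]
    intro β hβ
    obtain ⟨n, rfl⟩ := Ordinal.lt_omega0.1 hβ
    refine ⟨((max n n₀ : ℕ) : Ordinal.{0}), by exact_mod_cast le_max_left _ _,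
      Ordinal.nat_lt_omega0 _, ?_⟩
    rw [h1, hn₀ _ (le_max_right _ _), hvi]

end Pool.Agent.Helper91.MP
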