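import Pool.Agent.Helper91.MP.Base

set_option autoImplicit false

open Ordinal Order

namespace Pool.Agent.Helper91.MP

theorem pf_T5 : StT1 → StT2 → StT4 → StT5 := by
  intro t1 t2 t4 C G
  refine ⟨?_, ?_, ?_, ?_, ?_, ?_⟩
  · intro c
    exact ⟨0, (t1 C c).1, fun γ hγ => absurd hγ not_lt_bot⟩
  · rintro c c' c'' ⟨β, h1, h2⟩ ⟨β', h3, h4⟩
    refine ⟨β + β', by rw [t2, h1, h3], ?_⟩
    intro γ hγ
    rcases lt_or_ge γ β with h | h
    · exact h2 γ h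
    · obtain ⟨γ', rfl⟩ : ∃ γ', γ = β + γ' := ⟨γ - β, (Ordinal.add_sub_cancel_of_le h).symm⟩
      rw [t2, h1]
      exact h4 γ' (lt_of_add_lt_add_left hγ)
  · intro c hc
    refine ⟨1, ?_, ?_⟩
    · have := (t4 C c).1 1
      rw [Nat.cast_one] at this
      exact this
    · intro γ hγ
      rw [Ordinal.lt_one_iff_zero] at hγ
      rw [hγ, (t1 C c).1]; exact hc
  · intro c n h
    refine ⟨n, (t4 C c).1 n, ?_⟩
    intro γ hγ
    obtain ⟨k, rfl⟩ := Ordinal.lt_omega0.1 (hγ.trans (Ordinal.nat_lt_omega0 n))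
    rw [(t4 C c).1]
    exact h k (by exact_mod_cast hγ)
  · intro c v h1 h2
    refine ⟨ω, (t4 C c).2 v h2, ?_⟩
    intro γ hγ
    obtain ⟨k, rfl⟩ := Ordinal.lt_omega0.1 hγ
    rw [(t4 C c).1]
    exact h1 k
  · rintro G' c c' h ⟨β, h1, h2⟩
    exact ⟨β, h1, fun γ hγ => h _ (h2 γ hγ)⟩

end Pool.Agent.Helper91.MP
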