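import Pool.Agent.Helper91.MP.MacD

set_option autoImplicit false

open Ordinal Order

namespace Pool.Agent.Helper91.MP

open Pool.Agent.Helper25.EV

theorem pf_T6 : StT1 → StT6 := by
  intro t1 M y α
  induction α using Ordinal.limitRecOn with
  | zero => rw [(t1 _ _).1]; simp only [mrun, Ordinal.limitRecOn_zero]
  | add_one β ih =>
    rw [(t1 _ _).2.1, ih]
    simp only [mrun]
    rw [Ordinal.limitRecOn_add_one]
  | limit l hl ih =>
    rw [(t1 _ _).2.2 l hl]
    have h1 : mrun M y l = execs M.lim {n | ∀ β < l, ∃ (γ : Ordinal.{0}) (_ : γ < l), β ≤ γ ∧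
        n ∈ mrun M y γ} := by
      simp only [mrun]
      rw [Ordinal.limitRecOn_limit _ _ _ _ hl]
    rw [h1]
    show execs M.lim _ = _
    congr 1
    ext n
    simp only [lsup, Set.mem_setOf_eq, decide_eq_true_eq]
    refine forall₂_congr fun β _ => exists_congr fun γ => ?_
    constructor
    · rintro ⟨e1, e2, e3⟩
      refine ⟨e2, e1, ?_⟩
      rw [← ih γ e2]
      exact e3
    · rintro ⟨e1, e2, e3⟩
      refine ⟨e2, e1, ?_⟩
      rw [← ih γ e1] at e3
      exact e3

end Pool.Agent.Helper91.MP
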