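import Pool.Agent.Helper91.MP.MacD

set_option autoImplicit false

open Ordinal Order

namespace Pool.Agent.Helper91.MP

open Pool.Agent.Helper25.EV

theorem clS_zero (G : Set ℕ → Set ℕ) (X : Set ℕ) : clS G X 0 = X := by
  simp only [clS, Ordinal.limitRecOn_zero]

theorem clS_add_one (G : Set ℕ → Set ℕ) (X : Set ℕ) (α : Ordinal.{0}) :
    clS G X (α + 1) = clS G X α ∪ G (clS G X α) := by
  simp only [clS]
  rw [Ordinal.limitRecOn_add_one]

theorem clS_limit (G : Set ℕ → Set ℕ) (X : Set ℕ) (l : Ordinal.{0}) (hl : IsSuccLimit l) :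
    clS G X l = {n | ∃ β < l, n ∈ clS G X β} := by
  simp only [clS]
  rw [Ordinal.limitRecOn_limit _ _ _ _ hl]
  ext n
  simp only [Set.mem_setOf_eq, exists_prop]

theorem clS_mono (G : Set ℕ → Set ℕ) (X : Set ℕ) (α β : Ordinal.{0}) (h : α ≤ β) :
    clS G X α ⊆ clS G X β := by
  induction β using Ordinal.limitRecOn with
  | zero =>
    have : α = 0 := le_antisymm h zero_le
    rw [this]
  | add_one β ih =>
    rcases h.lt_or_eq with h | h
    · rw [clS_add_one]
      exact (ih (Order.lt_add_one_iff.1 h)).trans Set.subset_union_left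
    · rw [h]
  | limit l hl ih =>
    rcases h.lt_or_eq with h | h
    · rw [clS_limit _ _ l hl]
      exact fun n hn => ⟨α, h, hn⟩
    · rw [h]

theorem pf_T7 : StT1 → StT7 := by
  intro t1 G X α
  induction α using Ordinal.limitRecOn with
  | zero => rw [(t1 _ _).1, clS_zero]
  | add_one β ih =>
    rw [(t1 _ _).2.1, ih, clS_add_one]
  | limit l hl ih =>
    rw [(t1 _ _).2.2 l hl, clS_limit _ _ l hl]
    show {n | _} = _
    ext n
    simp only [lsup, Set.mem_setOf_eq, decide_eq_true_eq]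
    constructor
    · intro h
      obtain ⟨γ, -, e2, e3⟩ := h 0 hl.bot_lt
      refine ⟨γ, e2, ?_⟩
      rw [← ih γ e2]
      exact e3
    · rintro ⟨γ, e1, e2⟩ β hβ
      refine ⟨max β γ, le_max_left _ _, max_lt hβ e1, ?_⟩
      rw [ih _ (max_lt hβ e1)]
      exact (clS_mono G X γ _ (le_max_right _ _) e2)

end Pool.Agent.Helper91.MP
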