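import Pool.Agent.Helper91.MP.M_T7

set_option autoImplicit false

open Ordinal Order

namespace Pool.Agent.Helper91.MP

open Pool.Agent.Helper25.EV

theorem pf_T8 : StT8 := by
  intro G X
  have hex : ∃ α : Ordinal.{0}, G (clS G X α) ⊆ clS G X α := by
    by_contra hcon
    push Not at hcon
    have h1 : ∀ α, ∃ n, n ∈ G (clS G X α) ∧ n ∉ clS G X α := fun α => Set.not_subset.1 (hcon α)
    choose f hf1 hf2 using h1
    refine not_injective_of_ordinal f ?_
    intro α β hαβ
    by_contra hne
    rcases lt_or_gt_of_ne hne with h | h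
    · refine hf2 β ?_
      rw [← hαβ]
      refine clS_mono G X (α + 1) β (Order.add_one_le_iff.2 h) ?_
      rw [clS_add_one]
      exact Or.inr (hf1 α)
    · refine hf2 α ?_
      rw [hαβ]
      refine clS_mono G X (β + 1) α (Order.add_one_le_iff.2 h) ?_
      rw [clS_add_one]
      exact Or.inr (hf1 β)
  classical
  obtain ⟨α, hα, hmin⟩ := WellFounded.has_min (wellFounded_lt (α := Ordinal.{0}))
    {α | G (clS G X α) ⊆ clS G X α} hex
  refine ⟨α, hα, fun β hβ h => hmin β h hβ, ?_⟩
  have hstab : ∀ β, clS G X β ⊆ clS G X α := by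
    intro β
    induction β using Ordinal.limitRecOn with
    | zero => exact clS_mono G X 0 α zero_le
    | add_one β ih =>
      rcases lt_or_ge β α with h | h
      · exact clS_mono G X _ _ (Order.add_one_le_iff.2 h)
      · have h1 : clS G X β = clS G X α := Set.Subset.antisymm ih (clS_mono G X α β h)
        rw [clS_add_one, h1]
        exact Set.union_subset subset_rfl hα
    | limit l hl ih =>
      rw [clS_limit _ _ l hl]
      rintro n ⟨β, h1, h2⟩
      exact ih β h1 h2
  ext n
  constructor
  · rintro ⟨β, hβ⟩
    exact hstab β hβ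
  · intro h
    exact ⟨α, h⟩

end Pool.Agent.Helper91.MP
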