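import Pool.Agent.Helper91.MP.OpmD

/-!
# Chapter MP: compilation of macro programs to operator machines (definitions, statements O, T6-T8)
-/

set_option autoImplicit false

open Ordinal Order

namespace Pool.Agent.Helper91.MP

open Pool.Agent.Helper25.EV

/-! ### processes on sets of natural numbers -/

open Classical in
/-- the process of the macro stages -/
@[reducible] noncomputable def macProc (M : Macro) : Proc where
  S := Set ℕ
  I := ℕ
  bit X n := decide (n ∈ X)
  next X := execs M.main X
  post m := execs M.lim {n | m n = true}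

open Classical in
/-- the process of an inflationary closure -/
@[reducible] noncomputable def clProc (G : Set ℕ → Set ℕ) : Proc where
  S := Set ℕ
  I := ℕ
  bit X n := decide (n ∈ X)
  next X := X ∪ G X
  post m := {n | m n = true}

/-- T6: macro stages are the run of `macProc` -/
def StT6 : Prop := ∀ (M : Macro) (y : Real2) (α : Ordinal.{0}),
  (macProc M).run (execs M.init (setOf' y)) α = mrun M y α

/-- T7: stages of the closure are the run of `clProc` -/
def StT7 : Prop := ∀ (G : Set ℕ → Set ℕ) (X : Set ℕ) (α : Ordinal.{0}),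
  (clProc G).run X α = clS G X α

/-- T8: the closure is reached -/
def StT8 : Prop := ∀ (G : Set ℕ → Set ℕ) (X : Set ℕ), ∃ α : Ordinal.{0},
  G (clS G X α) ⊆ clS G X α ∧ (∀ β < α, ¬ G (clS G X β) ⊆ clS G X β) ∧ clos G X = clS G X α

/-! ### lists of operators -/

/-- execution of a list of operators -/
noncomputable def runOps (x : Real2) (ops : List Op) (m : ℕ × ℕ → Bool) : ℕ × ℕ → Bool :=
  ops.foldl (fun m op => op.app x m) m

/-- the set in the table `t` -/
def row (m : ℕ × ℕ → Bool) (t : ℕ) : Set ℕ := {n | m (t, n) = true}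

/-- the list computes `P` of the table `1` in the table `t`; it changes only tables `≥ t` -/
def Good (P : Set ℕ → ℕ → Prop) (t : ℕ) (ops : List Op) : Prop :=
  (∀ op ∈ ops, op.ok ∧ t ≤ op.tgt) ∧
  ∀ (x : Real2) (m : ℕ × ℕ → Bool) (n : ℕ), runOps x ops m (t, n) = true ↔ P (row m 1) n

/-- O1: arithmetical predicates are computed by lists of operators -/
def StO1 : Prop := ∀ P : Set ℕ → ℕ → Prop, ArN P → ∀ t, 1 < t → ∃ ops, Good P t ops

open Classical in
/-- a list of operators which computes `F` of the table `1` in the table `t` -/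
noncomputable def evalOps (F : Set ℕ → Set ℕ) (t : ℕ) : List Op :=
  if h : ∃ ops, Good (fun X n => n ∈ F X) t ops then h.choose else []

/-- one step of the closure: `1 := 1 ∪ G (1)`; bit `0` of the table `3`: is `G (1) ⊆ 1` false? -/
noncomputable def clOps (G : Set ℕ → Set ℕ) (t : ℕ) : List Op :=
  evalOps G t ++ [.nand (t + 1) 1 1, .nand (t + 1) t (t + 1), .nand (t + 1) (t + 1) (t + 1),
    .sub (t + 2) (t + 1) (fun s => (Nat.unpair s).2), .cst 3 false, .ex 3 (t + 2),
    .nand t t t, .nand (t + 1) 1 1, .nand (t + 1) t (t + 1)]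

/-- O2: tables which are not targets are unchanged; the effect of `clOps` -/
def StO2 : Prop :=
  (∀ (x : Real2) (ops : List Op) (m : ℕ × ℕ → Bool) (t : ℕ), (∀ op ∈ ops, op.tgt ≠ t) →
    ∀ n, runOps x ops m (t, n) = m (t, n)) ∧
  ∀ (G : Set ℕ → Set ℕ) (t : ℕ), Good (fun X n => n ∈ G X) t (evalOps G t) → 3 < t →
    (∀ op ∈ clOps G t, op.ok ∧ (op.tgt = 3 ∨ t ≤ op.tgt)) ∧
    ∀ (x : Real2) (m : ℕ × ℕ → Bool), row (runOps x (clOps G t) m) (t + 1) =
        row m 1 ∪ G (row m 1) ∧
      (runOps x (clOps G t) m (3, 0) = true ↔ ¬ G (row m 1) ⊆ row m 1)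

/-! ### the program -/

/-- the blocks: start, one macro step, limit (test of the flag), macro limit, final
instruction, halt, search of the closure loop, instruction `j`, loop of the instruction `j` -/
inductive Bt : Type
  | st | mn | lt | lm | fi | ha
  | ds (j : ℕ)
  | ia (j : ℕ)
  | ib (j : ℕ)
  deriving DecidableEq

/-- all instructions -/
def allI (M : Macro) : List Instr := M.init ++ M.main ++ M.lim

/-- the block after the instruction `j` -/
def nx (M : Macro) (j : ℕ) : Bt :=
  if j + 1 = M.init.length ∨ j + 1 = M.init.length + M.main.length ∨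
    j + 1 = M.init.length + M.main.length + M.lim.length then .fi else .ia (j + 1)

/-- the first block of a list of `n` instructions with the numbers `s, s + 1, ...` -/
def ent (s n : ℕ) : Bt := if n = 0 then .fi else .ia s

/-- first free table -/
def tb (M : Macro) : ℕ := 4 + (allI M).length

/-- The operators of a block. Tables: `0`: state at the macro stage, `1`: working copy, `2`: flag,
`3`: decisions, `4 + j`: flag of the closure loop `j`. -/
noncomputable def mops (M : Macro) : Bt → List Op
  | .st => [.cst 2 false, .inp 1]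
  | .mn => [.cst 2 true, .cst 2 false, .sub 1 0 id]
  | .lt => [.cst 3 false]
  | .lm => [.cst 2 false, .sub 1 0 id]
  | .fi => [.sub 0 1 id]
  | .ha => []
  | .ds _ => [.cst 3 false]
  | .ia j => match (allI M)[j]? with
    | none => []
    | some (.ar F) => evalOps F (tb M) ++ [.sub 1 (tb M) id]
    | some (.cl _) => (List.range (allI M).length).map fun i => .cst (4 + i) (i = j)
  | .ib j => match (allI M)[j]? with
    | some (.cl G) => clOps G (tb M) ++ [.sub 1 (tb M + 1) id]
    | _ => []

/-- The exit of a block: a table `d` and two blocks (`d` at `0` false, true). -/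
def mext (M : Macro) : Bt → ℕ × Bt × Bt
  | .st => (0, ent 0 M.init.length, ent 0 M.init.length)
  | .mn => (0, ent M.init.length M.main.length, ent M.init.length M.main.length)
  | .lt => (2, .ds 0, .lm)
  | .lm => (0, ent (M.init.length + M.main.length) M.lim.length,
      ent (M.init.length + M.main.length) M.lim.length)
  | .fi => (0, .mn, .ha)
  | .ha => (0, .ha, .ha)
  | .ds j => if j < (allI M).length then (4 + j, .ds (j + 1), .ib j) else (0, .ha, .ha)
  | .ia j => match (allI M)[j]? with
    | some (.cl _) => (0, .ib j, .ib j)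
    | _ => (0, nx M j, nx M j)
  | .ib j => (3, nx M j, .ib j)

/-- the operator machine -/
noncomputable def mopm (M : Macro) : Opm (Bt × ℕ) where
  code l := match (mops M l.1)[l.2]? with
    | none => none
    | some op => if l.2 + 1 = (mops M l.1).length then
        some (op, (mext M l.1).1, ((mext M l.1).2.1, 0), ((mext M l.1).2.2, 0))
      else some (op, 0, (l.1, l.2 + 1), (l.1, l.2 + 1))
  start := (.st, 0)
  lim := (.lt, 0)

/-- O3: execution of a block -/
def StO3 : Prop := ∀ (M : Macro) (x : Real2) (b : Bt) (m : ℕ × ℕ → Bool), mops M b ≠ [] →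
  (∀ k < (mops M b).length, ((mopm M).proc x).next^[k] ((b, 0), m) =
      ((b, k), runOps x ((mops M b).take k) m) ∧ (mopm M).code (b, k) ≠ none) ∧
  ((mopm M).proc x).next^[(mops M b).length] ((b, 0), m) =
    ((if runOps x (mops M b) m ((mext M b).1, 0) then (mext M b).2.2 else (mext M b).2.1, 0),
      runOps x (mops M b) m)

/-- constant bits in the closure loop `j` -/
def csO (M : Macro) (j : ℕ) (x0 : ℕ → Bool) (i : ℕ × ℕ) : Option Bool :=
  if i.1 = 0 then some (x0 i.2)
  else if i = (2, 0) then some false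
  else if 4 ≤ i.1 ∧ i.1 < tb M ∧ i.2 = 0 then some (i.1 = 4 + j) else none

open Classical in
/-- O4: the closure loop `j` simulates the closure process -/
def StO4 : Prop := ∀ (M : Macro), M.ok → ∀ (x : Real2) (j : ℕ) (G : Set ℕ → Set ℕ)
  (x0 : ℕ → Bool), (allI M)[j]? = some (.cl G) →
  Sim (clProc G) ((mopm M).proc x) (fun n i => i = (1, n)) ∅ (csO M j x0)
    (fun Y => ¬ G Y ⊆ Y) (fun c => (mopm M).code c.1 ≠ none)
    (fun Y c => c.1 = (.ib j, 0) ∧ row c.2 1 = Y ∧ Oks (csO M j x0) c.2)

/-- the invariant during the execution of instructions: not halted, table `0` constant, the flag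
is not set -/
def InvO (M : Macro) (X : Set ℕ) (s : OSt (Bt × ℕ)) : Prop :=
  (mopm M).code s.1 ≠ none ∧ row s.2 0 = X ∧ s.2 (2, 0) = false

/-- O5: execution of one instruction -/
def StO5 : Prop := ∀ (M : Macro), M.ok → ∀ (x : Real2) (j : ℕ) (I : Instr),
  (allI M)[j]? = some I → ∀ m : ℕ × ℕ → Bool, m (2, 0) = false →
  ∃ m' : ℕ × ℕ → Bool, Seg ((mopm M).proc x) (InvO M (row m 0)) ((.ia j, 0), m) ((nx M j, 0), m') ∧
    m' (2, 0) = false ∧ row m' 0 = row m 0 ∧ row m' 1 = I.exec (row m 1)

/-- O6: execution of one of the three lists of instructions -/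
def StO6 : Prop := ∀ (M : Macro), M.ok → ∀ (x : Real2) (s : ℕ) (L : List Instr),
  ((s = 0 ∧ L = M.init) ∨ (s = M.init.length ∧ L = M.main) ∨
    (s = M.init.length + M.main.length ∧ L = M.lim)) →
  ∀ m : ℕ × ℕ → Bool, m (2, 0) = false →
  ∃ m' : ℕ × ℕ → Bool, Seg ((mopm M).proc x) (InvO M (row m 0))
      ((ent s L.length, 0), m) ((.fi, 0), m') ∧
    m' (2, 0) = false ∧ row m' 0 = row m 0 ∧ row m' 1 = execs L (row m 1)

open Classical in
/-- corresponding states: macro process, operator machine -/
def RelO (X : Set ℕ) (c : OSt (Bt × ℕ)) : Prop :=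
  c.1 = ((if 0 ∈ X then .ha else .mn), 0) ∧ row c.2 0 = X

/-- O7: the operator machine simulates the macro process -/
def StO7 : Prop := ∀ (M : Macro), M.ok → ∀ (x : Real2),
  Sim (macProc M) ((mopm M).proc x) (fun n i => i = (0, n)) {(2, 0)} (fun _ => none)
    (fun X : Set ℕ => 0 ∉ X) (fun c => (mopm M).code c.1 ≠ none) RelO

/-- O8: the start -/
def StO8 : Prop := ∀ (M : Macro), M.ok → ∀ (x : Real2) (m : ℕ × ℕ → Bool),
  ∃ c, RelO (execs M.init (setOf' x)) c ∧
    Seg ((mopm M).proc x) (fun c => (mopm M).code c.1 ≠ none) (((mopm M).start), m) c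

/-- O9: finiteness -/
def StO9 : Prop := ∀ (M : Macro), M.ok → ∃ (F : Finset (Bt × ℕ)) (U : Finset ℕ), (mopm M).Fn F U

end Pool.Agent.Helper91.MP
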