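import Pool.Agent.Helper91.MP.Base

/-!
# Chapter MP: machines with several tracks, grouping of cells (definitions, statements H, G)
-/

set_option autoImplicit false

open Ordinal Order

namespace Pool.Agent.Helper91.MP

open Pool.Agent.Helper25.EV

/-- Machines with one head and the set `κ` of tracks; `none` is the halt state. -/
structure Mach (κ : Type) where
  Q : Type
  fin : Finite Q
  start : Q
  lim : Q
  hne : start ≠ lim
  tr : Q → (κ → Bool) → (κ → Bool) × Bool × Option Q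

/-- states of a run: state and head, memory -/
abbrev MSt {κ : Type} (M : Mach κ) : Type := (Option M.Q × ℕ) × (κ × ℕ → Bool)

def Mach.step {κ : Type} (M : Mach κ) (s : MSt M) : MSt M :=
  match s.1.1 with
  | none => s
  | some q =>
    let r := M.tr q (fun k => s.2 (k, s.1.2))
    ((r.2.2, if r.2.1 then s.1.2 + 1 else s.1.2 - 1),
      fun i => if i.2 = s.1.2 then r.1 i.1 else s.2 i)

@[reducible] def Mach.proc {κ : Type} (M : Mach κ) : Proc where
  S := MSt M
  I := κ × ℕ
  bit s := s.2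
  next := M.step
  post m := ((some M.lim, 0), m)

def Mach.ini {κ : Type} (M : Mach κ) (m : κ × ℕ → Bool) : MSt M := ((some M.start, 0), m)

/-- the input tape with the other tapes empty -/
def inp3 (y : Real2) : Fin 3 × ℕ → Bool := fun i => if i.1 = 0 then y i.2 else false

/-- H: machines with three tracks are programs -/
def StH : Prop := ∀ M : Mach (Fin 3), ∃ p : Prog, ∀ (y : Real2) (α : Ordinal.{0}),
  (∀ β < α, (M.proc.run (M.ini (inp3 y)) β).1.1 ≠ none) →
  ((Pool.Agent.Helper25.EV.run p y α).st = none ↔ (M.proc.run (M.ini (inp3 y)) α).1.1 = none) ∧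
  ∀ n, (Pool.Agent.Helper25.EV.run p y α).tout n = (M.proc.run (M.ini (inp3 y)) α).2 (2, n)

/-! ### grouping: blocks of `b + 2` cells -/

/-- contents of a block -/
abbrev Blk (b : ℕ) : Type := Fin 3 × Fin (b + 2) → Bool

/-- states of the grouped machine: reading (the cells before `r` have been read), writing
(the cells after `r` have been written), moving (`k + 1` moves remain) -/
inductive GQ (Q : Type) (b : ℕ) : Type
  | rd (q : Q) (r : Fin (b + 2)) (u : Blk b) : GQ Q b
  | wr (q : Option Q) (d : Bool) (w : Blk b) (r : Fin (b + 2)) : GQ Q b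
  | mv (q : Q) (d : Bool) (k : Fin (b + 2)) : GQ Q b

/-- write the cell `r` of the block; `q`: next state of the simulated machine, `d`: direction -/
def gwr {Q : Type} {b : ℕ} (q : Option Q) (d : Bool) (w : Blk b) (r : Fin (b + 2)) :
    (Fin 3 → Bool) × Bool × Option (GQ Q b) :=
  (fun i => w (i, r),
    if r.1 = 0 then (d, q.map fun q' => GQ.mv q' d ⟨b, by omega⟩)
    else (false, some (.wr q d w ⟨r.1 - 1, by omega⟩)))

/-- transitions of the grouped machine; the track `k` is at the position `ι k` of the block -/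
noncomputable def gtr {κ : Type} (M : Mach κ) (b : ℕ) (ι : κ → Fin 3 × Fin (b + 2)) :
    GQ M.Q b → (Fin 3 → Bool) → (Fin 3 → Bool) × Bool × Option (GQ M.Q b)
  | .rd q r u, v =>
    let u' : Blk b := fun y => if y.2 = r then v y.1 else u y
    if h : r.1 + 1 < b + 2 then (v, true, some (.rd q ⟨r.1 + 1, h⟩ u'))
    else
      let t := M.tr q (fun k => u' (ι k))
      gwr t.2.2 t.2.1 (Function.extend ι t.1 u') r
  | .wr q d w r, _ => gwr q d w r
  | .mv q d k, v => (v, d, some (if k.1 = 0 then .rd q 0 (fun _ => false)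
      else .mv q d ⟨k.1 - 1, by omega⟩))

/-- G0: finitely many states -/
def StG0 : Prop := ∀ (Q : Type) (b : ℕ), Finite Q → Finite (GQ Q b)

theorem finite_GQ : StG0 := by
  intro Q b hQ
  have := hQ
  let f : GQ Q b → (Q × Fin (b + 2) × Blk b) ⊕ (Option Q × Bool × Blk b × Fin (b + 2)) ⊕
      (Q × Bool × Fin (b + 2)) := fun x => match x with
    | .rd q r u => Sum.inl (q, r, u)
    | .wr q d w r => Sum.inr (Sum.inl (q, d, w, r))
    | .mv q d k => Sum.inr (Sum.inr (q, d, k))
  refine Finite.of_injective f ?_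
  rintro (⟨q, r, u⟩ | ⟨q, d, w, r⟩ | ⟨q, d, k⟩) (⟨q', r', u'⟩ | ⟨q', d', w', r'⟩ | ⟨q', d', k'⟩) h <;>
    simp_all [f]

/-- the grouped machine -/
@[reducible] noncomputable def Mach.grp {κ : Type} (M : Mach κ) (b : ℕ) (ι : κ → Fin 3 × Fin (b + 2)) :
    Mach (Fin 3) where
  Q := GQ M.Q b
  fin := finite_GQ M.Q b M.fin
  start := .rd M.start 0 (fun _ => false)
  lim := .rd M.lim 0 (fun _ => false)
  hne := fun h => M.hne (by injection h)
  tr := gtr M b ι

/-- corresponding bits -/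
def corG {κ : Type} (b : ℕ) (ι : κ → Fin 3 × Fin (b + 2)) (i : κ × ℕ) (j : Fin 3 × ℕ) : Prop :=
  j = ((ι i.1).1, (b + 2) * i.2 + (ι i.1).2.1)

/-- corresponding states -/
def RelG {κ : Type} (M : Mach κ) (b : ℕ) (ι : κ → Fin 3 × Fin (b + 2)) (a : MSt M)
    (c : MSt (M.grp b ι)) : Prop :=
  (∀ k n, c.2 ((ι k).1, (b + 2) * n + (ι k).2.1) = a.2 (k, n)) ∧
  match a.1.1 with
  | none => c.1.1 = none
  | some q => c.1 = (some (GQ.rd q 0 (fun _ => false)), (b + 2) * a.1.2)

/-- G1: the reading pass. `u`: the contents of the block `n` -/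
def StG1 : Prop := ∀ (κ : Type) (M : Mach κ) (b : ℕ) (ι : κ → Fin 3 × Fin (b + 2)) (q : M.Q) (n : ℕ)
  (m : Fin 3 × ℕ → Bool) (u : Blk b), (∀ i r, u (i, r) = m (i, (b + 2) * n + r.1)) →
  (M.grp b ι).proc.next^[b + 1] ((some (GQ.rd q 0 (fun _ => false)), (b + 2) * n), m) =
    ((some (GQ.rd q (Fin.last (b + 1)) (fun y => if y.2 = Fin.last (b + 1) then false else u y)),
      (b + 2) * n + (b + 1)), m) ∧
  ∀ k ≤ b + 1, ∃ s : GQ M.Q b × ℕ,
    (M.grp b ι).proc.next^[k] ((some (GQ.rd q 0 (fun _ => false)), (b + 2) * n), m) =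
      ((some s.1, s.2), m)

/-- memory after the cells `> r` (or `≥ r`) of the block `n` have been written -/
def blkw (b n : ℕ) (w : Blk b) (r : ℕ) (m : Fin 3 × ℕ → Bool) : Fin 3 × ℕ → Bool :=
  fun i => if h : (b + 2) * n + r ≤ i.2 ∧ i.2 < (b + 2) * n + (b + 2) then
    w (i.1, ⟨i.2 - (b + 2) * n, by omega⟩) else m i

/-- G2: the writing pass: after `k` steps the cells `≥ b + 2 - k` are written, for `k ≤ b + 1` -/
def StG2 : Prop := ∀ (κ : Type) (M : Mach κ) (b : ℕ) (ι : κ → Fin 3 × Fin (b + 2)) (q : M.Q)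
  (n : ℕ) (m : Fin 3 × ℕ → Bool) (u : Blk b), (∀ i r, u (i, r) = m (i, (b + 2) * n + r.1)) →
  ∀ k, 1 ≤ k → k ≤ b + 1 →
  (M.grp b ι).proc.next^[k]
    ((some (GQ.rd q (Fin.last (b + 1)) (fun y => if y.2 = Fin.last (b + 1) then false else u y)),
      (b + 2) * n + (b + 1)), m) =
  ((some (GQ.wr (M.tr q (fun k => u (ι k))).2.2 (M.tr q (fun k => u (ι k))).2.1
      (Function.extend ι (M.tr q (fun k => u (ι k))).1 u) ⟨b + 1 - k, by omega⟩),
      (b + 2) * n + (b + 1 - k)),
    blkw b n (Function.extend ι (M.tr q (fun k => u (ι k))).1 u) (b + 2 - k) m)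

/-- G3: the last write and the moves -/
def StG3 : Prop := ∀ (κ : Type) (M : Mach κ) (b : ℕ) (ι : κ → Fin 3 × Fin (b + 2)) (d : Bool)
  (n : ℕ) (m : Fin 3 × ℕ → Bool) (w : Blk b),
  (∀ q : M.Q, (M.grp b ι).proc.next^[b + 2]
    ((some (GQ.wr (some q) d w 0), (b + 2) * n), blkw b n w 1 m) =
    ((some (GQ.rd q 0 (fun _ => false)), (b + 2) * (if d then n + 1 else n - 1)),
      blkw b n w 0 m) ∧
    ∀ k, 1 ≤ k → k ≤ b + 2 → ∃ s : GQ M.Q b × ℕ, (M.grp b ι).proc.next^[k]
      ((some (GQ.wr (some q) d w 0), (b + 2) * n), blkw b n w 1 m) =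
      ((some s.1, s.2), blkw b n w 0 m)) ∧
  (∃ h : ℕ, (M.grp b ι).proc.next ((some (GQ.wr none d w 0), (b + 2) * n), blkw b n w 1 m) =
    ((none, h), blkw b n w 0 m))

/-- G: the simulation -/
def StG : Prop := ∀ (κ : Type) (M : Mach κ) (b : ℕ) (ι : κ → Fin 3 × Fin (b + 2)),
  Function.Injective ι →
  Sim M.proc (M.grp b ι).proc (corG b ι) ∅ (fun _ => none) (fun a => a.1.1 ≠ none)
    (fun c => c.1.1 ≠ none) (RelG M b ι)

end Pool.Agent.Helper91.MP
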