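import Pool.Agent.Helper91.MP.M_B1
import Pool.Agent.Helper91.MP.M_B2
import Pool.Agent.Helper91.MP.M_B3
import Pool.Agent.Helper91.MP.M_B4
import Pool.Agent.Helper91.MP.M_C
import Pool.Agent.Helper91.MP.M_C0
import Pool.Agent.Helper91.MP.M_C1
import Pool.Agent.Helper91.MP.M_C2
import Pool.Agent.Helper91.MP.M_C3
import Pool.Agent.Helper91.MP.M_C4
import Pool.Agent.Helper91.MP.M_C5
import Pool.Agent.Helper91.MP.M_C6
import Pool.Agent.Helper91.MP.M_C7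
import Pool.Agent.Helper91.MP.M_C8
import Pool.Agent.Helper91.MP.M_Ch
import Pool.Agent.Helper91.MP.M_Final
import Pool.Agent.Helper91.MP.M_G
import Pool.Agent.Helper91.MP.M_G1
import Pool.Agent.Helper91.MP.M_G2
import Pool.Agent.Helper91.MP.M_G3
import Pool.Agent.Helper91.MP.M_H
import Pool.Agent.Helper91.MP.M_K1
import Pool.Agent.Helper91.MP.M_K2
import Pool.Agent.Helper91.MP.M_K3
import Pool.Agent.Helper91.MP.M_O1
import Pool.Agent.Helper91.MP.M_O2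
import Pool.Agent.Helper91.MP.M_O3
import Pool.Agent.Helper91.MP.M_O4
import Pool.Agent.Helper91.MP.M_O5
import Pool.Agent.Helper91.MP.M_O6
import Pool.Agent.Helper91.MP.M_O7
import Pool.Agent.Helper91.MP.M_O8
import Pool.Agent.Helper91.MP.M_O9
import Pool.Agent.Helper91.MP.M_P
import Pool.Agent.Helper91.MP.M_P1
import Pool.Agent.Helper91.MP.M_P2
import Pool.Agent.Helper91.MP.M_P3
import Pool.Agent.Helper91.MP.M_P4
import Pool.Agent.Helper91.MP.M_P5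
import Pool.Agent.Helper91.MP.M_Ph
import Pool.Agent.Helper91.MP.M_R1
import Pool.Agent.Helper91.MP.M_R2
import Pool.Agent.Helper91.MP.M_R3
import Pool.Agent.Helper91.MP.M_R4
import Pool.Agent.Helper91.MP.M_R5
import Pool.Agent.Helper91.MP.M_R6
import Pool.Agent.Helper91.MP.M_T1
import Pool.Agent.Helper91.MP.M_T2
import Pool.Agent.Helper91.MP.M_T3
import Pool.Agent.Helper91.MP.M_T4
import Pool.Agent.Helper91.MP.M_T5
import Pool.Agent.Helper91.MP.M_T6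
import Pool.Agent.Helper91.MP.M_T7
import Pool.Agent.Helper91.MP.M_T8

/-!
# Chapter MP of MP_f84cd7_lc: macro programs are compiled to Hamkins-Lewis machines
-/

set_option autoImplicit false

namespace Pool.Agent.Helper91.MP

open Pool.Agent.Helper25.EV

theorem MP_main (M : Macro) (hM : M.ok) : ∃ p : Prog, Compiled M p := by
  have t1 := pf_T1
  have t2 := pf_T2 t1
  have t3 := pf_T3 t1 t2
  have t4 := pf_T4 t1
  have t5 := pf_T5 t1 t2 t4
  have t6 := pf_T6 t1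
  have t7 := pf_T7 t1
  have t8 := pf_T8
  have h := pf_H t1
  have g := pf_G t4 pf_G1 pf_G2 pf_G3
  have c3 := pf_C3 pf_C1 pf_C2
  have c4 := pf_C4 pf_C1 pf_C2
  have c5 := pf_C5 pf_C1 pf_C2
  have c6 := pf_C6 pf_C1 pf_C2
  have c7 := pf_C7 pf_C1 pf_C2
  have c8 := pf_C8 t1 t2 t4
  have c := pf_C t4 c3 c4 c5 c6 c7 c8
  have r2 := pf_R2 pf_R1
  have r3 := pf_R3 r2
  have r4 := pf_R4 r2
  have r5 := pf_R5 pf_R1 r2
  have r6 := pf_R6 r3 r4 r5
  have b2 := pf_B2 r2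
  have b3 := pf_B3 pf_R1 r2
  have p2 := pf_P2 pf_K1 pf_K2
  have p4 := pf_P4 t1 t4 pf_K1 pf_K2 pf_B1 b2 b3 pf_P1
  have p5 := pf_P5 pf_K2 pf_B4
  have p := pf_P t2 t4 p2 pf_P3 p4
  have ph := pf_Ph pf_K2
  have o3 := pf_O3 pf_O2
  have o4 := pf_O4 t4 pf_O1 pf_O2 o3
  have o5 := pf_O5 t3 t4 t5 t7 t8 pf_O1 pf_O2 o3 o4
  have o6 := pf_O6 t5 o5
  have o7 := pf_O7 t2 t4 t5 o3 o6
  have o8 := pf_O8 t5 o3 o6
  have o9 := pf_O9 pf_O1 pf_O2
  exact pf_Final t2 t3 t5 t6 t1 h g pf_C0 pf_Ch c r6 p2 p5 p ph o7 o8 o9 M hM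

end Pool.Agent.Helper91.MP
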