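import Pool.Agent.Helper91.MP.ComD

/-!
# Chapter MP: machines whose steps are operators on tables, and their compilation to
counter-array machines (definitions, statements B, P)
-/

set_option autoImplicit false

open Ordinal Order

namespace Pool.Agent.Helper91.MP

open Pool.Agent.Helper25.EV

/-- Operators on tables (arrays are numbered): all of them change only the table `t`. -/
inductive Op : Type
  | inp (t : ℕ) : Op
  | cst (t : ℕ) (b : Bool) : Op
  | prim (t : ℕ) (f : ℕ → ℕ) : Op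
  | sub (t u : ℕ) (f : ℕ → ℕ) : Op
  | nand (t u v : ℕ) : Op
  | ex (t u : ℕ) : Op

def Op.tgt : Op → ℕ
  | .inp t => t
  | .cst t _ => t
  | .prim t _ => t
  | .sub t _ _ => t
  | .nand t _ _ => t
  | .ex t _ => t

open Classical in
/-- the new value of the target table at `n`, for the memory `m` and the input `x` -/
noncomputable def Op.val (x : Real2) (m : ℕ × ℕ → Bool) (n : ℕ) : Op → Bool
  | .inp _ => x n
  | .cst _ b => b
  | .prim _ f => decide (f n ≠ 0)
  | .sub _ u f => m (u, f n)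
  | .nand _ u v => !(m (u, n) && m (v, n))
  | .ex t u => m (t, n) || decide (∃ k, m (u, Nat.pair n k) = true)

/-- application of an operator -/
noncomputable def Op.app (x : Real2) (op : Op) (m : ℕ × ℕ → Bool) : ℕ × ℕ → Bool :=
  fun i => if i.1 = op.tgt then op.val x m i.2 else m i

/-- well-formed operators -/
def Op.ok : Op → Prop
  | .inp _ => True
  | .cst _ _ => True
  | .prim _ f => Primrec f
  | .sub t u f => t ≠ u ∧ Primrec f
  | .nand _ _ _ => True
  | .ex t u => t ≠ u

/-- all tables of the operator are in `U` -/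
def Op.tabs (U : Set ℕ) : Op → Prop
  | .inp t => t ∈ U
  | .cst t _ => t ∈ U
  | .prim t _ => t ∈ U
  | .sub t u _ => t ∈ U ∧ u ∈ U
  | .nand t u v => t ∈ U ∧ u ∈ U ∧ v ∈ U
  | .ex t u => t ∈ U ∧ u ∈ U

/-- Operator machines: at the label `l` apply the operator, then go to `l1` or `l0` according to the
bit `0` of the table `d`; no instruction: halt. -/
structure Opm (Lb : Type) where
  code : Lb → Option (Op × ℕ × Lb × Lb)
  start : Lb
  lim : Lb

/-- states: label, tables -/
abbrev OSt (Lb : Type) : Type := Lb × (ℕ × ℕ → Bool)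

noncomputable def Opm.step {Lb : Type} (P : Opm Lb) (x : Real2) (s : OSt Lb) : OSt Lb :=
  match P.code s.1 with
  | none => s
  | some (op, d, l0, l1) => (if op.app x s.2 (d, 0) then l1 else l0, op.app x s.2)

@[reducible] noncomputable def Opm.proc {Lb : Type} (P : Opm Lb) (x : Real2) : Proc where
  S := OSt Lb
  I := ℕ × ℕ
  bit s := s.2
  next := P.step x
  post m := (P.lim, m)

/-- finiteness and well-formedness: labels in `F`, tables in `U` -/
structure Opm.Fn {Lb : Type} (P : Opm Lb) (F : Finset Lb) (U : Finset ℕ) : Prop where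
  start : P.start ∈ F
  lim : P.lim ∈ F
  nxt : ∀ l ∈ F, ∀ op d l0 l1, P.code l = some (op, d, l0, l1) →
    l0 ∈ F ∧ l1 ∈ F ∧ d ∈ U ∧ op.ok ∧ op.tabs (U : Set ℕ)

/-! ### arrays of the counter-array machine -/

/-- arrays: the `r`-th part of the input (packed), tables, flags of the labels, limit flag -/
inductive JJ (Lb : Type) : Type
  | inp (r : ℕ) : JJ Lb
  | arr (t : ℕ) : JJ Lb
  | ph (l : Lb) : JJ Lb
  | pb : JJ Lb
  deriving DecidableEq

/-- blocks: one for every label, and one for limits -/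
inductive BB (Lb : Type) : Type
  | lab (l : Lb) : BB Lb
  | lm : BB Lb
  deriving DecidableEq

section bodies
variable {Lb : Type} [DecidableEq Lb]

/-- sequence of commands -/
def seqs {J : Type} : List (Com J) → Com J
  | [] => .skip
  | c :: cs => .seq c (seqs cs)

/-- the command for an operator: to be executed with the counter `0` equal to `s` and the other
counters zero, for `s = 0, 1, 2, ...`. `B`: packing number of the input; `g f`: the command for the
primitive recursive function `f` -/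
noncomputable def body (B : ℕ) (g : (ℕ → ℕ) → Com (JJ Lb)) : Op → Com (JJ Lb)
  | .inp t => .seq (.seq (.loop 0 (.seq (.dec 0) (.seq (.inc 2) (seqs (List.replicate B (.inc 1))))))
        (.loop 2 (.seq (.dec 2) (.inc 0))))
      (.seq (seqs ((List.range B).map fun r =>
        .seq (.ifa (.inp r) 0 (.wr (.arr t) 1 true) (.wr (.arr t) 1 false)) (.inc 1)))
        (.loop 1 (.dec 1)))
  | .cst t b => .wr (.arr t) 0 b
  | .prim t f => .seq (g f) (.seq (.ifz 1 (.wr (.arr t) 0 false) (.wr (.arr t) 0 true))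
      (.loop 1 (.dec 1)))
  | .sub t u f => .seq (g f) (.seq (.ifa (.arr u) 1 (.wr (.arr t) 0 true) (.wr (.arr t) 0 false))
      (.loop 1 (.dec 1)))
  | .nand t u v => .ifa (.arr u) 0
      (.ifa (.arr v) 0 (.wr (.arr t) 0 false) (.wr (.arr t) 0 true)) (.wr (.arr t) 0 true)
  | .ex t u => .ifa (.arr u) 0
      (.seq (g fun s => (Nat.unpair s).1) (.seq (.wr (.arr t) 1 true) (.loop 1 (.dec 1)))) .skip

open Classical in
/-- the memory after the command `body B g op` for the number `s` -/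
noncomputable def eff (B : ℕ) (op : Op) (s : ℕ) (m : JJ Lb × ℕ → Bool) : JJ Lb × ℕ → Bool :=
  match op with
  | .inp t => fun i => if i.1 = .arr t ∧ B * s ≤ i.2 ∧ i.2 < B * s + B then
      m (.inp (i.2 - B * s), s) else m i
  | .cst t b => Function.update m (.arr t, s) b
  | .prim t f => Function.update m (.arr t, s) (decide (f s ≠ 0))
  | .sub t u f => Function.update m (.arr t, s) (m (.arr u, f s))
  | .nand t u v => Function.update m (.arr t, s) (!(m (.arr u, s) && m (.arr v, s)))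
  | .ex t u => if m (.arr u, s) then Function.update m (.arr t, (Nat.unpair s).1) true else m

/-- the commands `g f` compute the primitive recursive functions -/
def Gok (g : (ℕ → ℕ) → Com (JJ Lb)) : Prop := ∀ f, Primrec f → (∃ k, (g f).regs k) ∧ (g f).arrs ∅ ∧
  ∀ (P : (JJ Lb × ℕ → Bool) → Prop) (r : ℕ → ℕ) (m : JJ Lb × ℕ → Bool), (∀ j, 1 ≤ j → r j = 0) →
    Ev P (g f) (r, m) (Function.update r 1 (f (r 0)), m)

/-- all bits are bits of `m` or of `m'` -/
def Btw {I : Type} (m m' : I → Bool) (v : I → Bool) : Prop := ∀ i, v i = m i ∨ v i = m' i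

/-- the body of `op` has the right effect -/
def BodyOk (B : ℕ) (g : (ℕ → ℕ) → Com (JJ Lb)) (op : Op) : Prop :=
  ∀ (s : ℕ) (r : ℕ → ℕ) (m : JJ Lb × ℕ → Bool), r 0 = s → (∀ j, 1 ≤ j → r j = 0) →
    Ev (Btw m (eff B op s m)) (body B g op) (r, m) (r, eff B op s m)

/-- B1: bodies of `cst`, `nand` -/
def StB1 : Prop := ∀ (Lb : Type) [DecidableEq Lb] (B : ℕ) (g : (ℕ → ℕ) → Com (JJ Lb)),
  (∀ t b, BodyOk B g (.cst t b)) ∧
  ∀ t u v, BodyOk B g (.nand t u v)

/-- B2: bodies of `prim`, `sub`, `ex` -/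
def StB2 : Prop := ∀ (Lb : Type) [DecidableEq Lb] (B : ℕ) (g : (ℕ → ℕ) → Com (JJ Lb)), Gok g →
  (∀ t f, Primrec f → BodyOk B g (.prim t f)) ∧ (∀ t u f, Primrec f → BodyOk B g (.sub t u f)) ∧
  ∀ t u, BodyOk B g (.ex t u)

/-- B3: body of `inp` -/
def StB3 : Prop := ∀ (Lb : Type) [DecidableEq Lb] (B : ℕ) (g : (ℕ → ℕ) → Com (JJ Lb)) (t : ℕ), BodyOk B g (.inp t)

/-- B4: counters and arrays of the bodies; the number of counters does not depend on `B` -/
def StB4 : Prop := ∀ (Lb : Type) [DecidableEq Lb] (g : (ℕ → ℕ) → Com (JJ Lb)), Gok g → ∀ op : Op, op.ok →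
  ∃ k, ∀ B, (body B g op).regs k ∧ ∀ U : Set ℕ, op.tabs U →
    (body B g op).arrs ({j | ∃ r < B, j = .inp r} ∪ {j | ∃ t ∈ U, j = .arr t})

/-! ### effect of a whole sweep -/

/-- the memory before the `s`-th command -/
noncomputable def iter (B : ℕ) (op : Op) (m : JJ Lb × ℕ → Bool) : ℕ → JJ Lb × ℕ → Bool
  | 0 => m
  | s + 1 => eff B op s (iter B op m s)

/-- the tables of a memory -/
def tabl (m : JJ Lb × ℕ → Bool) : ℕ × ℕ → Bool := fun i => m (.arr i.1, i.2)

/-- the memory with the tables of `v` -/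
def wtab (m : JJ Lb × ℕ → Bool) (v : ℕ × ℕ → Bool) : JJ Lb × ℕ → Bool := fun i =>
  match i.1 with
  | .arr t => v (t, i.2)
  | _ => m i

/-- the packed input -/
def Pk (B : ℕ) (x : Real2) (m : JJ Lb × ℕ → Bool) : Prop := ∀ r < B, ∀ n, m (.inp r, n) = x (B * n + r)

/-- P1: the sweep: every bit is at all times the old or the new one, and finally the new one -/
def StP1 : Prop := ∀ (Lb : Type) [DecidableEq Lb] (B : ℕ) (x : Real2) (op : Op) (m : JJ Lb × ℕ → Bool), 0 < B → op.ok → Pk B x m →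
  (∀ s, Btw m (wtab m (op.app x (tabl m))) (iter B op m s)) ∧
  ∀ i, ∃ s₀, ∀ s, s₀ ≤ s → iter B op m s i = wtab m (op.app x (tabl m)) i

/-! ### the counter-array machine -/

/-- code for entering a label: set the limit flag, clear it, set the flags of the labels -/
def entr (F : List Lb) (l : Lb) : Com (JJ Lb) :=
  .seq (.wr .pb 0 true) (.seq (.wr .pb 0 false) (seqs (F.map fun l' => .wr (.ph l') 0 (l' = l))))

/-- instructions for a limit: if the limit flag is set, go to the limit label; otherwise find the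
label, and go to the next label -/
def lmi (P : Opm Lb) (F : List Lb) : List (Ins (JJ Lb) (BB Lb)) :=
  .rd .pb 0 (.lm, 1) (.lab P.lim, 0) ::
    (F.zipIdx.flatMap fun li => match P.code li.1 with
      | none => [.jmp (.lm, 2 * li.2 + 3), .hlt]
      | some (_, d, l0, l1) => [.rd (.ph li.1) 0 (.lm, 2 * li.2 + 3) (.lm, 2 * li.2 + 2),
          .rd (.arr d) 0 (.lab l0, 0) (.lab l1, 0)])

/-- the block of a label -/
noncomputable def blk (P : Opm Lb) (F : List Lb) (B : ℕ) (g : (ℕ → ℕ) → Com (JJ Lb)) (l : Lb) :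
    List (Ins (JJ Lb) (BB Lb)) :=
  comp (.lab l) (entr F l) 0 ++ match P.code l with
    | none => [.hlt]
    | some (op, _, _, _) => comp (.lab l) (.seq (body B g op) (.inc 0)) (entr F l).len ++
        [.jmp (.lab l, (entr F l).len)]

noncomputable def Opm.cam (P : Opm Lb) (F : List Lb) (B : ℕ) (g : (ℕ → ℕ) → Com (JJ Lb)) :
    Cam (JJ Lb) (BB Lb) where
  code := fun b => match b with
    | .lm => lmi P F
    | .lab l => blk P F B g l
  start := (.lab P.start, 0)
  lim := (.lm, 0)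

/-- corresponding states -/
def RelP (_P : Opm Lb) (F : List Lb) (B : ℕ) (x : Real2) (a : OSt Lb) (c : CSt (JJ Lb) (BB Lb)) : Prop :=
  a.1 ∈ F ∧ c.1 = ((.lab a.1, (entr F a.1).len), fun _ => 0) ∧ tabl c.2 = a.2 ∧ Pk B x c.2 ∧
  c.2 (.pb, 0) = false ∧ ∀ l ∈ F, c.2 (.ph l, 0) = decide (l = a.1)

def corP (i : ℕ × ℕ) (j : JJ Lb × ℕ) : Prop := j = (.arr i.1, i.2)

open Classical in
/-- constant bits: the input -/
noncomputable def csP (B : ℕ) (x : Real2) : JJ Lb × ℕ → Option Bool
  | (.inp r, n) => if r < B then some (x (B * n + r)) else none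
  | _ => none

/-- P2: entering a label, from any memory with the input, all counters zero -/
def StP2 : Prop := ∀ (Lb : Type) [DecidableEq Lb] (P : Opm Lb) (F : List Lb) (B : ℕ) (g : (ℕ → ℕ) → Com (JJ Lb)) (x : Real2)
  (l : Lb) (m : JJ Lb × ℕ → Bool), l ∈ F → Pk B x m →
  ∃ n : ℕ, RelP P F B x (l, tabl m)
      ((P.cam F B g).proc.next^[n] (((.lab l, 0), fun _ => 0), m)) ∧
    (∀ y < n, (P.cam F B g).ins ((P.cam F B g).proc.next^[y] (((.lab l, 0), fun _ => 0), m)).1.1
      ≠ .hlt) ∧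
    (∀ y ≤ n, tabl ((P.cam F B g).proc.next^[y] (((.lab l, 0), fun _ => 0), m)).2 = tabl m ∧
      Pk B x ((P.cam F B g).proc.next^[y] (((.lab l, 0), fun _ => 0), m)).2) ∧
    ∃ y < n, ((P.cam F B g).proc.next^[y] (((.lab l, 0), fun _ => 0), m)).2 (.pb, 0) = true

/-- P3: after a limit: the code at the limit label -/
def StP3 : Prop := ∀ (Lb : Type) [DecidableEq Lb] (P : Opm Lb) (F : List Lb) (B : ℕ) (g : (ℕ → ℕ) → Com (JJ Lb))
  (m : JJ Lb × ℕ → Bool), F.Nodup →
  (m (.pb, 0) = true → (P.cam F B g).proc.next (((.lm, 0), fun _ => 0), m) =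
    (((.lab P.lim, 0), fun _ => 0), m)) ∧
  (∀ l op d l0 l1, l ∈ F → P.code l = some (op, d, l0, l1) → m (.pb, 0) = false →
    (∀ l' ∈ F, m (.ph l', 0) = decide (l' = l)) →
    ∃ n : ℕ, (P.cam F B g).proc.next^[n] (((.lm, 0), fun _ => 0), m) =
        (((.lab (if m (.arr d, 0) then l1 else l0), 0), fun _ => 0), m) ∧
      ∀ y < n, ∃ p, (P.cam F B g).proc.next^[y] (((.lm, 0), fun _ => 0), m) =
        (((.lm, p), fun _ => 0), m) ∧ (P.cam F B g).ins (.lm, p) ≠ .hlt)

/-- P4: the sweep of a label -/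
def StP4 : Prop := ∀ (Lb : Type) [DecidableEq Lb] (P : Opm Lb) (F : List Lb) (B : ℕ) (g : (ℕ → ℕ) → Com (JJ Lb)) (x : Real2)
  (l : Lb) (op : Op) (d : ℕ) (l0 l1 : Lb) (m : JJ Lb × ℕ → Bool), 0 < B → Gok g →
  P.code l = some (op, d, l0, l1) → op.ok → Pk B x m →
  (P.cam F B g).proc.run (((.lab l, (entr F l).len), fun _ => 0), m) ω =
    (((.lm, 0), fun _ => 0), wtab m (op.app x (tabl m))) ∧
  ∀ n : ℕ, (P.cam F B g).ins
      ((P.cam F B g).proc.next^[n] (((.lab l, (entr F l).len), fun _ => 0), m)).1.1 ≠ .hlt ∧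
    Btw m (wtab m (op.app x (tabl m)))
      ((P.cam F B g).proc.next^[n] (((.lab l, (entr F l).len), fun _ => 0), m)).2

/-- P5: finiteness: the arrays in `UJ B`, the blocks in `BB`; the number of counters and of arrays
which are not parts of the input does not depend on `B` -/
def StP5 : Prop := ∀ (Lb : Type) [DecidableEq Lb] (P : Opm Lb) (F : Finset Lb) (U : Finset ℕ) (g : (ℕ → ℕ) → Com (JJ Lb)),
  P.Fn F U → Gok g → ∃ (V : Finset (JJ Lb)) (k : ℕ), (∀ t ∈ U, .arr t ∈ V) ∧ (∀ r, .inp r ∉ V) ∧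
  ∀ B, ∃ L, (P.cam F.toList B g).Fn (V ∪ (Finset.range B).image .inp)
    (insert .lm (F.image .lab)) k L

/-- P: the simulation -/
def StP : Prop := ∀ (Lb : Type) [DecidableEq Lb] (P : Opm Lb) (F : Finset Lb) (U : Finset ℕ) (B : ℕ) (g : (ℕ → ℕ) → Com (JJ Lb))
  (x : Real2), P.Fn F U → Gok g → 0 < B →
  Sim (P.proc x) (P.cam F.toList B g).proc corP {(.pb, 0)} (csP B x) (fun a => P.code a.1 ≠ none)
    (fun c => (P.cam F.toList B g).ins c.1.1 ≠ .hlt) (RelP P F.toList B x)

/-- Ph: halting -/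
def StPh : Prop := ∀ (Lb : Type) [DecidableEq Lb] (P : Opm Lb) (F : List Lb) (B : ℕ) (g : (ℕ → ℕ) → Com (JJ Lb)) (x : Real2)
  (a : OSt Lb) (c : CSt (JJ Lb) (BB Lb)), RelP P F B x a c → P.code a.1 = none →
  (P.cam F B g).ins c.1.1 = .hlt

end bodies

end Pool.Agent.Helper91.MP
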